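import Pool.Agent.R304.TL.Form

/-! Trigonometric polynomials which are concentrated near a point of a torus. -/

open Complex Finset

namespace Pool.Agent.R304.TL

noncomputable section

/-- the frequencies have all prime factors in `P`, the weights are bounded by one -/
structure Sm (P : Finset ℕ) (Q : TP) : Prop where
  pos : ∀ i ∈ Q.S, 1 ≤ Q.n i
  fac : ∀ i ∈ Q.S, ∀ p : ℕ, p.Prime → p ∣ Q.n i → p ∈ P
  bd : ∀ i ∈ Q.S, ‖Q.w i‖ ≤ 1

/-- the factor of one prime -/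
def FT (q : ℕ) (a : ℂ) (N : ℕ) : TP :=
  ⟨ℕ, range (N + 1), fun j => q ^ j, fun j => ((starRingEnd ℂ) a) ^ j⟩

lemma psi_pow {q : ℕ} (hq : 1 ≤ q) (a b : ℕ) : psi (q ^ a) (q ^ b) = rr (1 / Real.sqrt q) a b := by
  have hq0 : (0 : ℝ) < q := by exact_mod_cast hq
  have hs : 0 < Real.sqrt q := Real.sqrt_pos.2 hq0
  have hss : Real.sqrt q * Real.sqrt q = q := Real.mul_self_sqrt hq0.le
  have h1 : ∀ c : ℕ, Real.sqrt ((q ^ c : ℕ) : ℝ) = Real.sqrt q ^ c := by
    intro c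
    rw [Real.sqrt_eq_iff_mul_self_eq (by positivity) (by positivity), ← mul_pow, hss]
    push_cast
    rfl
  unfold psi rr
  rw [h1, h1]
  obtain ⟨y, hy⟩ : ∃ y, y = Real.sqrt q := ⟨_, rfl⟩
  rw [← hy] at hs hss ⊢
  clear h1 hy
  rcases le_total a b with h | h
  · obtain ⟨c, rfl⟩ := Nat.exists_eq_add_of_le h
    have e : Nat.gcd (q ^ a) (q ^ (a + c)) = q ^ a :=
      Nat.gcd_eq_left (pow_dvd_pow q (by omega))
    rw [e, show (a - (a + c)) + (a + c - a) = c by omega, one_div, inv_pow, pow_add]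
    push_cast
    rw [← hss, mul_pow]
    field_simp
  · obtain ⟨c, rfl⟩ := Nat.exists_eq_add_of_le h
    have e : Nat.gcd (q ^ (b + c)) (q ^ b) = q ^ b :=
      Nat.gcd_eq_right (pow_dvd_pow q (by omega))
    rw [e, show (b + c - b) + (b - (b + c)) = c by omega, one_div, inv_pow, pow_add]
    push_cast
    rw [← hss, mul_pow]
    field_simp

lemma FT_V {q : ℕ} (hq : 1 ≤ q) (a : ℂ) (N : ℕ) :
    (FT q a N).V = FF (1 / Real.sqrt q) (fun j => ((starRingEnd ℂ) a) ^ j) (N + 1) := by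
  unfold TP.V FT FF
  simp only
  refine Finset.sum_congr rfl fun i _ => Finset.sum_congr rfl fun j _ => ?_
  rw [psi_pow hq]

lemma natpow_cpow {q : ℕ} (j : ℕ) (z : ℂ) : ((q ^ j : ℕ) : ℂ) ^ z = ((q : ℂ) ^ z) ^ j := by
  induction j with
  | zero => simp
  | succ j ih => rw [pow_succ, Nat.cast_mul, Complex.natCast_mul_natCast_cpow, ih, pow_succ]

lemma FT_ev {q : ℕ} (hq : 1 ≤ q) {a : ℂ} (ha : ‖a‖ = 1) (N : ℕ) (t : ℝ) :
    ‖(FT q a N).ev t‖ * ‖(q : ℂ) ^ (-(t * I)) - a‖ ≤ 2 := by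
  set x : ℂ := (q : ℂ) ^ (-(t * I)) with hx
  have hxn : ‖x‖ = 1 := by
    rw [hx, Complex.norm_natCast_cpow_of_pos (by omega)]
    simp
  have haa : a * (starRingEnd ℂ) a = 1 := by
    rw [Complex.mul_conj, Complex.normSq_eq_norm_sq, ha]; simp
  have e1 : (FT q a N).ev t = ∑ j ∈ range (N + 1), ((starRingEnd ℂ) a * x) ^ j := by
    unfold TP.ev FT
    simp only
    refine Finset.sum_congr rfl fun j _ => ?_
    rw [natpow_cpow, mul_pow]
  have e2 : (FT q a N).ev t * (x - a) = a * (((starRingEnd ℂ) a * x) ^ (N + 1) - 1) := by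
    rw [e1, ← geom_sum_mul]
    have : x - a = a * ((starRingEnd ℂ) a * x - 1) := by
      linear_combination (-x) * haa
    rw [this]
    ring
  rw [← norm_mul, e2, norm_mul, ha, one_mul]
  refine (norm_sub_le _ _).trans ?_
  rw [norm_pow, norm_mul, RCLike.norm_conj, ha, hxn, norm_one]
  norm_num

lemma FT_sm {q : ℕ} (hq : q.Prime) {P : Finset ℕ} (hqP : q ∈ P) {a : ℂ} (ha : ‖a‖ = 1) (N : ℕ) :
    Sm P (FT q a N) := by
  refine ⟨fun i _ => Nat.pos_of_ne_zero (pow_ne_zero _ hq.ne_zero), fun i _ p hp h => ?_,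
    fun i _ => ?_⟩
  · have h1 := hp.dvd_of_dvd_pow h
    rw [(Nat.prime_dvd_prime_iff_eq hp hq).1 h1]
    exact hqP
  · have : ∀ i : ℕ, ‖((starRingEnd ℂ) a) ^ i‖ ≤ 1 := by
      intro i
      rw [norm_pow, RCLike.norm_conj, ha, one_pow]
    exact this i

lemma Sm.mul {P : Finset ℕ} {Q R : TP} (hQ : Sm P Q) (hR : Sm P R) : Sm P (Q.mul R) := by
  refine ⟨fun i hi => ?_, fun i hi p hp h => ?_, fun i hi => ?_⟩
  · have hi' := Finset.mem_product.1 (show i ∈ Q.S ×ˢ R.S from hi)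
    exact Nat.mul_pos (hQ.pos _ hi'.1) (hR.pos _ hi'.2)
  · have hi' := Finset.mem_product.1 (show i ∈ Q.S ×ˢ R.S from hi)
    rcases (Nat.Prime.dvd_mul hp).1 h with h1 | h1
    · exact hQ.fac _ hi'.1 p hp h1
    · exact hR.fac _ hi'.2 p hp h1
  · have hi' := Finset.mem_product.1 (show i ∈ Q.S ×ˢ R.S from hi)
    show ‖Q.w i.1 * R.w i.2‖ ≤ 1
    rw [norm_mul]
    exact mul_le_one₀ (hQ.bd _ hi'.1) (norm_nonneg _) (hR.bd _ hi'.2)

lemma Sm.mono {P P' : Finset ℕ} {Q : TP} (hQ : Sm P Q) (h : P ⊆ P') : Sm P' Q :=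
  ⟨hQ.pos, fun i hi p hp hd => h (hQ.fac i hi p hp hd), hQ.bd⟩

/-- **concentrated weights** -/
theorem weights (P : Finset ℕ) (hP : ∀ p ∈ P, p.Prime) (α : ℕ → ℂ) (hα : ∀ p, ‖α p‖ = 1) {δ : ℝ}
    (hδ : 0 < δ) : ∃ (Q : TP) (v : ℝ), 0 < v ∧ Q.V = (v : ℂ) ∧ Sm P Q ∧
      ∀ p ∈ P, ∃ (Q' : TP) (v' : ℝ), Q'.V = (v' : ℂ) ∧ v' ≤ δ * v ∧ Sm P Q' ∧
        ∀ t : ℝ, ‖Q.ev t‖ * ‖(p : ℂ) ^ (-(t * I)) - α p‖ ≤ 2 * ‖Q'.ev t‖ := by
  classical
  induction P using Finset.induction_on with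
  | empty =>
    refine ⟨⟨Unit, Finset.univ, fun _ => 1, fun _ => 1⟩, 1, one_pos, ?_, ⟨fun _ _ => le_rfl,
      fun _ _ p hp h => absurd (Nat.dvd_one.1 h) hp.one_lt.ne', fun _ _ => by simp⟩, by simp⟩
    unfold TP.V psi
    simp
  | insert q P hq ih =>
    obtain ⟨Q, v, hv, hQV, hQ, hQ'⟩ := ih fun p hp => hP p (Finset.mem_insert_of_mem hp)
    have hqp : q.Prime := hP q (Finset.mem_insert_self _ _)
    obtain ⟨N, hN⟩ := exists_nat_gt (8 / δ)
    have hq2 : (2 : ℝ) ≤ q := by exact_mod_cast hqp.two_le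
    obtain ⟨x, hx1, hx2⟩ := FF_low (r := 1 / Real.sqrt q) (by positivity) (by
      rw [div_pow, one_pow, Real.sq_sqrt (by linarith)]
      exact one_div_le_one_div_of_le (by norm_num) hq2)
      (v := fun j => ((starRingEnd ℂ) (α q)) ^ j) (fun j => by
        show ‖((starRingEnd ℂ) (α q)) ^ j‖ = 1
        rw [norm_pow, RCLike.norm_conj, hα, one_pow]) N
    rw [← FT_V hqp.one_lt.le] at hx1
    have hx0 : 0 < x := lt_of_lt_of_le (by positivity) hx2
    have hxδ : 1 ≤ δ * x := by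
      rw [div_lt_iff₀ hδ] at hN
      have : δ * (((N : ℝ) + 1) / 8) ≤ δ * x := mul_le_mul_of_nonneg_left hx2 hδ.le
      nlinarith
    have hFsm : Sm (insert q P) (FT q (α q) N) := FT_sm hqp (Finset.mem_insert_self _ _) (hα q) N
    have hcop : ∀ R : TP, Sm P R → ∀ i ∈ R.S, ∀ j ∈ (FT q (α q) N).S,
        Nat.Coprime (R.n i) ((FT q (α q) N).n j) := by
      intro R hR i hi j _
      have : ∀ j : ℕ, Nat.Coprime (R.n i) (q ^ j) := by
        intro j
        apply Nat.Coprime.pow_right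
        exact ((Nat.Prime.coprime_iff_not_dvd hqp).2 fun h => hq (hR.fac i hi q hqp h)).symm
      exact this j
    refine ⟨Q.mul (FT q (α q) N), v * x, mul_pos hv hx0, ?_, (hQ.mono
      (Finset.subset_insert _ _)).mul hFsm, fun p hp => ?_⟩
    · rw [TP.V_mul _ _ (hcop Q hQ), hQV, hx1]
      push_cast; ring
    · rcases Finset.mem_insert.1 hp with rfl | hp
      · refine ⟨Q, v, hQV, ?_, hQ.mono (Finset.subset_insert _ _), fun t => ?_⟩
        · nlinarith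
        · rw [TP.ev_mul, norm_mul]
          have h1 := FT_ev hqp.one_lt.le (hα p) N t
          have h2 := mul_le_mul_of_nonneg_left h1 (norm_nonneg (Q.ev t))
          linarith
      · obtain ⟨Q', v', h1, h2, h3, h4⟩ := hQ' p hp
        refine ⟨Q'.mul (FT q (α q) N), v' * x, ?_, ?_, (h3.mono
          (Finset.subset_insert _ _)).mul hFsm, fun t => ?_⟩
        · rw [TP.V_mul _ _ (hcop Q' h3), h1, hx1]
          push_cast; ring
        · nlinarith
        · rw [TP.ev_mul, TP.ev_mul, norm_mul, norm_mul]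
          have h5 := mul_le_mul_of_nonneg_right (h4 t) (norm_nonneg ((FT q (α q) N).ev t))
          linarith

lemma TP.ev_le {Q : TP} (h0 : ∀ i ∈ Q.S, 1 ≤ Q.n i) (hb : ∀ i ∈ Q.S, ‖Q.w i‖ ≤ 1) (t : ℝ) :
    ‖Q.ev t‖ ≤ Q.S.card := by
  unfold TP.ev
  refine (norm_sum_le _ _).trans ?_
  calc _ ≤ ∑ i ∈ Q.S, (1 : ℝ) := by
        refine Finset.sum_le_sum fun i hi => ?_
        rw [norm_mul, Complex.norm_natCast_cpow_of_pos (h0 i hi)]
        have : (-(t * I) : ℂ).re = 0 := by simp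
        rw [this, Real.rpow_zero, mul_one]
        exact hb i hi
    _ = _ := by simp

lemma TP.ev_cont {Q : TP} (h0 : ∀ i ∈ Q.S, 1 ≤ Q.n i) : Continuous Q.ev := by
  unfold TP.ev
  refine continuous_finsetSum _ fun i hi => Continuous.mul continuous_const ?_
  have hn0 : (Q.n i : ℂ) ≠ 0 := by
    have := h0 i hi
    exact_mod_cast (by omega : Q.n i ≠ 0)
  exact Continuous.const_cpow (by fun_prop) (Or.inl hn0)

end

end Pool.Agent.R304.TL
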