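import Pool.Agent.H262R4.TM.All2
import Pool.Agent.R304.TL.Wt

/-! The second moment of zeta twisted by a trigonometric polynomial. -/

open Complex Finset Filter MeasureTheory

namespace Pool.Agent.R304.TL

open Pool.Agent.H306R2.SM (om cl Yf)
open Pool.Agent.H262R4.TM (Rng Ck)

noncomputable section

/-- the weight -/
def wz (k : ℕ) (X t : ℝ) : ℝ := om k (k / X) t * ‖riemannZeta (cl t)‖ ^ 2

/-- collected coefficients -/
def co (P : TP) (n : ℕ) : ℂ := ∑ i ∈ P.S.filter (fun i => P.n i = n), P.w i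

lemma coll (P : TP) {H : ℕ} (h : ∀ i ∈ P.S, P.n i ∈ Icc 1 H) (G : ℕ → ℂ) :
    ∑ n ∈ Icc 1 H, co P n * G n = ∑ i ∈ P.S, P.w i * G (P.n i) := by
  rw [← Finset.sum_fiberwise_of_maps_to h (fun i => P.w i * G (P.n i))]
  refine Finset.sum_congr rfl fun n _ => ?_
  unfold co
  rw [Finset.sum_mul]
  refine Finset.sum_congr rfl fun i hi => ?_
  rw [(Finset.mem_filter.1 hi).2]

lemma coll2 (P : TP) {H : ℕ} (h : ∀ i ∈ P.S, P.n i ∈ Icc 1 H) (G : ℕ → ℕ → ℂ) :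
    ∑ n ∈ Icc 1 H, ∑ l ∈ Icc 1 H, co P n * (starRingEnd ℂ) (co P l) * G n l =
      ∑ i ∈ P.S, ∑ j ∈ P.S, P.w i * (starRingEnd ℂ) (P.w j) * G (P.n i) (P.n j) := by
  have h1 : ∀ n : ℕ, ∑ l ∈ Icc 1 H, (starRingEnd ℂ) (co P l) * G n l =
      ∑ j ∈ P.S, (starRingEnd ℂ) (P.w j) * G n (P.n j) := by
    intro n
    have h2 := congrArg (starRingEnd ℂ) (coll P h fun l => (starRingEnd ℂ) (G n l))
    rw [map_sum, map_sum] at h2
    simp only [map_mul, Complex.conj_conj] at h2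
    exact h2
  calc _ = ∑ n ∈ Icc 1 H, co P n * ∑ l ∈ Icc 1 H, (starRingEnd ℂ) (co P l) * G n l := by
        refine Finset.sum_congr rfl fun n _ => ?_
        rw [Finset.mul_sum]
        exact Finset.sum_congr rfl fun l _ => by ring
    _ = ∑ n ∈ Icc 1 H, co P n * ∑ j ∈ P.S, (starRingEnd ℂ) (P.w j) * G n (P.n j) :=
        Finset.sum_congr rfl fun n _ => by rw [h1]
    _ = _ := by
        rw [coll P h fun n => ∑ j ∈ P.S, (starRingEnd ℂ) (P.w j) * G n (P.n j)]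
        refine Finset.sum_congr rfl fun i _ => ?_
        rw [Finset.mul_sum]
        exact Finset.sum_congr rfl fun j _ => by ring

lemma sqrt_cpow {n : ℕ} (hn : 1 ≤ n) (t : ℝ) :
    ((Real.sqrt n : ℝ) : ℂ) * (n : ℂ) ^ (-(cl t)) = (n : ℂ) ^ (-(t * I)) := by
  have hn0 : (0 : ℝ) < n := by exact_mod_cast hn
  have hnc : (n : ℂ) ≠ 0 := by exact_mod_cast (by omega : n ≠ 0)
  have e1 : -(cl t) = (-(1 / 2 : ℝ) : ℂ) + -(t * I) := by
    unfold cl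
    push_cast; ring
  rw [e1, Complex.cpow_add _ _ hnc, ← mul_assoc]
  have e2 : (n : ℂ) ^ ((-(1 / 2 : ℝ) : ℂ)) = (((n : ℝ) ^ (-(1 / 2 : ℝ)) : ℝ) : ℂ) := by
    rw [Complex.ofReal_cpow hn0.le]
    push_cast
    rfl
  rw [e2, ← Complex.ofReal_mul, Real.sqrt_eq_rpow, ← Real.rpow_add hn0]
  norm_num

lemma main_id {h l : ℕ} (hh : 1 ≤ h) (hl : 1 ≤ l) {Y C : ℝ} (hY : 0 < Y) :
    Real.sqrt h * Real.sqrt l * (1 / (Nat.lcm h l : ℝ) *
      (Real.log (Y * (Nat.gcd h l : ℝ) ^ 2 / ((h : ℝ) * l)) + C)) =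
    psi h l * (Real.log Y + C + Real.log ((Nat.gcd h l : ℝ) ^ 2 / ((h : ℝ) * l))) := by
  have g0 : (0:ℝ) < Nat.gcd h l := by exact_mod_cast Nat.gcd_pos_of_pos_left _ hh
  have h0 : (0:ℝ) < h := by exact_mod_cast hh
  have l0 : (0:ℝ) < l := by exact_mod_cast hl
  have e1 : (Nat.lcm h l : ℝ) = (h : ℝ) * l / Nat.gcd h l := by
    have := Nat.gcd_mul_lcm h l
    have h2 : (Nat.gcd h l : ℝ) * Nat.lcm h l = (h:ℝ) * l := by exact_mod_cast this
    rw [← h2]; field_simp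
  have e2 : Real.log (Y * (Nat.gcd h l : ℝ) ^ 2 / ((h : ℝ) * l)) =
      Real.log Y + Real.log ((Nat.gcd h l : ℝ) ^ 2 / ((h : ℝ) * l)) := by
    rw [mul_div_assoc, Real.log_mul hY.ne' (by positivity)]
  have hs1 : 0 < Real.sqrt h := Real.sqrt_pos.2 h0
  have hs2 : 0 < Real.sqrt l := Real.sqrt_pos.2 l0
  have e3 : Real.sqrt h * Real.sqrt l * (1 / (Nat.lcm h l : ℝ)) = psi h l := by
    rw [e1]
    unfold psi
    have a1 : Real.sqrt h * Real.sqrt h = h := Real.mul_self_sqrt h0.le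
    have a2 : Real.sqrt l * Real.sqrt l = l := Real.mul_self_sqrt l0.le
    rw [one_div_div]
    calc Real.sqrt h * Real.sqrt l * ((Nat.gcd h l : ℝ) / ((h : ℝ) * l)) =
          Real.sqrt h * Real.sqrt l * ((Nat.gcd h l : ℝ) /
            ((Real.sqrt h * Real.sqrt h) * (Real.sqrt l * Real.sqrt l))) := by rw [a1, a2]
      _ = _ := by field_simp
  rw [← mul_assoc, e3, e2]
  ring

lemma log_gcd {h l H : ℕ} (hh : 1 ≤ h) (hl : 1 ≤ l) (hhH : h ≤ H) (hlH : l ≤ H) :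
    |Real.log ((Nat.gcd h l : ℝ) ^ 2 / ((h : ℝ) * l))| ≤ 2 * Real.log H := by
  have gp : 0 < Nat.gcd h l := Nat.gcd_pos_of_pos_left _ hh
  have g0 : (0 : ℝ) < Nat.gcd h l := by exact_mod_cast gp
  have g1 : (1 : ℝ) ≤ Nat.gcd h l := by exact_mod_cast gp
  have h0 : (0 : ℝ) < h := by exact_mod_cast hh
  have l0 : (0 : ℝ) < l := by exact_mod_cast hl
  have g2 : (Nat.gcd h l : ℝ) ≤ h := by exact_mod_cast Nat.gcd_le_left l hh
  have g3 : (Nat.gcd h l : ℝ) ≤ l := by exact_mod_cast Nat.gcd_le_right h hl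
  have e : Real.log ((Nat.gcd h l : ℝ) ^ 2 / ((h : ℝ) * l)) =
      2 * Real.log (Nat.gcd h l) - Real.log h - Real.log l := by
    rw [Real.log_div (by positivity) (by positivity), Real.log_mul (by positivity) (by positivity),
      Real.log_pow]
    push_cast
    ring
  have c1 : 0 ≤ Real.log (Nat.gcd h l) := Real.log_nonneg g1
  have c2 : Real.log (Nat.gcd h l) ≤ Real.log h := Real.log_le_log g0 g2
  have c3 : Real.log (Nat.gcd h l) ≤ Real.log l := Real.log_le_log g0 g3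
  have c4 : Real.log h ≤ Real.log H := Real.log_le_log h0 (by exact_mod_cast hhH)
  have c5 : Real.log l ≤ Real.log H := Real.log_le_log l0 (by exact_mod_cast hlH)
  rw [e, abs_le]
  constructor <;> linarith

theorem asy : ∃ η : ℝ, 0 < η ∧ ∀ᶠ X : ℝ in atTop, ∀ k : ℕ, Rng X k → ∀ (P : TP) (H : ℕ) (Mn : ℝ),
    0 < Mn → (H : ℝ) ≤ X ^ ((1 : ℝ) / 4) → (∀ i ∈ P.S, 1 ≤ P.n i ∧ P.n i ≤ H) →
    (∀ n, ‖co P n‖ * Real.sqrt n ≤ Mn) →
    |(∫ t in Set.Ioi (0 : ℝ), wz k X t * ‖P.ev t‖ ^ 2) - (Real.log (Yf k X) + Ck k) * P.V.re| ≤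
      2 * Real.log H * P.Va + Mn ^ 2 * X ^ (-η) := by
  obtain ⟨η, hη, h⟩ := Pool.Agent.H262R4.TM.f_TSM2 (1 / 4) (by norm_num)
  refine ⟨η, hη, ?_⟩
  filter_upwards [h, eventually_gt_atTop (3:ℝ), Real.tendsto_log_atTop.eventually_gt_atTop 1]
    with X hX hX3 hL k hk P H Mn hMn hH hP hco
  have hk0 : (0:ℝ) < k := by
    have := hk.1
    nlinarith
  have hX0 : 0 < X := by linarith
  have hYf : 0 < Yf k X := by
    unfold Yf
    have := Real.pi_pos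
    positivity
  have hPI : ∀ i ∈ P.S, P.n i ∈ Icc 1 H := fun i hi => Finset.mem_Icc.2 (hP i hi)
  have hMc : (Mn : ℂ) ≠ 0 := by exact_mod_cast hMn.ne'
  have h1 := hX k hk H hH (fun n => co P n * ((Real.sqrt n : ℝ) : ℂ) / (Mn : ℂ)) (fun n => by
    rw [norm_div, norm_mul, Complex.norm_real, Complex.norm_real, Real.norm_eq_abs,
      Real.norm_eq_abs, abs_of_pos hMn, abs_of_nonneg (Real.sqrt_nonneg _), div_le_one hMn]
    exact hco n)
  have e1 : ∀ t : ℝ, om k (k / X) t * ‖riemannZeta (cl t)‖ ^ 2 * ‖∑ n ∈ Icc 1 H,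
      co P n * ((Real.sqrt n : ℝ) : ℂ) / (Mn : ℂ) * (n : ℂ) ^ (-(cl t))‖ ^ 2 =
      wz k X t * ‖P.ev t‖ ^ 2 / Mn ^ 2 := by
    intro t
    have e2 : ∑ n ∈ Icc 1 H, co P n * ((Real.sqrt n : ℝ) : ℂ) / (Mn : ℂ) * (n : ℂ) ^ (-(cl t)) =
        P.ev t / (Mn : ℂ) := by
      unfold TP.ev
      rw [← coll P hPI (fun n => (n : ℂ) ^ (-(t * I))), Finset.sum_div]
      refine Finset.sum_congr rfl fun n hn => ?_
      rw [← sqrt_cpow (Finset.mem_Icc.1 hn).1]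
      ring
    rw [e2, norm_div, Complex.norm_real, Real.norm_eq_abs, abs_of_pos hMn, div_pow]
    unfold wz
    ring
  simp_rw [e1] at h1
  rw [integral_div] at h1
  set J := ∫ t in Set.Ioi (0 : ℝ), wz k X t * ‖P.ev t‖ ^ 2 with hJ
  set L := Real.log (Yf k X) + Ck k with hLd
  have e3 : ∑ h ∈ Icc 1 H, ∑ l ∈ Icc 1 H, co P h * ((Real.sqrt h : ℝ) : ℂ) / (Mn : ℂ) *
      (starRingEnd ℂ) (co P l * ((Real.sqrt l : ℝ) : ℂ) / (Mn : ℂ)) *
        ((1 / (Nat.lcm h l : ℝ) *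
          (Real.log (Yf k X * (Nat.gcd h l : ℝ) ^ 2 / ((h : ℝ) * l)) + Ck k) : ℝ) : ℂ) =
      (L * P.V + ∑ i ∈ P.S, ∑ j ∈ P.S, P.w i * (starRingEnd ℂ) (P.w j) *
        ((psi (P.n i) (P.n j) * Real.log ((Nat.gcd (P.n i) (P.n j) : ℝ) ^ 2 /
          ((P.n i : ℝ) * P.n j)) : ℝ) : ℂ)) / (Mn : ℂ) ^ 2 := by
    have e4 : ∑ h ∈ Icc 1 H, ∑ l ∈ Icc 1 H, co P h * ((Real.sqrt h : ℝ) : ℂ) / (Mn : ℂ) *
      (starRingEnd ℂ) (co P l * ((Real.sqrt l : ℝ) : ℂ) / (Mn : ℂ)) *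
        ((1 / (Nat.lcm h l : ℝ) *
          (Real.log (Yf k X * (Nat.gcd h l : ℝ) ^ 2 / ((h : ℝ) * l)) + Ck k) : ℝ) : ℂ) =
        (∑ h ∈ Icc 1 H, ∑ l ∈ Icc 1 H, co P h * (starRingEnd ℂ) (co P l) *
          ((psi h l * (L + Real.log ((Nat.gcd h l : ℝ) ^ 2 / ((h : ℝ) * l))) : ℝ) : ℂ)) /
          (Mn : ℂ) ^ 2 := by
      rw [Finset.sum_div]
      refine Finset.sum_congr rfl fun h hh => ?_
      rw [Finset.sum_div]
      refine Finset.sum_congr rfl fun l hl => ?_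
      rw [hLd, ← main_id (Finset.mem_Icc.1 hh).1 (Finset.mem_Icc.1 hl).1 hYf]
      simp only [map_div₀, map_mul, Complex.conj_ofReal]
      push_cast
      field_simp
    rw [e4, coll2 P hPI fun h l => ((psi h l * (L + Real.log ((Nat.gcd h l : ℝ) ^ 2 /
      ((h : ℝ) * l))) : ℝ) : ℂ)]
    congr 1
    unfold TP.V
    rw [Finset.mul_sum, ← Finset.sum_add_distrib]
    refine Finset.sum_congr rfl fun i _ => ?_
    rw [Finset.mul_sum, ← Finset.sum_add_distrib]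
    refine Finset.sum_congr rfl fun j _ => ?_
    push_cast
    ring
  set E := ∑ i ∈ P.S, ∑ j ∈ P.S, P.w i * (starRingEnd ℂ) (P.w j) *
        ((psi (P.n i) (P.n j) * Real.log ((Nat.gcd (P.n i) (P.n j) : ℝ) ^ 2 /
          ((P.n i : ℝ) * P.n j)) : ℝ) : ℂ) with hE
  have hEn : ‖E‖ ≤ 2 * Real.log H * P.Va := by
    rw [hE]
    unfold TP.Va
    rw [Finset.mul_sum]
    refine (norm_sum_le _ _).trans (Finset.sum_le_sum fun i hi => ?_)
    rw [Finset.mul_sum]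
    refine (norm_sum_le _ _).trans (Finset.sum_le_sum fun j hj => ?_)
    rw [norm_mul, norm_mul, RCLike.norm_conj, Complex.norm_real, Real.norm_eq_abs, abs_mul,
      abs_of_nonneg (psi_nonneg _ _)]
    have h2 := log_gcd (hP i hi).1 (hP j hj).1 (hP i hi).2 (hP j hj).2
    have h3 := psi_nonneg (P.n i) (P.n j)
    calc ‖P.w i‖ * ‖P.w j‖ * (psi (P.n i) (P.n j) * |Real.log ((Nat.gcd (P.n i) (P.n j) : ℝ) ^ 2 /
          ((P.n i : ℝ) * P.n j))|) ≤ ‖P.w i‖ * ‖P.w j‖ * (psi (P.n i) (P.n j) *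
          (2 * Real.log H)) := by gcongr
      _ = _ := by ring
  rw [e3] at h1
  have h4 : ‖(J : ℂ) - (L * P.V + E)‖ ≤ Mn ^ 2 * X ^ (-η) := by
    have e5 : (J : ℂ) - (L * P.V + E) = (Mn : ℂ) ^ 2 * (((J / Mn ^ 2 : ℝ) : ℂ) -
        (L * P.V + E) / (Mn : ℂ) ^ 2) := by
      push_cast
      field_simp
    rw [e5, norm_mul, norm_pow, Complex.norm_real, Real.norm_eq_abs, abs_of_pos hMn]
    exact mul_le_mul_of_nonneg_left h1 (by positivity)
  have h5 : |J - L * P.V.re - E.re| ≤ Mn ^ 2 * X ^ (-η) := by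
    refine le_trans ?_ h4
    refine le_trans (le_of_eq ?_) (Complex.abs_re_le_norm _)
    congr 1
    simp only [Complex.sub_re, Complex.add_re, Complex.ofReal_re, Complex.mul_re,
      Complex.ofReal_im, zero_mul, sub_zero]
    ring
  have h6 : |E.re| ≤ 2 * Real.log H * P.Va := (Complex.abs_re_le_norm E).trans hEn
  rw [abs_le] at h5 h6 ⊢
  constructor <;> linarith [h5.1, h5.2, h6.1, h6.2]

end

end Pool.Agent.R304.TL
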