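import Mathlib

/-! Selection of good points. -/

open Filter Topology Set MeasureTheory

namespace Pool.Agent.R304.TL

lemma sel {T m W θ1 θ2 : ℝ} (hW : 0 < W) (hθ1 : 0 < θ1) {w q G1 A1 A2 : ℝ → ℝ}
    (cw : Continuous w) (cq : Continuous q) (cG1 : Continuous G1) (cA1 : Continuous A1)
    (cA2 : Continuous A2) (hm : 0 ≤ m)
    (w0 : ∀ t ∈ Ioc 0 T, 0 ≤ w t) (q0 : ∀ t, 0 ≤ q t) (qW : ∀ t, q t ≤ W) (G10 : ∀ t, 0 ≤ G1 t)
    (A10 : ∀ t, 0 ≤ A1 t)
    (h0 : 3 / 4 * m ≤ ∫ t in Ioc 0 T, w t * q t)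
    (h1 : ∫ t in Ioc 0 T, w t * q t * G1 t ≤ m / 8)
    (h2 : ∫ t in Ioc 0 T, w t * q t * A1 t ≤ θ1 * (m / 8))
    (h3 : W * ∫ t in Ioc 0 T ∩ {t | θ2 ≤ A2 t}, w t ≤ m / 8) :
    MeasurableSet {t : ℝ | t ∈ Ioc 0 T ∧ G1 t < 1 ∧ A1 t < θ1 ∧ A2 t < θ2} ∧
    m / (4 * W) ≤ ∫ t in {t : ℝ | t ∈ Ioc 0 T ∧ G1 t < 1 ∧ A1 t < θ1 ∧ A2 t < θ2}, w t := by
  have hgm : MeasurableSet {t : ℝ | t ∈ Ioc 0 T ∧ G1 t < 1 ∧ A1 t < θ1 ∧ A2 t < θ2} :=
    measurableSet_Ioc.inter ((isOpen_lt cG1 continuous_const).measurableSet.inter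
      ((isOpen_lt cA1 continuous_const).measurableSet.inter
        (isOpen_lt cA2 continuous_const).measurableSet))
  refine ⟨hgm, ?_⟩
  set G : Set ℝ := {t : ℝ | t ∈ Ioc 0 T ∧ G1 t < 1 ∧ A1 t < θ1 ∧ A2 t < θ2} with hG
  have hGsub : G ⊆ Ioc 0 T := fun t ht => ht.1
  set E : Set ℝ := {t | θ2 ≤ A2 t} with hE
  have hEm : MeasurableSet E := (isClosed_le continuous_const cA2).measurableSet
  have hint : ∀ f : ℝ → ℝ, Continuous f → IntegrableOn f (Ioc (0:ℝ) T) :=
    fun f hf => (hf.integrableOn_Icc (a := 0) (b := T)).mono_set Ioc_subset_Icc_self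
  have iw := hint w cw
  have i1 : IntegrableOn (G.indicator fun t => W * w t) (Ioc 0 T) := (iw.const_mul W).indicator hgm
  have i2 := hint (fun t => w t * q t * G1 t) ((cw.mul cq).mul cG1)
  have i3 : IntegrableOn (fun t => θ1⁻¹ * (w t * q t * A1 t)) (Ioc 0 T) :=
    (hint (fun t => w t * q t * A1 t) ((cw.mul cq).mul cA1)).const_mul _
  have i4 : IntegrableOn (E.indicator fun t => W * w t) (Ioc 0 T) := (iw.const_mul W).indicator hEm
  have key : ∫ t in Ioc (0:ℝ) T, w t * q t ≤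
      ∫ t in Ioc (0:ℝ) T, (G.indicator (fun t => W * w t) t + w t * q t * G1 t +
        θ1⁻¹ * (w t * q t * A1 t) + E.indicator (fun t => W * w t) t) := by
    refine setIntegral_mono_on (hint _ (cw.mul cq)) (((i1.add i2).add i3).add i4)
      measurableSet_Ioc fun t ht => ?_
    have a1 := w0 t ht
    have a2 := q0 t
    have a3 : 0 ≤ w t * q t := mul_nonneg a1 a2
    have a4 : 0 ≤ w t * q t * G1 t := mul_nonneg a3 (G10 t)
    have a5 : 0 ≤ θ1⁻¹ * (w t * q t * A1 t) := by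
      have := A10 t
      positivity
    have a6 : w t * q t ≤ W * w t := by
      have := mul_le_mul_of_nonneg_left (qW t) a1
      linarith
    have a7 : 0 ≤ W * w t := mul_nonneg hW.le a1
    have a8 : 0 ≤ E.indicator (fun t => W * w t) t := by
      by_cases h : t ∈ E
      · rw [indicator_of_mem h]; exact a7
      · rw [indicator_of_notMem h]
    by_cases hg : t ∈ G
    · rw [indicator_of_mem hg]
      linarith
    · rw [indicator_of_notMem hg]
      by_cases c1 : G1 t < 1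
      · by_cases c2 : A1 t < θ1
        · have c3 : t ∈ E := by
            by_contra c4
            exact hg ⟨ht, c1, c2, not_le.1 c4⟩
          rw [indicator_of_mem c3]
          linarith
        · have c3 : 1 ≤ θ1⁻¹ * A1 t := by
            rw [inv_mul_eq_div, le_div_iff₀ hθ1]
            linarith [not_lt.1 c2]
          have c4 : w t * q t ≤ θ1⁻¹ * (w t * q t * A1 t) := by
            calc w t * q t = w t * q t * 1 := (mul_one _).symm
              _ ≤ w t * q t * (θ1⁻¹ * A1 t) := mul_le_mul_of_nonneg_left c3 a3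
              _ = _ := by ring
          linarith
      · have c3 : w t * q t ≤ w t * q t * G1 t := by
          calc w t * q t = w t * q t * 1 := (mul_one _).symm
            _ ≤ _ := mul_le_mul_of_nonneg_left (not_lt.1 c1) a3
        linarith
  have e1 : ∫ t in Ioc (0:ℝ) T, (G.indicator (fun t => W * w t) t + w t * q t * G1 t +
        θ1⁻¹ * (w t * q t * A1 t) + E.indicator (fun t => W * w t) t) =
      W * (∫ t in G, w t) + (∫ t in Ioc (0:ℝ) T, w t * q t * G1 t) +
        θ1⁻¹ * (∫ t in Ioc (0:ℝ) T, w t * q t * A1 t) + W * ∫ t in Ioc 0 T ∩ E, w t := by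
    have i12 : IntegrableOn (fun t => G.indicator (fun t => W * w t) t + w t * q t * G1 t)
        (Ioc 0 T) := i1.add i2
    have i123 : IntegrableOn (fun t => G.indicator (fun t => W * w t) t + w t * q t * G1 t +
        θ1⁻¹ * (w t * q t * A1 t)) (Ioc 0 T) := i12.add i3
    rw [integral_add i123 i4, integral_add i12 i3, integral_add i1 i2,
      setIntegral_indicator hgm, setIntegral_indicator hEm, integral_const_mul, integral_const_mul,
      integral_const_mul, inter_eq_self_of_subset_right hGsub]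
  rw [e1] at key
  have h4 : θ1⁻¹ * (∫ t in Ioc (0:ℝ) T, w t * q t * A1 t) ≤ m / 8 := by
    rw [inv_mul_eq_div, div_le_iff₀ hθ1]
    linarith
  rw [div_le_iff₀ (by positivity)]
  nlinarith

end Pool.Agent.R304.TL
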