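import Pool.Agent.R304.TL.Tail
import Pool.Agent.R304.TL.Sel
import Pool.Agent.Helper240.ZU.F

/-! Universality with respect to the weighted second moment, narrow windows. -/

open Complex Filter Topology Set MeasureTheory

namespace Pool.Agent.R304.TL

open ZU ZU.J_c3 ZU.J_e1 ZU.J_f
open Pool.Agent.H306R2.SM (om cl Yf)

noncomputable section

/-- partial sum times partial Euler product, minus one -/
def GN (M N : ℕ) (z : ℂ) : ℂ := DN N z * EM M (fun _ => 1) z - 1

/-- zeta minus a partial sum -/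
def ZN (N : ℕ) (z : ℂ) : ℂ := riemannZeta z - DN N z

lemma DN_diff (N : ℕ) : Differentiable ℂ (DN N) := by
  unfold DN
  refine Differentiable.fun_sum fun n hn => ?_
  have hn0 : (n : ℂ) ≠ 0 := by
    have := (Finset.mem_Icc.1 hn).1
    exact_mod_cast (by omega : n ≠ 0)
  exact differentiable_id.neg.const_cpow (Or.inl hn0)

lemma GN_diff (M N : ℕ) : Differentiable ℂ (GN M N) :=
  ((DN_diff N).mul (de_EM_diff M _)).sub_const 1

lemma ZN_diff (N : ℕ) {z : ℂ} (hz : z.re < 1) : DifferentiableAt ℂ (ZN N) z := by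
  have hz1 : z ≠ 1 := by
    intro h
    rw [h, Complex.one_re] at hz
    exact lt_irrefl _ hz
  exact (differentiableAt_riemannZeta hz1).sub (DN_diff N z)

lemma pt_bound {a b a' b' B B' C : ℝ} (h3' : b' < 1)
    (hCs : ∀ (g : ℂ → ℂ) (U : Set ℂ), IsOpen U → rect a' b' B' ⊆ U →
      DifferentiableOn ℂ g U → ∀ s ∈ rect a b B, ‖g s‖ ^ 2 ≤ C * ∫ w in rect a' b' B', ‖g w‖ ^ 2)
    {F : ℂ → ℂ} (hF : ∀ z : ℂ, z.re < 1 → DifferentiableAt ℂ F z) (t : ℝ) {s : ℂ}
    (hs : s ∈ rect a b B) :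
    ‖F (s + t * I)‖ ^ 2 ≤ C * ∫ w in rect a' b' B', ‖F (w + t * I)‖ ^ 2 := by
  have hre : ∀ z : ℂ, (z + t * I).re = z.re := by
    intro z
    simp
  exact hCs (fun z => F (z + t * I)) {z : ℂ | z.re < 1}
    (isOpen_lt Complex.continuous_re continuous_const)
    (fun z hz => lt_of_le_of_lt hz.2.1 h3')
    (fun z hz => by
      have hz' : (z + t * I).re < 1 := by
        rw [hre]; exact hz
      have h7 : DifferentiableAt ℂ (fun z : ℂ => F (z + t * I)) z :=
        DifferentiableAt.comp z (hF _ hz') (differentiableAt_id.add_const _)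
      exact h7.differentiableWithinAt) s hs

lemma ii_le {w f : ℝ → ℝ} {T : ℝ} (hT : 0 ≤ T) (hi : IntegrableOn (fun t => w t * f t) (Ioi 0))
    (h0 : ∀ t : ℝ, 0 < t → 0 ≤ w t * f t) :
    ∫ t in (0 : ℝ)..T, w t * f t ≤ ∫ t in Ioi (0 : ℝ), w t * f t := by
  rw [intervalIntegral.integral_of_le hT]
  refine setIntegral_mono_set hi ?_ Ioc_subset_Ioi_self.eventuallyLE
  exact (ae_restrict_iff' measurableSet_Ioi).mpr (Eventually.of_forall fun t ht => h0 t ht)

theorem core (a b B : ℝ) (h1 : 1 / 2 < a) (h2 : a ≤ b) (h3 : b < 1) (hB : 0 < B)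
    (q : ℂ → ℂ) (hq : Differentiable ℂ q) (ε : ℝ) (hε : 0 < ε) :
    ∃ c : ℝ, 0 < c ∧ ∀ᶠ T : ℝ in atTop, ∃ G : Set ℝ, MeasurableSet G ∧ G ⊆ Ioc 0 T ∧
      (∀ t ∈ G, ∀ s ∈ rect a b B, ‖riemannZeta (s + t * I) - exp (q s)‖ < ε) ∧
      ∀ X : ℝ, T / 4 ≤ X → X ≤ T / 2 → c * Real.log T ≤ ∫ t in G, wz (kT T) X t := by
  obtain ⟨Cp, hCp⟩ := (isCompact_rectV a b B).exists_bound_of_continuousOn
    (f := fun s => exp (q s)) (Complex.continuous_exp.comp hq.continuous).continuousOn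
  obtain ⟨a', ha'⟩ : ∃ a', a' = (1 / 2 + a) / 2 := ⟨_, rfl⟩
  obtain ⟨b', hb'⟩ : ∃ b', b' = (b + 1) / 2 := ⟨_, rfl⟩
  obtain ⟨B', hB'⟩ : ∃ B', B' = B + 1 := ⟨_, rfl⟩
  have k0 : 1 / 2 < a' := by linarith
  have k1 : a' < a := by linarith
  have k2 : b < b' := by linarith
  have k3 : b' < 1 := by linarith
  have k4 : B < B' := by linarith
  have k5 : 0 < B' := by linarith
  have k6 : a' ≤ b' := by linarith
  obtain ⟨C, hC, hCs⟩ := sup_le_area a b a' b' B B' k1 h2 k2 hB k4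
  obtain ⟨ε4, hε4⟩ : ∃ ε4, ε4 = ε / 4 := ⟨_, rfl⟩
  have hε40 : 0 < ε4 := by linarith
  obtain ⟨η, hη⟩ : ∃ η, η = ε4 / (|Cp| + 2 * ε4) := ⟨_, rfl⟩
  have hden : 0 < |Cp| + 2 * ε4 := by positivity
  have hη0 : 0 < η := by rw [hη]; positivity
  have hη1 : (|Cp| + 2 * ε4) * η = ε4 := by rw [hη]; field_simp
  have hη2 : η < 1 := by
    rw [hη, div_lt_one hden]
    have := abs_nonneg Cp
    linarith
  obtain ⟨area, harea⟩ : ∃ area, area = (b' - a') * (2 * B') := ⟨_, rfl⟩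
  have hba : 0 < b' - a' := by linarith
  have harea0 : 0 < area := by rw [harea]; positivity
  obtain ⟨θ1, hθ1⟩ : ∃ θ1, θ1 = (η / 2) ^ 2 / C := ⟨_, rfl⟩
  have hθ10 : 0 < θ1 := by rw [hθ1]; positivity
  obtain ⟨κ, hκ⟩ : ∃ κ, κ = θ1 / (32 * area) := ⟨_, rfl⟩
  have hκ0 : 0 < κ := by rw [hκ]; positivity
  obtain ⟨M0, hM0⟩ := fs_small k0 hκ0
  obtain ⟨M, hM, α, hα, hd⟩ := euler_dense a b B h1 h2 h3 hB q hq ε4 hε40 M0
  have hκM : ∀ A : Finset ℕ, (∀ m ∈ A, M < m) → ∑ x ∈ A ×ˢ A, fs a' x ≤ κ :=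
    fun A hA => hM0 A fun m hm => lt_of_le_of_lt hM (hA m hm)
  obtain ⟨δ1, hδ1, hδ⟩ := euler_cont a b B (by linarith) M α hα ε4 hε40
  obtain ⟨δ, hδd⟩ : ∃ δ, δ = δ1 ^ 2 / (64 * (((pr M).card : ℝ) + 1)) := ⟨_, rfl⟩
  have hδ0 : 0 < δ := by rw [hδd]; positivity
  obtain ⟨Q, v, hv0, hQV, hQ, hQ'⟩ := weights (pr M)
    (fun p hp => (Finset.mem_filter.1 hp).2) α hα hδ0
  -- sizes
  obtain ⟨H, hH⟩ : ∃ H : ℕ, ∀ i ∈ Q.S, Q.n i ≤ H :=
    ⟨Q.S.sup Q.n, fun i hi => Finset.le_sup hi⟩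
  obtain ⟨e, he0, he1, hrough⟩ := rough_up hQ hH hv0 hQV k0 hκ0 hκM
  obtain ⟨δ', hδ'0, hδ'1, hms⟩ := ms_pow a' b' k0 k6 k3 B' k5 e he0 (by linarith)
  set E0 : ℝ := 2 ^ (pr M).card with hE0
  have hE00 : 0 < E0 := by positivity
  obtain ⟨θ2, hθ2⟩ : ∃ θ2, θ2 = θ1 / E0 ^ 2 := ⟨_, rfl⟩
  have hθ20 : 0 < θ2 := by rw [hθ2]; positivity
  set W : ℝ := (Q.S.card : ℝ) ^ 2 + 1 with hW
  have hW0 : 0 < W := by positivity
  have hqW : ∀ t : ℝ, ‖Q.ev t‖ ^ 2 ≤ W := by
    intro t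
    have := pow_le_pow_left₀ (norm_nonneg _) (TP.ev_le hQ.pos hQ.bd t) 2
    linarith
  have hhold := holder hδ'0 (area / θ2) (ε := v / (8 * W)) (by positivity)
  have hfar := far (ε := v / (8 * W)) (by positivity)
  have hfix := fixed (fun i hi => ⟨hQ.pos i hi, hH i hi⟩) hQ.bd hQV (ε := v / 8) (by positivity)
  have hprne : ∀ p ∈ pr M, p ≠ 0 := fun p hp => (Finset.mem_filter.mp hp).2.ne_zero
  have cQ : Continuous fun t => ‖Q.ev t‖ ^ 2 := (TP.ev_cont hQ.pos).norm.pow 2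
  -- the phases
  have hphase : ∀ᶠ T : ℝ in atTop, ∀ p ∈ pr M, ∀ X : ℝ, T / 4 ≤ X → X ≤ T →
      ∫ t in Ioc (0 : ℝ) T, wz (kT T) X t * ‖Q.ev t‖ ^ 2 * ‖(p : ℂ) ^ (-(t * I)) - α p‖ ^ 2 ≤
        8 * δ * v * Real.log T := by
    rw [Filter.eventually_all_finset]
    intro p hp
    obtain ⟨Q', v', hV', hv', hQ's, hle⟩ := hQ' p hp
    obtain ⟨H', hH'⟩ : ∃ H : ℕ, ∀ i ∈ Q'.S, Q'.n i ≤ H :=
      ⟨Q'.S.sup Q'.n, fun i hi => Finset.le_sup hi⟩
    have hf' := fixed (fun i hi => ⟨hQ's.pos i hi, hH' i hi⟩) hQ's.bd hV' (ε := δ * v)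
      (by positivity)
    filter_upwards [hf', kT_facts, Real.tendsto_log_atTop.eventually_ge_atTop 1,
      eventually_gt_atTop (0 : ℝ)] with T hT hk hl hT0 X hX1 hX2
    obtain ⟨hk1, -, hk3⟩ := hk
    have hX0 : 0 < X := by linarith
    have a1 := (abs_le.1 (hT X hX1 hX2)).2
    have i1 := int_ev (P := Q') hQ's.pos hk1 hX0
    have i1' : IntegrableOn (fun t => wz (kT T) X t * ‖Q'.ev t‖ ^ 2) (Ioc 0 T) :=
      i1.mono_set Ioc_subset_Ioi_self
    have hc : Continuous fun t : ℝ => wz (kT T) X t * ‖Q.ev t‖ ^ 2 *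
        ‖(p : ℂ) ^ (-(t * I)) - α p‖ ^ 2 :=
      ((wz_cont _ _).mul cQ).mul (((de_cpow_cont p (hprne p hp)).sub continuous_const).norm.pow 2)
    have h5 : ∫ t in Ioc (0 : ℝ) T, wz (kT T) X t * ‖Q.ev t‖ ^ 2 *
        ‖(p : ℂ) ^ (-(t * I)) - α p‖ ^ 2 ≤
        ∫ t in Ioc (0 : ℝ) T, 4 * (wz (kT T) X t * ‖Q'.ev t‖ ^ 2) := by
      refine setIntegral_mono_on ((hc.integrableOn_Icc (a := 0) (b := T)).mono_set
        Ioc_subset_Icc_self) (i1'.const_mul 4) measurableSet_Ioc fun t ht => ?_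
      have b1 := wz_nonneg (kT T) hX0 ht.1.le
      have b2 := pow_le_pow_left₀ (by positivity) (hle t) 2
      have b3 := mul_le_mul_of_nonneg_left b2 b1
      calc wz (kT T) X t * ‖Q.ev t‖ ^ 2 * ‖(p : ℂ) ^ (-(t * I)) - α p‖ ^ 2 =
            wz (kT T) X t * (‖Q.ev t‖ * ‖(p : ℂ) ^ (-(t * I)) - α p‖) ^ 2 := by ring
        _ ≤ wz (kT T) X t * (2 * ‖Q'.ev t‖) ^ 2 := b3
        _ = _ := by ring
    rw [integral_const_mul] at h5
    have h6 : ∫ t in Ioc (0 : ℝ) T, wz (kT T) X t * ‖Q'.ev t‖ ^ 2 ≤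
        ∫ t in Ioi (0 : ℝ), wz (kT T) X t * ‖Q'.ev t‖ ^ 2 := by
      have := ii_le hT0.le i1 fun t ht => mul_nonneg (wz_nonneg (kT T) hX0 ht.le) (by positivity)
      rwa [intervalIntegral.integral_of_le hT0.le] at this
    have h7 : v' * Real.log T ≤ δ * v * Real.log T :=
      mul_le_mul_of_nonneg_right hv' (by linarith)
    linarith
  refine ⟨v / (4 * W), by positivity, ?_⟩
  filter_upwards [hrough, hms, hhold, hfar, hfix, hphase, kT_facts,
    Real.tendsto_log_atTop.eventually_ge_atTop 1, eventually_gt_atTop (0 : ℝ)]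
    with T hrough hms hhold hfar hfix hphase hk hl hT0
  obtain ⟨hk1, -, hk3⟩ := hk
  set N := ⌊T ^ e⌋₊ with hN
  set m : ℝ := v * Real.log T with hm
  have hm0 : 0 < m := by positivity
  have hvm : v ≤ m := le_mul_of_one_le_right hv0.le hl
  set G1 : ℝ → ℝ := fun t => ∑ p ∈ pr M, ‖(p : ℂ) ^ (-(t * I)) - α p‖ ^ 2 / δ1 ^ 2 with hG1
  set A1 : ℝ → ℝ := fun t => ∫ w in rect a' b' B', ‖GN M N (w + t * I)‖ ^ 2 with hA1
  set A2 : ℝ → ℝ := fun t => ∫ w in rect a' b' B', ‖ZN N (w + t * I)‖ ^ 2 with hA2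
  have hG1c : Continuous G1 := by
    apply continuous_finsetSum
    intro p hp
    exact (((de_cpow_cont p (hprne p hp)).sub continuous_const).norm.pow 2).div_const _
  have hG10 : ∀ t, 0 ≤ G1 t := fun t => Finset.sum_nonneg fun p _ => by positivity
  have hA10 : ∀ t, 0 ≤ A1 t := fun t => integral_nonneg fun z => by positivity
  have hA20 : ∀ t, 0 ≤ A2 t := fun t => integral_nonneg fun z => by positivity
  have hGNc : ContinuousOn (GN M N) {z : ℂ | a' ≤ z.re ∧ z.re ≤ b'} :=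
    (GN_diff M N).continuous.continuousOn
  have hZNc : ContinuousOn (ZN N) {z : ℂ | a' ≤ z.re ∧ z.re ≤ b'} := by
    intro z hz
    exact (ZN_diff N (lt_of_le_of_lt hz.2 k3)).continuousAt.continuousWithinAt
  -- the second difference is small on average
  have hfub2 := fubini_bound a' b' B' k6 k5 (ZN N) hZNc (fun _ => 1) continuous_const T hT0.le
    (T ^ (1 - δ')) (by
      intro s hs
      obtain ⟨hs1, hs2, hs3⟩ := hs
      have hZ := hms s.re ⟨hs1, hs2⟩
      have hsre1 : s.re < 1 := by linarith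
      refine le_trans ?_ hZ
      have e2 : ∀ t : ℝ, s + (t : ℂ) * I = (s.re : ℂ) + ((s.im + t : ℝ) : ℂ) * I := by
        intro t
        conv_lhs => rw [← Complex.re_add_im s]
        push_cast
        ring
      have e3 : ∫ t in (0 : ℝ)..T, 1 * ‖ZN N (s + t * I)‖ ^ 2 =
          ∫ t in (0 : ℝ)..T, (fun r : ℝ => ‖riemannZeta ((s.re : ℂ) + r * I) -
            DN N ((s.re : ℂ) + r * I)‖ ^ 2) (s.im + t) := by
        apply intervalIntegral.integral_congr
        intro t _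
        simp only [one_mul]
        unfold ZN
        rw [e2 t]
      have e4 := intervalIntegral.integral_comp_add_left (a := 0) (b := T)
        (fun r : ℝ => ‖riemannZeta ((s.re : ℂ) + r * I) - DN N ((s.re : ℂ) + r * I)‖ ^ 2) s.im
      rw [e3]
      refine le_trans (le_of_eq e4) ?_
      have hy := abs_le.1 hs3
      have cz' := rough_mv_zeta_cont (s.re : ℂ) (by simpa using hsre1)
      have cd' : Continuous (fun t : ℝ => DN N ((s.re : ℂ) + (t : ℂ) * I)) :=
        (rough_mv_DN_cont N).comp (by fun_prop)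
      apply intervalIntegral.integral_mono_interval (by linarith [hy.1]) (by linarith)
        (by linarith [hy.2])
      · exact Filter.Eventually.of_forall (fun t => by positivity)
      · exact ((cz'.sub cd').norm.pow 2).intervalIntegrable _ _)
  have hA2c : Continuous A2 := hfub2.1
  have hA2int : ∫ t in Ioc (0 : ℝ) T, A2 t ≤ area * T ^ (1 - δ') := by
    have := hfub2.2
    rw [intervalIntegral.integral_of_le hT0.le, ← harea] at this
    simpa only [one_mul] using this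
  have hA1c : Continuous A1 := (fubini_bound a' b' B' k6 k5 (GN M N) hGNc (fun _ => 0)
    continuous_const T hT0.le 0 (fun s _ => by simp)).1
  refine ⟨{t : ℝ | t ∈ Ioc 0 T ∧ G1 t < 1 ∧ A1 t < θ1 ∧ A2 t < θ2}, ?_, fun t ht => ht.1, ?_, ?_⟩
  · exact measurableSet_Ioc.inter ((isOpen_lt hG1c continuous_const).measurableSet.inter
      ((isOpen_lt hA1c continuous_const).measurableSet.inter
        (isOpen_lt hA2c continuous_const).measurableSet))
  · -- the approximation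
    rintro t ⟨htT, ht1, ht2, ht3⟩ s hs
    have hre : (s + t * I).re = s.re := by simp
    have g1 : ‖GN M N (s + t * I)‖ < η / 2 := by
      have h6 := pt_bound k3 hCs (F := GN M N) (fun z _ => GN_diff M N z) t hs
      have h7 : ‖GN M N (s + t * I)‖ ^ 2 < (η / 2) ^ 2 := by
        refine lt_of_le_of_lt h6 ?_
        have h8 : C * A1 t < C * θ1 := mul_lt_mul_of_pos_left ht2 hC
        have h9 : C * θ1 = (η / 2) ^ 2 := by rw [hθ1]; field_simp
        rw [h9] at h8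
        exact h8
      exact lt_of_pow_lt_pow_left₀ 2 (by positivity) h7
    have g2 : ‖ZN N (s + t * I)‖ * E0 < η / 2 := by
      have h6 := pt_bound k3 hCs (F := ZN N) (fun z hz => ZN_diff N hz) t hs
      have h7 : (‖ZN N (s + t * I)‖ * E0) ^ 2 < (η / 2) ^ 2 := by
        have h8 : C * A2 t < C * θ2 := mul_lt_mul_of_pos_left ht3 hC
        have h9 : C * θ2 * E0 ^ 2 = (η / 2) ^ 2 := by rw [hθ2, hθ1]; field_simp
        rw [mul_pow, ← h9]
        exact mul_lt_mul_of_pos_right (lt_of_le_of_lt h6 h8) (by positivity)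
      exact lt_of_pow_lt_pow_left₀ 2 (by positivity) h7
    have hω : ∀ p ∈ pr M, ‖(p : ℂ) ^ (-(t * I))‖ = 1 ∧ ‖(p : ℂ) ^ (-(t * I)) - α p‖ < δ1 := by
      intro p hp
      refine ⟨de_cpow_norm p (hprne p hp) t, ?_⟩
      have h6 : ‖(p : ℂ) ^ (-(t * I)) - α p‖ ^ 2 / δ1 ^ 2 ≤ G1 t :=
        Finset.single_le_sum (f := fun p : ℕ => ‖(p : ℂ) ^ (-(t * I)) - α p‖ ^ 2 / δ1 ^ 2)
          (fun p _ => by positivity) hp
      have h7 := lt_of_le_of_lt h6 ht1
      rw [div_lt_one (by positivity)] at h7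
      exact lt_of_pow_lt_pow_left₀ 2 hδ1.le h7
    have h6 := hδ (fun p => (p : ℂ) ^ (-(t * I))) hω s hs
    have hP1 := hCp s hs
    have hP2 := hd s hs
    rw [← de_EM_shift] at h6
    set E : ℂ := EM M (fun _ => 1) (s + t * I) with hE
    have hEn : ‖E‖ ≤ E0 := rough_mv_EM_le M (s + t * I) (by
      rw [hre]; linarith [hs.1])
    have hGE : riemannZeta (s + t * I) * E - 1 = GN M N (s + t * I) + ZN N (s + t * I) * E := by
      unfold GN ZN
      rw [← hE]
      ring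
    have hgs : ‖riemannZeta (s + t * I) * E - 1‖ < η := by
      rw [hGE]
      have h7 := norm_add_le (GN M N (s + t * I)) (ZN N (s + t * I) * E)
      rw [norm_mul] at h7
      have h8 : ‖ZN N (s + t * I)‖ * ‖E‖ ≤ ‖ZN N (s + t * I)‖ * E0 :=
        mul_le_mul_of_nonneg_left hEn (norm_nonneg _)
      linarith
    have hE0' : E ≠ 0 := by
      intro h
      rw [h, mul_zero, zero_sub, norm_neg, norm_one] at hgs
      linarith
    have h7 : ‖E⁻¹ - exp (q s)‖ < 2 * ε4 := by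
      have : E⁻¹ - exp (q s) = (E⁻¹ - (EM M α s)⁻¹) + ((EM M α s)⁻¹ - exp (q s)) := by ring
      rw [this]
      have := norm_add_le (E⁻¹ - (EM M α s)⁻¹) ((EM M α s)⁻¹ - exp (q s))
      linarith
    have h8 : ‖E⁻¹‖ ≤ |Cp| + 2 * ε4 := by
      have h9 : E⁻¹ = exp (q s) + (E⁻¹ - exp (q s)) := by ring
      have h10 := norm_add_le (exp (q s)) (E⁻¹ - exp (q s))
      rw [← h9] at h10
      have := le_abs_self Cp
      linarith
    have h9 : riemannZeta (s + t * I) - exp (q s) =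
        E⁻¹ * (riemannZeta (s + t * I) * E - 1) + (E⁻¹ - exp (q s)) := by
      field_simp
      ring
    rw [h9]
    have h10 := norm_add_le (E⁻¹ * (riemannZeta (s + t * I) * E - 1)) (E⁻¹ - exp (q s))
    rw [norm_mul] at h10
    have h11 : ‖E⁻¹‖ * ‖riemannZeta (s + t * I) * E - 1‖ ≤ (|Cp| + 2 * ε4) * η :=
      mul_le_mul h8 hgs.le (norm_nonneg _) hden.le
    linarith
  · -- the measure
    intro X hX1 hX2
    have hX2' : X ≤ T := by linarith
    have hX0 : 0 < X := by linarith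
    have hwc := wz_cont (kT T) X
    have hw0 : ∀ t : ℝ, 0 < t → 0 ≤ wz (kT T) X t := fun t ht => wz_nonneg _ hX0 ht.le
    have iQ := int_ev (P := Q) hQ.pos hk1 hX0
    have p1 : 3 / 4 * m ≤ ∫ t in Ioc 0 T, wz (kT T) X t * ‖Q.ev t‖ ^ 2 := by
      have b1 := (abs_le.1 (hfix X hX1 hX2')).1
      have b2 := hfar X hX1 hX2
      have b3 : ∫ t in Ioi (0 : ℝ), wz (kT T) X t * ‖Q.ev t‖ ^ 2 =
          (∫ t in Ioc 0 T, wz (kT T) X t * ‖Q.ev t‖ ^ 2) +
            ∫ t in Ioi T, wz (kT T) X t * ‖Q.ev t‖ ^ 2 := by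
        rw [← Ioc_union_Ioi_eq_Ioi hT0.le]
        exact setIntegral_union (Ioc_disjoint_Ioi le_rfl) measurableSet_Ioi
          (iQ.mono_set Ioc_subset_Ioi_self) (iQ.mono_set (Ioi_subset_Ioi hT0.le))
      have b4 : ∫ t in Ioi T, wz (kT T) X t * ‖Q.ev t‖ ^ 2 ≤ W * ∫ t in Ioi T, wz (kT T) X t := by
        rw [← integral_const_mul]
        refine setIntegral_mono_on (iQ.mono_set (Ioi_subset_Ioi hT0.le))
          (((wz_int1 hk1 hX0).mono_set (Ioi_subset_Ioi hT0.le)).const_mul W) measurableSet_Ioi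
          fun t ht => ?_
        have := mul_le_mul_of_nonneg_left (hqW t) (hw0 t (hT0.trans ht))
        linarith
      have b5 : W * ∫ t in Ioi T, wz (kT T) X t ≤ W * (v / (8 * W)) :=
        mul_le_mul_of_nonneg_left b2 hW0.le
      have b6 : W * (v / (8 * W)) = v / 8 := by field_simp
      rw [b6] at b5
      have b7 : v / 8 * Real.log T = m / 8 := by rw [hm]; ring
      rw [b7] at b1
      linarith
    have p2 : ∫ t in Ioc 0 T, wz (kT T) X t * ‖Q.ev t‖ ^ 2 * G1 t ≤ m / 8 := by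
      have b1 : ∀ t, wz (kT T) X t * ‖Q.ev t‖ ^ 2 * G1 t = ∑ p ∈ pr M, (δ1 ^ 2)⁻¹ *
          (wz (kT T) X t * ‖Q.ev t‖ ^ 2 * ‖(p : ℂ) ^ (-(t * I)) - α p‖ ^ 2) := by
        intro t
        rw [hG1]
        simp only [Finset.mul_sum]
        refine Finset.sum_congr rfl fun p _ => ?_
        rw [div_eq_inv_mul]
        ring
      simp_rw [b1]
      rw [integral_finsetSum]
      · have b2 : ∀ p ∈ pr M, ∫ t in Ioc 0 T, (δ1 ^ 2)⁻¹ *
          (wz (kT T) X t * ‖Q.ev t‖ ^ 2 * ‖(p : ℂ) ^ (-(t * I)) - α p‖ ^ 2) ≤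
            (δ1 ^ 2)⁻¹ * (8 * δ * v * Real.log T) := by
          intro p hp
          rw [integral_const_mul]
          exact mul_le_mul_of_nonneg_left (hphase p hp X hX1 hX2') (by positivity)
        refine (Finset.sum_le_sum b2).trans ?_
        rw [Finset.sum_const, nsmul_eq_mul, hδd]
        have b3 : ((pr M).card : ℝ) * ((δ1 ^ 2)⁻¹ * (8 * (δ1 ^ 2 / (64 * (((pr M).card : ℝ) + 1))) *
            v * Real.log T)) = ((pr M).card : ℝ) / ((pr M).card + 1) * (m / 8) := by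
          rw [hm]
          field_simp
          ring
        rw [b3]
        have b4 : ((pr M).card : ℝ) / ((pr M).card + 1) ≤ 1 := by
          rw [div_le_one (by positivity)]
          linarith
        exact mul_le_of_le_one_left (by positivity) b4
      · intro p hp
        have hc : Continuous fun t : ℝ => (δ1 ^ 2)⁻¹ * (wz (kT T) X t * ‖Q.ev t‖ ^ 2 *
            ‖(p : ℂ) ^ (-(t * I)) - α p‖ ^ 2) :=
          continuous_const.mul ((hwc.mul cQ).mul
            (((de_cpow_cont p (hprne p hp)).sub continuous_const).norm.pow 2))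
        exact (hc.integrableOn_Icc (a := 0) (b := T)).mono_set Ioc_subset_Icc_self
    have p3 : ∫ t in Ioc 0 T, wz (kT T) X t * ‖Q.ev t‖ ^ 2 * A1 t ≤ θ1 * (m / 8) := by
      have hfub := fubini_bound a' b' B' k6 k5 (GN M N) hGNc
        (fun t => wz (kT T) X t * ‖Q.ev t‖ ^ 2) (hwc.mul cQ) T hT0.le
        (4 * v * κ * Real.log T) (by
          intro s hs
          obtain ⟨i1, i2⟩ := hrough X hX1 hX2' s hs.1
          have b1 := ii_le hT0.le i1 fun t ht => mul_nonneg (hw0 t ht) (by positivity)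
          refine le_trans (le_of_eq ?_) (b1.trans i2)
          refine intervalIntegral.integral_congr fun t _ => ?_
          unfold GN
          ring)
      have b1 := hfub.2
      rw [intervalIntegral.integral_of_le hT0.le, ← harea] at b1
      refine b1.trans (le_of_eq ?_)
      rw [hκ, hm]
      field_simp
      ring
    have p4 : W * ∫ t in Ioc 0 T ∩ {t | θ2 ≤ A2 t}, wz (kT T) X t ≤ m / 8 := by
      have hmeas : MeasurableSet {t | θ2 ≤ A2 t} :=
        (isClosed_le continuous_const hA2c).measurableSet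
      have hvol : volume (Ioc 0 T ∩ {t | θ2 ≤ A2 t}) ≤
          ENNReal.ofReal (area / θ2 * T ^ (1 - δ')) := by
        have hIi : IntegrableOn A2 (Ioc 0 T) :=
          (hA2c.integrableOn_Icc (a := 0) (b := T)).mono_set Ioc_subset_Icc_self
        have hmk := mul_meas_ge_le_integral_of_nonneg (μ := volume.restrict (Ioc 0 T))
          (Eventually.of_forall hA20) hIi θ2
        have hfin : (volume.restrict (Ioc 0 T)) {t | θ2 ≤ A2 t} ≠ ⊤ := by
          refine ne_top_of_le_ne_top ?_ (measure_mono (subset_univ _))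
          rw [Measure.restrict_apply_univ]
          exact measure_Ioc_lt_top.ne
        rw [inter_comm, ← Measure.restrict_apply hmeas, ← ENNReal.ofReal_toReal hfin]
        apply ENNReal.ofReal_le_ofReal
        rw [div_mul_eq_mul_div, le_div_iff₀ hθ20, mul_comm _ θ2]
        exact hmk.trans hA2int
      have b1 := hhold X hX1 hX2' _ (measurableSet_Ioc.inter hmeas) inter_subset_left hvol
      have b2 : W * ∫ t in Ioc 0 T ∩ {t | θ2 ≤ A2 t}, wz (kT T) X t ≤ W * (v / (8 * W)) :=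
        mul_le_mul_of_nonneg_left b1 hW0.le
      have b6 : W * (v / (8 * W)) = v / 8 := by field_simp
      rw [b6] at b2
      linarith
    have hsel := (sel (T := T) hW0 hθ10 hwc cQ hG1c hA1c hA2c hm0.le
      (fun t ht => hw0 t ht.1) (fun t => by positivity) hqW hG10 hA10 p1 p2 p3 p4).2
    refine le_trans (le_of_eq ?_) hsel
    rw [hm]
    ring

end

end Pool.Agent.R304.TL
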