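import Mathlib

/-! The quadratic forms of the twisted second moment. -/

open Complex Finset

namespace Pool.Agent.R304.TL

noncomputable section

/-- `(m, n) / sqrt (m n)` -/
def psi (m n : ℕ) : ℝ := (Nat.gcd m n : ℝ) / (Real.sqrt m * Real.sqrt n)

lemma psi_nonneg (m n : ℕ) : 0 ≤ psi m n := by unfold psi; positivity

lemma psi_mul {m n a b : ℕ} (h1 : Nat.Coprime m a) (h2 : Nat.Coprime m b) (h3 : Nat.Coprime n a)
    (h4 : Nat.Coprime n b) : psi (m * a) (n * b) = psi m n * psi a b := by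
  have hg : Nat.gcd (m * a) (n * b) = Nat.gcd m n * Nat.gcd a b := by
    rw [Nat.Coprime.gcd_mul _ h4, Nat.Coprime.gcd_mul_right_cancel _ h3.symm,
      Nat.Coprime.gcd_mul_left_cancel _ h2]
  unfold psi
  rw [hg]
  push_cast
  rw [Real.sqrt_mul (Nat.cast_nonneg m), Real.sqrt_mul (Nat.cast_nonneg n)]
  rw [div_mul_div_comm]
  congr 1
  ring

/-- a trigonometric polynomial -/
structure TP where
  ι : Type
  S : Finset ι
  n : ι → ℕ
  w : ι → ℂ

/-- its values -/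
def TP.ev (P : TP) (t : ℝ) : ℂ := ∑ i ∈ P.S, P.w i * (P.n i : ℂ) ^ (-(t * I))

/-- the quadratic form -/
def TP.V (P : TP) : ℂ :=
  ∑ i ∈ P.S, ∑ j ∈ P.S, P.w i * (starRingEnd ℂ) (P.w j) * (psi (P.n i) (P.n j) : ℂ)

/-- the form with absolute values -/
def TP.Va (P : TP) : ℝ := ∑ i ∈ P.S, ∑ j ∈ P.S, ‖P.w i‖ * ‖P.w j‖ * psi (P.n i) (P.n j)

/-- product -/
def TP.mul (P Q : TP) : TP :=
  ⟨P.ι × Q.ι, P.S ×ˢ Q.S, fun x => P.n x.1 * Q.n x.2, fun x => P.w x.1 * Q.w x.2⟩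

lemma TP.ev_mul (P Q : TP) (t : ℝ) : (P.mul Q).ev t = P.ev t * Q.ev t := by
  unfold TP.ev TP.mul
  simp only
  rw [Finset.sum_mul_sum, Finset.sum_product]
  refine Finset.sum_congr rfl fun i _ => Finset.sum_congr rfl fun j _ => ?_
  rw [Nat.cast_mul, Complex.natCast_mul_natCast_cpow]
  ring

lemma TP.V_mul (P Q : TP) (h : ∀ i ∈ P.S, ∀ j ∈ Q.S, Nat.Coprime (P.n i) (Q.n j)) :
    (P.mul Q).V = P.V * Q.V := by
  unfold TP.V TP.mul
  simp only
  rw [Finset.sum_product, Finset.sum_mul_sum]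
  refine Finset.sum_congr rfl fun i hi => Finset.sum_congr rfl fun j hj => ?_
  rw [Finset.sum_product, Finset.sum_mul_sum]
  refine Finset.sum_congr rfl fun i' hi' => Finset.sum_congr rfl fun j' hj' => ?_
  rw [psi_mul (h i hi j hj) (h i hi j' hj') (h i' hi' j hj) (h i' hi' j' hj'), map_mul]
  push_cast
  ring

lemma TP.Va_mul (P Q : TP) (h : ∀ i ∈ P.S, ∀ j ∈ Q.S, Nat.Coprime (P.n i) (Q.n j)) :
    (P.mul Q).Va = P.Va * Q.Va := by
  unfold TP.Va TP.mul
  simp only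
  rw [Finset.sum_product, Finset.sum_mul_sum]
  refine Finset.sum_congr rfl fun i hi => Finset.sum_congr rfl fun j hj => ?_
  rw [Finset.sum_product, Finset.sum_mul_sum]
  refine Finset.sum_congr rfl fun i' hi' => Finset.sum_congr rfl fun j' hj' => ?_
  rw [psi_mul (h i hi j hj) (h i hi j' hj') (h i' hi' j hj) (h i' hi' j' hj'), norm_mul, norm_mul]
  ring

lemma TP.Va_nonneg (P : TP) : 0 ≤ P.Va := by
  unfold TP.Va
  refine Finset.sum_nonneg fun i _ => Finset.sum_nonneg fun j _ => ?_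
  have := psi_nonneg (P.n i) (P.n j)
  positivity

lemma TP.norm_V_le (P : TP) : ‖P.V‖ ≤ P.Va := by
  unfold TP.V TP.Va
  refine (norm_sum_le _ _).trans (Finset.sum_le_sum fun i _ => ?_)
  refine (norm_sum_le _ _).trans (Finset.sum_le_sum fun j _ => ?_)
  rw [norm_mul, norm_mul, RCLike.norm_conj, Complex.norm_real, Real.norm_eq_abs,
    abs_of_nonneg (psi_nonneg _ _)]

/-! ### one prime -/

/-- the recursion for the Poisson form: partial sums -/
def ss (r : ℝ) (v : ℕ → ℂ) : ℕ → ℂ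
  | 0 => v 0
  | m + 1 => r * ss r v m + v (m + 1)

lemma ss_eq (r : ℝ) (v : ℕ → ℂ) (m : ℕ) :
    ss r v m = ∑ a ∈ range (m + 1), v a * (r : ℂ) ^ (m - a) := by
  induction m with
  | zero => simp [ss]
  | succ m ih =>
    rw [Finset.sum_range_succ, Nat.sub_self, pow_zero, mul_one, ss, ih, Finset.mul_sum]
    congr 1
    refine Finset.sum_congr rfl fun a ha => ?_
    rw [Finset.mem_range] at ha
    rw [show m + 1 - a = (m - a) + 1 by omega, pow_succ]
    ring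

/-- `r ^ |a - b|` -/
def rr (r : ℝ) (a b : ℕ) : ℝ := r ^ ((a - b) + (b - a))

lemma rr_symm (r : ℝ) (a b : ℕ) : rr r a b = rr r b a := by unfold rr; rw [add_comm]

lemma rr_self (r : ℝ) (a : ℕ) : rr r a a = 1 := by unfold rr; simp

/-- the form -/
def FF (r : ℝ) (v : ℕ → ℂ) (N : ℕ) : ℂ :=
  ∑ a ∈ range N, ∑ b ∈ range N, v a * (starRingEnd ℂ) (v b) * (rr r a b : ℂ)

lemma FF_succ (r : ℝ) (v : ℕ → ℂ) (m : ℕ) :
    FF r v (m + 2) = FF r v (m + 1) + v (m + 1) * (starRingEnd ℂ) (r * ss r v m) +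
      (r * ss r v m) * (starRingEnd ℂ) (v (m + 1)) + v (m + 1) * (starRingEnd ℂ) (v (m + 1)) := by
  have e1 : FF r v (m + 2) = FF r v (m + 1) +
      ∑ a ∈ range (m + 1), v a * (starRingEnd ℂ) (v (m + 1)) * (rr r a (m + 1) : ℂ) +
      (∑ b ∈ range (m + 1), v (m + 1) * (starRingEnd ℂ) (v b) * (rr r (m + 1) b : ℂ) +
        v (m + 1) * (starRingEnd ℂ) (v (m + 1)) * (rr r (m + 1) (m + 1) : ℂ)) := by
    unfold FF
    rw [Finset.sum_range_succ _ (m + 1)]
    congr 1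
    · rw [← Finset.sum_add_distrib]
      refine Finset.sum_congr rfl fun a _ => ?_
      rw [Finset.sum_range_succ _ (m + 1)]
    · rw [Finset.sum_range_succ _ (m + 1)]
  have e2 : ∑ a ∈ range (m + 1), v a * (starRingEnd ℂ) (v (m + 1)) * (rr r a (m + 1) : ℂ) =
      (r * ss r v m) * (starRingEnd ℂ) (v (m + 1)) := by
    rw [ss_eq, Finset.mul_sum, Finset.sum_mul]
    refine Finset.sum_congr rfl fun a ha => ?_
    rw [Finset.mem_range] at ha
    unfold rr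
    rw [show (a - (m + 1)) + (m + 1 - a) = (m - a) + 1 by omega]
    push_cast
    ring
  have e3 : ∑ b ∈ range (m + 1), v (m + 1) * (starRingEnd ℂ) (v b) * (rr r (m + 1) b : ℂ) =
      v (m + 1) * (starRingEnd ℂ) (r * ss r v m) := by
    rw [ss_eq, Finset.mul_sum, map_sum, Finset.mul_sum]
    refine Finset.sum_congr rfl fun b hb => ?_
    rw [Finset.mem_range] at hb
    unfold rr
    rw [show (m + 1 - b) + (b - (m + 1)) = (m - b) + 1 by omega]
    simp only [map_mul, map_pow, Complex.conj_ofReal]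
    push_cast
    ring
  rw [e1, e2, e3, rr_self]
  push_cast
  ring

lemma FF_eq (r : ℝ) (v : ℕ → ℂ) (m : ℕ) : FF r v (m + 1) =
    (((1 - r ^ 2) * ∑ j ∈ range m, ‖ss r v j‖ ^ 2 + ‖ss r v m‖ ^ 2 : ℝ) : ℂ) := by
  have hn : ∀ z : ℂ, ((‖z‖ ^ 2 : ℝ) : ℂ) = z * (starRingEnd ℂ) z := by
    intro z
    rw [Complex.mul_conj, Complex.normSq_eq_norm_sq]
  induction m with
  | zero =>
    unfold FF
    simp only [zero_add, Finset.sum_range_one, Finset.range_zero, Finset.sum_empty, mul_zero]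
    rw [hn, rr_self, ss]
    push_cast
    ring
  | succ m ih =>
    rw [FF_succ, ih, Finset.sum_range_succ]
    have e : ss r v (m + 1) = r * ss r v m + v (m + 1) := rfl
    have h1 := hn (ss r v (m + 1))
    have h2 := hn (ss r v m)
    push_cast at h1 h2 ⊢
    rw [h1, h2, e]
    simp only [map_add, map_mul, Complex.conj_ofReal]
    ring

/-- lower bound of the Poisson form -/
lemma FF_low {r : ℝ} (hr0 : 0 ≤ r) (hr : r ^ 2 ≤ 1 / 2) {v : ℕ → ℂ} (hv : ∀ a, ‖v a‖ = 1) (m : ℕ) :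
    ∃ x : ℝ, FF r v (m + 1) = (x : ℂ) ∧ ((m : ℝ) + 1) / 8 ≤ x := by
  refine ⟨_, FF_eq r v m, ?_⟩
  have h1 : ∀ j : ℕ, 1 ≤ 2 * ‖ss r v (j + 1)‖ ^ 2 + 2 * r ^ 2 * ‖ss r v j‖ ^ 2 := by
    intro j
    have e : v (j + 1) = ss r v (j + 1) - r * ss r v j := by
      show v (j + 1) = (r * ss r v j + v (j + 1)) - r * ss r v j
      ring
    have h2 : 1 ≤ ‖ss r v (j + 1)‖ + r * ‖ss r v j‖ := by
      have h3 := norm_sub_le (ss r v (j + 1)) (r * ss r v j)
      rw [← e, hv, norm_mul, Complex.norm_real, Real.norm_eq_abs, abs_of_nonneg hr0] at h3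
      exact h3
    nlinarith [sq_nonneg (‖ss r v (j + 1)‖ - r * ‖ss r v j‖), norm_nonneg (ss r v (j + 1)),
      norm_nonneg (ss r v j), mul_nonneg hr0 (norm_nonneg (ss r v j))]
  have h0 : ‖ss r v 0‖ ^ 2 = 1 := by
    have : ss r v 0 = v 0 := rfl
    rw [this, hv]; norm_num
  have key : ∀ m : ℕ, ((m : ℝ) + 1) / 4 ≤ ∑ j ∈ range m, ‖ss r v j‖ ^ 2 + ‖ss r v m‖ ^ 2 ∧
      ((m : ℝ) + 1) / 2 ≤ 2 * (∑ j ∈ range m, ‖ss r v j‖ ^ 2) + ‖ss r v m‖ ^ 2 := by
    intro m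
    induction m with
    | zero => simp [h0]; norm_num
    | succ m ih =>
      rw [Finset.sum_range_succ]
      have h2 := h1 m
      have h3 : 0 ≤ ∑ j ∈ range m, ‖ss r v j‖ ^ 2 := Finset.sum_nonneg fun _ _ => by positivity
      have h4 : r ^ 2 * ‖ss r v m‖ ^ 2 ≤ 1 / 2 * ‖ss r v m‖ ^ 2 :=
        mul_le_mul_of_nonneg_right hr (by positivity)
      push_cast
      constructor
      · nlinarith [ih.1, ih.2, sq_nonneg ‖ss r v m‖]
      · nlinarith [ih.1, ih.2, sq_nonneg ‖ss r v m‖]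
  have h5 := (key m).2
  have h6 : 0 ≤ ∑ j ∈ range m, ‖ss r v j‖ ^ 2 := Finset.sum_nonneg fun _ _ => by positivity
  nlinarith [sq_nonneg ‖ss r v m‖]

end

end Pool.Agent.R304.TL
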