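import Pool.Agent.R304.TL.Avg

/-! Moments and large values from a lower bound for the second moment over a set. -/

open Complex Filter Topology MeasureTheory

namespace Pool.Agent.R304.TL

open Pool.Agent.H306R2.SM (cl)
open Pool.Agent.H262R4.TM.TTW (zeta_cont)

lemma fourth_set {T : ℝ} (hT : 1000 ≤ T) {A : Set ℝ} (hAT : A ⊆ Set.Ioc 0 T) :
    ∫ t in A, ‖riemannZeta (cl t)‖ ^ 4 ≤ 4 / 5 * (T * Real.log T ^ 4) := by
  have h1 := Pool.Agent.TH158.FM.fourth_all T hT
  rw [intervalIntegral.integral_of_le (by linarith)] at h1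
  have e1 : ∀ t : ℝ, riemannZeta (Pool.Agent.TH158.FM.pt (1 / 2) t) = riemannZeta (cl t) := by
    intro t
    congr 1
    unfold Pool.Agent.TH158.FM.pt cl
    push_cast
    ring
  simp_rw [e1] at h1
  refine (setIntegral_mono_set ?_ (ae_of_all _ fun t => by positivity)
    (LE.le.eventuallyLE hAT)).trans h1
  exact ((zeta_cont.norm.pow 4).integrableOn_Icc (a := 0) (b := T)).mono_set
    Set.Ioc_subset_Icc_self

lemma vol_le {T : ℝ} (hT : 0 ≤ T) {A : Set ℝ} (hAT : A ⊆ Set.Ioc 0 T) :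
    volume.real A ≤ T := by
  have h := measureReal_mono (μ := volume) hAT (by simp)
  simpa [measureReal_def, hT] using h

lemma vol_ne {T : ℝ} {A : Set ℝ} (hAT : A ⊆ Set.Ioc 0 T) : volume A ≠ ⊤ :=
  ((measure_mono hAT).trans_lt (by simp)).ne

/-- all moments of order at least two -/
theorem moments {c T : ℝ} (hc : 0 < c) (hT : 1000 ≤ T) {E : Set ℝ} (hE : MeasurableSet E)
    (hET : E ⊆ Set.Ioc 0 T)
    (h2 : c * (T * Real.log T) ≤ ∫ t in E, ‖riemannZeta (cl t)‖ ^ 2) {p : ℝ} (hp : 1 ≤ p) :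
    T * (c * Real.log T) ^ p ≤ ∫ t in E, ‖riemannZeta (cl t)‖ ^ (2 * p) := by
  have hL : 0 < Real.log T := Real.log_pos (by linarith)
  set lam := c * Real.log T with hlam
  have hlam0 : 0 < lam := by positivity
  have hlp : 0 < lam ^ p := Real.rpow_pos_of_pos hlam0 _
  have hpt : ∀ t ∈ E, lam ^ p * (1 - p) + p * lam ^ p / lam * ‖riemannZeta (cl t)‖ ^ 2 ≤
      ‖riemannZeta (cl t)‖ ^ (2 * p) := by
    intro t _
    have e1 : ‖riemannZeta (cl t)‖ ^ (2 * p) = (‖riemannZeta (cl t)‖ ^ 2) ^ p := by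
      rw [Real.rpow_mul (norm_nonneg _), Real.rpow_two]
    rw [e1]
    set x := ‖riemannZeta (cl t)‖ ^ 2 with hx
    have hx0 : 0 ≤ x := by positivity
    have h1 := one_add_mul_self_le_rpow_one_add (s := x / lam - 1)
      (by have : 0 ≤ x / lam := by positivity
          linarith) hp
    have e2 : 1 + (x / lam - 1) = x / lam := by ring
    rw [e2, Real.div_rpow hx0 hlam0.le] at h1
    have h3 := mul_le_mul_of_nonneg_left h1 hlp.le
    have e3 : lam ^ p * (x ^ p / lam ^ p) = x ^ p := by field_simp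
    rw [e3] at h3
    refine le_trans (le_of_eq ?_) h3
    field_simp
    ring
  have i2 : IntegrableOn (fun t : ℝ => ‖riemannZeta (cl t)‖ ^ 2) E :=
    ((zeta_cont.norm.pow 2).integrableOn_Icc (a := 0) (b := T)).mono_set
      (hET.trans Set.Ioc_subset_Icc_self)
  have ip : IntegrableOn (fun t : ℝ => ‖riemannZeta (cl t)‖ ^ (2 * p)) E := by
    have hcont : Continuous fun t : ℝ => ‖riemannZeta (cl t)‖ ^ (2 * p) :=
      zeta_cont.norm.rpow_const fun _ => Or.inr (by linarith)
    exact (hcont.integrableOn_Icc (a := 0) (b := T)).mono_set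
      (hET.trans Set.Ioc_subset_Icc_self)
  have ic : IntegrableOn (fun _ : ℝ => lam ^ p * (1 - p)) E :=
    integrableOn_const (vol_ne hET)
  have h3 := setIntegral_mono_on (ic.add (i2.const_mul (p * lam ^ p / lam))) ip hE hpt
  simp only [Pi.add_apply] at h3
  rw [integral_add ic (i2.const_mul _), setIntegral_const, integral_const_mul, smul_eq_mul] at h3
  refine le_trans ?_ h3
  have hv := vol_le (by linarith) hET
  have k1 : T * (lam ^ p * (1 - p)) ≤ volume.real E * (lam ^ p * (1 - p)) := by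
    apply mul_le_mul_of_nonpos_right hv
    have : 1 - p ≤ 0 := by linarith
    exact mul_nonpos_of_nonneg_of_nonpos hlp.le this
  have k2 := mul_le_mul_of_nonneg_left h2 (show 0 ≤ p * lam ^ p / lam by positivity)
  have k3 : p * lam ^ p / lam * (c * (T * Real.log T)) = T * (p * lam ^ p) := by
    have : c * (T * Real.log T) = T * lam := by rw [hlam]; ring
    rw [this]
    field_simp
  rw [k3] at k2
  calc T * lam ^ p = T * (lam ^ p * (1 - p)) + T * (p * lam ^ p) := by ring
    _ ≤ _ := add_le_add k1 k2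

/-- large values -/
theorem large {c T : ℝ} (hc : 0 < c) (hT : 1000 ≤ T) {E : Set ℝ} (hE : MeasurableSet E)
    (hET : E ⊆ Set.Ioc 0 T)
    (h2 : c * (T * Real.log T) ≤ ∫ t in E, ‖riemannZeta (cl t)‖ ^ 2) :
    c ^ 2 / 4 * (T / Real.log T ^ 2) ≤
      volume.real (E ∩ {t | c / 2 * Real.log T ≤ ‖riemannZeta (cl t)‖ ^ 2}) := by
  have hL : 0 < Real.log T := Real.log_pos (by linarith)
  have hT0 : 0 < T := by linarith
  set L := Real.log T with hLdef
  set P : Set ℝ := {t | c / 2 * L ≤ ‖riemannZeta (cl t)‖ ^ 2} with hP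
  have hPm : MeasurableSet P :=
    (isClosed_le continuous_const (zeta_cont.norm.pow 2)).measurableSet
  have hA : E ∩ P ⊆ Set.Ioc 0 T := Set.inter_subset_left.trans hET
  have hB : E \ P ⊆ Set.Ioc 0 T := Set.sdiff_subset.trans hET
  have i2 : IntegrableOn (fun t : ℝ => ‖riemannZeta (cl t)‖ ^ 2) (Set.Ioc 0 T) :=
    ((zeta_cont.norm.pow 2).integrableOn_Icc (a := 0) (b := T)).mono_set
      Set.Ioc_subset_Icc_self
  have i4 : IntegrableOn (fun t : ℝ => ‖riemannZeta (cl t)‖ ^ 4) (Set.Ioc 0 T) :=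
    ((zeta_cont.norm.pow 4).integrableOn_Icc (a := 0) (b := T)).mono_set
      Set.Ioc_subset_Icc_self
  have hsplit := integral_inter_add_sdiff (μ := volume) (s := E) hPm (i2.mono_set hET)
  -- small values
  have hb : ∫ t in E \ P, ‖riemannZeta (cl t)‖ ^ 2 ≤ c / 2 * (T * L) := by
    have h3 := setIntegral_mono_on (i2.mono_set hB)
      (integrableOn_const (vol_ne hB) (C := c / 2 * L)) (hE.diff hPm) (fun t ht => by
        have h4 : ¬ (c / 2 * L ≤ ‖riemannZeta (cl t)‖ ^ 2) := ht.2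
        exact (not_le.1 h4).le)
    rw [setIntegral_const, smul_eq_mul] at h3
    have h5 := mul_le_mul_of_nonneg_right (vol_le hT0.le hB) (show 0 ≤ c / 2 * L by positivity)
    calc _ ≤ _ := h3
      _ ≤ T * (c / 2 * L) := h5
      _ = _ := by ring
  -- large values
  set lam := 2 * L ^ 3 / c with hlam
  have hlam0 : 0 < lam := by positivity
  have ha : ∫ t in E ∩ P, ‖riemannZeta (cl t)‖ ^ 2 ≤
      volume.real (E ∩ P) * (lam / 2) + 1 / (2 * lam) * (4 / 5 * (T * L ^ 4)) := by
    have ic : IntegrableOn (fun _ : ℝ => lam / 2) (E ∩ P) := integrableOn_const (vol_ne hA)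
    have h3 := setIntegral_mono_on (i2.mono_set hA)
      (ic.add ((i4.mono_set hA).const_mul (1 / (2 * lam)))) (hE.inter hPm) (fun t _ => by
        simp only [Pi.add_apply]
        set x := ‖riemannZeta (cl t)‖ ^ 2 with hx
        have e2 : ‖riemannZeta (cl t)‖ ^ 4 = x ^ 2 := by rw [hx]; ring
        rw [e2]
        have h4 : 0 ≤ 1 / (2 * lam) * (x - lam) ^ 2 := by positivity
        have h5 : 1 / (2 * lam) * (x - lam) ^ 2 = 1 / (2 * lam) * x ^ 2 - x + lam / 2 := by
          field_simp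
          ring
        linarith)
    simp only [Pi.add_apply] at h3
    rw [integral_add ic ((i4.mono_set hA).const_mul _), setIntegral_const, integral_const_mul,
      smul_eq_mul] at h3
    have h6 := fourth_set hT hA
    have h7 := mul_le_mul_of_nonneg_left h6 (show 0 ≤ 1 / (2 * lam) by positivity)
    linarith
  have e5 : 1 / (2 * lam) * (4 / 5 * (T * L ^ 4)) = 1 / 5 * (c * (T * L)) := by
    rw [hlam]
    field_simp
    ring
  rw [e5] at ha
  have h8 : 3 / 10 * (c * (T * L)) ≤ volume.real (E ∩ P) * (lam / 2) := by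
    linarith
  have e6 : lam / 2 = L ^ 3 / c := by rw [hlam]; field_simp
  rw [e6] at h8
  have h9 : 3 / 10 * (c * (T * L)) * (c / L ^ 3) ≤
      volume.real (E ∩ P) * (L ^ 3 / c) * (c / L ^ 3) :=
    mul_le_mul_of_nonneg_right h8 (by positivity)
  have e7 : volume.real (E ∩ P) * (L ^ 3 / c) * (c / L ^ 3) = volume.real (E ∩ P) := by
    field_simp
  have e8 : 3 / 10 * (c * (T * L)) * (c / L ^ 3) = 3 / 10 * (c ^ 2 * (T / L ^ 2)) := by
    field_simp
  rw [e7, e8] at h9
  have : 0 ≤ c ^ 2 * (T / L ^ 2) := by positivity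
  linarith

end Pool.Agent.R304.TL
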