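import Pool.Agent.R304.TL.Tail

/-! Limits with respect to the second moment: trigonometric polynomials. -/

open Complex Finset Filter Topology MeasureTheory

namespace Pool.Agent.R304.TL

open Pool.Agent.H306R2.SM (om cl Yf)
open Pool.Agent.H262R4.TM (Rng Ck)
open Pool.Agent.H262R4.TM.TTW (om_nonneg om_cont cl_cont zeta_cont int2)

noncomputable section

/-- the mean over a window -/
def WW (T X : ℝ) (g : ℝ → ℂ) : ℂ := ∫ t in Set.Ioc 0 T, (wz (kT T) X t : ℂ) * g t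

/-- convergence of the means -/
def LimC (g : ℝ → ℂ) (c : ℂ) : Prop := ∀ ε : ℝ, 0 < ε → ∀ᶠ T : ℝ in atTop, ∀ X : ℝ, T / 4 ≤ X →
  X ≤ T / 2 → ‖WW T X g - c * Real.log T‖ ≤ ε * Real.log T

lemma WW_int {T X : ℝ} {g : ℝ → ℂ} (hg : Continuous g) :
    IntegrableOn (fun t => (wz (kT T) X t : ℂ) * g t) (Set.Ioc 0 T) :=
  (((Complex.continuous_ofReal.comp (wz_cont (kT T) X)).mul hg).integrableOn_Icc).mono_set
    Set.Ioc_subset_Icc_self

lemma wz_intT {T X : ℝ} {g : ℝ → ℝ} (hg : Continuous g) :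
    IntegrableOn (fun t => wz (kT T) X t * g t) (Set.Ioc 0 T) :=
  (((wz_cont (kT T) X).mul hg).integrableOn_Icc).mono_set Set.Ioc_subset_Icc_self

lemma WW_add {T X : ℝ} {g h : ℝ → ℂ} (hg : Continuous g) (hh : Continuous h) :
    WW T X (fun t => g t + h t) = WW T X g + WW T X h := by
  unfold WW
  rw [← integral_add (WW_int hg) (WW_int hh)]
  refine integral_congr_ae (Eventually.of_forall fun t => ?_)
  simp only
  ring

lemma WW_sub {T X : ℝ} {g h : ℝ → ℂ} (hg : Continuous g) (hh : Continuous h) :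
    WW T X (fun t => g t - h t) = WW T X g - WW T X h := by
  unfold WW
  rw [← integral_sub (WW_int hg) (WW_int hh)]
  refine integral_congr_ae (Eventually.of_forall fun t => ?_)
  simp only
  ring

lemma WW_smul {T X : ℝ} (a : ℂ) (g : ℝ → ℂ) : WW T X (fun t => a * g t) = a * WW T X g := by
  unfold WW
  rw [← integral_const_mul]
  refine integral_congr_ae (Eventually.of_forall fun t => ?_)
  simp only
  ring

lemma WW_real {T X : ℝ} (f : ℝ → ℝ) :
    WW T X (fun t => (f t : ℂ)) = ((∫ t in Set.Ioc 0 T, wz (kT T) X t * f t : ℝ) : ℂ) := by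
  unfold WW
  have h := integral_complex_ofReal (μ := volume.restrict (Set.Ioc 0 T))
    (f := fun t => wz (kT T) X t * f t)
  rw [← h]
  refine integral_congr_ae (Eventually.of_forall fun t => ?_)
  simp

lemma WW_le {T X : ℝ} (hX : 0 < X) {g : ℝ → ℂ} {f : ℝ → ℝ}
    (hf : IntegrableOn (fun t => wz (kT T) X t * f t) (Set.Ioc 0 T))
    (h : ∀ t ∈ Set.Ioc 0 T, ‖g t‖ ≤ f t) :
    ‖WW T X g‖ ≤ ∫ t in Set.Ioc 0 T, wz (kT T) X t * f t := by
  unfold WW
  refine norm_integral_le_of_norm_le hf ?_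
  refine (ae_restrict_iff' measurableSet_Ioc).mpr (Eventually.of_forall fun t ht => ?_)
  have h0 := wz_nonneg (kT T) hX ht.1.le
  rw [norm_mul, Complex.norm_real, Real.norm_eq_abs, abs_of_nonneg h0]
  exact mul_le_mul_of_nonneg_left (h t ht) h0

/-- the mass inside -/
lemma massT : ∀ᶠ T : ℝ in atTop, ∀ X : ℝ, T / 4 ≤ X → X ≤ T →
    ∫ t in Set.Ioc 0 T, wz (kT T) X t ≤ 2 * Real.log T := by
  filter_upwards [mass, kT_facts, eventually_gt_atTop (0 : ℝ)] with T hT hk hT0 X h1 h2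
  refine le_trans ?_ (hT X h1 h2)
  have hX : 0 < X := by linarith
  refine setIntegral_mono_set (wz_int1 hk.1 hX) ?_ (Set.Ioc_subset_Ioi_self).eventuallyLE
  exact (ae_restrict_iff' measurableSet_Ioi).mpr (Eventually.of_forall fun t ht =>
    wz_nonneg _ hX (le_of_lt ht))

lemma LimC.add {g h : ℝ → ℂ} {c d : ℂ} (hg : Continuous g) (hh : Continuous h)
    (h1 : LimC g c) (h2 : LimC h d) : LimC (fun t => g t + h t) (c + d) := by
  intro ε hε
  filter_upwards [h1 (ε / 2) (by positivity), h2 (ε / 2) (by positivity)] with T a1 a2 X x1 x2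
  rw [WW_add hg hh]
  have := norm_add_le (WW T X g - c * Real.log T) (WW T X h - d * Real.log T)
  calc ‖WW T X g + WW T X h - (c + d) * Real.log T‖ =
      ‖(WW T X g - c * Real.log T) + (WW T X h - d * Real.log T)‖ := by congr 1; ring
    _ ≤ ε / 2 * Real.log T + ε / 2 * Real.log T := this.trans (add_le_add (a1 X x1 x2) (a2 X x1 x2))
    _ = ε * Real.log T := by ring

lemma LimC.smul {g : ℝ → ℂ} {c : ℂ} (a : ℂ) (h1 : LimC g c) : LimC (fun t => a * g t) (a * c) := by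
  intro ε hε
  filter_upwards [h1 (ε / (‖a‖ + 1)) (by positivity),
    Real.tendsto_log_atTop.eventually_ge_atTop 0] with T a1 hl X x1 x2
  rw [WW_smul, mul_assoc, ← mul_sub, norm_mul]
  have h2 := a1 X x1 x2
  calc ‖a‖ * ‖WW T X g - c * Real.log T‖ ≤ (‖a‖ + 1) * (ε / (‖a‖ + 1) * Real.log T) := by
        apply mul_le_mul (by linarith) h2 (norm_nonneg _) (by positivity)
    _ = ε * Real.log T := by field_simp

/-- a fixed polynomial, restricted to `(0, T]` -/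
theorem fixedC {P : TP} {H : ℕ} (hP : ∀ i ∈ P.S, 1 ≤ P.n i ∧ P.n i ≤ H)
    (hw : ∀ i ∈ P.S, ‖P.w i‖ ≤ 1) {v : ℝ} (hv : P.V = (v : ℂ)) :
    LimC (fun t => ((‖P.ev t‖ ^ 2 : ℝ) : ℂ)) v := by
  intro ε hε
  set B : ℝ := (∑ i ∈ P.S, ‖P.w i‖) ^ 2 + 1 with hB
  have hB0 : 0 < B := by positivity
  have hbd : ∀ t, ‖P.ev t‖ ^ 2 ≤ B := by
    intro t
    have h1 := ev_le' (fun i hi => (hP i hi).1) t
    have h2 := pow_le_pow_left₀ (norm_nonneg _) h1 2
    linarith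
  filter_upwards [fixed hP hw hv (show 0 < ε / 2 by positivity),
    far (show 0 < ε / (2 * B) by positivity), kT_facts, eventually_gt_atTop (0 : ℝ),
    Real.tendsto_log_atTop.eventually_ge_atTop 1] with T h1 h2 hk hT0 hl X x1 x2
  have hX : 0 < X := by linarith
  have e1 := h1 X x1 (by linarith)
  have e2 := h2 X x1 x2
  have hev : Continuous fun t => ‖P.ev t‖ ^ 2 :=
    (TP.ev_cont (fun i hi => (hP i hi).1)).norm.pow 2
  have hint := wz_int hk.1 hX hev (C := B) (fun t => by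
    rw [abs_of_nonneg (by positivity)]; exact hbd t)
  have hsp : ∫ t in Set.Ioi (0 : ℝ), wz (kT T) X t * ‖P.ev t‖ ^ 2 =
      (∫ t in Set.Ioc 0 T, wz (kT T) X t * ‖P.ev t‖ ^ 2) +
        ∫ t in Set.Ioi T, wz (kT T) X t * ‖P.ev t‖ ^ 2 := by
    rw [← setIntegral_union Set.Ioc_disjoint_Ioi_same measurableSet_Ioi
      (hint.mono_set Set.Ioc_subset_Ioi_self) (hint.mono_set (Set.Ioi_subset_Ioi hT0.le)),
      Set.Ioc_union_Ioi_eq_Ioi hT0.le]
  have hfar : |∫ t in Set.Ioi T, wz (kT T) X t * ‖P.ev t‖ ^ 2| ≤ ε / 2 := by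
    have h3 : ∀ t ∈ Set.Ioi T, 0 ≤ wz (kT T) X t := fun t ht =>
      wz_nonneg _ hX (hT0.le.trans (le_of_lt ht))
    rw [abs_of_nonneg (setIntegral_nonneg measurableSet_Ioi fun t ht =>
      mul_nonneg (h3 t ht) (by positivity))]
    have h4 : ∫ t in Set.Ioi T, wz (kT T) X t * ‖P.ev t‖ ^ 2 ≤
        ∫ t in Set.Ioi T, wz (kT T) X t * B := by
      refine setIntegral_mono_on (hint.mono_set (Set.Ioi_subset_Ioi hT0.le)) ?_
        measurableSet_Ioi fun t ht => mul_le_mul_of_nonneg_left (hbd t) (h3 t ht)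
      exact ((wz_int1 hk.1 hX).mono_set (Set.Ioi_subset_Ioi hT0.le)).mul_const _
    rw [integral_mul_const] at h4
    refine h4.trans ((mul_le_mul_of_nonneg_right e2 hB0.le).trans (le_of_eq ?_))
    field_simp
  rw [WW_real, ← Complex.ofReal_mul, ← Complex.ofReal_sub, Complex.norm_real, Real.norm_eq_abs]
  rw [hsp] at e1
  rw [abs_le] at e1 hfar ⊢
  have hll : ε / 2 ≤ ε / 2 * Real.log T := le_mul_of_one_le_right (by positivity) hl
  constructor <;> linarith [e1.1, e1.2, hfar.1, hfar.2]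

/-- the characters -/
def chi (h : ℕ × ℕ) (t : ℝ) : ℂ :=
  (h.1 : ℂ) ^ (-(t * I)) * (starRingEnd ℂ) ((h.2 : ℂ) ^ (-(t * I)))

lemma chi_cont {h : ℕ × ℕ} (h1 : 1 ≤ h.1) (h2 : 1 ≤ h.2) : Continuous (chi h) := by
  unfold chi
  have e1 : (h.1 : ℂ) ≠ 0 := by exact_mod_cast (by omega : h.1 ≠ 0)
  have e2 : (h.2 : ℂ) ≠ 0 := by exact_mod_cast (by omega : h.2 ≠ 0)
  have c1 : Continuous fun t : ℝ => (h.1 : ℂ) ^ (-(t * I)) :=
    Continuous.const_cpow (by fun_prop) (Or.inl e1)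
  have c2 : Continuous fun t : ℝ => (h.2 : ℂ) ^ (-(t * I)) :=
    Continuous.const_cpow (by fun_prop) (Or.inl e2)
  exact c1.mul (Complex.continuous_conj.comp c2)

lemma norm_it {n : ℕ} (hn : 1 ≤ n) (t : ℝ) : ‖(n : ℂ) ^ (-(t * I))‖ = 1 := by
  rw [Complex.norm_natCast_cpow_of_pos hn]
  simp

/-- two frequencies -/
def P2 (h k : ℕ) (ω : ℂ) : TP := ⟨Bool, Finset.univ, fun b => if b then h else k,
  fun b => if b then 1 else ω⟩

lemma P2_ev (h k : ℕ) (ω : ℂ) (t : ℝ) :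
    (P2 h k ω).ev t = (h : ℂ) ^ (-(t * I)) + ω * (k : ℂ) ^ (-(t * I)) := by
  unfold TP.ev P2
  simp

lemma P2_V (h k : ℕ) (hh : 1 ≤ h) (hk : 1 ≤ k) (ω : ℂ) (hω : ω * (starRingEnd ℂ) ω = 1) :
    (P2 h k ω).V = 2 + (ω + (starRingEnd ℂ) ω) * psi h k := by
  have e : ∀ n : ℕ, 1 ≤ n → psi n n = 1 := by
    intro n hn
    unfold psi
    have : (0 : ℝ) < n := by exact_mod_cast hn
    rw [Nat.gcd_self, Real.mul_self_sqrt this.le]
    field_simp
  have e2 : psi k h = psi h k := by unfold psi; rw [Nat.gcd_comm, mul_comm]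
  unfold TP.V P2
  simp only [Fintype.sum_bool, if_true, Bool.false_eq_true, if_false, e h hh, e k hk, map_one,
    one_mul, mul_one, e2, hω]
  push_cast
  ring

lemma P2_sq (h k : ℕ) (hh : 1 ≤ h) (hk : 1 ≤ k) (ω : ℂ) (hω : ‖ω‖ = 1) (t : ℝ) :
    ‖(P2 h k ω).ev t‖ ^ 2 = 2 + 2 * ((starRingEnd ℂ) ω * chi (h, k) t).re := by
  rw [P2_ev, ← Complex.normSq_eq_norm_sq, Complex.normSq_add, Complex.normSq_eq_norm_sq,
    Complex.normSq_eq_norm_sq, norm_mul, hω, norm_it hh, norm_it hk, map_mul]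
  unfold chi
  have : (h : ℂ) ^ (-(t * I)) * ((starRingEnd ℂ) ω * (starRingEnd ℂ) ((k : ℂ) ^ (-(t * I)))) =
      (starRingEnd ℂ) ω * ((h : ℂ) ^ (-(t * I)) * (starRingEnd ℂ) ((k : ℂ) ^ (-(t * I)))) := by
    ring
  rw [this]
  ring

lemma one_lim : LimC (fun _ => 1) 1 := by
  have h := fixedC (P := ⟨Unit, Finset.univ, fun _ => 1, fun _ => 1⟩) (H := 1)
    (fun i _ => ⟨le_rfl, le_rfl⟩) (fun i _ => by simp) (v := 1) (by
      unfold TP.V psi; simp)
  have e : (fun t : ℝ => ((‖(⟨Unit, Finset.univ, fun _ => 1, fun _ => 1⟩ : TP).ev t‖ ^ 2 : ℝ) : ℂ)) =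
      fun _ => 1 := by
    funext t
    unfold TP.ev
    simp
  rw [e] at h
  simpa using h

theorem chi_lim {h : ℕ × ℕ} (h1 : 1 ≤ h.1) (h2 : 1 ≤ h.2) : LimC (chi h) (psi h.1 h.2) := by
  obtain ⟨a, b⟩ := h
  simp only at h1 h2 ⊢
  have hw : ∀ ω : ℂ, ‖ω‖ = 1 → ∀ i ∈ (P2 a b ω).S, ‖(P2 a b ω).w i‖ ≤ 1 := by
    intro ω hω i _
    unfold P2
    simp only
    split_ifs <;> simp [hω]
  have hP : ∀ ω : ℂ, ∀ i ∈ (P2 a b ω).S, 1 ≤ (P2 a b ω).n i ∧ (P2 a b ω).n i ≤ max a b := by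
    intro ω i _
    unfold P2
    simp only
    split_ifs
    · exact ⟨h1, le_max_left _ _⟩
    · exact ⟨h2, le_max_right _ _⟩
  have l1 := fixedC (hP 1) (hw 1 (by simp)) (v := 2 + 2 * psi a b) (by
    rw [P2_V a b h1 h2 1 (by simp), map_one]
    push_cast
    ring)
  have l2 := fixedC (hP I) (hw I (by simp)) (v := 2) (by
    rw [P2_V a b h1 h2 I (by simp)]
    simp)
  have l3 := one_lim
  have c1 : Continuous fun t => ((‖(P2 a b 1).ev t‖ ^ 2 : ℝ) : ℂ) :=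
    Complex.continuous_ofReal.comp ((TP.ev_cont (fun i hi => (hP 1 i hi).1)).norm.pow 2)
  have c2 : Continuous fun t => ((‖(P2 a b I).ev t‖ ^ 2 : ℝ) : ℂ) :=
    Complex.continuous_ofReal.comp ((TP.ev_cont (fun i hi => (hP I i hi).1)).norm.pow 2)
  have l4 := (l1.smul (1 / 2)).add (by fun_prop) (by fun_prop) ((l2.smul (I / 2)).add
    (by fun_prop) (by fun_prop) (l3.smul (-(1 + I))))
  have e1 : (fun t : ℝ => (1 / 2 : ℂ) * ((‖(P2 a b 1).ev t‖ ^ 2 : ℝ) : ℂ) +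
      (I / 2 * ((‖(P2 a b I).ev t‖ ^ 2 : ℝ) : ℂ) + -(1 + I) * 1)) = chi (a, b) := by
    funext t
    rw [P2_sq a b h1 h2 1 (by simp), P2_sq a b h1 h2 I (by simp)]
    have k1 : ((starRingEnd ℂ) I * chi (a, b) t).re = (chi (a, b) t).im := by
      simp [Complex.conj_I]
    have k2 : ((starRingEnd ℂ) 1 * chi (a, b) t).re = (chi (a, b) t).re := by simp
    rw [k1, k2]
    conv_rhs => rw [← Complex.re_add_im (chi (a, b) t)]
    push_cast
    ring
  rw [e1] at l4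
  convert l4 using 1
  push_cast
  ring

end

end Pool.Agent.R304.TL
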