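import Pool.Agent.R304.TL.Lm1

/-! Limits with respect to the second moment: continuous functions of Dirichlet polynomials. -/

open Complex Finset Filter Topology MeasureTheory Pointwise

namespace Pool.Agent.R304.TL

noncomputable section

/-- the generators -/
def Gn : Set (ℝ → ℂ) := {g | ∃ h : ℕ × ℕ, 1 ≤ h.1 ∧ 1 ≤ h.2 ∧ g = chi h}

/-- trigonometric polynomials with frequencies `log (h / k)` -/
def Sp : Submodule ℂ (ℝ → ℂ) := Submodule.span ℂ Gn

lemma chi_mem {h : ℕ × ℕ} (h1 : 1 ≤ h.1) (h2 : 1 ≤ h.2) : chi h ∈ Sp :=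
  Submodule.subset_span ⟨h, h1, h2, rfl⟩

lemma Sp_lim {g : ℝ → ℂ} (hg : g ∈ Sp) : Continuous g ∧ ∃ c : ℂ, LimC g c := by
  unfold Sp at hg
  induction hg using Submodule.span_induction with
  | mem g hg =>
    obtain ⟨h, h1, h2, rfl⟩ := hg
    exact ⟨chi_cont h1 h2, _, chi_lim h1 h2⟩
  | zero =>
    refine ⟨continuous_const, 0, ?_⟩
    have := one_lim.smul 0
    simpa [Pi.zero_def] using this
  | add g h _ _ ih1 ih2 =>
    obtain ⟨c1, a, ha⟩ := ih1
    obtain ⟨c2, b, hb⟩ := ih2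
    exact ⟨c1.add c2, a + b, ha.add c1 c2 hb⟩
  | smul r g _ ih =>
    obtain ⟨c1, a, ha⟩ := ih
    exact ⟨c1.const_smul r, r * a, ha.smul r⟩

lemma Sp_one : (fun _ : ℝ => (1 : ℂ)) ∈ Sp := by
  have h : chi (1, 1) = fun _ : ℝ => (1 : ℂ) := by
    funext t
    simp [chi]
  rw [← h]
  exact chi_mem le_rfl le_rfl

lemma Sp_mul {g h : ℝ → ℂ} (hg : g ∈ Sp) (hh : h ∈ Sp) : (fun t => g t * h t) ∈ Sp := by
  have h1 : g * h ∈ Sp * Sp := Submodule.mul_mem_mul hg hh
  unfold Sp at h1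
  rw [Submodule.span_mul_span] at h1
  refine (Submodule.span_mono ?_ : Submodule.span ℂ (Gn * Gn) ≤ Submodule.span ℂ Gn) h1
  rintro _ ⟨_, ⟨a, a1, a2, rfl⟩, _, ⟨b, b1, b2, rfl⟩, rfl⟩
  refine ⟨(a.1 * b.1, a.2 * b.2), Nat.mul_pos a1 b1, Nat.mul_pos a2 b2, ?_⟩
  funext t
  simp only [Pi.mul_apply]
  unfold chi
  simp only
  rw [Nat.cast_mul, Nat.cast_mul, Complex.natCast_mul_natCast_cpow,
    Complex.natCast_mul_natCast_cpow, map_mul]
  ring

lemma Sp_conj {g : ℝ → ℂ} (hg : g ∈ Sp) : (fun t => (starRingEnd ℂ) (g t)) ∈ Sp := by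
  unfold Sp at hg
  induction hg using Submodule.span_induction with
  | mem g hg =>
    obtain ⟨h, h1, h2, rfl⟩ := hg
    have : (fun t => (starRingEnd ℂ) (chi h t)) = chi (h.2, h.1) := by
      funext t
      unfold chi
      simp only [map_mul, Complex.conj_conj]
      ring
    rw [this]
    exact chi_mem h2 h1
  | zero =>
    have h : (fun t : ℝ => (starRingEnd ℂ) ((0 : ℝ → ℂ) t)) = 0 := by funext t; simp
    rw [h]
    exact Sp.zero_mem
  | add g h _ _ ih1 ih2 =>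
    have := Sp.add_mem ih1 ih2
    convert this using 1
    funext t
    simp
  | smul r g _ ih =>
    have := Sp.smul_mem ((starRingEnd ℂ) r) ih
    convert this using 1
    funext t
    simp

/-- the algebra of the functions whose values are trigonometric polynomials -/
def BB (m : ℕ) (R : ℝ) (D : ℝ → Fin m → ℂ) (hD : ∀ t, D t ∈ Metric.closedBall (0 : Fin m → ℂ) R) :
    StarSubalgebra ℂ C(Metric.closedBall (0 : Fin m → ℂ) R, ℂ) where
  carrier := {f | (fun t => f ⟨D t, hD t⟩) ∈ Sp}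
  mul_mem' := fun ha hb => Sp_mul ha hb
  one_mem' := Sp_one
  add_mem' := fun ha hb => Sp.add_mem ha hb
  zero_mem' := Sp.zero_mem
  algebraMap_mem' := fun r => by
    have h := Sp.smul_mem r Sp_one
    have e : (r • fun _ : ℝ => (1 : ℂ)) = fun t : ℝ =>
        (algebraMap ℂ C(Metric.closedBall (0 : Fin m → ℂ) R, ℂ) r) ⟨D t, hD t⟩ := by
      funext t
      simp
    rw [e] at h
    exact h
  star_mem' := fun ha => Sp_conj ha

theorem SW {m : ℕ} {D : ℝ → Fin m → ℂ} {R : ℝ} (hD : ∀ t, ‖D t‖ ≤ R)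
    (hS : ∀ j, (fun t => D t j) ∈ Sp) {Φ : (Fin m → ℂ) → ℂ} (hΦ : Continuous Φ) {ε : ℝ}
    (hε : 0 < ε) : ∃ g ∈ Sp, ∀ t, ‖Φ (D t) - g t‖ ≤ ε := by
  have hD' : ∀ t, D t ∈ Metric.closedBall (0 : Fin m → ℂ) R := fun t => by
    rw [mem_closedBall_zero_iff]; exact hD t
  have : CompactSpace (Metric.closedBall (0 : Fin m → ℂ) R) :=
    isCompact_iff_compactSpace.1 (isCompact_closedBall 0 R)
  have hsep : (BB m R D hD').SeparatesPoints := by
    intro x y hxy
    have hne : (x : Fin m → ℂ) ≠ y := fun h => hxy (Subtype.ext h)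
    obtain ⟨j, hj⟩ := Function.ne_iff.1 hne
    refine ⟨fun w => (w : Fin m → ℂ) j, ⟨⟨fun w => (w : Fin m → ℂ) j,
      (continuous_apply j).comp continuous_subtype_val⟩, ?_, rfl⟩, hj⟩
    exact hS j
  have htop := ContinuousMap.starSubalgebra_topologicalClosure_eq_top_of_separatesPoints
    (BB m R D hD') hsep
  set f : C(Metric.closedBall (0 : Fin m → ℂ) R, ℂ) := ⟨fun w => Φ w,
    hΦ.comp continuous_subtype_val⟩ with hf
  have hmem : f ∈ (BB m R D hD').topologicalClosure := by rw [htop]; trivial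
  have hmem' : f ∈ closure ((BB m R D hD' : StarSubalgebra ℂ _) : Set C(_, ℂ)) := hmem
  obtain ⟨g, hg, hdist⟩ := Metric.mem_closure_iff.1 hmem' ε hε
  refine ⟨fun t => g ⟨D t, hD' t⟩, hg, fun t => ?_⟩
  have h1 := ContinuousMap.dist_apply_le_dist (f := f) (g := g) ⟨D t, hD' t⟩
  rw [dist_eq_norm] at h1
  exact h1.trans hdist.le

/-- approximate limits for continuous functions of Dirichlet polynomials -/
theorem fix_lim {m : ℕ} {D : ℝ → Fin m → ℂ} {R : ℝ} (hD : ∀ t, ‖D t‖ ≤ R)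
    (hS : ∀ j, (fun t => D t j) ∈ Sp) {Φ : (Fin m → ℂ) → ℂ} (hΦ : Continuous Φ) {ε : ℝ}
    (hε : 0 < ε) : ∃ c : ℂ, ∀ᶠ T : ℝ in atTop, ∀ X : ℝ, T / 4 ≤ X → X ≤ T / 2 →
      ‖WW T X (fun t => Φ (D t)) - c * Real.log T‖ ≤ ε * Real.log T := by
  obtain ⟨g, hg, hgt⟩ := SW hD hS hΦ (show 0 < ε / 4 by positivity)
  obtain ⟨hgc, c, hc⟩ := Sp_lim hg
  refine ⟨c, ?_⟩
  have hDc : Continuous D := continuous_pi fun j => (Sp_lim (hS j)).1
  have hΦD : Continuous fun t => Φ (D t) := hΦ.comp hDc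
  filter_upwards [hc (ε / 2) (by positivity), massT, eventually_gt_atTop (0 : ℝ)]
    with T h1 h2 hT0 X x1 x2
  have hX : 0 < X := by linarith
  have h3 := WW_le (T := T) hX (g := fun t => Φ (D t) - g t) (f := fun _ => ε / 4)
    (wz_intT continuous_const) (fun t _ => hgt t)
  rw [WW_sub hΦD hgc, integral_mul_const] at h3
  have h4 := h2 X x1 (by linarith)
  have h5 := h1 X x1 x2
  have h6 : (∫ t in Set.Ioc 0 T, wz (kT T) X t) * (ε / 4) ≤ 2 * Real.log T * (ε / 4) :=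
    mul_le_mul_of_nonneg_right h4 (by positivity)
  calc ‖WW T X (fun t => Φ (D t)) - c * Real.log T‖ =
      ‖(WW T X (fun t => Φ (D t)) - WW T X g) + (WW T X g - c * Real.log T)‖ := by
        congr 1; ring
    _ ≤ ‖WW T X (fun t => Φ (D t)) - WW T X g‖ + ‖WW T X g - c * Real.log T‖ := norm_add_le _ _
    _ ≤ 2 * Real.log T * (ε / 4) + ε / 2 * Real.log T := add_le_add (h3.trans h6) h5
    _ = ε * Real.log T := by ring

end

end Pool.Agent.R304.TL
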