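import Pool.Agent.R304.TL.Lm2
import Pool.Agent.R304.TL.LV

/-! Limits with respect to the second moment: tails. -/

open Complex Finset Filter Topology MeasureTheory

namespace Pool.Agent.R304.TL

open ZU
open Pool.Agent.H306R2.SM (om cl Yf)
open Pool.Agent.H262R4.TM.TTW (om_nonneg om_cont cl_cont zeta_cont int2)

noncomputable section

/-- uniform bound for the Dirichlet polynomials -/
theorem genb {σ1 : ℝ} (h1 : 1 / 2 < σ1) : ∀ᶠ T : ℝ in atTop, ∀ X : ℝ, T / 4 ≤ X → X ≤ T →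
    ∀ z : ℂ, σ1 ≤ z.re → ∀ A : Finset ℕ, (∀ m ∈ A, 1 ≤ m ∧ (m : ℝ) ≤ T ^ ((1 : ℝ) / 8)) → ∀ κ : ℝ,
      ∑ x ∈ A ×ˢ A, fs σ1 x ≤ κ →
      ∫ t in Set.Ioc 0 T, wz (kT T) X t * ‖(IP A (c1 z)).ev t‖ ^ 2 ≤ 2 * κ * Real.log T + 1 := by
  obtain ⟨η, hη, hasy⟩ := asyT
  filter_upwards [hasy, kT_facts, ev_rpow_neg hη 1 one_pos,
    Real.tendsto_log_atTop.eventually_ge_atTop 4, eventually_ge_atTop (1 : ℝ)]
    with T hT hk hM hl hT1 X hX1 hX2 z hz A hA κ hκ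
  obtain ⟨hk1, -, hk3⟩ := hk
  obtain ⟨-, hX7⟩ := hk3 X hX1 hX2
  have hX0 : 0 < X := by linarith
  have hT0 : 0 < T := by linarith
  set P := IP A (c1 z) with hP
  set H : ℕ := ⌊T ^ ((1 : ℝ) / 8)⌋₊ with hH
  have hHT : (H : ℝ) ≤ T ^ ((1 : ℝ) / 8) := Nat.floor_le (by positivity)
  have hPn : ∀ i ∈ P.S, 1 ≤ P.n i ∧ P.n i ≤ H := fun i hi =>
    ⟨(hA i hi).1, Nat.le_floor (hA i hi).2⟩
  have hco := hT X hX1 hX2 P H 1 one_pos hHT hPn (fun n => by
    refine co_id zero_le_one (fun m hm => ?_) n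
    have a1 := norm_c1 hz (hA m hm).1
    have a2 := pow_sqrt h1 (hA m hm).1
    exact (mul_le_mul_of_nonneg_right a1 (Real.sqrt_nonneg _)).trans a2)
  have hVa : P.Va ≤ κ := by
    have a1 := IP_Va (A := A) (c := c1 z) (σ := σ1) (C := 1) zero_le_one (fun m hm => by
      rw [one_mul]; exact norm_c1 hz (hA m hm).1)
    linarith
  have hVa0 := P.Va_nonneg
  have hκ0 : 0 ≤ κ := hVa0.trans hVa
  have hV : P.V.re ≤ κ := (Complex.re_le_norm _).trans (P.norm_V_le.trans hVa)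
  obtain ⟨hL1, hL2⟩ := LL_bound hk1 hX7 hX1 hX2
  have hLL0 : 0 ≤ LL (kT T) X := by linarith
  have hlogH : Real.log (H : ℝ) ≤ 1 / 8 * Real.log T := by
    rcases Nat.eq_zero_or_pos H with hH0 | hH0
    · rw [hH0]; simp; linarith
    · rw [← Real.log_rpow hT0]
      exact Real.log_le_log (by exact_mod_cast hH0) hHT
  have hlogH0 : 0 ≤ Real.log (H : ℝ) := Real.log_natCast_nonneg H
  have hJ := (abs_le.1 hco).2
  have b1 : LL (kT T) X * P.V.re ≤ (Real.log T + 2) * κ :=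
    (mul_le_mul_of_nonneg_left hV hLL0).trans (mul_le_mul_of_nonneg_right hL2 hκ0)
  have b2 : 2 * Real.log (H : ℝ) * P.Va ≤ 2 * (1 / 8 * Real.log T) * κ := by gcongr
  have b3 : 2 * κ ≤ 2 / 3 * (κ * Real.log T) := by nlinarith
  have hsub : ∫ t in Set.Ioc 0 T, wz (kT T) X t * ‖P.ev t‖ ^ 2 ≤
      ∫ t in Set.Ioi (0 : ℝ), wz (kT T) X t * ‖P.ev t‖ ^ 2 := by
    refine setIntegral_mono_set ?_ ?_ (Set.Ioc_subset_Ioi_self).eventuallyLE
    · exact int_ev (fun i hi => (hPn i hi).1) hk1 hX0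
    · exact (ae_restrict_iff' measurableSet_Ioi).mpr (Eventually.of_forall fun t ht =>
        mul_nonneg (wz_nonneg _ hX0 (le_of_lt ht)) (by positivity))
  have b4 : 0 ≤ κ * Real.log T := by positivity
  linarith

lemma DN_ev (N : ℕ) (z : ℂ) (t : ℝ) : DN N (z + t * I) = (IP (Finset.Icc 1 N) (c1 z)).ev t := by
  unfold DN TP.ev IP c1
  refine Finset.sum_congr rfl fun m hm => ?_
  have hm' : (m : ℂ) ≠ 0 := by
    have := (Finset.mem_Icc.1 hm).1
    exact_mod_cast (by omega : m ≠ 0)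
  simp only [id]
  rw [← Complex.cpow_add _ _ hm']
  congr 1
  ring

lemma DN_sub_ev {N0 N : ℕ} (h : N0 ≤ N) (z : ℂ) (t : ℝ) :
    DN N (z + t * I) - DN N0 (z + t * I) = (IP (Finset.Icc (N0 + 1) N) (c1 z)).ev t := by
  rw [DN_ev, DN_ev]
  unfold TP.ev IP
  simp only
  have h1 : Finset.Icc 1 N = Finset.Icc 1 N0 ∪ Finset.Icc (N0 + 1) N := by
    ext m
    simp only [Finset.mem_union, Finset.mem_Icc]
    omega
  have h2 : Disjoint (Finset.Icc 1 N0) (Finset.Icc (N0 + 1) N) := by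
    rw [Finset.disjoint_left]
    intro m hm hm'
    have := Finset.mem_Icc.1 hm
    have := Finset.mem_Icc.1 hm'
    omega
  rw [h1, Finset.sum_union h2]
  ring

/-- the tails of the Dirichlet polynomials -/
theorem dtail {σ1 : ℝ} (h1 : 1 / 2 < σ1) {κ : ℝ} (hκ : 0 < κ) : ∃ N0 : ℕ, ∀ᶠ T : ℝ in atTop,
    ∀ X : ℝ, T / 4 ≤ X → X ≤ T → ∀ z : ℂ, σ1 ≤ z.re → ∀ N : ℕ, N0 ≤ N →
      (N : ℝ) ≤ T ^ ((1 : ℝ) / 8) →
      ∫ t in Set.Ioc 0 T, wz (kT T) X t * ‖DN N (z + t * I) - DN N0 (z + t * I)‖ ^ 2 ≤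
        κ * Real.log T := by
  obtain ⟨N0, hN0⟩ := fs_small h1 (show 0 < κ / 4 by positivity)
  refine ⟨N0, ?_⟩
  filter_upwards [genb h1, Real.tendsto_log_atTop.eventually_ge_atTop (2 / κ)]
    with T hT hl X x1 x2 z hz N hN hNT
  have h2 := hT X x1 x2 z hz (Finset.Icc (N0 + 1) N) (fun m hm => by
    have h3 := Finset.mem_Icc.1 hm
    refine ⟨by omega, le_trans ?_ hNT⟩
    exact_mod_cast h3.2) (κ / 4) (hN0 _ fun m hm => by
    have h3 := Finset.mem_Icc.1 hm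
    omega)
  simp_rw [DN_sub_ev hN]
  rw [div_le_iff₀ hκ] at hl
  linarith

/-- the Dirichlet polynomials are bounded in mean square -/
theorem dbdd {σ1 : ℝ} (h1 : 1 / 2 < σ1) : ∃ C : ℝ, 0 < C ∧ ∀ᶠ T : ℝ in atTop,
    ∀ X : ℝ, T / 4 ≤ X → X ≤ T → ∀ z : ℂ, σ1 ≤ z.re → ∀ N : ℕ,
      (N : ℝ) ≤ T ^ ((1 : ℝ) / 8) →
      ∫ t in Set.Ioc 0 T, wz (kT T) X t * ‖DN N (z + t * I)‖ ^ 2 ≤ C * Real.log T := by
  have hs := fs_summable h1
  set κ := ∑' x, fs σ1 x with hκ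
  have hκ0 : 0 ≤ κ := tsum_nonneg fun x => fs_nonneg σ1 x
  refine ⟨2 * κ + 1, by positivity, ?_⟩
  filter_upwards [genb h1, Real.tendsto_log_atTop.eventually_ge_atTop 1]
    with T hT hl X x1 x2 z hz N hNT
  have h2 := hT X x1 x2 z hz (Finset.Icc 1 N) (fun m hm => by
    have h3 := Finset.mem_Icc.1 hm
    refine ⟨h3.1, le_trans ?_ hNT⟩
    exact_mod_cast h3.2) κ (hs.sum_le_tsum _ fun x _ => fs_nonneg σ1 x)
  simp_rw [DN_ev]
  linarith

/-- the difference between zeta and the long Dirichlet polynomial is negligible -/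
theorem small_E {z : ℂ} (h1 : 1 / 2 < z.re) (h2 : z.re < 1) {e : ℝ} (he : 0 < e)
    (he1 : e ≤ 1 / 2) {ε : ℝ} (hε : 0 < ε) :
    ∀ᶠ T : ℝ in atTop, ∀ X : ℝ, T / 4 ≤ X → X ≤ T →
      ∫ t in Set.Ioc 0 T, wz (kT T) X t *
        ‖riemannZeta (z + t * I) - DN ⌊T ^ e⌋₊ (z + t * I)‖ ≤ ε := by
  obtain ⟨δ, hδ, hδ1, hms⟩ := ms_pow z.re z.re h1 le_rfl h2 (|z.im| + 1) (by positivity) e he he1
  have hdec : ∀ᶠ T : ℝ in atTop, 12 * (Real.log T ^ 6 * T ^ (-(δ / 2))) ≤ ε := by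
    have h1 : Tendsto (fun T : ℝ => Real.log T ^ 6 / T ^ (δ / 2)) atTop (𝓝 0) := by
      have h2 := isLittleO_log_rpow_rpow_atTop (s := δ / 2) 6 (by positivity)
      have h3 := h2.tendsto_div_nhds_zero
      refine h3.congr' ?_
      filter_upwards with T
      norm_cast
    have h4 := h1.const_mul 12
    rw [mul_zero] at h4
    filter_upwards [h4.eventually (gt_mem_nhds hε), eventually_gt_atTop 0] with T hT hT0
    rw [Real.rpow_neg hT0.le]
    exact hT.le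
  filter_upwards [hdec, hms, kT_facts, eventually_ge_atTop (1000 : ℝ),
    Real.tendsto_log_atTop.eventually_ge_atTop 1]
    with T hd hm hk hT1000 hl X hX1 hX2
  obtain ⟨hk1, hk2, hk3⟩ := hk
  obtain ⟨-, hX7⟩ := hk3 X hX1 hX2
  have hX0 : 0 < X := by linarith
  have hT0 : 0 < T := by linarith
  set lam : ℝ := T ^ (δ / 2) with hlam
  have hlam0 : 0 < lam := by positivity
  set Ef : ℝ → ℂ := fun t => riemannZeta (z + t * I) - DN ⌊T ^ e⌋₊ (z + t * I) with hEf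
  have hEc : Continuous Ef := by
    rw [continuous_iff_continuousAt]
    intro t
    have hd := (ZN_diff ⌊T ^ e⌋₊ (z := z + t * I) (by simpa using h2)).continuousAt
    exact ContinuousAt.comp (f := fun t : ℝ => z + t * I) hd (by fun_prop)
  have hE2 : ∫ t in Set.Ioc 0 T, ‖Ef t‖ ^ 2 ≤ T ^ (1 - δ) := by
    have h3 := hm z.re ⟨le_rfl, le_rfl⟩
    have e1 : ∀ t : ℝ, ‖Ef t‖ ^ 2 = ‖riemannZeta ((z.re : ℂ) + ((t + z.im : ℝ) : ℂ) * I) -
        DN ⌊T ^ e⌋₊ ((z.re : ℂ) + ((t + z.im : ℝ) : ℂ) * I)‖ ^ 2 := by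
      intro t
      have : z + t * I = (z.re : ℂ) + ((t + z.im : ℝ) : ℂ) * I := by
        conv_lhs => rw [← Complex.re_add_im z]
        push_cast
        ring
      rw [hEf]
      simp only
      rw [this]
    set F : ℝ → ℝ := fun t => ‖riemannZeta ((z.re : ℂ) + (t : ℂ) * I) -
        DN ⌊T ^ e⌋₊ ((z.re : ℂ) + (t : ℂ) * I)‖ ^ 2 with hF
    have hFE : ∀ t, F (t + z.im) = ‖Ef t‖ ^ 2 := fun t => by rw [e1]
    have hFc : Continuous F := by
      have : F = fun t => ‖Ef (t - z.im)‖ ^ 2 := by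
        funext t
        rw [← hFE, sub_add_cancel]
      rw [this]
      exact (hEc.comp (by fun_prop)).norm.pow 2
    calc ∫ t in Set.Ioc 0 T, ‖Ef t‖ ^ 2 = ∫ t in (0 : ℝ)..T, F (t + z.im) := by
          rw [intervalIntegral.integral_of_le hT0.le]
          simp_rw [hFE]
      _ = ∫ t in (0 + z.im)..(T + z.im), F t := intervalIntegral.integral_comp_add_right _ _
      _ ≤ ∫ t in (-(|z.im| + 1))..(T + (|z.im| + 1)), F t := by
          have a1 := neg_abs_le z.im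
          have a2 := le_abs_self z.im
          apply intervalIntegral.integral_mono_interval
          · linarith
          · linarith
          · linarith
          · exact Eventually.of_forall fun t => by rw [hF]; positivity
          · exact hFc.intervalIntegrable _ _
      _ ≤ T ^ (1 - δ) := h3
  have h4th := fourth_set hT1000 (A := Set.Ioc 0 T) subset_rfl
  have i4 : IntegrableOn (fun t => ‖riemannZeta (cl t)‖ ^ 4) (Set.Ioc 0 T) :=
    ((zeta_cont.norm.pow 4).integrableOn_Icc (a := 0) (b := T)).mono_set Set.Ioc_subset_Icc_self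
  have iE : IntegrableOn (fun t => ‖Ef t‖ ^ 2) (Set.Ioc 0 T) :=
    ((hEc.norm.pow 2).integrableOn_Icc (a := 0) (b := T)).mono_set Set.Ioc_subset_Icc_self
  have hmain : ∫ t in Set.Ioc 0 T, wz (kT T) X t * ‖Ef t‖ ≤
      ∫ t in Set.Ioc 0 T, (kT T : ℝ) / X * (1 / 2 * (lam * ‖Ef t‖ ^ 2 +
      lam⁻¹ * ‖riemannZeta (cl t)‖ ^ 4)) := by
    refine setIntegral_mono_on (wz_intT hEc.norm)
      (((iE.const_mul lam).add (i4.const_mul lam⁻¹)).const_mul (1 / 2) |>.const_mul _)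
      measurableSet_Ioc fun t ht => ?_
    unfold wz
    set y := ‖riemannZeta (cl t)‖ ^ 2 with hy
    have e2 : ‖riemannZeta (cl t)‖ ^ 4 = y ^ 2 := by rw [hy]; ring
    rw [e2, mul_assoc]
    refine mul_le_mul (om_sup hX0 ht.1.le) ?_ (by positivity) (by positivity)
    have h3 : 0 ≤ lam⁻¹ * (y - lam * ‖Ef t‖) ^ 2 := by positivity
    have h4 : lam⁻¹ * (y - lam * ‖Ef t‖) ^ 2 =
        lam⁻¹ * y ^ 2 - 2 * (y * ‖Ef t‖) + lam * ‖Ef t‖ ^ 2 := by
      field_simp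
      ring
    linarith
  have e3 : ∫ t in Set.Ioc 0 T, (kT T : ℝ) / X * (1 / 2 * (lam * ‖Ef t‖ ^ 2 +
      lam⁻¹ * ‖riemannZeta (cl t)‖ ^ 4)) =
      (kT T : ℝ) / X * (1 / 2 * (lam * (∫ t in Set.Ioc 0 T, ‖Ef t‖ ^ 2) +
        lam⁻¹ * ∫ t in Set.Ioc 0 T, ‖riemannZeta (cl t)‖ ^ 4)) := by
    rw [integral_const_mul, integral_const_mul, integral_add (iE.const_mul lam)
      (i4.const_mul lam⁻¹), integral_const_mul, integral_const_mul]
  have hkX : (kT T : ℝ) / X ≤ 12 * Real.log T ^ 2 / T := by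
    rw [div_le_div_iff₀ hX0 hT0]
    have : (kT T : ℝ) * T ≤ (3 * Real.log T ^ 2) * (4 * X) :=
      mul_le_mul hk2 (by linarith) hT0.le (by positivity)
    linarith
  have hlt : lam * T ^ (1 - δ) = T * T ^ (-(δ / 2)) := by
    have : T ^ (δ / 2) * T ^ (1 - δ) = T * T ^ (-(δ / 2)) := by
      nth_rewrite 3 [← Real.rpow_one T]
      rw [← Real.rpow_add hT0, ← Real.rpow_add hT0]
      congr 1
      ring
    rw [hlam, this]
  have hli : lam⁻¹ = T ^ (-(δ / 2)) := by rw [hlam, Real.rpow_neg hT0.le]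
  have hsum : 1 / 2 * (lam * (∫ t in Set.Ioc 0 T, ‖Ef t‖ ^ 2) +
      lam⁻¹ * ∫ t in Set.Ioc 0 T, ‖riemannZeta (cl t)‖ ^ 4) ≤
      T * T ^ (-(δ / 2)) * Real.log T ^ 4 := by
    have a1 : lam * (∫ t in Set.Ioc 0 T, ‖Ef t‖ ^ 2) ≤ T * T ^ (-(δ / 2)) := by
      rw [← hlt]
      exact mul_le_mul_of_nonneg_left hE2 hlam0.le
    have a2 : lam⁻¹ * ∫ t in Set.Ioc 0 T, ‖riemannZeta (cl t)‖ ^ 4 ≤
        T ^ (-(δ / 2)) * (4 / 5 * (T * Real.log T ^ 4)) := by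
      rw [hli]
      exact mul_le_mul_of_nonneg_left h4th (by positivity)
    have a3 : (1 : ℝ) ≤ Real.log T ^ 4 := one_le_pow₀ hl
    have a4 : 0 ≤ T * T ^ (-(δ / 2)) := by positivity
    have a5 := mul_le_mul_of_nonneg_left a3 a4
    have a6 : T ^ (-(δ / 2)) * (4 / 5 * (T * Real.log T ^ 4)) =
      4 / 5 * (T * T ^ (-(δ / 2)) * Real.log T ^ 4) := by ring
    rw [a6] at a2
    rw [mul_one] at a5
    have a7 : 0 ≤ T * T ^ (-(δ / 2)) * Real.log T ^ 4 := by positivity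
    linarith
  rw [e3] at hmain
  refine hmain.trans (le_trans ?_ hd)
  calc (kT T : ℝ) / X * (1 / 2 * (lam * (∫ t in Set.Ioc 0 T, ‖Ef t‖ ^ 2) +
        lam⁻¹ * ∫ t in Set.Ioc 0 T, ‖riemannZeta (cl t)‖ ^ 4)) ≤
      (12 * Real.log T ^ 2 / T) * (T * T ^ (-(δ / 2)) * Real.log T ^ 4) := by
        refine mul_le_mul hkX hsum ?_ (by positivity)
        have b1 : 0 ≤ ∫ t in Set.Ioc 0 T, ‖riemannZeta (cl t)‖ ^ 4 :=
          integral_nonneg fun t => by positivity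
        have b2 : 0 ≤ ∫ t in Set.Ioc 0 T, ‖Ef t‖ ^ 2 := integral_nonneg fun t => by positivity
        positivity
    _ = 12 * (Real.log T ^ 6 * T ^ (-(δ / 2))) := by
        field_simp

end

end Pool.Agent.R304.TL
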