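import Pool.Agent.R304.TL.Lm3

/-! Limits with respect to the second moment: continuous functions of zeta, windows. -/

open Complex Finset Filter Topology MeasureTheory

namespace Pool.Agent.R304.TL

open ZU

noncomputable section

/-- the values -/
def Zv {m : ℕ} (z : Fin m → ℂ) (t : ℝ) : Fin m → ℂ := fun j => riemannZeta (z j + t * I)

/-- the Dirichlet polynomials -/
def Dv {m : ℕ} (z : Fin m → ℂ) (N : ℕ) (t : ℝ) : Fin m → ℂ := fun j => DN N (z j + t * I)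

lemma zc {z : ℂ} (h2 : z.re < 1) : Continuous fun t : ℝ => riemannZeta (z + t * I) := by
  rw [continuous_iff_continuousAt]
  intro t
  have hne : z + t * I ≠ 1 := by
    intro h
    have := congrArg Complex.re h
    simp at this
    linarith
  exact ContinuousAt.comp (f := fun t : ℝ => z + t * I)
    (differentiableAt_riemannZeta hne).continuousAt (by fun_prop)

lemma Dc (N : ℕ) (z : ℂ) : Continuous fun t : ℝ => DN N (z + t * I) :=
  (DN_diff N).continuous.comp (by fun_prop)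

lemma D_mem (N : ℕ) (z : ℂ) : (fun t : ℝ => DN N (z + t * I)) ∈ Sp := by
  have h : (fun t : ℝ => DN N (z + t * I)) =
      ∑ m ∈ Finset.Icc 1 N, (c1 z m) • (chi (m, 1)) := by
    funext t
    rw [DN_ev]
    unfold TP.ev IP chi
    simp
  rw [h]
  refine Submodule.sum_mem _ fun m hm => Submodule.smul_mem _ _ ?_
  exact chi_mem (Finset.mem_Icc.1 hm).1 le_rfl

lemma norm_le_sum {m : ℕ} (w : Fin m → ℂ) : ‖w‖ ≤ ∑ j, ‖w j‖ := by
  rw [pi_norm_le_iff_of_nonneg (Finset.sum_nonneg fun j _ => norm_nonneg _)]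
  intro j
  exact Finset.single_le_sum (f := fun j => ‖w j‖) (fun j _ => norm_nonneg _) (Finset.mem_univ j)

lemma sq_le_sum {m : ℕ} (w : Fin m → ℂ) : ‖w‖ ^ 2 ≤ ∑ j, ‖w j‖ ^ 2 := by
  have h0 : 0 ≤ ∑ j, ‖w j‖ ^ 2 := Finset.sum_nonneg fun j _ => by positivity
  have h : ‖w‖ ≤ Real.sqrt (∑ j, ‖w j‖ ^ 2) := by
    rw [pi_norm_le_iff_of_nonneg (Real.sqrt_nonneg _)]
    intro j
    apply Real.le_sqrt_of_sq_le
    exact Finset.single_le_sum (f := fun j => ‖w j‖ ^ 2) (fun j _ => by positivity)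
      (Finset.mem_univ j)
  calc ‖w‖ ^ 2 ≤ Real.sqrt (∑ j, ‖w j‖ ^ 2) ^ 2 := pow_le_pow_left₀ (norm_nonneg _) h 2
    _ = _ := Real.sq_sqrt h0

/-- comparison for uniformly continuous functions -/
lemma cmp1 {m : ℕ} {Ψ : (Fin m → ℂ) → ℂ} {B η δ : ℝ} (hB : ∀ w, ‖Ψ w‖ ≤ B) (hη : 0 ≤ η)
    (hδ : 0 < δ) (hu : ∀ w w', ‖w - w'‖ < δ → ‖Ψ w - Ψ w'‖ ≤ η) (Z D D0 : Fin m → ℂ) :
    ‖Ψ Z - Ψ D0‖ ≤ η + 4 * B / δ * ‖Z - D‖ + 8 * B / δ ^ 2 * ‖D - D0‖ ^ 2 := by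
  have hB0 : 0 ≤ B := (norm_nonneg _).trans (hB 0)
  have h2B : ‖Ψ Z - Ψ D0‖ ≤ 2 * B := by
    have := norm_sub_le (Ψ Z) (Ψ D0)
    linarith [hB Z, hB D0]
  have n1 := norm_nonneg (Z - D)
  have n2 := norm_nonneg (D - D0)
  have p1 : 0 ≤ 4 * B / δ * ‖Z - D‖ := by positivity
  have p2 : 0 ≤ 8 * B / δ ^ 2 * ‖D - D0‖ ^ 2 := by positivity
  by_cases h : ‖Z - D0‖ < δ
  · linarith [hu Z D0 h]
  push Not at h
  by_cases h1 : δ / 2 ≤ ‖Z - D‖
  · have : 2 * B ≤ 4 * B / δ * ‖Z - D‖ := by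
      calc 2 * B = 4 * B / δ * (δ / 2) := by field_simp; ring
        _ ≤ _ := mul_le_mul_of_nonneg_left h1 (by positivity)
    linarith
  · push Not at h1
    have h3 : ‖Z - D0‖ ≤ ‖Z - D‖ + ‖D - D0‖ := norm_sub_le_norm_sub_add_norm_sub Z D D0
    have h4 : δ / 2 ≤ ‖D - D0‖ := by linarith
    have : 2 * B ≤ 8 * B / δ ^ 2 * ‖D - D0‖ ^ 2 := by
      calc 2 * B = 8 * B / δ ^ 2 * (δ / 2) ^ 2 := by field_simp; ring
        _ ≤ _ := by gcongr
    linarith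

/-- the cutoff -/
def rho {m : ℕ} (R : ℝ) (w : Fin m → ℂ) : ℝ := max 0 (min 1 (2 - ‖w‖ / R))

lemma rho_cont {m : ℕ} (R : ℝ) : Continuous (rho (m := m) R) := by
  unfold rho
  fun_prop

lemma rho_nonneg {m : ℕ} (R : ℝ) (w : Fin m → ℂ) : 0 ≤ rho R w := le_max_left _ _

lemma rho_le {m : ℕ} (R : ℝ) (w : Fin m → ℂ) : rho R w ≤ 1 :=
  max_le zero_le_one (min_le_left _ _)

lemma rho_one {m : ℕ} {R : ℝ} (hR : 0 < R) {w : Fin m → ℂ} (hw : ‖w‖ ≤ R) : rho R w = 1 := by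
  unfold rho
  have : ‖w‖ / R ≤ 1 := (div_le_one hR).2 hw
  rw [min_eq_left (by linarith), max_eq_right zero_le_one]

lemma rho_zero {m : ℕ} {R : ℝ} (hR : 0 < R) {w : Fin m → ℂ} (hw : 2 * R < ‖w‖) : rho R w = 0 := by
  unfold rho
  have : 2 ≤ ‖w‖ / R := (le_div_iff₀ hR).2 hw.le
  apply max_eq_left
  exact (min_le_right _ _).trans (by linarith)

lemma cmp2 {m : ℕ} {Φ : (Fin m → ℂ) → ℂ} {C R : ℝ} (hC : 0 ≤ C) (hΦ : ∀ w, ‖Φ w‖ ≤ C * (1 + ‖w‖))
    (hR : 2 ≤ R) (Z D : Fin m → ℂ) :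
    ‖Φ Z - rho R Z * Φ Z‖ ≤ C * (8 / R * ‖D‖ ^ 2 + 4 * ‖Z - D‖) := by
  have hR0 : 0 < R := by linarith
  have p1 : 0 ≤ 8 / R * ‖D‖ ^ 2 := by positivity
  have p2 : 0 ≤ 4 * ‖Z - D‖ := by positivity
  by_cases h : ‖Z‖ ≤ R
  · rw [rho_one hR0 h, Complex.ofReal_one, one_mul, sub_self, norm_zero]
    positivity
  push Not at h
  have h1 : ‖Φ Z - rho R Z * Φ Z‖ ≤ ‖Φ Z‖ := by
    have e : Φ Z - rho R Z * Φ Z = ((1 - rho R Z : ℝ) : ℂ) * Φ Z := by push_cast; ring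
    rw [e, norm_mul, Complex.norm_real, Real.norm_eq_abs]
    apply mul_le_of_le_one_left (norm_nonneg _)
    rw [abs_le]
    constructor <;> linarith [rho_nonneg R Z, rho_le R Z]
  refine h1.trans ((hΦ Z).trans (mul_le_mul_of_nonneg_left ?_ hC))
  by_cases h2 : ‖Z‖ / 2 ≤ ‖D‖
  · have h3 : R / 2 ≤ ‖D‖ := by linarith
    have h4 : 4 * ‖D‖ ≤ 8 / R * ‖D‖ ^ 2 := by
      calc 4 * ‖D‖ = 8 / R * (R / 2 * ‖D‖) := by field_simp; ring
        _ ≤ 8 / R * (‖D‖ * ‖D‖) := by gcongr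
        _ = _ := by ring
    linarith
  · push Not at h2
    have h5 : ‖Z‖ ≤ ‖Z - D‖ + ‖D‖ := by
      have := norm_add_le (Z - D) D
      rwa [sub_add_cancel] at this
    linarith

lemma exists_sig {m : ℕ} {z : Fin m → ℂ} (hz : ∀ j, 1 / 2 < (z j).re ∧ (z j).re < 1) :
    ∃ σ1 : ℝ, 1 / 2 < σ1 ∧ ∀ j, σ1 ≤ (z j).re := by
  rcases isEmpty_or_nonempty (Fin m) with h | h
  · exact ⟨1, by norm_num, fun j => h.elim j⟩
  · obtain ⟨j0, hj0⟩ := Finite.exists_min (fun j => (z j).re)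
    exact ⟨(z j0).re, (hz j0).1, hj0⟩

lemma J_sum {T X : ℝ} {m : ℕ} {f : Fin m → ℝ → ℝ} (hf : ∀ j, Continuous (f j)) :
    ∫ t in Set.Ioc 0 T, wz (kT T) X t * ∑ j, f j t =
      ∑ j, ∫ t in Set.Ioc 0 T, wz (kT T) X t * f j t := by
  rw [← integral_finsetSum _ fun j _ => wz_intT (hf j)]
  simp_rw [Finset.mul_sum]

lemma int4 {μ : Measure ℝ} {f0 f1 f2 f3 : ℝ → ℝ} (h0 : Integrable f0 μ) (h1 : Integrable f1 μ)
    (h2 : Integrable f2 μ) (h3 : Integrable f3 μ) :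
    ∫ t, (f0 t + f1 t + f2 t + f3 t) ∂μ = (∫ t, f0 t ∂μ) + (∫ t, f1 t ∂μ) + (∫ t, f2 t ∂μ) +
      ∫ t, f3 t ∂μ := by
  have a1 : Integrable (fun t => f0 t + f1 t) μ := h0.add h1
  have a2 : Integrable (fun t => f0 t + f1 t + f2 t) μ := a1.add h2
  rw [integral_add a2 h3, integral_add a1 h2, integral_add h0 h1]

/-- approximate limits for continuous functions of zeta -/
theorem pre_lim {m : ℕ} {z : Fin m → ℂ} (hz : ∀ j, 1 / 2 < (z j).re ∧ (z j).re < 1)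
    {Φ : (Fin m → ℂ) → ℂ} (hΦ : Continuous Φ) {C : ℝ} (hΦC : ∀ w, ‖Φ w‖ ≤ C * (1 + ‖w‖))
    {ε : ℝ} (hε : 0 < ε) : ∃ c : ℂ, ∀ᶠ T : ℝ in atTop, ∀ X : ℝ, T / 4 ≤ X → X ≤ T / 2 →
      ‖WW T X (fun t => Φ (Zv z t)) - c * Real.log T‖ ≤ ε * Real.log T := by
  obtain ⟨σ1, hσ1, hσz⟩ := exists_sig hz
  have hC : 0 ≤ C := by
    have := (norm_nonneg _).trans (hΦC 0)
    simpa using this
  obtain ⟨C1, hC1, hdb⟩ := dbdd hσ1
  -- the cutoff
  obtain ⟨R, hR2, hR⟩ : ∃ R : ℝ, 2 ≤ R ∧ C * (8 / R) * (m * C1) ≤ ε / 8 := by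
    refine ⟨2 + 64 * C * (m * C1) / ε, by
      have : 0 ≤ 64 * C * (m * C1) / ε := by positivity
      linarith, ?_⟩
    have h1 : 0 < 2 + 64 * C * (m * C1) / ε := by positivity
    rw [show C * (8 / (2 + 64 * C * (m * C1) / ε)) * (m * C1) =
      8 * C * (m * C1) / (2 + 64 * C * (m * C1) / ε) by ring, div_le_iff₀ h1]
    have : ε / 8 * (2 + 64 * C * (m * C1) / ε) = ε / 4 + 8 * C * (m * C1) := by
      field_simp
      ring
    rw [this]
    linarith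
  have hR0 : 0 < R := by linarith
  set Ψ : (Fin m → ℂ) → ℂ := fun w => rho R w * Φ w with hΨ
  have hΨc : Continuous Ψ := (Complex.continuous_ofReal.comp (rho_cont R)).mul hΦ
  have hΨs : HasCompactSupport Ψ := by
    refine HasCompactSupport.of_support_subset_isCompact (isCompact_closedBall 0 (2 * R)) ?_
    intro w hw
    rw [mem_closedBall_zero_iff]
    by_contra hcon
    push Not at hcon
    apply hw
    rw [hΨ]
    simp only
    rw [rho_zero hR0 hcon]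
    simp
  have hΨu := hΨs.uniformContinuous_of_continuous hΨc
  obtain ⟨δ, hδ, hδu⟩ := Metric.uniformContinuous_iff.1 hΨu (ε / 16) (by positivity)
  obtain ⟨B, hB⟩ := hΨs.exists_bound_of_continuous hΨc
  have hB0 : 0 ≤ B := (norm_nonneg _).trans (hB 0)
  have hu : ∀ w w', ‖w - w'‖ < δ → ‖Ψ w - Ψ w'‖ ≤ ε / 16 := by
    intro w w' h
    have := hδu (a := w) (b := w') (by rwa [dist_eq_norm])
    rw [dist_eq_norm] at this
    exact this.le
  -- the truncation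
  obtain ⟨κ, hκ, hκε⟩ : ∃ κ : ℝ, 0 < κ ∧ 8 * B / δ ^ 2 * (m * κ) ≤ ε / 8 := by
    refine ⟨ε / (64 * (B + 1) / δ ^ 2 * (m + 1)), by positivity, ?_⟩
    rw [show 8 * B / δ ^ 2 * (m * (ε / (64 * (B + 1) / δ ^ 2 * (m + 1)))) =
      ε / 8 * (B / (B + 1)) * (m / (m + 1)) by field_simp; ring]
    have a1 : B / (B + 1) ≤ 1 := (div_le_one (by positivity)).2 (by linarith)
    have a2 : (m : ℝ) / (m + 1) ≤ 1 := (div_le_one (by positivity)).2 (by linarith)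
    have a3 : 0 ≤ B / (B + 1) := by positivity
    have a4 : 0 ≤ (m : ℝ) / (m + 1) := by positivity
    calc ε / 8 * (B / (B + 1)) * (m / (m + 1)) ≤ ε / 8 * 1 * 1 := by gcongr
      _ = ε / 8 := by ring
  obtain ⟨N0, hN0⟩ := dtail hσ1 hκ
  -- the limit for the Dirichlet polynomial
  obtain ⟨RD, hRD⟩ : ∃ RD : ℝ, ∀ t, ‖Dv z N0 t‖ ≤ RD := by
    refine ⟨∑ j : Fin m, ∑ i ∈ (IP (Finset.Icc 1 N0) (c1 (z j))).S,
      ‖(IP (Finset.Icc 1 N0) (c1 (z j))).w i‖, fun t => (norm_le_sum _).trans ?_⟩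
    refine Finset.sum_le_sum fun j _ => ?_
    have : Dv z N0 t j = (IP (Finset.Icc 1 N0) (c1 (z j))).ev t := DN_ev _ _ _
    rw [this]
    exact ev_le' (fun i hi => (Finset.mem_Icc.1 hi).1) t
  obtain ⟨c, hc⟩ := fix_lim hRD (fun j => D_mem N0 (z j)) hΨc (show 0 < ε / 8 by positivity)
  refine ⟨c, ?_⟩
  set a := 4 * B / δ + 4 * C with ha
  have ha0 : 0 ≤ a := by positivity
  have hsE : ∀ j : Fin m, ∀ᶠ T : ℝ in atTop, ∀ X : ℝ, T / 4 ≤ X → X ≤ T →
      ∫ t in Set.Ioc 0 T, wz (kT T) X t *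
        ‖riemannZeta (z j + t * I) - DN ⌊T ^ ((1 : ℝ) / 8)⌋₊ (z j + t * I)‖ ≤
          ε / (8 * (a + 1) * (m + 1)) := fun j =>
    small_E (hz j).1 (hz j).2 (by norm_num) (by norm_num) (by positivity)
  have hsE' := eventually_all.2 hsE
  have hpw : Tendsto (fun T : ℝ => T ^ ((1 : ℝ) / 8)) atTop atTop :=
    tendsto_rpow_atTop (by norm_num)
  filter_upwards [hc, hsE', hdb, hN0, massT, kT_facts, hpw.eventually_ge_atTop (N0 : ℝ),
    eventually_gt_atTop (0 : ℝ), Real.tendsto_log_atTop.eventually_ge_atTop 1]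
    with T h1 h2 h3 h4 h5 hk hNT hT0 hl X x1 x2
  have hX : 0 < X := by linarith
  have x2' : X ≤ T := by linarith
  set N := ⌊T ^ ((1 : ℝ) / 8)⌋₊ with hN
  have hNle : (N : ℝ) ≤ T ^ ((1 : ℝ) / 8) := Nat.floor_le (by positivity)
  have hN0N : N0 ≤ N := Nat.le_floor hNT
  -- the pointwise bound
  set F : ℝ → ℝ := fun t => ε / 16 + a * (∑ j, ‖riemannZeta (z j + t * I) - DN N (z j + t * I)‖) +
    8 * B / δ ^ 2 * (∑ j, ‖DN N (z j + t * I) - DN N0 (z j + t * I)‖ ^ 2) +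
    C * (8 / R) * (∑ j, ‖DN N (z j + t * I)‖ ^ 2) with hF
  have hcE : ∀ j, Continuous fun t : ℝ => ‖riemannZeta (z j + t * I) - DN N (z j + t * I)‖ :=
    fun j => ((zc (hz j).2).sub (Dc N (z j))).norm
  have hcD : ∀ j, Continuous fun t : ℝ => ‖DN N (z j + t * I) - DN N0 (z j + t * I)‖ ^ 2 :=
    fun j => ((Dc N (z j)).sub (Dc N0 (z j))).norm.pow 2
  have hcN : ∀ j, Continuous fun t : ℝ => ‖DN N (z j + t * I)‖ ^ 2 :=
    fun j => (Dc N (z j)).norm.pow 2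
  have hFc : Continuous F := by
    have e1 := continuous_finsetSum (Finset.univ : Finset (Fin m)) fun j _ => hcE j
    have e2 := continuous_finsetSum (Finset.univ : Finset (Fin m)) fun j _ => hcD j
    have e3 := continuous_finsetSum (Finset.univ : Finset (Fin m)) fun j _ => hcN j
    exact ((continuous_const.add (continuous_const.mul e1)).add (continuous_const.mul e2)).add
      (continuous_const.mul e3)
  have hpt : ∀ t ∈ Set.Ioc 0 T, ‖Φ (Zv z t) - Ψ (Dv z N0 t)‖ ≤ F t := by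
    intro t _
    have b1 := cmp1 hB (by positivity : (0 : ℝ) ≤ ε / 16) hδ hu (Zv z t) (Dv z N t) (Dv z N0 t)
    have b2 := cmp2 hC hΦC hR2 (Zv z t) (Dv z N t)
    have b3 : ‖Zv z t - Dv z N t‖ ≤ ∑ j, ‖riemannZeta (z j + t * I) - DN N (z j + t * I)‖ :=
      norm_le_sum _
    have b4 : ‖Dv z N t - Dv z N0 t‖ ^ 2 ≤
        ∑ j, ‖DN N (z j + t * I) - DN N0 (z j + t * I)‖ ^ 2 := sq_le_sum _
    have b5 : ‖Dv z N t‖ ^ 2 ≤ ∑ j, ‖DN N (z j + t * I)‖ ^ 2 := sq_le_sum _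
    have b6 : ‖Φ (Zv z t) - Ψ (Dv z N0 t)‖ ≤ ‖Φ (Zv z t) - rho R (Zv z t) * Φ (Zv z t)‖ +
        ‖Ψ (Zv z t) - Ψ (Dv z N0 t)‖ := norm_sub_le_norm_sub_add_norm_sub _ _ _
    have c1 := mul_le_mul_of_nonneg_left b3 ha0
    have c2 := mul_le_mul_of_nonneg_left b4 (show 0 ≤ 8 * B / δ ^ 2 by positivity)
    have c3 := mul_le_mul_of_nonneg_left b5 (show 0 ≤ C * (8 / R) by positivity)
    have c4 : a * ‖Zv z t - Dv z N t‖ = 4 * B / δ * ‖Zv z t - Dv z N t‖ +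
        C * (4 * ‖Zv z t - Dv z N t‖) := by rw [ha]; ring
    rw [hF]
    simp only
    rw [mul_add] at b2
    have c5 : C * (8 / R * ‖Dv z N t‖ ^ 2) = C * (8 / R) * ‖Dv z N t‖ ^ 2 := by ring
    linarith
  have hZc : Continuous fun t => Φ (Zv z t) :=
    hΦ.comp (continuous_pi fun j => zc (hz j).2)
  have hDc : Continuous fun t => Ψ (Dv z N0 t) :=
    hΨc.comp (continuous_pi fun j => Dc N0 (z j))
  have hw := WW_le (T := T) hX (g := fun t => Φ (Zv z t) - Ψ (Dv z N0 t)) (wz_intT hFc) hpt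
  rw [WW_sub hZc hDc] at hw
  -- the integral of the bound
  have hI : ∫ t in Set.Ioc 0 T, wz (kT T) X t * F t =
      ε / 16 * (∫ t in Set.Ioc 0 T, wz (kT T) X t) +
      a * (∑ j, ∫ t in Set.Ioc 0 T, wz (kT T) X t *
        ‖riemannZeta (z j + t * I) - DN N (z j + t * I)‖) +
      8 * B / δ ^ 2 * (∑ j, ∫ t in Set.Ioc 0 T, wz (kT T) X t *
        ‖DN N (z j + t * I) - DN N0 (z j + t * I)‖ ^ 2) +
      C * (8 / R) * (∑ j, ∫ t in Set.Ioc 0 T, wz (kT T) X t * ‖DN N (z j + t * I)‖ ^ 2) := by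
    rw [← J_sum hcE, ← J_sum hcD, ← J_sum hcN]
    have e1 := continuous_finsetSum (Finset.univ : Finset (Fin m)) fun j _ => hcE j
    have e2 := continuous_finsetSum (Finset.univ : Finset (Fin m)) fun j _ => hcD j
    have e3 := continuous_finsetSum (Finset.univ : Finset (Fin m)) fun j _ => hcN j
    have i0 : IntegrableOn (fun t => ε / 16 * wz (kT T) X t) (Set.Ioc 0 T) := by
      have := wz_intT (T := T) (X := X) (g := fun _ => ε / 16) continuous_const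
      refine this.congr (Eventually.of_forall fun t => ?_)
      simp only
      ring
    have i1 := (wz_intT (T := T) (X := X) e1).const_mul a
    have i2 := (wz_intT (T := T) (X := X) e2).const_mul (8 * B / δ ^ 2)
    have i3 := (wz_intT (T := T) (X := X) e3).const_mul (C * (8 / R))
    rw [← integral_const_mul, ← integral_const_mul, ← integral_const_mul, ← integral_const_mul,
      ← int4 i0 i1 i2 i3]
    refine integral_congr_ae (Eventually.of_forall fun t => ?_)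
    rw [hF]
    simp only
    ring
  have q1 := h5 X x1 x2'
  have q2 : ∑ j, ∫ t in Set.Ioc 0 T, wz (kT T) X t *
      ‖riemannZeta (z j + t * I) - DN N (z j + t * I)‖ ≤ m * (ε / (8 * (a + 1) * (m + 1))) := by
    have := Finset.sum_le_sum fun j (_ : j ∈ (Finset.univ : Finset (Fin m))) => h2 j X x1 x2'
    simpa using this
  have q3 : ∑ j, ∫ t in Set.Ioc 0 T, wz (kT T) X t *
      ‖DN N (z j + t * I) - DN N0 (z j + t * I)‖ ^ 2 ≤ m * (κ * Real.log T) := by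
    have := Finset.sum_le_sum fun j (_ : j ∈ (Finset.univ : Finset (Fin m))) =>
      h4 X x1 x2' (z j) (hσz j) N hN0N hNle
    simpa using this
  have q4 : ∑ j, ∫ t in Set.Ioc 0 T, wz (kT T) X t * ‖DN N (z j + t * I)‖ ^ 2 ≤
      m * (C1 * Real.log T) := by
    have := Finset.sum_le_sum fun j (_ : j ∈ (Finset.univ : Finset (Fin m))) =>
      h3 X x1 x2' (z j) (hσz j) N hNle
    simpa using this
  have r1 : ε / 16 * (∫ t in Set.Ioc 0 T, wz (kT T) X t) ≤ ε / 8 * Real.log T := by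
    have := mul_le_mul_of_nonneg_left q1 (show 0 ≤ ε / 16 by positivity)
    linarith
  have r2 : a * (m * (ε / (8 * (a + 1) * (m + 1)))) ≤ ε / 8 * Real.log T := by
    rw [show a * (m * (ε / (8 * (a + 1) * (m + 1)))) = ε / 8 * (a / (a + 1)) * (m / (m + 1)) by
      field_simp]
    have a1 : a / (a + 1) ≤ 1 := (div_le_one (by positivity)).2 (by linarith)
    have a2 : (m : ℝ) / (m + 1) ≤ 1 := (div_le_one (by positivity)).2 (by linarith)
    have a3 : 0 ≤ a / (a + 1) := by positivity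
    have a4 : 0 ≤ (m : ℝ) / (m + 1) := by positivity
    calc ε / 8 * (a / (a + 1)) * (m / (m + 1)) ≤ ε / 8 * 1 * 1 := by gcongr
      _ ≤ ε / 8 * Real.log T := by nlinarith
  have r3 : 8 * B / δ ^ 2 * (m * (κ * Real.log T)) ≤ ε / 8 * Real.log T := by
    have := mul_le_mul_of_nonneg_right hκε (show 0 ≤ Real.log T by linarith)
    calc _ = 8 * B / δ ^ 2 * (m * κ) * Real.log T := by ring
      _ ≤ _ := this
  have r4 : C * (8 / R) * (m * (C1 * Real.log T)) ≤ ε / 8 * Real.log T := by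
    have := mul_le_mul_of_nonneg_right hR (show 0 ≤ Real.log T by linarith)
    calc _ = C * (8 / R) * (m * C1) * Real.log T := by ring
      _ ≤ _ := this
  have s2 := mul_le_mul_of_nonneg_left q2 ha0
  have s3 := mul_le_mul_of_nonneg_left q3 (show 0 ≤ 8 * B / δ ^ 2 by positivity)
  have s4 := mul_le_mul_of_nonneg_left q4 (show 0 ≤ C * (8 / R) by positivity)
  rw [hI] at hw
  have hfin := h1 X x1 x2
  have htri : ‖WW T X (fun t => Φ (Zv z t)) - c * Real.log T‖ ≤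
      ‖WW T X (fun t => Φ (Zv z t)) - WW T X (fun t => Ψ (Dv z N0 t))‖ +
        ‖WW T X (fun t => Ψ (Dv z N0 t)) - c * Real.log T‖ :=
    norm_sub_le_norm_sub_add_norm_sub _ _ _
  have hp : 0 ≤ ε * Real.log T := by positivity
  linarith

end

end Pool.Agent.R304.TL
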