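import Pool.Agent.R304.TL.Lm4

/-! Limits with respect to the second moment: from windows to sharp cutoffs. -/

open Complex Filter Set Topology MeasureTheory

namespace Pool.Agent.R304.TL

open Pool.Agent.H306R2.SM (om cl Yf)
open Pool.Agent.H262R4.TM.TTW (om_nonneg om_cont cl_cont zeta_cont int2)

noncomputable section

theorem lim_of_pre {g : ℝ → ℂ} (h : ∀ ε : ℝ, 0 < ε → ∃ c : ℂ, ∀ᶠ T : ℝ in atTop, ∀ X : ℝ,
    T / 4 ≤ X → X ≤ T / 2 → ‖WW T X g - c * Real.log T‖ ≤ ε * Real.log T) : ∃ M : ℂ, LimC g M := by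
  set G : ℝ → ℂ := fun T => WW T (T / 4) g / Real.log T with hG
  have hGc : ∀ ε : ℝ, 0 < ε → ∃ c : ℂ, (∀ᶠ T : ℝ in atTop, ‖G T - c‖ ≤ ε) ∧
      ∀ᶠ T : ℝ in atTop, ∀ X : ℝ, T / 4 ≤ X → X ≤ T / 2 →
        ‖WW T X g - c * Real.log T‖ ≤ ε * Real.log T := by
    intro ε hε
    obtain ⟨c, hc⟩ := h ε hε
    refine ⟨c, ?_, hc⟩
    filter_upwards [hc, eventually_gt_atTop (0 : ℝ),
      Real.tendsto_log_atTop.eventually_ge_atTop 1] with T h1 hT0 hl
    have h2 := h1 (T / 4) le_rfl (by linarith)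
    have hl0 : (0 : ℝ) < Real.log T := by linarith
    have hlc : (Real.log T : ℂ) ≠ 0 := by exact_mod_cast hl0.ne'
    have e : G T - c = (WW T (T / 4) g - c * Real.log T) / Real.log T := by
      rw [hG]
      field_simp
    rw [e, norm_div, Complex.norm_real, Real.norm_eq_abs, abs_of_pos hl0, div_le_iff₀ hl0]
    exact h2
  have hcau : Cauchy (map G atTop) := by
    rw [Metric.cauchy_iff]
    refine ⟨map_neBot, fun ε hε => ?_⟩
    obtain ⟨c, hc, -⟩ := hGc (ε / 3) (by positivity)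
    refine ⟨Metric.closedBall c (ε / 3), ?_, fun x hx y hy => ?_⟩
    · rw [mem_map]
      filter_upwards [hc] with T hT
      rw [mem_preimage, Metric.mem_closedBall, dist_eq_norm]
      exact hT
    · have := dist_triangle_right x y c
      rw [Metric.mem_closedBall] at hx hy
      linarith
  obtain ⟨M, hM⟩ := cauchy_iff_exists_le_nhds.1 hcau
  refine ⟨M, fun ε hε => ?_⟩
  obtain ⟨c, hc, hc'⟩ := hGc (ε / 2) (by positivity)
  have hMc : ‖M - c‖ ≤ ε / 2 := by
    have ht : Tendsto (fun T => ‖G T - c‖) atTop (𝓝 ‖M - c‖) :=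
      ((show Tendsto G atTop (𝓝 M) from hM).sub_const c).norm
    exact le_of_tendsto ht hc
  filter_upwards [hc', Real.tendsto_log_atTop.eventually_ge_atTop 0] with T h1 hl X x1 x2
  have h2 := h1 X x1 x2
  calc ‖WW T X g - M * Real.log T‖ =
      ‖(WW T X g - c * Real.log T) - (M - c) * Real.log T‖ := by congr 1; ring
    _ ≤ ‖WW T X g - c * Real.log T‖ + ‖(M - c) * Real.log T‖ := norm_sub_le _ _
    _ ≤ ε / 2 * Real.log T + ε / 2 * Real.log T := by
        refine add_le_add h2 ?_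
        rw [norm_mul, Complex.norm_real, Real.norm_eq_abs, abs_of_nonneg hl]
        exact mul_le_mul_of_nonneg_right hMc hl
    _ = ε * Real.log T := by ring

/-- interchange of the integrations -/
lemma fub {T a b : ℝ} (ha : 0 < a) {g : ℝ → ℝ} (hg : Continuous g) :
    IntegrableOn (fun X : ℝ => ∫ t in Ioc 0 T, wz (kT T) X t * g t) (Icc a b) ∧
    IntegrableOn (fun t : ℝ => (∫ X in Icc a b, om (kT T) ((kT T : ℝ) / X) t) *
      (‖riemannZeta (cl t)‖ ^ 2 * g t)) (Ioc 0 T) ∧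
    ∫ X in Icc a b, ∫ t in Ioc 0 T, wz (kT T) X t * g t =
      ∫ t in Ioc 0 T, (∫ X in Icc a b, om (kT T) ((kT T : ℝ) / X) t) *
        (‖riemannZeta (cl t)‖ ^ 2 * g t) := by
  set k := kT T with hkd
  set I := Icc (0 : ℝ) T with hI
  set K := Icc a b with hK
  have hKpos : ∀ X ∈ K, 0 < X := fun X hX => lt_of_lt_of_le ha hX.1
  have zc' : Continuous fun t : ℝ => ‖riemannZeta (cl t)‖ ^ 2 := zeta_cont.norm.pow 2
  set f : ℝ → ℝ → ℝ := fun X t => om k (k / X) t * (‖riemannZeta (cl t)‖ ^ 2 * g t) with hf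
  have hcont : ContinuousOn (Function.uncurry f) (K ×ˢ I) := by
    intro p hp
    have hp0 : p.1 ≠ 0 := (hKpos p.1 hp.1).ne'
    have h1 : ContinuousAt (Function.uncurry f) p := by
      simp only [hf]
      unfold Function.uncurry Pool.Agent.H306R2.SM.om
      have h2 : ContinuousAt (fun p : ℝ × ℝ => ‖riemannZeta (cl p.2)‖ ^ 2 * g p.2) p :=
        ((zc'.mul hg).comp continuous_snd).continuousAt
      have h3 : ContinuousAt (fun p : ℝ × ℝ => (k : ℝ) / p.1) p :=
        ContinuousAt.div continuousAt_const continuousAt_fst hp0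
      refine ContinuousAt.mul (ContinuousAt.div ?_ continuousAt_const (by positivity)) h2
      refine ContinuousAt.mul (ContinuousAt.mul (h3.pow _) (continuousAt_snd.pow _)) ?_
      exact (Real.continuous_exp.continuousAt).comp (h3.mul continuousAt_snd).neg
    exact h1.continuousWithinAt
  have hint : Integrable (Function.uncurry f)
      ((volume.restrict K).prod (volume.restrict (Ioc 0 T))) := by
    rw [Measure.prod_restrict]
    exact (hcont.integrableOn_compact (isCompact_Icc.prod isCompact_Icc)).mono_set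
      (Set.prod_mono Subset.rfl Ioc_subset_Icc_self)
  have hswap : ∫ X in K, ∫ t in Ioc 0 T, f X t = ∫ t in Ioc 0 T, ∫ X in K, f X t :=
    integral_integral_swap hint
  have e1 : ∀ X : ℝ, ∫ t in Ioc 0 T, wz k X t * g t = ∫ t in Ioc 0 T, f X t := by
    intro X
    refine integral_congr_ae (Eventually.of_forall fun t => ?_)
    simp only [hf]
    unfold wz
    ring
  have e2 : ∀ t : ℝ, (∫ X in K, om k ((k : ℝ) / X) t) * (‖riemannZeta (cl t)‖ ^ 2 * g t) =
      ∫ X in K, f X t := by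
    intro t
    simp only [hf]
    rw [integral_mul_const]
  simp_rw [e1, e2]
  exact ⟨hint.integral_prod_left, hint.integral_prod_right, hswap⟩

/-- the weight is at most one -/
lemma F_le {k : ℕ} (hk : 1 ≤ k) {t : ℝ} (ht : 0 < t) {S : Set ℝ} (hS : S ⊆ Ioi 0) :
    ∫ X in S, om k (k / X) t ≤ 1 := by
  obtain ⟨i1, m1⟩ := om_mass hk ht
  rw [← m1]
  refine setIntegral_mono_set i1 ?_ hS.eventuallyLE
  refine (ae_restrict_iff' measurableSet_Ioi).mpr (Eventually.of_forall fun X hX => ?_)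
  have hk0 : (0 : ℝ) < k := by exact_mod_cast hk
  exact om_nonneg k (div_pos hk0 hX) ht.le

lemma F_nonneg {k : ℕ} (hk : 1 ≤ k) {t : ℝ} (ht : 0 < t) {S : Set ℝ} (hS : S ⊆ Ioi 0)
    (hSm : MeasurableSet S) : 0 ≤ ∫ X in S, om k (k / X) t := by
  refine setIntegral_nonneg hSm fun X hX => ?_
  have hk0 : (0 : ℝ) < k := by exact_mod_cast hk
  exact om_nonneg k (div_pos hk0 (hS hX)) ht.le

/-- the weight is close to one inside -/
lemma F_ge {k : ℕ} (hk : 1 ≤ k) {t δ : ℝ} (ht : 0 < t) (hδ : 0 < δ) (hδ1 : δ < 1) {a b : ℝ}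
    (ha : 0 < a) (h1 : a ≤ (1 - δ) * t) (h2 : (1 + δ) * t ≤ b) :
    1 - 4 / (δ ^ 2 * k) ≤ ∫ X in Icc a b, om k (k / X) t := by
  refine (Pool.Agent.Y22.OM.conc k hk ht hδ hδ1).trans ?_
  obtain ⟨i1, -⟩ := om_mass hk ht
  have hsub : Icc a b ⊆ Ioi 0 := fun X hX => lt_of_lt_of_le ha hX.1
  refine setIntegral_mono_set (i1.mono_set hsub) ?_ (Icc_subset_Icc h1 h2).eventuallyLE
  refine (ae_restrict_iff' measurableSet_Icc).mpr (Eventually.of_forall fun X hX => ?_)
  have hk0 : (0 : ℝ) < k := by exact_mod_cast hk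
  exact om_nonneg k (div_pos hk0 (hsub hX)) ht.le

/-- the weight is small outside -/
lemma F_out {k : ℕ} (hk : 1 ≤ k) {t δ : ℝ} (ht : 0 < t) (hδ : 0 < δ) (hδ1 : δ < 1) {a b : ℝ}
    (ha : 0 < a) (h : (1 + δ) * t < a ∨ b < (1 - δ) * t) :
    ∫ X in Icc a b, om k (k / X) t ≤ 4 / (δ ^ 2 * k) := by
  have h1 := Pool.Agent.Y22.OM.conc k hk ht hδ hδ1
  obtain ⟨i1, m1⟩ := om_mass hk ht
  have hsub : Icc a b ⊆ Ioi 0 := fun X hX => lt_of_lt_of_le ha hX.1
  have hd0 : 0 < (1 - δ) * t := mul_pos (by linarith) ht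
  have hsub2 : Icc ((1 - δ) * t) ((1 + δ) * t) ⊆ Ioi 0 := fun X hX => lt_of_lt_of_le hd0 hX.1
  have hdis : Disjoint (Icc a b) (Icc ((1 - δ) * t) ((1 + δ) * t)) := by
    rw [Set.disjoint_left]
    intro X hX hX'
    rcases h with h | h
    · linarith [hX.1, hX'.2]
    · linarith [hX.2, hX'.1]
  have h2 : (∫ X in Icc a b, om k (k / X) t) +
      ∫ X in Icc ((1 - δ) * t) ((1 + δ) * t), om k (k / X) t ≤ 1 := by
    rw [← setIntegral_union hdis measurableSet_Icc (i1.mono_set hsub) (i1.mono_set hsub2)]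
    exact F_le hk ht (union_subset hsub hsub2)
  linarith

end

end Pool.Agent.R304.TL
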