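import Pool.Agent.R304.TL.Lm5

/-! Limits with respect to the second moment: sharp cutoffs. -/

open Complex Filter Set Topology MeasureTheory

namespace Pool.Agent.R304.TL

open Pool.Agent.H306R2.SM (om cl Yf)
open Pool.Agent.H262R4.TM.TTW (om_nonneg om_cont cl_cont zeta_cont int2)

noncomputable section

/-- the density times a function -/
def hh (g : ℝ → ℝ) (t : ℝ) : ℝ := ‖riemannZeta (cl t)‖ ^ 2 * g t

lemma hh_cont {g : ℝ → ℝ} (hg : Continuous g) : Continuous (hh g) := (zeta_cont.norm.pow 2).mul hg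

lemma hh_int {g : ℝ → ℝ} (hg : Continuous g) {a b : ℝ} : IntegrableOn (hh g) (Ioc a b) :=
  ((hh_cont hg).integrableOn_Icc).mono_set Ioc_subset_Icc_self

lemma LimR {g : ℝ → ℝ} {M : ℝ} (hL : LimC (fun t => (g t : ℂ)) M) {ε : ℝ} (hε : 0 < ε) :
    ∀ᶠ T : ℝ in atTop, ∀ X : ℝ, T / 4 ≤ X → X ≤ T / 2 →
      |(∫ t in Ioc 0 T, wz (kT T) X t * g t) - M * Real.log T| ≤ ε * Real.log T := by
  filter_upwards [hL ε hε] with T hT X x1 x2
  have := hT X x1 x2
  rw [WW_real, ← Complex.ofReal_mul, ← Complex.ofReal_sub, Complex.norm_real,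
    Real.norm_eq_abs] at this
  exact this

lemma X_int {T a b : ℝ} (hab : a ≤ b) (ha : 0 < a) {g : ℝ → ℝ} (hg : Continuous g) {lo up : ℝ}
    (h : ∀ X ∈ Icc a b, lo ≤ ∫ t in Ioc 0 T, wz (kT T) X t * g t ∧
      ∫ t in Ioc 0 T, wz (kT T) X t * g t ≤ up) :
    (b - a) * lo ≤ ∫ X in Icc a b, ∫ t in Ioc 0 T, wz (kT T) X t * g t ∧
    ∫ X in Icc a b, ∫ t in Ioc 0 T, wz (kT T) X t * g t ≤ (b - a) * up := by
  obtain ⟨i1, -, -⟩ := fub (T := T) (b := b) ha hg
  have e : ∀ c : ℝ, (b - a) * c = ∫ X in Icc a b, c := by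
    intro c
    rw [setIntegral_const, smul_eq_mul, Real.volume_real_Icc_of_le hab]
  constructor
  · rw [e lo]
    exact setIntegral_mono_on (integrableOn_const (by simp)) i1 measurableSet_Icc
      fun X hX => (h X hX).1
  · rw [e up]
    exact setIntegral_mono_on i1 (integrableOn_const (by simp)) measurableSet_Icc
      fun X hX => (h X hX).2

/-- upper bound over a block -/
lemma blk_up {g : ℝ → ℝ} (hg : Continuous g) (h0 : ∀ t, 0 ≤ g t) {T : ℝ} (hT0 : 0 < T)
    (hk : 1 ≤ kT T) {δ : ℝ} (hδ : 0 < δ) (hδ1 : δ ≤ 1 / 10) {up : ℝ}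
    (h : ∀ X : ℝ, T / 4 ≤ X → X ≤ T / 2 → ∫ t in Ioc 0 T, wz (kT T) X t * g t ≤ up) :
    (1 - 4 / (δ ^ 2 * kT T)) * ∫ t in Ioc (3 / 10 * T) (9 / 20 * T), hh g t ≤
      (3 / 20 * T + δ * (3 / 4 * T)) * up := by
  set a := (1 - δ) * (3 / 10 * T) with ha
  set b := (1 + δ) * (9 / 20 * T) with hb
  have ha0 : 0 < a := mul_pos (by linarith) (by positivity)
  have ha4 : T / 4 ≤ a := by rw [ha]; nlinarith
  have hb2 : b ≤ T / 2 := by rw [hb]; nlinarith
  have hab : a ≤ b := by rw [ha, hb]; nlinarith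
  obtain ⟨i1, i2, hf⟩ := fub (T := T) (b := b) ha0 hg
  have hX := (X_int hab ha0 hg (lo := 0) (up := up) (T := T) (fun X hX => ⟨by
    refine setIntegral_nonneg measurableSet_Ioc fun t ht => ?_
    exact mul_nonneg (wz_nonneg _ (lt_of_lt_of_le ha0 hX.1) ht.1.le) (h0 t),
    h X (ha4.trans hX.1) (hX.2.trans hb2)⟩)).2
  have e1 : (b - a) * up = (3 / 20 * T + δ * (3 / 4 * T)) * up := by rw [ha, hb]; ring
  rw [hf, e1] at hX
  refine le_trans ?_ hX
  have hsub : Ioc (3 / 10 * T) (9 / 20 * T) ⊆ Ioc 0 T := by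
    intro t ht
    exact ⟨by linarith [ht.1], by linarith [ht.2]⟩
  calc (1 - 4 / (δ ^ 2 * kT T)) * ∫ t in Ioc (3 / 10 * T) (9 / 20 * T), hh g t =
        ∫ t in Ioc (3 / 10 * T) (9 / 20 * T), (1 - 4 / (δ ^ 2 * kT T)) * hh g t := by
          rw [integral_const_mul]
    _ ≤ ∫ t in Ioc (3 / 10 * T) (9 / 20 * T), (∫ X in Icc a b, om (kT T) ((kT T : ℝ) / X) t) *
          (‖riemannZeta (cl t)‖ ^ 2 * g t) := by
        refine setIntegral_mono_on ((hh_int hg).const_mul _) (i2.mono_set hsub)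
          measurableSet_Ioc fun t ht => ?_
        have ht0 : 0 < t := by linarith [ht.1]
        refine mul_le_mul_of_nonneg_right ?_ (mul_nonneg (by positivity) (h0 t))
        refine F_ge hk ht0 hδ (by linarith) ha0 ?_ ?_
        · rw [ha]
          exact mul_le_mul_of_nonneg_left ht.1.le (by linarith)
        · rw [hb]
          exact mul_le_mul_of_nonneg_left ht.2 (by linarith)
    _ ≤ ∫ t in Ioc 0 T, (∫ X in Icc a b, om (kT T) ((kT T : ℝ) / X) t) *
          (‖riemannZeta (cl t)‖ ^ 2 * g t) := by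
        refine setIntegral_mono_set i2 ?_ hsub.eventuallyLE
        refine (ae_restrict_iff' measurableSet_Ioc).mpr (Eventually.of_forall fun t ht => ?_)
        exact mul_nonneg (F_nonneg hk ht.1 (fun X hX => lt_of_lt_of_le ha0 hX.1) measurableSet_Icc)
          (mul_nonneg (by positivity) (h0 t))

/-- lower bound over a block -/
lemma blk_low {g : ℝ → ℝ} (hg : Continuous g) (h0 : ∀ t, 0 ≤ g t) {T : ℝ} (hT0 : 0 < T)
    (hk : 1 ≤ kT T) {δ : ℝ} (hδ : 0 < δ) (hδ1 : δ ≤ 1 / 10) {lo : ℝ}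
    (h : ∀ X : ℝ, T / 4 ≤ X → X ≤ T / 2 → lo ≤ ∫ t in Ioc 0 T, wz (kT T) X t * g t) :
    (3 / 20 * T - δ * (3 / 4 * T)) * lo ≤ (∫ t in Ioc (3 / 10 * T) (9 / 20 * T), hh g t) +
      4 / (δ ^ 2 * kT T) * ∫ t in Ioc 0 T, hh g t := by
  set a := (1 + δ) * (3 / 10 * T) with ha
  set b := (1 - δ) * (9 / 20 * T) with hb
  have ha0 : 0 < a := mul_pos (by linarith) (by positivity)
  have ha4 : T / 4 ≤ a := by rw [ha]; nlinarith
  have hb2 : b ≤ T / 2 := by rw [hb]; nlinarith
  have hab : a ≤ b := by rw [ha, hb]; nlinarith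
  obtain ⟨i1, i2, hf⟩ := fub (T := T) (b := b) ha0 hg
  have e : (b - a) * lo = ∫ X in Icc a b, lo := by
    rw [setIntegral_const, smul_eq_mul, Real.volume_real_Icc_of_le hab]
  have hX : (b - a) * lo ≤ ∫ X in Icc a b, ∫ t in Ioc 0 T, wz (kT T) X t * g t := by
    rw [e]
    exact setIntegral_mono_on (integrableOn_const (by simp)) i1 measurableSet_Icc
      fun X hX => h X (ha4.trans hX.1) (hX.2.trans hb2)
  have e1 : (b - a) * lo = (3 / 20 * T - δ * (3 / 4 * T)) * lo := by rw [ha, hb]; ring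
  rw [hf, e1] at hX
  refine hX.trans ?_
  have hsub : Icc (3 / 10 * T) (9 / 20 * T) ⊆ Ioc 0 T := by
    intro t ht
    exact ⟨by linarith [ht.1], by linarith [ht.2]⟩
  set q := 4 / (δ ^ 2 * kT T) with hq
  have hq0 : 0 ≤ q := by positivity
  have hii : IntegrableOn (fun t => (Icc (3 / 10 * T) (9 / 20 * T)).indicator (hh g) t)
      (Ioc 0 T) := (hh_int hg).indicator measurableSet_Icc
  have e2 : ∫ t in Ioc (3 / 10 * T) (9 / 20 * T), hh g t =
      ∫ t in Ioc 0 T, (Icc (3 / 10 * T) (9 / 20 * T)).indicator (hh g) t := by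
    rw [← integral_Icc_eq_integral_Ioc, setIntegral_indicator measurableSet_Icc,
      inter_eq_self_of_subset_right hsub]
  rw [e2, ← integral_const_mul, ← integral_add hii ((hh_int hg).const_mul q)]
  refine setIntegral_mono_on i2 (hii.add ((hh_int hg).const_mul q)) measurableSet_Ioc
    fun t ht => ?_
  have ht0 := ht.1
  have hh0 : 0 ≤ hh g t := mul_nonneg (by positivity) (h0 t)
  have hSpos : Icc a b ⊆ Ioi 0 := fun X hX => lt_of_lt_of_le ha0 hX.1
  show (∫ X in Icc a b, om (kT T) ((kT T : ℝ) / X) t) * hh g t ≤ _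
  by_cases hmem : t ∈ Icc (3 / 10 * T) (9 / 20 * T)
  · rw [indicator_of_mem hmem]
    have h1 := mul_le_mul_of_nonneg_right (F_le hk ht0 hSpos) hh0
    have h2 : 0 ≤ q * hh g t := mul_nonneg hq0 hh0
    linarith
  · rw [indicator_of_notMem hmem, zero_add]
    refine mul_le_mul_of_nonneg_right (F_out hk ht0 hδ (by linarith) ha0 ?_) hh0
    rw [mem_Icc, not_and_or] at hmem
    rcases hmem with h1 | h1
    · left
      push Not at h1
      rw [ha]
      exact mul_lt_mul_of_pos_left h1 (by linarith)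
    · right
      push Not at h1
      rw [hb]
      exact mul_lt_mul_of_pos_left h1 (by linarith)

/-- summation over blocks -/
lemma ladder {d : ℝ → ℝ} {ε C U0 : ℝ} (hε : 0 ≤ ε) (hU0 : 3 ≤ U0)
    (hb : ∀ U : ℝ, 1 ≤ U → U ≤ U0 → |d U| ≤ C)
    (hs : ∀ U : ℝ, U0 ≤ U → |d U - d (2 / 3 * U)| ≤ ε * (U * Real.log U)) :
    ∀ U : ℝ, 1 ≤ U → |d U| ≤ 3 * ε * (U * Real.log U) + C := by
  have key : ∀ n : ℕ, ∀ U : ℝ, 1 ≤ U → U ≤ (3 / 2) ^ n * U0 →
      |d U| ≤ 3 * ε * (U * Real.log U) + C := by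
    intro n
    induction n with
    | zero =>
      intro U h1 h2
      rw [pow_zero, one_mul] at h2
      have := Real.log_nonneg h1
      have : 0 ≤ 3 * ε * (U * Real.log U) := by positivity
      linarith [hb U h1 h2]
    | succ n ih =>
      intro U h1 h2
      by_cases h3 : U ≤ U0
      · have := Real.log_nonneg h1
        have : 0 ≤ 3 * ε * (U * Real.log U) := by positivity
        linarith [hb U h1 h3]
      · push Not at h3
        have h4 := hs U h3.le
        have h5 := ih (2 / 3 * U) (by linarith) (by rw [pow_succ] at h2; linarith)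
        have h6 : Real.log (2 / 3 * U) ≤ Real.log U := Real.log_le_log (by linarith) (by linarith)
        have h7 : 3 * ε * (2 / 3 * U * Real.log (2 / 3 * U)) ≤ 3 * ε * (2 / 3 * U * Real.log U) := by
          gcongr
        have h8 : |d U| ≤ |d U - d (2 / 3 * U)| + |d (2 / 3 * U)| := by
          have := abs_add_le (d U - d (2 / 3 * U)) (d (2 / 3 * U))
          rwa [sub_add_cancel] at this
        calc |d U| ≤ ε * (U * Real.log U) + (3 * ε * (2 / 3 * U * Real.log U) + C) := by linarith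
          _ = 3 * ε * (U * Real.log U) + C := by ring
  intro U h1
  obtain ⟨n, hn⟩ := pow_unbounded_of_one_lt U (show (1 : ℝ) < 3 / 2 by norm_num)
  refine key n U h1 (hn.le.trans ?_)
  exact le_mul_of_one_le_right (by positivity) (by linarith)

end

end Pool.Agent.R304.TL
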