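import Pool.Agent.R304.TL.Lm6

/-! Limits with respect to the second moment: the asymptotic formula. -/

open Complex Filter Set Topology MeasureTheory

namespace Pool.Agent.R304.TL

open Pool.Agent.H306R2.SM (om cl Yf)
open Pool.Agent.H262R4.TM.TTW (om_nonneg om_cont cl_cont zeta_cont int2)

noncomputable section

/-- the integral up to `U` -/
def AA (g : ℝ → ℝ) (U : ℝ) : ℝ := ∫ t in Ioc 0 U, hh g t

lemma AA_sub {g : ℝ → ℝ} (hg : Continuous g) {U : ℝ} (hU : 0 < U) :
    AA g U - AA g (2 / 3 * U) = ∫ t in Ioc (2 / 3 * U) U, hh g t := by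
  have h := setIntegral_union (μ := volume) (f := hh g) (s := Ioc 0 (2 / 3 * U))
    (t := Ioc (2 / 3 * U) U) (by
      rw [Set.disjoint_left]
      intro t ht ht'
      linarith [ht.2, ht'.1]) measurableSet_Ioc (hh_int hg) (hh_int hg)
  rw [Ioc_union_Ioc_eq_Ioc (by linarith) (by linarith)] at h
  unfold AA
  linarith

lemma hh_nonneg {g : ℝ → ℝ} (h0 : ∀ t, 0 ≤ g t) (t : ℝ) : 0 ≤ hh g t :=
  mul_nonneg (by positivity) (h0 t)

lemma AA_nonneg {g : ℝ → ℝ} (h0 : ∀ t, 0 ≤ g t) (U : ℝ) : 0 ≤ AA g U :=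
  setIntegral_nonneg measurableSet_Ioc fun t _ => hh_nonneg h0 t

lemma AA_mono {g : ℝ → ℝ} (hg : Continuous g) (h0 : ∀ t, 0 ≤ g t) {U V : ℝ} (h : U ≤ V) :
    AA g U ≤ AA g V := by
  unfold AA
  refine setIntegral_mono_set (hh_int hg) (ae_of_all _ fun t => hh_nonneg h0 t) ?_
  exact (Ioc_subset_Ioc_right h).eventuallyLE

lemma k_tend : Tendsto (fun T : ℝ => ((kT T : ℕ) : ℝ)) atTop atTop := by
  refine tendsto_natCast_atTop_atTop.comp (tendsto_nat_ceil_atTop.comp ?_)
  exact ((tendsto_pow_atTop two_ne_zero).comp Real.tendsto_log_atTop).const_mul_atTop two_pos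

lemma q_small {δ : ℝ} (hδ : 0 < δ) {ε : ℝ} (hε : 0 < ε) :
    ∀ᶠ T : ℝ in atTop, 4 / (δ ^ 2 * kT T) ≤ ε := by
  filter_upwards [k_tend.eventually_ge_atTop (4 / (δ ^ 2 * ε) + 1)] with T hT
  have h1 : 0 < 4 / (δ ^ 2 * ε) := by positivity
  have h2 : 0 < ((kT T : ℕ) : ℝ) := by linarith
  rw [div_le_iff₀ (by positivity)]
  have h3 : 4 / (δ ^ 2 * ε) ≤ kT T := by linarith
  rw [div_le_iff₀ (by positivity)] at h3
  linarith

/-- crude bound -/
lemma crude {g : ℝ → ℝ} (hg : Continuous g) (h0 : ∀ t, 0 ≤ g t) {M : ℝ}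
    (hL : LimC (fun t => (g t : ℂ)) M) : ∃ C2 : ℝ, 0 < C2 ∧ ∀ᶠ U : ℝ in atTop,
      AA g U ≤ C2 * (U * Real.log U) := by
  have hM0 := abs_nonneg M
  have hsc : Tendsto (fun U : ℝ => 20 / 9 * U) atTop atTop :=
    tendsto_id.const_mul_atTop (by norm_num)
  have hev : ∀ᶠ U : ℝ in atTop, |AA g U - AA g (2 / 3 * U)| ≤
      (2 * (|M| + 1)) * (U * Real.log U) := by
    filter_upwards [hsc.eventually (LimR hL one_pos), hsc.eventually kT_facts,
      hsc.eventually (q_small (δ := 1 / 10) (by norm_num) (ε := 1 / 2) (by norm_num)),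
      eventually_ge_atTop (3 : ℝ)] with U h1 hk hq hU
    have hU0 : 0 < U := by linarith
    have hl1 : 0 < Real.log U := Real.log_pos (by linarith)
    have hl2 : Real.log (20 / 9 * U) ≤ 2 * Real.log U := by
      rw [← Real.log_rpow hU0 2]
      refine Real.log_le_log (by positivity) ?_
      rw [Real.rpow_two, pow_two]
      exact mul_le_mul_of_nonneg_right (by linarith) hU0.le
    have hl3 : 0 ≤ Real.log (20 / 9 * U) := Real.log_nonneg (by linarith)
    have h2 := blk_up hg h0 (T := 20 / 9 * U) (by positivity) hk.1 (δ := 1 / 10) (by norm_num)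
      le_rfl (up := (|M| + 1) * Real.log (20 / 9 * U)) (fun X x1 x2 => by
        have := (abs_le.1 (h1 X x1 x2)).2
        have h3 := mul_le_mul_of_nonneg_right (le_abs_self M) hl3
        linarith)
    have e1 : 3 / 10 * (20 / 9 * U) = 2 / 3 * U := by ring
    have e2 : 9 / 20 * (20 / 9 * U) = U := by ring
    rw [e1, e2, ← AA_sub hg hU0] at h2
    have h4 : 0 ≤ AA g U - AA g (2 / 3 * U) := by
      have := AA_mono hg h0 (show 2 / 3 * U ≤ U by linarith)
      linarith
    rw [abs_of_nonneg h4]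
    have h5 : 1 / 2 * (AA g U - AA g (2 / 3 * U)) ≤
        (1 - 4 / ((1 / 10) ^ 2 * kT (20 / 9 * U))) * (AA g U - AA g (2 / 3 * U)) :=
      mul_le_mul_of_nonneg_right (by linarith) h4
    have h6 : (|M| + 1) * Real.log (20 / 9 * U) ≤ (|M| + 1) * (2 * Real.log U) := by gcongr
    have h7 : (3 / 20 * (20 / 9 * U) + 1 / 10 * (3 / 4 * (20 / 9 * U))) *
        ((|M| + 1) * Real.log (20 / 9 * U)) ≤ (1 / 2 * U) * ((|M| + 1) * (2 * Real.log U)) := by
      refine mul_le_mul (by linarith) h6 (by positivity) (by positivity)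
    have h8 : (1 / 2 * U) * ((|M| + 1) * (2 * Real.log U)) = (|M| + 1) * (U * Real.log U) := by
      ring
    linarith
  obtain ⟨U1, hU1⟩ := eventually_atTop.1 hev
  set U0 := max U1 3 with hU0
  have hlad := ladder (d := AA g) (ε := 2 * (|M| + 1)) (C := AA g U0) (U0 := U0) (by positivity)
    (le_max_right _ _) (fun U _ h2 => by
      rw [abs_of_nonneg (AA_nonneg h0 U)]; exact AA_mono hg h0 h2)
    (fun U h => hU1 U ((le_max_left _ _).trans h))
  refine ⟨3 * (2 * (|M| + 1)) + AA g U0, by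
    have := AA_nonneg h0 U0
    positivity, ?_⟩
  filter_upwards [eventually_ge_atTop (3 : ℝ), Real.tendsto_log_atTop.eventually_ge_atTop 1]
    with U hU hl
  have h1 := hlad U (by linarith)
  rw [abs_of_nonneg (AA_nonneg h0 U)] at h1
  have h2 : 1 ≤ U * Real.log U := by nlinarith
  have h3 := mul_le_mul_of_nonneg_left h2 (AA_nonneg h0 U0)
  linarith

/-- the asymptotic formula -/
theorem sharp {g : ℝ → ℝ} (hg : Continuous g) (h0 : ∀ t, 0 ≤ g t) {M : ℝ}
    (hL : LimC (fun t => (g t : ℂ)) M) :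
    Tendsto (fun U : ℝ => (∫ t in Ioc 0 U, ‖riemannZeta (cl t)‖ ^ 2 * g t) / (U * Real.log U))
      atTop (𝓝 M) := by
  obtain ⟨C2, hC2, hcr⟩ := crude hg h0 hL
  have hM0 := abs_nonneg M
  set Mb := |M| + 1 with hMb
  have hMb1 : 1 ≤ Mb := by linarith
  have hsc : Tendsto (fun U : ℝ => 20 / 9 * U) atTop atTop :=
    tendsto_id.const_mul_atTop (by norm_num)
  set d : ℝ → ℝ := fun U => AA g U - M * (U * Real.log U) with hd
  have hstep : ∀ ε : ℝ, 0 < ε → ε ≤ 1 → ∀ᶠ U : ℝ in atTop,
      |d U - d (2 / 3 * U)| ≤ ε * (U * Real.log U) := by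
    intro ε hε hε1
    obtain ⟨δ, hδ⟩ : ∃ δ, δ = min (1 / 10) (ε / (20 * Mb)) := ⟨_, rfl⟩
    have hδ0 : 0 < δ := by rw [hδ]; positivity
    have hδ1 : δ ≤ 1 / 10 := by rw [hδ]; exact min_le_left _ _
    have hδ2 : δ * Mb ≤ ε / 20 := by
      have : δ ≤ ε / (20 * Mb) := by rw [hδ]; exact min_le_right _ _
      rw [le_div_iff₀ (by positivity)] at this
      linarith
    filter_upwards [hsc.eventually (LimR hL (show 0 < ε / 4 by positivity)),
      hsc.eventually kT_facts,
      hsc.eventually (q_small hδ0 (ε := ε / (30 * C2)) (by positivity)),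
      hcr, hsc.eventually hcr, eventually_ge_atTop (3 : ℝ),
      Real.tendsto_log_atTop.eventually_ge_atTop (6 * Mb / ε)] with U h1 hk hq hcU hcT hU hlU
    have hU0 : 0 < U := by linarith
    have hl1 : 0 < Real.log U := Real.log_pos (by linarith)
    have hl2 : Real.log (20 / 9 * U) ≤ 2 * Real.log U := by
      rw [← Real.log_rpow hU0 2]
      refine Real.log_le_log (by positivity) ?_
      rw [Real.rpow_two, pow_two]
      exact mul_le_mul_of_nonneg_right (by linarith) hU0.le
    have hl3 : 0 ≤ Real.log (20 / 9 * U) := Real.log_nonneg (by linarith)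
    set T := 20 / 9 * U with hT
    set L := Real.log T with hLd
    set P := U * Real.log U with hP
    have hP0 : 0 < P := by positivity
    have hUL : U * L ≤ 2 * P := by
      rw [hP]
      have := mul_le_mul_of_nonneg_left hl2 hU0.le
      linarith
    have hUL0 : 0 ≤ U * L := by positivity
    set q := 4 / (δ ^ 2 * kT T) with hqd
    have hq0 : 0 ≤ q := by positivity
    have hqC : q * C2 ≤ ε / 30 := by
      rw [le_div_iff₀ (by positivity)] at hq
      linarith
    have e1 : 3 / 10 * T = 2 / 3 * U := by rw [hT]; ring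
    have e2 : 9 / 20 * T = U := by rw [hT]; ring
    have e3 : 3 / 20 * T = U / 3 := by rw [hT]; ring
    have e4 : 3 / 4 * T = 5 / 3 * U := by rw [hT]; ring
    have hup := blk_up hg h0 (T := T) (by positivity) hk.1 hδ0 hδ1 (up := (M + ε / 4) * L)
      (fun X x1 x2 => by
        have := (abs_le.1 (h1 X x1 x2)).2
        linarith)
    have hlo := blk_low hg h0 (T := T) (by positivity) hk.1 hδ0 hδ1 (lo := (M - ε / 4) * L)
      (fun X x1 x2 => by
        have := (abs_le.1 (h1 X x1 x2)).1
        linarith)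
    rw [e1, e2, e3, e4, ← AA_sub hg hU0] at hup hlo
    set D := AA g U - AA g (2 / 3 * U) with hD
    have hD0 : 0 ≤ D := by
      have := AA_mono hg h0 (show 2 / 3 * U ≤ U by linarith)
      linarith
    have hDU : D ≤ C2 * P := by
      have := AA_nonneg h0 (2 / 3 * U)
      linarith
    have hTT : (∫ t in Ioc 0 T, hh g t) ≤ 5 * C2 * P := by
      have h2 : AA g T ≤ C2 * (T * L) := hcT
      have h3 : C2 * (T * L) ≤ C2 * (20 / 9 * (2 * P)) := by
        have : T * L = 20 / 9 * (U * L) := by rw [hT]; ring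
        rw [this]
        gcongr
      have h4 : C2 * (20 / 9 * (2 * P)) ≤ 5 * C2 * P := by
        have : 0 ≤ C2 * P := by positivity
        linarith
      exact h2.trans (h3.trans h4)
    -- the logarithms
    have hL1 : L = Real.log U + Real.log (20 / 9) := by
      rw [hLd, hT, Real.log_mul (by norm_num) hU0.ne']; ring
    have hL2 : Real.log (2 / 3 * U) = Real.log U - Real.log (3 / 2) := by
      rw [Real.log_mul (by norm_num) hU0.ne']
      have : Real.log (2 / 3) = -Real.log (3 / 2) := by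
        rw [← Real.log_inv]; norm_num
      rw [this]; ring
    have l0a : 0 ≤ Real.log (20 / 9) := Real.log_nonneg (by norm_num)
    have l0b : Real.log (20 / 9) ≤ 1 := by
      rw [← Real.log_exp 1]
      refine Real.log_le_log (by norm_num) ?_
      have := Real.exp_one_gt_d9
      linarith
    have l1a : 0 ≤ Real.log (3 / 2) := Real.log_nonneg (by norm_num)
    have l1b : Real.log (3 / 2) ≤ 1 := by
      rw [← Real.log_exp 1]
      refine Real.log_le_log (by norm_num) ?_
      have := Real.exp_one_gt_d9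
      linarith
    have hMU : Mb * U ≤ ε / 6 * P := by
      rw [div_le_iff₀ hε] at hlU
      have := mul_le_mul_of_nonneg_left hlU hU0.le
      rw [hP]
      linarith
    have m0 : |M * (U * Real.log (20 / 9))| ≤ Mb * U := by
      rw [abs_mul, abs_of_nonneg (by positivity : 0 ≤ U * Real.log (20 / 9))]
      have a1 : |M| ≤ Mb := by linarith
      have a2 : U * Real.log (20 / 9) ≤ U := mul_le_of_le_one_right hU0.le l0b
      exact mul_le_mul a1 a2 (by positivity) (by linarith)
    have m1 : |M * (U * Real.log (3 / 2))| ≤ Mb * U := by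
      rw [abs_mul, abs_of_nonneg (by positivity : 0 ≤ U * Real.log (3 / 2))]
      have a1 : |M| ≤ Mb := by linarith
      have a2 : U * Real.log (3 / 2) ≤ U := mul_le_of_le_one_right hU0.le l1b
      exact mul_le_mul a1 a2 (by positivity) (by linarith)
    have hUL' : M * (U * L) = M * P + M * (U * Real.log (20 / 9)) := by
      rw [hL1, hP]; ring
    have hdd : d U - d (2 / 3 * U) = D - (M * P / 3 + 2 / 3 * (M * (U * Real.log (3 / 2)))) := by
      rw [hd]
      simp only
      rw [hL2, hD, hP]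
      ring
    -- the errors
    have b1 : δ * |M + ε / 4| ≤ ε / 20 := by
      refine le_trans (mul_le_mul_of_nonneg_left ?_ hδ0.le) hδ2
      calc |M + ε / 4| ≤ |M| + |ε / 4| := abs_add_le _ _
        _ ≤ Mb := by rw [abs_of_pos (by positivity : 0 < ε / 4)]; linarith
    have b2 : δ * |M - ε / 4| ≤ ε / 20 := by
      refine le_trans (mul_le_mul_of_nonneg_left ?_ hδ0.le) hδ2
      calc |M - ε / 4| ≤ |M| + |ε / 4| := abs_sub _ _
        _ ≤ Mb := by rw [abs_of_pos (by positivity : 0 < ε / 4)]; linarith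
    have b1' : δ * (M + ε / 4) * (U * L) ≤ ε / 20 * (2 * P) := by
      have a1 : δ * (M + ε / 4) ≤ ε / 20 :=
        (mul_le_mul_of_nonneg_left (le_abs_self _) hδ0.le).trans b1
      exact (mul_le_mul_of_nonneg_right a1 hUL0).trans
        (mul_le_mul_of_nonneg_left hUL (by positivity))
    have b2' : δ * (M - ε / 4) * (U * L) ≤ ε / 20 * (2 * P) := by
      have a1 : δ * (M - ε / 4) ≤ ε / 20 :=
        (mul_le_mul_of_nonneg_left (le_abs_self _) hδ0.le).trans b2
      exact (mul_le_mul_of_nonneg_right a1 hUL0).trans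
        (mul_le_mul_of_nonneg_left hUL (by positivity))
    have b3 : ε / 4 * (U * L) ≤ ε / 4 * (2 * P) := mul_le_mul_of_nonneg_left hUL (by positivity)
    have b4 : q * D ≤ ε / 30 * P := by
      calc q * D ≤ q * (C2 * P) := mul_le_mul_of_nonneg_left hDU hq0
        _ = q * C2 * P := by ring
        _ ≤ ε / 30 * P := mul_le_mul_of_nonneg_right hqC hP0.le
    have b5 : q * (∫ t in Ioc 0 T, hh g t) ≤ ε / 6 * P := by
      calc q * (∫ t in Ioc 0 T, hh g t) ≤ q * (5 * C2 * P) := mul_le_mul_of_nonneg_left hTT hq0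
        _ = 5 * (q * C2) * P := by ring
        _ ≤ 5 * (ε / 30) * P := by gcongr
        _ = ε / 6 * P := by ring
    have u1 : (U / 3 + δ * (5 / 3 * U)) * ((M + ε / 4) * L) =
        M * (U * L) / 3 + 1 / 3 * (ε / 4 * (U * L)) + 5 / 3 * (δ * (M + ε / 4) * (U * L)) := by
      ring
    have u2 : (U / 3 - δ * (5 / 3 * U)) * ((M - ε / 4) * L) =
        M * (U * L) / 3 - 1 / 3 * (ε / 4 * (U * L)) - 5 / 3 * (δ * (M - ε / 4) * (U * L)) := by
      ring
    have u3 : (1 - q) * D = D - q * D := by ring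
    rw [u1, hUL', u3] at hup
    rw [u2, hUL'] at hlo
    rw [hdd]
    rw [abs_le] at m0 m1 ⊢
    have hεP : 0 ≤ ε * P := by positivity
    constructor
    · linarith [m0.1, m0.2, m1.1, m1.2]
    · linarith [m0.1, m0.2, m1.1, m1.2]
  -- conclusion
  rw [Metric.tendsto_atTop]
  intro η hη
  set ε := min 1 (η / 6) with hε
  have hε0 : 0 < ε := by rw [hε]; positivity
  have hεη : 3 * ε ≤ η / 2 := by
    have : ε ≤ η / 6 := by rw [hε]; exact min_le_right _ _
    linarith
  obtain ⟨U1, hU1⟩ := eventually_atTop.1 (hstep ε hε0 (by rw [hε]; exact min_le_left _ _))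
  set U0 := max U1 3 with hU0
  have hU03 : 3 ≤ U0 := le_max_right _ _
  have hlad := ladder (d := d) (ε := ε) (C := AA g U0 + |M| * (U0 * Real.log U0)) (U0 := U0)
    hε0.le hU03 (fun U h1 h2 => by
      have a1 := AA_nonneg h0 U
      have a2 := AA_mono hg h0 h2
      have a3 := Real.log_nonneg h1
      have a4 : Real.log U ≤ Real.log U0 := Real.log_le_log (by linarith) h2
      have a5 : U * Real.log U ≤ U0 * Real.log U0 := by
        exact mul_le_mul h2 a4 a3 (by linarith)
      have a6 : |M * (U * Real.log U)| ≤ |M| * (U0 * Real.log U0) := by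
        rw [abs_mul, abs_of_nonneg (by positivity : 0 ≤ U * Real.log U)]
        exact mul_le_mul_of_nonneg_left a5 hM0
      rw [hd]
      simp only
      rw [abs_le] at a6 ⊢
      constructor <;> linarith [a6.1, a6.2])
    (fun U h => hU1 U ((le_max_left _ _).trans h))
  set C := AA g U0 + |M| * (U0 * Real.log U0) with hC
  refine ⟨max 3 (2 * (|C| + 1) / η + 3), fun U hU => ?_⟩
  have hU3 : 3 ≤ U := (le_max_left _ _).trans hU
  have hUC : 2 * (|C| + 1) / η + 3 ≤ U := (le_max_right _ _).trans hU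
  have hl : 1 ≤ Real.log U := by
    rw [← Real.log_exp 1]
    refine Real.log_le_log (Real.exp_pos _) ?_
    have := Real.exp_one_lt_d9
    linarith
  have hP0 : 0 < U * Real.log U := by positivity
  have h1 := hlad U (by linarith)
  have h2 : |C| + 1 ≤ η / 2 * (U * Real.log U) := by
    have a1 : 2 * (|C| + 1) / η ≤ U := by linarith
    rw [div_le_iff₀ hη] at a1
    have a2 : U ≤ U * Real.log U := le_mul_of_one_le_right (by linarith) hl
    have a3 := mul_le_mul_of_nonneg_left a2 hη.le
    linarith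
  have h3 : C ≤ |C| := le_abs_self C
  rw [Real.dist_eq]
  have e : (∫ t in Ioc 0 U, ‖riemannZeta (cl t)‖ ^ 2 * g t) / (U * Real.log U) - M =
      d U / (U * Real.log U) := by
    rw [hd]
    simp only
    rw [sub_div, mul_div_assoc, div_self hP0.ne', mul_one]
    rfl
  rw [e, abs_div, abs_of_pos hP0, div_lt_iff₀ hP0]
  have h4 : 3 * ε * (U * Real.log U) ≤ η / 2 * (U * Real.log U) :=
    mul_le_mul_of_nonneg_right hεη hP0.le
  linarith

end

end Pool.Agent.R304.TL
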