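import Pool.Agent.R304.TL.Lm7

/-! The random model for the second moment. -/

open Complex Finset Filter Topology MeasureTheory Pointwise

namespace Pool.Agent.R304.TL

noncomputable section

/-- a random completely multiplicative function with covariances `(m, n) / sqrt (m n)` -/
structure Mdl {Ω : Type*} [MeasurableSpace Ω] (μ : Measure Ω) (X : ℕ → Ω → ℂ) : Prop where
  meas : ∀ n, Measurable (X n)
  norm_one : ∀ n, 1 ≤ n → ∀ ω, ‖X n ω‖ = 1
  mul : ∀ m n, 1 ≤ m → 1 ≤ n → ∀ ω, X (m * n) ω = X m ω * X n ω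
  corr : ∀ m n, 1 ≤ m → 1 ≤ n → ∫ ω, X m ω * (starRingEnd ℂ) (X n ω) ∂μ = psi m n

section gen

variable {Λ : Type*} (Y : ℕ → Λ → ℂ)

/-- the characters -/
def chiG (h : ℕ × ℕ) (l : Λ) : ℂ := Y h.1 l * (starRingEnd ℂ) (Y h.2 l)

/-- the generators -/
def GnG : Set (Λ → ℂ) := {g | ∃ h : ℕ × ℕ, 1 ≤ h.1 ∧ 1 ≤ h.2 ∧ g = chiG Y h}

/-- their span -/
def SpG : Submodule ℂ (Λ → ℂ) := Submodule.span ℂ (GnG Y)

lemma chiG_mem {h : ℕ × ℕ} (h1 : 1 ≤ h.1) (h2 : 1 ≤ h.2) : chiG Y h ∈ SpG Y :=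
  Submodule.subset_span ⟨h, h1, h2, rfl⟩

variable {Y}

lemma SpG_one (h1 : ∀ l, Y 1 l = 1) : (fun _ : Λ => (1 : ℂ)) ∈ SpG Y := by
  have h : chiG Y (1, 1) = fun _ : Λ => (1 : ℂ) := by
    funext t
    simp [chiG, h1]
  rw [← h]
  exact chiG_mem Y le_rfl le_rfl

lemma SpG_mul (hm : ∀ m n, 1 ≤ m → 1 ≤ n → ∀ l, Y (m * n) l = Y m l * Y n l)
    {g h : Λ → ℂ} (hg : g ∈ SpG Y) (hh : h ∈ SpG Y) : (fun t => g t * h t) ∈ SpG Y := by
  have h1 : g * h ∈ SpG Y * SpG Y := Submodule.mul_mem_mul hg hh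
  unfold SpG at h1
  rw [Submodule.span_mul_span] at h1
  refine (Submodule.span_mono ?_ : Submodule.span ℂ (GnG Y * GnG Y) ≤
    Submodule.span ℂ (GnG Y)) h1
  rintro _ ⟨_, ⟨a, a1, a2, rfl⟩, _, ⟨b, b1, b2, rfl⟩, rfl⟩
  refine ⟨(a.1 * b.1, a.2 * b.2), Nat.mul_pos a1 b1, Nat.mul_pos a2 b2, ?_⟩
  funext t
  simp only [Pi.mul_apply]
  unfold chiG
  simp only
  rw [hm _ _ a1 b1, hm _ _ a2 b2, map_mul]
  ring

lemma SpG_conj {g : Λ → ℂ} (hg : g ∈ SpG Y) : (fun t => (starRingEnd ℂ) (g t)) ∈ SpG Y := by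
  unfold SpG at hg
  induction hg using Submodule.span_induction with
  | mem g hg =>
    obtain ⟨h, h1, h2, rfl⟩ := hg
    have : (fun t => (starRingEnd ℂ) (chiG Y h t)) = chiG Y (h.2, h.1) := by
      funext t
      unfold chiG
      simp only [map_mul, Complex.conj_conj]
      ring
    rw [this]
    exact chiG_mem Y h2 h1
  | zero =>
    have h : (fun t : Λ => (starRingEnd ℂ) ((0 : Λ → ℂ) t)) = 0 := by funext t; simp
    rw [h]
    exact (SpG Y).zero_mem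
  | add g h _ _ ih1 ih2 =>
    have := (SpG Y).add_mem ih1 ih2
    convert this using 1
    funext t
    simp
  | smul r g _ ih =>
    have := (SpG Y).smul_mem ((starRingEnd ℂ) r) ih
    convert this using 1
    funext t
    simp

/-- the algebra -/
def BG (h1 : ∀ l, Y 1 l = 1) (hm : ∀ m n, 1 ≤ m → 1 ≤ n → ∀ l, Y (m * n) l = Y m l * Y n l)
    (m : ℕ) (R : ℝ) (D : Λ → Fin m → ℂ)
    (hD : ∀ t, D t ∈ Metric.closedBall (0 : Fin m → ℂ) R) :
    StarSubalgebra ℂ C(Metric.closedBall (0 : Fin m → ℂ) R, ℂ) where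
  carrier := {f | (fun t => f ⟨D t, hD t⟩) ∈ SpG Y}
  mul_mem' := fun ha hb => SpG_mul hm ha hb
  one_mem' := SpG_one h1
  add_mem' := fun ha hb => (SpG Y).add_mem ha hb
  zero_mem' := (SpG Y).zero_mem
  algebraMap_mem' := fun r => by
    have h := (SpG Y).smul_mem r (SpG_one h1)
    have e : (r • fun _ : Λ => (1 : ℂ)) = fun t : Λ =>
        (algebraMap ℂ C(Metric.closedBall (0 : Fin m → ℂ) R, ℂ) r) ⟨D t, hD t⟩ := by
      funext t
      simp
    rw [e] at h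
    exact h
  star_mem' := fun ha => SpG_conj ha

theorem SWG (h1 : ∀ l, Y 1 l = 1)
    (hm : ∀ m n, 1 ≤ m → 1 ≤ n → ∀ l, Y (m * n) l = Y m l * Y n l)
    {m : ℕ} {D : Λ → Fin m → ℂ} {R : ℝ} (hD : ∀ t, ‖D t‖ ≤ R)
    (hS : ∀ j, (fun t => D t j) ∈ SpG Y) {Φ : (Fin m → ℂ) → ℂ} (hΦ : Continuous Φ) {ε : ℝ}
    (hε : 0 < ε) : ∃ g ∈ SpG Y, ∀ t, ‖Φ (D t) - g t‖ ≤ ε := by
  have hD' : ∀ t, D t ∈ Metric.closedBall (0 : Fin m → ℂ) R := fun t => by
    rw [mem_closedBall_zero_iff]; exact hD t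
  have : CompactSpace (Metric.closedBall (0 : Fin m → ℂ) R) :=
    isCompact_iff_compactSpace.1 (isCompact_closedBall 0 R)
  have hsep : (BG h1 hm m R D hD').SeparatesPoints := by
    intro x y hxy
    have hne : (x : Fin m → ℂ) ≠ y := fun h => hxy (Subtype.ext h)
    obtain ⟨j, hj⟩ := Function.ne_iff.1 hne
    refine ⟨fun w => (w : Fin m → ℂ) j, ⟨⟨fun w => (w : Fin m → ℂ) j,
      (continuous_apply j).comp continuous_subtype_val⟩, ?_, rfl⟩, hj⟩
    exact hS j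
  have htop := ContinuousMap.starSubalgebra_topologicalClosure_eq_top_of_separatesPoints
    (BG h1 hm m R D hD') hsep
  set f : C(Metric.closedBall (0 : Fin m → ℂ) R, ℂ) := ⟨fun w => Φ w,
    hΦ.comp continuous_subtype_val⟩ with hf
  have hmem : f ∈ (BG h1 hm m R D hD').topologicalClosure := by rw [htop]; trivial
  have hmem' : f ∈ closure ((BG h1 hm m R D hD' : StarSubalgebra ℂ _) : Set C(_, ℂ)) := hmem
  obtain ⟨g, hg, hdist⟩ := Metric.mem_closure_iff.1 hmem' ε hε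
  refine ⟨fun t => g ⟨D t, hD' t⟩, hg, fun t => ?_⟩
  have h1 := ContinuousMap.dist_apply_le_dist (f := f) (g := g) ⟨D t, hD' t⟩
  rw [dist_eq_norm] at h1
  exact h1.trans hdist.le

end gen

section model

variable {Ω : Type*} [MeasurableSpace Ω] {μ : Measure Ω} [IsProbabilityMeasure μ] {X : ℕ → Ω → ℂ}

/-- both worlds together -/
def YY (X : ℕ → Ω → ℂ) (n : ℕ) : ℝ ⊕ Ω → ℂ :=
  Sum.elim (fun t : ℝ => (n : ℂ) ^ (-(t * I))) (X n)

lemma Mdl.one (h : Mdl μ X) (ω : Ω) : X 1 ω = 1 := by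
  have h1 := h.mul 1 1 le_rfl le_rfl ω
  have h2 : X 1 ω ≠ 0 := by
    intro h0
    have := h.norm_one 1 le_rfl ω
    rw [h0, norm_zero] at this
    exact zero_ne_one this
  rw [mul_one] at h1
  have h3 : X 1 ω * (X 1 ω - 1) = 0 := by rw [mul_sub, mul_one, ← h1, sub_self]
  rcases mul_eq_zero.1 h3 with h4 | h4
  · exact absurd h4 h2
  · exact sub_eq_zero.1 h4

lemma YY_one (h : Mdl μ X) (l : ℝ ⊕ Ω) : YY X 1 l = 1 := by
  rcases l with t | ω
  · simp [YY]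
  · simpa [YY] using h.one ω

lemma YY_mul (h : Mdl μ X) (m n : ℕ) (hm : 1 ≤ m) (hn : 1 ≤ n) (l : ℝ ⊕ Ω) :
    YY X (m * n) l = YY X m l * YY X n l := by
  rcases l with t | ω
  · simp only [YY, Sum.elim_inl]
    rw [Nat.cast_mul, Complex.natCast_mul_natCast_cpow]
  · simpa [YY] using h.mul m n hm hn ω

lemma Mdl.int (h : Mdl μ X) {m n : ℕ} (hm : 1 ≤ m) (hn : 1 ≤ n) :
    Integrable (fun ω => X m ω * (starRingEnd ℂ) (X n ω)) μ := by
  refine Integrable.of_bound (C := 1) ?_ (Eventually.of_forall fun ω => ?_)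
  · exact ((h.meas m).mul ((Complex.continuous_conj.measurable).comp (h.meas n))).aestronglyMeasurable
  · rw [norm_mul, RCLike.norm_conj, h.norm_one m hm, h.norm_one n hn, one_mul]

lemma SpG_lim (h : Mdl μ X) {g : ℝ ⊕ Ω → ℂ} (hg : g ∈ SpG (YY X)) :
    Continuous (fun t : ℝ => g (Sum.inl t)) ∧ Integrable (fun ω => g (Sum.inr ω)) μ ∧
      LimC (fun t : ℝ => g (Sum.inl t)) (∫ ω, g (Sum.inr ω) ∂μ) := by
  unfold SpG at hg
  induction hg using Submodule.span_induction with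
  | mem g hg =>
    obtain ⟨a, h1, h2, rfl⟩ := hg
    refine ⟨chi_cont h1 h2, h.int h1 h2, ?_⟩
    have e : ∫ ω, chiG (YY X) a (Sum.inr ω) ∂μ = psi a.1 a.2 := h.corr a.1 a.2 h1 h2
    rw [e]
    exact chi_lim h1 h2
  | zero =>
    refine ⟨continuous_const, integrable_zero _ _ _, ?_⟩
    have := one_lim.smul 0
    simpa using this
  | add g k _ _ ih1 ih2 =>
    obtain ⟨c1, i1, l1⟩ := ih1
    obtain ⟨c2, i2, l2⟩ := ih2
    refine ⟨c1.add c2, i1.add i2, ?_⟩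
    have e : ∫ ω, (g + k) (Sum.inr ω) ∂μ = (∫ ω, g (Sum.inr ω) ∂μ) + ∫ ω, k (Sum.inr ω) ∂μ :=
      integral_add i1 i2
    rw [e]
    exact l1.add c1 c2 l2
  | smul r g _ ih =>
    obtain ⟨c1, i1, l1⟩ := ih
    refine ⟨c1.const_smul r, i1.smul r, ?_⟩
    have e : ∫ ω, (r • g) (Sum.inr ω) ∂μ = r * ∫ ω, g (Sum.inr ω) ∂μ := by
      rw [← integral_const_mul]
      rfl
    rw [e]
    exact l1.smul r

/-- approximate limits with the model -/
theorem fix_limG (h : Mdl μ X) {m : ℕ} {D : ℝ ⊕ Ω → Fin m → ℂ} {R : ℝ} (hD : ∀ t, ‖D t‖ ≤ R)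
    (hS : ∀ j, (fun t => D t j) ∈ SpG (YY X)) (hDm : Measurable fun ω => D (Sum.inr ω))
    {Φ : (Fin m → ℂ) → ℂ} (hΦ : Continuous Φ) {ε : ℝ}
    (hε : 0 < ε) : Integrable (fun ω => Φ (D (Sum.inr ω))) μ ∧ ∀ᶠ T : ℝ in atTop, ∀ X : ℝ,
      T / 4 ≤ X → X ≤ T / 2 →
      ‖WW T X (fun t => Φ (D (Sum.inl t))) - (∫ ω, Φ (D (Sum.inr ω)) ∂μ) * Real.log T‖ ≤
        ε * Real.log T := by
  obtain ⟨g, hg, hgt⟩ := SWG (YY_one h) (YY_mul h) hD hS hΦ (show 0 < ε / 8 by positivity)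
  obtain ⟨hgc, hgi, hc⟩ := SpG_lim h hg
  have hΦm : AEStronglyMeasurable (fun ω => Φ (D (Sum.inr ω))) μ :=
    (hΦ.measurable.comp hDm).aestronglyMeasurable
  have hdi : Integrable (fun ω => Φ (D (Sum.inr ω)) - g (Sum.inr ω)) μ :=
    Integrable.of_bound (hΦm.sub hgi.aestronglyMeasurable) (ε / 8)
      (Eventually.of_forall fun ω => hgt _)
  have hΦi : Integrable (fun ω => Φ (D (Sum.inr ω))) μ := by
    have := hdi.add hgi
    refine this.congr (Eventually.of_forall fun ω => ?_)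
    simp
  have hE : ‖(∫ ω, Φ (D (Sum.inr ω)) ∂μ) - ∫ ω, g (Sum.inr ω) ∂μ‖ ≤ ε / 8 := by
    rw [← integral_sub hΦi hgi]
    have := norm_integral_le_of_norm_le_const (μ := μ) (C := ε / 8)
      (f := fun ω => Φ (D (Sum.inr ω)) - g (Sum.inr ω)) (Eventually.of_forall fun ω => hgt _)
    simpa using this
  refine ⟨hΦi, ?_⟩
  have hDc : Continuous fun t : ℝ => D (Sum.inl t) := continuous_pi fun j => (SpG_lim h (hS j)).1
  have hΦD : Continuous fun t : ℝ => Φ (D (Sum.inl t)) := hΦ.comp hDc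
  filter_upwards [hc (ε / 2) (by positivity), massT, eventually_gt_atTop (0 : ℝ),
    Real.tendsto_log_atTop.eventually_ge_atTop 0]
    with T h1 h2 hT0 hl X x1 x2
  have hX : 0 < X := by linarith
  have h3 := WW_le (T := T) hX (g := fun t : ℝ => Φ (D (Sum.inl t)) - g (Sum.inl t))
    (f := fun _ => ε / 8) (wz_intT continuous_const) (fun t _ => hgt (Sum.inl t))
  rw [WW_sub hΦD hgc, integral_mul_const] at h3
  have h4 := h2 X x1 (by linarith)
  have h5 := h1 X x1 x2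
  have h6 : (∫ t in Set.Ioc 0 T, wz (kT T) X t) * (ε / 8) ≤ 2 * Real.log T * (ε / 8) :=
    mul_le_mul_of_nonneg_right h4 (by positivity)
  set c := ∫ ω, g (Sum.inr ω) ∂μ with hcd
  set c' := ∫ ω, Φ (D (Sum.inr ω)) ∂μ with hcd'
  have h7 : ‖(c' - c) * Real.log T‖ ≤ ε / 8 * Real.log T := by
    rw [norm_mul, Complex.norm_real, Real.norm_eq_abs, abs_of_nonneg hl]
    exact mul_le_mul_of_nonneg_right hE hl
  calc ‖WW T X (fun t : ℝ => Φ (D (Sum.inl t))) - c' * Real.log T‖ =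
      ‖((WW T X (fun t : ℝ => Φ (D (Sum.inl t))) - WW T X (fun t : ℝ => g (Sum.inl t))) +
        (WW T X (fun t : ℝ => g (Sum.inl t)) - c * Real.log T)) - (c' - c) * Real.log T‖ := by
        congr 1; ring
    _ ≤ (‖WW T X (fun t : ℝ => Φ (D (Sum.inl t))) - WW T X (fun t : ℝ => g (Sum.inl t))‖ +
        ‖WW T X (fun t : ℝ => g (Sum.inl t)) - c * Real.log T‖) + ‖(c' - c) * Real.log T‖ :=
        (norm_sub_le _ _).trans (add_le_add (norm_add_le _ _) le_rfl)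
    _ ≤ (2 * Real.log T * (ε / 8) + ε / 2 * Real.log T) + ε / 8 * Real.log T :=
        add_le_add (add_le_add (h3.trans h6) h5) h7
    _ ≤ ε * Real.log T := by
        have : 0 ≤ ε * Real.log T := by positivity
        linarith

/-- mean squares in the model -/
lemma E_sq (h : Mdl μ X) {A : Finset ℕ} (hA : ∀ n ∈ A, 1 ≤ n) (c : ℕ → ℂ) :
    Integrable (fun ω => ‖∑ n ∈ A, c n * X n ω‖ ^ 2) μ ∧
    ∫ ω, ‖∑ n ∈ A, c n * X n ω‖ ^ 2 ∂μ ≤ (IP A c).Va := by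
  have e1 : ∀ ω, ((‖∑ n ∈ A, c n * X n ω‖ ^ 2 : ℝ) : ℂ) =
      ∑ i ∈ A, ∑ j ∈ A, c i * (starRingEnd ℂ) (c j) * (X i ω * (starRingEnd ℂ) (X j ω)) := by
    intro ω
    rw [← Complex.normSq_eq_norm_sq, Complex.normSq_eq_conj_mul_self, mul_comm, map_sum,
      Finset.sum_mul_sum]
    refine Finset.sum_congr rfl fun i _ => Finset.sum_congr rfl fun j _ => ?_
    rw [map_mul]
    ring
  have i1 : Integrable (fun ω => ‖∑ n ∈ A, c n * X n ω‖ ^ 2) μ := by
    refine Integrable.of_bound (C := (∑ n ∈ A, ‖c n‖) ^ 2) ?_ (Eventually.of_forall fun ω => ?_)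
    · exact ((Finset.measurable_fun_sum A fun n _ => (h.meas n).const_mul (c n)).norm.pow_const
        2).aestronglyMeasurable
    · rw [Real.norm_eq_abs, abs_of_nonneg (by positivity)]
      refine pow_le_pow_left₀ (norm_nonneg _) ((norm_sum_le _ _).trans ?_) 2
      refine Finset.sum_le_sum fun n hn => ?_
      rw [norm_mul, h.norm_one n (hA n hn), mul_one]
  refine ⟨i1, ?_⟩
  have e2 : ((∫ ω, ‖∑ n ∈ A, c n * X n ω‖ ^ 2 ∂μ : ℝ) : ℂ) = (IP A c).V := by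
    rw [← integral_complex_ofReal]
    simp_rw [e1]
    rw [integral_finsetSum _ fun i hi => integrable_finsetSum _ fun j hj =>
      (h.int (hA i hi) (hA j hj)).const_mul _]
    unfold TP.V IP
    simp only [id]
    refine Finset.sum_congr rfl fun i hi => ?_
    rw [integral_finsetSum _ fun j hj => (h.int (hA i hi) (hA j hj)).const_mul _]
    refine Finset.sum_congr rfl fun j hj => ?_
    rw [integral_const_mul, h.corr i j (hA i hi) (hA j hj)]
  have e3 := congrArg Complex.re e2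
  rw [Complex.ofReal_re] at e3
  rw [e3]
  exact (Complex.re_le_norm _).trans (TP.norm_V_le _)

end model

end

end Pool.Agent.R304.TL
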