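import Pool.Agent.R304.TL.Ln1

/-! The random model for the second moment: continuous functions of zeta. -/

open Complex Finset Filter Topology MeasureTheory

namespace Pool.Agent.R304.TL

open ZU

noncomputable section

theorem dtail2 {σ1 : ℝ} (h1 : 1 / 2 < σ1) {κ : ℝ} (hκ : 0 < κ) : ∃ N0 : ℕ, (∀ᶠ T : ℝ in atTop,
    ∀ X : ℝ, T / 4 ≤ X → X ≤ T → ∀ z : ℂ, σ1 ≤ z.re → ∀ N : ℕ, N0 ≤ N →
      (N : ℝ) ≤ T ^ ((1 : ℝ) / 8) →
      ∫ t in Set.Ioc 0 T, wz (kT T) X t * ‖DN N (z + t * I) - DN N0 (z + t * I)‖ ^ 2 ≤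
        κ * Real.log T) ∧ ∀ A : Finset ℕ, (∀ m ∈ A, N0 < m) → ∑ x ∈ A ×ˢ A, fs σ1 x ≤ κ := by
  obtain ⟨N0, hN0⟩ := fs_small h1 (show 0 < κ / 4 by positivity)
  refine ⟨N0, ?_, fun A hA => (hN0 A hA).trans (by linarith)⟩
  filter_upwards [genb h1, Real.tendsto_log_atTop.eventually_ge_atTop (2 / κ)]
    with T hT hl X x1 x2 z hz N hN hNT
  have h2 := hT X x1 x2 z hz (Finset.Icc (N0 + 1) N) (fun m hm => by
    have h3 := Finset.mem_Icc.1 hm
    refine ⟨by omega, le_trans ?_ hNT⟩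
    exact_mod_cast h3.2) (κ / 4) (hN0 _ fun m hm => by
    have h3 := Finset.mem_Icc.1 hm
    omega)
  simp_rw [DN_sub_ev hN]
  rw [div_le_iff₀ hκ] at hl
  linarith

theorem dbdd2 {σ1 : ℝ} (h1 : 1 / 2 < σ1) : ∃ C : ℝ, 0 < C ∧ (∀ᶠ T : ℝ in atTop,
    ∀ X : ℝ, T / 4 ≤ X → X ≤ T → ∀ z : ℂ, σ1 ≤ z.re → ∀ N : ℕ,
      (N : ℝ) ≤ T ^ ((1 : ℝ) / 8) →
      ∫ t in Set.Ioc 0 T, wz (kT T) X t * ‖DN N (z + t * I)‖ ^ 2 ≤ C * Real.log T) ∧
      ∀ A : Finset ℕ, ∑ x ∈ A ×ˢ A, fs σ1 x ≤ C := by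
  have hs := fs_summable h1
  set κ := ∑' x, fs σ1 x with hκ
  have hκ0 : 0 ≤ κ := tsum_nonneg fun x => fs_nonneg σ1 x
  refine ⟨2 * κ + 1, by positivity, ?_, fun A => ?_⟩
  · filter_upwards [genb h1, Real.tendsto_log_atTop.eventually_ge_atTop 1]
      with T hT hl X x1 x2 z hz N hNT
    have h2 := hT X x1 x2 z hz (Finset.Icc 1 N) (fun m hm => by
      have h3 := Finset.mem_Icc.1 hm
      refine ⟨h3.1, le_trans ?_ hNT⟩
      exact_mod_cast h3.2) κ (hs.sum_le_tsum _ fun x _ => fs_nonneg σ1 x)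
    simp_rw [DN_ev]
    linarith
  · have := hs.sum_le_tsum (A ×ˢ A) fun x _ => fs_nonneg σ1 x
    linarith

section model

variable {Ω : Type*} [MeasurableSpace Ω] {μ : Measure Ω} [IsProbabilityMeasure μ] {X : ℕ → Ω → ℂ}

/-- the random Dirichlet polynomials -/
def DX (X : ℕ → Ω → ℂ) {m : ℕ} (z : Fin m → ℂ) (N : ℕ) (ω : Ω) : Fin m → ℂ :=
  fun j => ∑ n ∈ Finset.Icc 1 N, c1 (z j) n * X n ω

/-- both polynomials -/
def DY (X : ℕ → Ω → ℂ) {m : ℕ} (z : Fin m → ℂ) (N : ℕ) (l : ℝ ⊕ Ω) : Fin m → ℂ :=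
  fun j => ∑ n ∈ Finset.Icc 1 N, c1 (z j) n * YY X n l

omit [MeasurableSpace Ω] in
lemma DY_inl {m : ℕ} (z : Fin m → ℂ) (N : ℕ) (t : ℝ) : DY X z N (Sum.inl t) = Dv z N t := by
  funext j
  unfold DY Dv
  rw [DN_ev]
  rfl

omit [MeasurableSpace Ω] in
lemma DX_sub {m : ℕ} {N0 N : ℕ} (h : N0 ≤ N) (z : Fin m → ℂ) (ω : Ω) (j : Fin m) :
    (DX X z N ω - DY X z N0 (Sum.inr ω)) j = ∑ n ∈ Finset.Icc (N0 + 1) N, c1 (z j) n * X n ω := by
  have h1 : Finset.Icc 1 N = Finset.Icc 1 N0 ∪ Finset.Icc (N0 + 1) N := by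
    ext m
    simp only [Finset.mem_union, Finset.mem_Icc]
    omega
  have h2 : Disjoint (Finset.Icc 1 N0) (Finset.Icc (N0 + 1) N) := by
    rw [Finset.disjoint_left]
    intro m hm hm'
    have := Finset.mem_Icc.1 hm
    have := Finset.mem_Icc.1 hm'
    omega
  rw [Pi.sub_apply]
  unfold DX DY YY
  rw [h1, Finset.sum_union h2]
  simp

lemma DY_le (h : Mdl μ X) {m : ℕ} (z : Fin m → ℂ) (N : ℕ) (l : ℝ ⊕ Ω) :
    ‖DY X z N l‖ ≤ ∑ j, ∑ n ∈ Finset.Icc 1 N, ‖c1 (z j) n‖ := by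
  refine (norm_le_sum _).trans (Finset.sum_le_sum fun j _ => ?_)
  refine (norm_sum_le _ _).trans (Finset.sum_le_sum fun n hn => ?_)
  have hn1 := (Finset.mem_Icc.1 hn).1
  rw [norm_mul]
  have : ‖YY X n l‖ = 1 := by
    rcases l with t | ω
    · exact norm_it hn1 t
    · exact h.norm_one n hn1 ω
  rw [this, mul_one]

lemma DY_mem (h : Mdl μ X) {m : ℕ} (z : Fin m → ℂ) (N : ℕ) (j : Fin m) :
    (fun l => DY X z N l j) ∈ SpG (YY X) := by
  have e : (fun l => DY X z N l j) =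
      ∑ n ∈ Finset.Icc 1 N, (c1 (z j) n) • (chiG (YY X) (n, 1)) := by
    funext l
    unfold DY chiG
    simp [YY_one h]
  rw [e]
  refine Submodule.sum_mem _ fun n hn => Submodule.smul_mem _ _ ?_
  exact chiG_mem _ (Finset.mem_Icc.1 hn).1 le_rfl

lemma DX_meas (h : Mdl μ X) {m : ℕ} (z : Fin m → ℂ) (N : ℕ) : Measurable (DX X z N) :=
  measurable_pi_iff.2 fun j => Finset.measurable_fun_sum _ fun n _ => (h.meas n).const_mul _

lemma DX_int (h : Mdl μ X) {m : ℕ} (z : Fin m → ℂ) (N : ℕ) {Φ : (Fin m → ℂ) → ℂ}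
    (hΦ : Continuous Φ) {C : ℝ} (hΦC : ∀ w, ‖Φ w‖ ≤ C * (1 + ‖w‖)) :
    Integrable (fun ω => Φ (DX X z N ω)) μ := by
  have hC : 0 ≤ C := by
    have := (norm_nonneg _).trans (hΦC 0)
    simpa using this
  refine Integrable.of_bound (C := C * (1 + ∑ j, ∑ n ∈ Finset.Icc 1 N, ‖c1 (z j) n‖))
    (hΦ.measurable.comp (DX_meas h z N)).aestronglyMeasurable (Eventually.of_forall fun ω => ?_)
  refine (hΦC _).trans (mul_le_mul_of_nonneg_left ?_ hC)
  have := DY_le h z N (Sum.inr ω)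
  have e : DY X z N (Sum.inr ω) = DX X z N ω := rfl
  rw [e] at this
  linarith

/-- approximate limits for continuous functions of zeta -/
theorem pre_limG (hX : Mdl μ X) {m : ℕ} {z : Fin m → ℂ}
    (hz : ∀ j, 1 / 2 < (z j).re ∧ (z j).re < 1)
    {Φ : (Fin m → ℂ) → ℂ} (hΦ : Continuous Φ) {C : ℝ} (hΦC : ∀ w, ‖Φ w‖ ≤ C * (1 + ‖w‖))
    {ε : ℝ} (hε : 0 < ε) : ∃ c : ℂ, (∀ᶠ T : ℝ in atTop, ∀ X : ℝ, T / 4 ≤ X → X ≤ T / 2 →
      ‖WW T X (fun t => Φ (Zv z t)) - c * Real.log T‖ ≤ ε * Real.log T) ∧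
      ∀ᶠ N : ℕ in atTop, ‖(∫ ω, Φ (DX X z N ω) ∂μ) - c‖ ≤ ε := by
  obtain ⟨σ1, hσ1, hσz⟩ := exists_sig hz
  have hC : 0 ≤ C := by
    have := (norm_nonneg _).trans (hΦC 0)
    simpa using this
  obtain ⟨C1, hC1, hdb, hdb2⟩ := dbdd2 hσ1
  -- the cutoff
  obtain ⟨R, hR2, hR⟩ : ∃ R : ℝ, 2 ≤ R ∧ C * (8 / R) * (m * C1) ≤ ε / 8 := by
    refine ⟨2 + 64 * C * (m * C1) / ε, by
      have : 0 ≤ 64 * C * (m * C1) / ε := by positivity
      linarith, ?_⟩
    have h1 : 0 < 2 + 64 * C * (m * C1) / ε := by positivity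
    rw [show C * (8 / (2 + 64 * C * (m * C1) / ε)) * (m * C1) =
      8 * C * (m * C1) / (2 + 64 * C * (m * C1) / ε) by ring, div_le_iff₀ h1]
    have : ε / 8 * (2 + 64 * C * (m * C1) / ε) = ε / 4 + 8 * C * (m * C1) := by
      field_simp
      ring
    rw [this]
    linarith
  have hR0 : 0 < R := by linarith
  set Ψ : (Fin m → ℂ) → ℂ := fun w => rho R w * Φ w with hΨ
  have hΨc : Continuous Ψ := (Complex.continuous_ofReal.comp (rho_cont R)).mul hΦ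
  have hΨs : HasCompactSupport Ψ := by
    refine HasCompactSupport.of_support_subset_isCompact (isCompact_closedBall 0 (2 * R)) ?_
    intro w hw
    rw [mem_closedBall_zero_iff]
    by_contra hcon
    push Not at hcon
    apply hw
    rw [hΨ]
    simp only
    rw [rho_zero hR0 hcon]
    simp
  have hΨu := hΨs.uniformContinuous_of_continuous hΨc
  obtain ⟨δ, hδ, hδu⟩ := Metric.uniformContinuous_iff.1 hΨu (ε / 16) (by positivity)
  obtain ⟨B, hB⟩ := hΨs.exists_bound_of_continuous hΨc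
  have hB0 : 0 ≤ B := (norm_nonneg _).trans (hB 0)
  have hu : ∀ w w', ‖w - w'‖ < δ → ‖Ψ w - Ψ w'‖ ≤ ε / 16 := by
    intro w w' h
    have := hδu (a := w) (b := w') (by rwa [dist_eq_norm])
    rw [dist_eq_norm] at this
    exact this.le
  -- the truncation
  obtain ⟨κ, hκ, hκε⟩ : ∃ κ : ℝ, 0 < κ ∧ 8 * B / δ ^ 2 * (m * κ) ≤ ε / 8 := by
    refine ⟨ε / (64 * (B + 1) / δ ^ 2 * (m + 1)), by positivity, ?_⟩
    rw [show 8 * B / δ ^ 2 * (m * (ε / (64 * (B + 1) / δ ^ 2 * (m + 1)))) =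
      ε / 8 * (B / (B + 1)) * (m / (m + 1)) by field_simp; ring]
    have a1 : B / (B + 1) ≤ 1 := (div_le_one (by positivity)).2 (by linarith)
    have a2 : (m : ℝ) / (m + 1) ≤ 1 := (div_le_one (by positivity)).2 (by linarith)
    have a3 : 0 ≤ B / (B + 1) := by positivity
    have a4 : 0 ≤ (m : ℝ) / (m + 1) := by positivity
    calc ε / 8 * (B / (B + 1)) * (m / (m + 1)) ≤ ε / 8 * 1 * 1 := by gcongr
      _ = ε / 8 := by ring
  obtain ⟨N0, hN0, hN02⟩ := dtail2 hσ1 hκ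
  -- the limit for the Dirichlet polynomial
  obtain ⟨hΨi, hc⟩ := fix_limG (D := DY X z N0) hX (DY_le hX z N0) (DY_mem hX z N0)
    (DX_meas hX z N0) hΨc (show 0 < ε / 8 by positivity)
  set c := ∫ ω, Ψ (DY X z N0 (Sum.inr ω)) ∂μ with hcd
  refine ⟨c, ?_, ?_⟩
  swap
  · -- the model
    have hΦi : ∀ N, Integrable (fun ω => Φ (DX X z N ω)) μ := fun N => DX_int hX z N hΦ hΦC
    filter_upwards [eventually_ge_atTop N0] with N hN
    have hI1 : ∀ j, Integrable (fun ω => ‖∑ n ∈ Finset.Icc (N0 + 1) N, c1 (z j) n * X n ω‖ ^ 2) μ ∧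
        ∫ ω, ‖∑ n ∈ Finset.Icc (N0 + 1) N, c1 (z j) n * X n ω‖ ^ 2 ∂μ ≤ κ := fun j => by
      obtain ⟨k1, k2⟩ := E_sq hX (A := Finset.Icc (N0 + 1) N)
        (fun n hn => by have := Finset.mem_Icc.1 hn; omega) (c1 (z j))
      refine ⟨k1, k2.trans ?_⟩
      have a1 := IP_Va (A := Finset.Icc (N0 + 1) N) (c := c1 (z j)) (σ := σ1) (C := 1) zero_le_one
        (fun n hn => by
          rw [one_mul]
          exact norm_c1 (hσz j) (by have := Finset.mem_Icc.1 hn; omega))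
      have a2 := hN02 (Finset.Icc (N0 + 1) N) (fun n hn => by
        have := Finset.mem_Icc.1 hn; omega)
      linarith
    have hI2 : ∀ j, Integrable (fun ω => ‖∑ n ∈ Finset.Icc 1 N, c1 (z j) n * X n ω‖ ^ 2) μ ∧
        ∫ ω, ‖∑ n ∈ Finset.Icc 1 N, c1 (z j) n * X n ω‖ ^ 2 ∂μ ≤ C1 := fun j => by
      obtain ⟨k1, k2⟩ := E_sq hX (A := Finset.Icc 1 N)
        (fun n hn => (Finset.mem_Icc.1 hn).1) (c1 (z j))
      refine ⟨k1, k2.trans ?_⟩
      have a1 := IP_Va (A := Finset.Icc 1 N) (c := c1 (z j)) (σ := σ1) (C := 1) zero_le_one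
        (fun n hn => by
          rw [one_mul]
          exact norm_c1 (hσz j) (Finset.mem_Icc.1 hn).1)
      have a2 := hdb2 (Finset.Icc 1 N)
      linarith
    set F : Ω → ℝ := fun ω => ε / 16 +
      8 * B / δ ^ 2 * (∑ j, ‖∑ n ∈ Finset.Icc (N0 + 1) N, c1 (z j) n * X n ω‖ ^ 2) +
      C * (8 / R) * (∑ j, ‖∑ n ∈ Finset.Icc 1 N, c1 (z j) n * X n ω‖ ^ 2) with hF
    have j1 : Integrable (fun ω => 8 * B / δ ^ 2 *
        (∑ j, ‖∑ n ∈ Finset.Icc (N0 + 1) N, c1 (z j) n * X n ω‖ ^ 2)) μ :=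
      (integrable_finsetSum _ fun j _ => (hI1 j).1).const_mul _
    have j2 : Integrable (fun ω => C * (8 / R) *
        (∑ j, ‖∑ n ∈ Finset.Icc 1 N, c1 (z j) n * X n ω‖ ^ 2)) μ :=
      (integrable_finsetSum _ fun j _ => (hI2 j).1).const_mul _
    have j0 : Integrable (fun _ : Ω => ε / 16) μ := integrable_const _
    have j01 : Integrable (fun ω => ε / 16 + 8 * B / δ ^ 2 *
        (∑ j, ‖∑ n ∈ Finset.Icc (N0 + 1) N, c1 (z j) n * X n ω‖ ^ 2)) μ := j0.add j1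
    have hFi : Integrable F μ := j01.add j2
    have hpt : ∀ ω, ‖Φ (DX X z N ω) - Ψ (DY X z N0 (Sum.inr ω))‖ ≤ F ω := by
      intro ω
      have b1 := cmp1 hB (by positivity : (0 : ℝ) ≤ ε / 16) hδ hu (DX X z N ω) (DX X z N ω)
        (DY X z N0 (Sum.inr ω))
      have b2 := cmp2 hC hΦC hR2 (DX X z N ω) (DX X z N ω)
      rw [sub_self, norm_zero, mul_zero, add_zero] at b1 b2
      have b4 : ‖DX X z N ω - DY X z N0 (Sum.inr ω)‖ ^ 2 ≤
          ∑ j, ‖∑ n ∈ Finset.Icc (N0 + 1) N, c1 (z j) n * X n ω‖ ^ 2 := by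
        refine (sq_le_sum _).trans (le_of_eq ?_)
        refine Finset.sum_congr rfl fun j _ => ?_
        congr 2
        exact DX_sub hN z ω j
      have b5 : ‖DX X z N ω‖ ^ 2 ≤ ∑ j, ‖∑ n ∈ Finset.Icc 1 N, c1 (z j) n * X n ω‖ ^ 2 :=
        sq_le_sum _
      have b6 : ‖Φ (DX X z N ω) - Ψ (DY X z N0 (Sum.inr ω))‖ ≤
          ‖Φ (DX X z N ω) - rho R (DX X z N ω) * Φ (DX X z N ω)‖ +
          ‖Ψ (DX X z N ω) - Ψ (DY X z N0 (Sum.inr ω))‖ := norm_sub_le_norm_sub_add_norm_sub _ _ _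
      have c2 := mul_le_mul_of_nonneg_left b4 (show 0 ≤ 8 * B / δ ^ 2 by positivity)
      have c3 := mul_le_mul_of_nonneg_left b5 (show 0 ≤ C * (8 / R) by positivity)
      have c5 : C * (8 / R * ‖DX X z N ω‖ ^ 2) = C * (8 / R) * ‖DX X z N ω‖ ^ 2 := by ring
      rw [c5] at b2
      rw [hF]
      simp only
      linarith
    rw [hcd, ← integral_sub (hΦi N) hΨi]
    refine (norm_integral_le_of_norm_le hFi (Eventually.of_forall hpt)).trans ?_
    have hFI : ∫ ω, F ω ∂μ = ε / 16 + 8 * B / δ ^ 2 *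
        (∑ j, ∫ ω, ‖∑ n ∈ Finset.Icc (N0 + 1) N, c1 (z j) n * X n ω‖ ^ 2 ∂μ) + C * (8 / R) *
        (∑ j, ∫ ω, ‖∑ n ∈ Finset.Icc 1 N, c1 (z j) n * X n ω‖ ^ 2 ∂μ) := by
      rw [hF, integral_add j01 j2, integral_add j0 j1, integral_const_mul, integral_const_mul,
        integral_finsetSum _ fun j _ => (hI1 j).1, integral_finsetSum _ fun j _ => (hI2 j).1]
      simp
    rw [hFI]
    have q3 : ∑ j, ∫ ω, ‖∑ n ∈ Finset.Icc (N0 + 1) N, c1 (z j) n * X n ω‖ ^ 2 ∂μ ≤ m * κ := by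
      have := Finset.sum_le_sum fun j (_ : j ∈ (Finset.univ : Finset (Fin m))) => (hI1 j).2
      simpa using this
    have q4 : ∑ j, ∫ ω, ‖∑ n ∈ Finset.Icc 1 N, c1 (z j) n * X n ω‖ ^ 2 ∂μ ≤ m * C1 := by
      have := Finset.sum_le_sum fun j (_ : j ∈ (Finset.univ : Finset (Fin m))) => (hI2 j).2
      simpa using this
    have s3 := mul_le_mul_of_nonneg_left q3 (show 0 ≤ 8 * B / δ ^ 2 by positivity)
    have s4 := mul_le_mul_of_nonneg_left q4 (show 0 ≤ C * (8 / R) by positivity)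
    linarith
  set a := 4 * B / δ + 4 * C with ha
  have ha0 : 0 ≤ a := by positivity
  have hsE : ∀ j : Fin m, ∀ᶠ T : ℝ in atTop, ∀ W : ℝ, T / 4 ≤ W → W ≤ T →
      ∫ t in Set.Ioc 0 T, wz (kT T) W t *
        ‖riemannZeta (z j + t * I) - DN ⌊T ^ ((1 : ℝ) / 8)⌋₊ (z j + t * I)‖ ≤
          ε / (8 * (a + 1) * (m + 1)) := fun j =>
    small_E (hz j).1 (hz j).2 (by norm_num) (by norm_num) (by positivity)
  have hsE' := eventually_all.2 hsE
  have hpw : Tendsto (fun T : ℝ => T ^ ((1 : ℝ) / 8)) atTop atTop :=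
    tendsto_rpow_atTop (by norm_num)
  filter_upwards [hc, hsE', hdb, hN0, massT, kT_facts, hpw.eventually_ge_atTop (N0 : ℝ),
    eventually_gt_atTop (0 : ℝ), Real.tendsto_log_atTop.eventually_ge_atTop 1]
    with T h1 h2 h3 h4 h5 hk hNT hT0 hl W x1 x2
  have hW : 0 < W := by linarith
  have x2' : W ≤ T := by linarith
  set N := ⌊T ^ ((1 : ℝ) / 8)⌋₊ with hN
  have hNle : (N : ℝ) ≤ T ^ ((1 : ℝ) / 8) := Nat.floor_le (by positivity)
  have hN0N : N0 ≤ N := Nat.le_floor hNT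
  -- the pointwise bound
  set F : ℝ → ℝ := fun t => ε / 16 + a * (∑ j, ‖riemannZeta (z j + t * I) - DN N (z j + t * I)‖) +
    8 * B / δ ^ 2 * (∑ j, ‖DN N (z j + t * I) - DN N0 (z j + t * I)‖ ^ 2) +
    C * (8 / R) * (∑ j, ‖DN N (z j + t * I)‖ ^ 2) with hF
  have hcE : ∀ j, Continuous fun t : ℝ => ‖riemannZeta (z j + t * I) - DN N (z j + t * I)‖ :=
    fun j => ((zc (hz j).2).sub (Dc N (z j))).norm
  have hcD : ∀ j, Continuous fun t : ℝ => ‖DN N (z j + t * I) - DN N0 (z j + t * I)‖ ^ 2 :=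
    fun j => ((Dc N (z j)).sub (Dc N0 (z j))).norm.pow 2
  have hcN : ∀ j, Continuous fun t : ℝ => ‖DN N (z j + t * I)‖ ^ 2 :=
    fun j => (Dc N (z j)).norm.pow 2
  have hFc : Continuous F := by
    have e1 := continuous_finsetSum (Finset.univ : Finset (Fin m)) fun j _ => hcE j
    have e2 := continuous_finsetSum (Finset.univ : Finset (Fin m)) fun j _ => hcD j
    have e3 := continuous_finsetSum (Finset.univ : Finset (Fin m)) fun j _ => hcN j
    exact ((continuous_const.add (continuous_const.mul e1)).add (continuous_const.mul e2)).add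
      (continuous_const.mul e3)
  have hpt : ∀ t ∈ Set.Ioc 0 T, ‖Φ (Zv z t) - Ψ (DY X z N0 (Sum.inl t))‖ ≤ F t := by
    intro t _
    have b1 := cmp1 hB (by positivity : (0 : ℝ) ≤ ε / 16) hδ hu (Zv z t) (Dv z N t)
      (DY X z N0 (Sum.inl t))
    have b2 := cmp2 hC hΦC hR2 (Zv z t) (Dv z N t)
    have b3 : ‖Zv z t - Dv z N t‖ ≤ ∑ j, ‖riemannZeta (z j + t * I) - DN N (z j + t * I)‖ :=
      norm_le_sum _
    have b4 : ‖Dv z N t - DY X z N0 (Sum.inl t)‖ ^ 2 ≤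
        ∑ j, ‖DN N (z j + t * I) - DN N0 (z j + t * I)‖ ^ 2 := by
      rw [DY_inl]
      exact sq_le_sum _
    have b5 : ‖Dv z N t‖ ^ 2 ≤ ∑ j, ‖DN N (z j + t * I)‖ ^ 2 := sq_le_sum _
    have b6 : ‖Φ (Zv z t) - Ψ (DY X z N0 (Sum.inl t))‖ ≤ ‖Φ (Zv z t) - rho R (Zv z t) * Φ (Zv z t)‖ +
        ‖Ψ (Zv z t) - Ψ (DY X z N0 (Sum.inl t))‖ := norm_sub_le_norm_sub_add_norm_sub _ _ _
    have c1 := mul_le_mul_of_nonneg_left b3 ha0
    have c2 := mul_le_mul_of_nonneg_left b4 (show 0 ≤ 8 * B / δ ^ 2 by positivity)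
    have c3 := mul_le_mul_of_nonneg_left b5 (show 0 ≤ C * (8 / R) by positivity)
    have c4 : a * ‖Zv z t - Dv z N t‖ = 4 * B / δ * ‖Zv z t - Dv z N t‖ +
        C * (4 * ‖Zv z t - Dv z N t‖) := by rw [ha]; ring
    rw [hF]
    simp only
    rw [mul_add] at b2
    have c5 : C * (8 / R * ‖Dv z N t‖ ^ 2) = C * (8 / R) * ‖Dv z N t‖ ^ 2 := by ring
    linarith
  have hZc : Continuous fun t => Φ (Zv z t) :=
    hΦ.comp (continuous_pi fun j => zc (hz j).2)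
  have hDc : Continuous fun t => Ψ (DY X z N0 (Sum.inl t)) :=
    by
      simp_rw [DY_inl]
      exact hΨc.comp (continuous_pi fun j => Dc N0 (z j))
  have hw := WW_le (T := T) hW (g := fun t => Φ (Zv z t) - Ψ (DY X z N0 (Sum.inl t))) (wz_intT hFc) hpt
  rw [WW_sub hZc hDc] at hw
  -- the integral of the bound
  have hI : ∫ t in Set.Ioc 0 T, wz (kT T) W t * F t =
      ε / 16 * (∫ t in Set.Ioc 0 T, wz (kT T) W t) +
      a * (∑ j, ∫ t in Set.Ioc 0 T, wz (kT T) W t *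
        ‖riemannZeta (z j + t * I) - DN N (z j + t * I)‖) +
      8 * B / δ ^ 2 * (∑ j, ∫ t in Set.Ioc 0 T, wz (kT T) W t *
        ‖DN N (z j + t * I) - DN N0 (z j + t * I)‖ ^ 2) +
      C * (8 / R) * (∑ j, ∫ t in Set.Ioc 0 T, wz (kT T) W t * ‖DN N (z j + t * I)‖ ^ 2) := by
    rw [← J_sum hcE, ← J_sum hcD, ← J_sum hcN]
    have e1 := continuous_finsetSum (Finset.univ : Finset (Fin m)) fun j _ => hcE j
    have e2 := continuous_finsetSum (Finset.univ : Finset (Fin m)) fun j _ => hcD j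
    have e3 := continuous_finsetSum (Finset.univ : Finset (Fin m)) fun j _ => hcN j
    have i0 : IntegrableOn (fun t => ε / 16 * wz (kT T) W t) (Set.Ioc 0 T) := by
      have := wz_intT (T := T) (X := W) (g := fun _ => ε / 16) continuous_const
      refine this.congr (Eventually.of_forall fun t => ?_)
      simp only
      ring
    have i1 := (wz_intT (T := T) (X := W) e1).const_mul a
    have i2 := (wz_intT (T := T) (X := W) e2).const_mul (8 * B / δ ^ 2)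
    have i3 := (wz_intT (T := T) (X := W) e3).const_mul (C * (8 / R))
    rw [← integral_const_mul, ← integral_const_mul, ← integral_const_mul, ← integral_const_mul,
      ← int4 i0 i1 i2 i3]
    refine integral_congr_ae (Eventually.of_forall fun t => ?_)
    rw [hF]
    simp only
    ring
  have q1 := h5 W x1 x2'
  have q2 : ∑ j, ∫ t in Set.Ioc 0 T, wz (kT T) W t *
      ‖riemannZeta (z j + t * I) - DN N (z j + t * I)‖ ≤ m * (ε / (8 * (a + 1) * (m + 1))) := by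
    have := Finset.sum_le_sum fun j (_ : j ∈ (Finset.univ : Finset (Fin m))) => h2 j W x1 x2'
    simpa using this
  have q3 : ∑ j, ∫ t in Set.Ioc 0 T, wz (kT T) W t *
      ‖DN N (z j + t * I) - DN N0 (z j + t * I)‖ ^ 2 ≤ m * (κ * Real.log T) := by
    have := Finset.sum_le_sum fun j (_ : j ∈ (Finset.univ : Finset (Fin m))) =>
      h4 W x1 x2' (z j) (hσz j) N hN0N hNle
    simpa using this
  have q4 : ∑ j, ∫ t in Set.Ioc 0 T, wz (kT T) W t * ‖DN N (z j + t * I)‖ ^ 2 ≤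
      m * (C1 * Real.log T) := by
    have := Finset.sum_le_sum fun j (_ : j ∈ (Finset.univ : Finset (Fin m))) =>
      h3 W x1 x2' (z j) (hσz j) N hNle
    simpa using this
  have r1 : ε / 16 * (∫ t in Set.Ioc 0 T, wz (kT T) W t) ≤ ε / 8 * Real.log T := by
    have := mul_le_mul_of_nonneg_left q1 (show 0 ≤ ε / 16 by positivity)
    linarith
  have r2 : a * (m * (ε / (8 * (a + 1) * (m + 1)))) ≤ ε / 8 * Real.log T := by
    rw [show a * (m * (ε / (8 * (a + 1) * (m + 1)))) = ε / 8 * (a / (a + 1)) * (m / (m + 1)) by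
      field_simp]
    have a1 : a / (a + 1) ≤ 1 := (div_le_one (by positivity)).2 (by linarith)
    have a2 : (m : ℝ) / (m + 1) ≤ 1 := (div_le_one (by positivity)).2 (by linarith)
    have a3 : 0 ≤ a / (a + 1) := by positivity
    have a4 : 0 ≤ (m : ℝ) / (m + 1) := by positivity
    calc ε / 8 * (a / (a + 1)) * (m / (m + 1)) ≤ ε / 8 * 1 * 1 := by gcongr
      _ ≤ ε / 8 * Real.log T := by nlinarith
  have r3 : 8 * B / δ ^ 2 * (m * (κ * Real.log T)) ≤ ε / 8 * Real.log T := by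
    have := mul_le_mul_of_nonneg_right hκε (show 0 ≤ Real.log T by linarith)
    calc _ = 8 * B / δ ^ 2 * (m * κ) * Real.log T := by ring
      _ ≤ _ := this
  have r4 : C * (8 / R) * (m * (C1 * Real.log T)) ≤ ε / 8 * Real.log T := by
    have := mul_le_mul_of_nonneg_right hR (show 0 ≤ Real.log T by linarith)
    calc _ = C * (8 / R) * (m * C1) * Real.log T := by ring
      _ ≤ _ := this
  have s2 := mul_le_mul_of_nonneg_left q2 ha0
  have s3 := mul_le_mul_of_nonneg_left q3 (show 0 ≤ 8 * B / δ ^ 2 by positivity)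
  have s4 := mul_le_mul_of_nonneg_left q4 (show 0 ≤ C * (8 / R) by positivity)
  rw [hI] at hw
  have hfin := h1 W x1 x2
  have htri : ‖WW T W (fun t => Φ (Zv z t)) - c * Real.log T‖ ≤
      ‖WW T W (fun t => Φ (Zv z t)) - WW T W (fun t => Ψ (DY X z N0 (Sum.inl t)))‖ +
        ‖WW T W (fun t => Ψ (DY X z N0 (Sum.inl t))) - c * Real.log T‖ :=
    norm_sub_le_norm_sub_add_norm_sub _ _ _
  have hp : 0 ≤ ε * Real.log T := by positivity
  linarith


/-- the limit exists and is given by the model -/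
theorem model_lim (hX : Mdl μ X) {m : ℕ} {z : Fin m → ℂ}
    (hz : ∀ j, 1 / 2 < (z j).re ∧ (z j).re < 1)
    {Φ : (Fin m → ℂ) → ℂ} (hΦ : Continuous Φ) {C : ℝ} (hΦC : ∀ w, ‖Φ w‖ ≤ C * (1 + ‖w‖))
    {M : ℂ} (hM : LimC (fun t => Φ (Zv z t)) M) :
    Tendsto (fun N : ℕ => ∫ ω, Φ (DX X z N ω) ∂μ) atTop (𝓝 M) := by
  rw [Metric.tendsto_nhds]
  intro ε hε
  obtain ⟨c, h1, h2⟩ := pre_limG hX hz hΦ hΦC (show 0 < ε / 4 by positivity)
  have hMc : ‖M - c‖ ≤ ε / 2 := by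
    obtain ⟨T, a1, a2, a3, a4⟩ := (h1.and ((hM (ε / 4) (by positivity)).and
      ((Real.tendsto_log_atTop.eventually_ge_atTop 1).and (eventually_gt_atTop (0 : ℝ))))).exists
    have b1 := a1 (T / 4) le_rfl (by linarith)
    have b2 := a2 (T / 4) le_rfl (by linarith)
    have b3 : ‖(M - c) * (Real.log T : ℂ)‖ ≤ ε / 4 * Real.log T + ε / 4 * Real.log T := by
      calc ‖(M - c) * (Real.log T : ℂ)‖ =
          ‖(WW T (T / 4) (fun t => Φ (Zv z t)) - c * Real.log T) -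
            (WW T (T / 4) (fun t => Φ (Zv z t)) - M * Real.log T)‖ := by congr 1; ring
        _ ≤ _ := (norm_sub_le _ _).trans (add_le_add b1 b2)
    rw [norm_mul, Complex.norm_real, Real.norm_eq_abs, abs_of_nonneg (by linarith)] at b3
    have hl0 : (0 : ℝ) < Real.log T := by linarith
    have b4 : ‖M - c‖ * Real.log T ≤ ε / 2 * Real.log T := by linarith
    exact le_of_mul_le_mul_right b4 hl0
  filter_upwards [h2] with N hN
  rw [dist_eq_norm]
  calc ‖(∫ ω, Φ (DX X z N ω) ∂μ) - M‖ = ‖((∫ ω, Φ (DX X z N ω) ∂μ) - c) - (M - c)‖ := by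
        congr 1; ring
    _ ≤ ε / 4 + ε / 2 := (norm_sub_le _ _).trans (add_le_add hN hMc)
    _ < ε := by linarith

end model

end

end Pool.Agent.R304.TL
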