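import Pool.Agent.R304.TL.Ln2

/-! The random model for the second moment: existence. -/

open Complex Finset Filter Topology MeasureTheory

namespace Pool.Agent.R304.TL

noncomputable section

/-- the base measure -/
def nu : Measure ℝ := volume.restrict (Set.Ioc 0 1)

instance : IsProbabilityMeasure nu := ⟨by simp [nu]⟩

/-- the point of the circle -/
def wu (u : ℝ) : ℂ := circleMap 0 1 (2 * Real.pi * u)

/-- a circle valued variable with moments `r ^ k` -/
def Yr (r : ℝ) (u : ℝ) : ℂ := (wu u + r) / (1 + r * wu u)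

lemma wu_norm (u : ℝ) : ‖wu u‖ = 1 := by simp [wu]

lemma den_ne {r : ℝ} (h0 : 0 ≤ r) (h1 : r < 1) {w : ℂ} (hw : ‖w‖ ≤ 1) : 1 + r * w ≠ 0 := by
  intro h
  have h2 : (r : ℂ) * w = -1 := by linear_combination h
  have h3 := congrArg norm h2
  rw [norm_mul, Complex.norm_real, Real.norm_eq_abs, abs_of_nonneg h0, norm_neg, norm_one] at h3
  have : r * ‖w‖ ≤ r * 1 := mul_le_mul_of_nonneg_left hw h0
  linarith

lemma Yr_norm {r : ℝ} (h0 : 0 ≤ r) (h1 : r < 1) (u : ℝ) : ‖Yr r u‖ = 1 := by
  have hw := wu_norm u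
  have hd := den_ne h0 h1 (w := wu u) hw.le
  have hc : wu u * (starRingEnd ℂ) (wu u) = 1 := by
    rw [Complex.mul_conj, Complex.normSq_eq_norm_sq, hw]; norm_num
  have e : wu u + r = wu u * (starRingEnd ℂ) (1 + r * wu u) := by
    rw [map_add, map_one, map_mul, Complex.conj_ofReal, mul_add, mul_one]
    linear_combination (-(r : ℂ)) * hc
  unfold Yr
  rw [e, norm_div, norm_mul, hw, RCLike.norm_conj, one_mul, div_self (norm_ne_zero_iff.2 hd)]

lemma Yr_cont {r : ℝ} (h0 : 0 ≤ r) (h1 : r < 1) : Continuous (Yr r) := by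
  have hw : Continuous wu := by unfold wu; fun_prop
  unfold Yr
  exact (hw.add continuous_const).div (continuous_const.add (continuous_const.mul hw))
    fun u => den_ne h0 h1 (wu_norm u).le

lemma Yr_mom {r : ℝ} (h0 : 0 ≤ r) (h1 : r < 1) (k : ℕ) : ∫ u, Yr r u ^ k ∂nu = (r : ℂ) ^ k := by
  set f : ℂ → ℂ := fun w => ((w + r) / (1 + r * w)) ^ k with hf
  have hd : DiffContOnCl ℂ f (Metric.ball (0 : ℂ) |1|) := by
    apply DifferentiableOn.diffContOnCl
    intro w hw
    have hw1 : ‖w‖ ≤ 1 := by
      have := Metric.closure_ball_subset_closedBall hw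
      simpa using this
    have := den_ne h0 h1 hw1
    have d1 : DifferentiableAt ℂ (fun w : ℂ => w + (r : ℂ)) w := by fun_prop
    have d2 : DifferentiableAt ℂ (fun w : ℂ => 1 + (r : ℂ) * w) w := by fun_prop
    exact ((d1.div d2 this).pow k).differentiableWithinAt
  have h2 := hd.circleAverage
  have h3 : f 0 = (r : ℂ) ^ k := by simp [hf]
  rw [h3] at h2
  rw [← h2, Real.circleAverage_def]
  unfold nu
  rw [← intervalIntegral.integral_of_le zero_le_one]
  have h4 := intervalIntegral.integral_comp_mul_left (a := 0) (b := 1)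
    (fun θ => f (circleMap 0 1 θ)) (c := 2 * Real.pi) (by positivity)
  rw [mul_zero, mul_one] at h4
  rw [← h4]
  rfl

lemma Yr_mom2 {r : ℝ} (h0 : 0 ≤ r) (h1 : r < 1) (a b : ℕ) :
    ∫ u, Yr r u ^ a * (starRingEnd ℂ) (Yr r u) ^ b ∂nu = (r : ℂ) ^ ((a - b) + (b - a)) := by
  have hc : ∀ u, Yr r u * (starRingEnd ℂ) (Yr r u) = 1 := fun u => by
    rw [Complex.mul_conj, Complex.normSq_eq_norm_sq, Yr_norm h0 h1]; norm_num
  rcases le_total b a with hab | hab
  · have e : ∀ u, Yr r u ^ a * (starRingEnd ℂ) (Yr r u) ^ b = Yr r u ^ (a - b) := by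
      intro u
      have : a = (a - b) + b := by omega
      conv_lhs => rw [this, pow_add, mul_assoc, ← mul_pow, hc, one_pow, mul_one]
    simp_rw [e]
    rw [Yr_mom h0 h1, show b - a = 0 by omega, add_zero]
  · have e : ∀ u, Yr r u ^ a * (starRingEnd ℂ) (Yr r u) ^ b =
        (starRingEnd ℂ) (Yr r u ^ (b - a)) := by
      intro u
      have : b = a + (b - a) := by omega
      conv_lhs => rw [this, pow_add, ← mul_assoc, ← mul_pow, hc, one_pow, one_mul]
      rw [map_pow]
    simp_rw [e]
    rw [integral_conj, Yr_mom h0 h1, show a - b = 0 by omega, zero_add, map_pow,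
      Complex.conj_ofReal]

/-- the parameter at a prime -/
def rp (p : ℕ) : ℝ := (Real.sqrt p)⁻¹

lemma rp_nonneg (p : ℕ) : 0 ≤ rp p := by unfold rp; positivity

lemma rp_lt {p : ℕ} (hp : 2 ≤ p) : rp p < 1 := by
  unfold rp
  apply inv_lt_one_of_one_lt₀
  rw [Real.lt_sqrt zero_le_one]
  have : (2 : ℝ) ≤ p := by exact_mod_cast hp
  linarith

/-- the random completely multiplicative function -/
def XM (n : ℕ) (ω : ℕ → ℝ) : ℂ := n.factorization.prod fun p k => Yr (rp p) (ω p) ^ k

lemma XM_eq {n : ℕ} {S : Finset ℕ} (hS : n.primeFactors ⊆ S) (ω : ℕ → ℝ) :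
    XM n ω = ∏ p ∈ S, Yr (rp p) (ω p) ^ n.factorization p := by
  unfold XM
  exact Finsupp.prod_of_support_subset _ (by rwa [Nat.support_factorization]) _
    fun p _ => pow_zero _

lemma XM_meas (n : ℕ) : Measurable (XM n) := by
  have e : XM n = fun ω => ∏ p ∈ n.primeFactors, Yr (rp p) (ω p) ^ n.factorization p := by
    funext ω
    exact XM_eq subset_rfl ω
  rw [e]
  refine Finset.measurable_fun_prod _ fun p hp => ?_
  have hp2 := (Nat.prime_of_mem_primeFactors hp).two_le
  exact (((Yr_cont (rp_nonneg p) (rp_lt hp2)).measurable).comp (measurable_pi_apply p)).pow_const _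

lemma XM_norm (n : ℕ) (ω : ℕ → ℝ) : ‖XM n ω‖ = 1 := by
  rw [XM_eq subset_rfl, norm_prod]
  refine Finset.prod_eq_one fun p hp => ?_
  have hp2 := (Nat.prime_of_mem_primeFactors hp).two_le
  rw [norm_pow, Yr_norm (rp_nonneg p) (rp_lt hp2), one_pow]

lemma XM_mul {m n : ℕ} (hm : 1 ≤ m) (hn : 1 ≤ n) (ω : ℕ → ℝ) :
    XM (m * n) ω = XM m ω * XM n ω := by
  have hS : (m * n).primeFactors ⊆ m.primeFactors ∪ n.primeFactors := by
    rw [Nat.primeFactors_mul (by omega) (by omega)]
  rw [XM_eq hS, XM_eq (S := m.primeFactors ∪ n.primeFactors) subset_union_left,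
    XM_eq (S := m.primeFactors ∪ n.primeFactors) subset_union_right, ← Finset.prod_mul_distrib]
  refine Finset.prod_congr rfl fun p _ => ?_
  rw [Nat.factorization_mul (by omega) (by omega), Finsupp.add_apply, pow_add]

lemma nat_prod {n : ℕ} (hn : n ≠ 0) {S : Finset ℕ} (hS : n.primeFactors ⊆ S) :
    n = ∏ p ∈ S, p ^ n.factorization p := by
  conv_lhs => rw [← Nat.prod_factorization_pow_eq_self hn]
  exact Finsupp.prod_of_support_subset _ (by rwa [Nat.support_factorization]) _
    fun p _ => pow_zero _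

lemma psi_pp {p : ℕ} (hp : 1 ≤ p) (a b : ℕ) :
    psi (p ^ a) (p ^ b) = rp p ^ ((a - b) + (b - a)) := by
  have hp0 : (0 : ℝ) < p := by exact_mod_cast hp
  have hs0 : 0 < Real.sqrt p := Real.sqrt_pos.2 hp0
  have hsq : Real.sqrt p ^ 2 = p := Real.sq_sqrt hp0.le
  have hpw : ∀ k : ℕ, Real.sqrt ((p ^ k : ℕ) : ℝ) = Real.sqrt p ^ k := by
    intro k
    rw [Nat.cast_pow, Real.sqrt_eq_iff_mul_self_eq (by positivity) (by positivity), ← mul_pow,
      Real.mul_self_sqrt hp0.le]
  unfold psi rp
  rw [hpw, hpw]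
  generalize Real.sqrt (p : ℝ) = s at *
  rcases le_total a b with h | h
  · rw [Nat.gcd_eq_left (pow_dvd_pow p h), Nat.cast_pow, ← hsq, show a - b = 0 by omega,
      zero_add, inv_pow]
    have e : s ^ b = s ^ a * s ^ (b - a) := by rw [← pow_add]; congr 1; omega
    have e2 : (s ^ 2) ^ a = s ^ a * s ^ a := by rw [← pow_add, ← pow_mul]; congr 1; omega
    rw [e, e2]
    have h1 : s ^ a ≠ 0 := by positivity
    have h2 : s ^ (b - a) ≠ 0 := by positivity
    field_simp
  · rw [Nat.gcd_eq_right (pow_dvd_pow p h), Nat.cast_pow, ← hsq, show b - a = 0 by omega,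
      add_zero, inv_pow]
    have e : s ^ a = s ^ b * s ^ (a - b) := by rw [← pow_add]; congr 1; omega
    have e2 : (s ^ 2) ^ b = s ^ b * s ^ b := by rw [← pow_add, ← pow_mul]; congr 1; omega
    rw [e, e2]
    have h1 : s ^ b ≠ 0 := by positivity
    have h2 : s ^ (a - b) ≠ 0 := by positivity
    field_simp

lemma psi_one : psi 1 1 = 1 := by simp [psi]

/-- `psi` over a set of primes -/
lemma psi_prod (S : Finset ℕ) (hS : ∀ p ∈ S, p.Prime) (a b : ℕ → ℕ) :
    psi (∏ p ∈ S, p ^ a p) (∏ p ∈ S, p ^ b p) = ∏ p ∈ S, rp p ^ ((a p - b p) + (b p - a p)) := by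
  classical
  induction S using Finset.induction_on with
  | empty => simp [psi_one]
  | insert q S hq ih =>
    have hS' : ∀ p ∈ S, p.Prime := fun p hp => hS p (Finset.mem_insert_of_mem hp)
    have hqp := hS q (Finset.mem_insert_self _ _)
    rw [Finset.prod_insert hq, Finset.prod_insert hq, Finset.prod_insert hq, ← ih hS',
      ← psi_pp hqp.one_lt.le]
    have hc : ∀ (u : ℕ) (c : ℕ → ℕ), Nat.Coprime (q ^ u) (∏ p ∈ S, p ^ c p) := by
      intro u c
      refine Nat.Coprime.pow_left _ (Nat.Coprime.prod_right fun p hp => ?_)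
      refine Nat.Coprime.pow_right _ ((Nat.coprime_primes hqp (hS' p hp)).2 ?_)
      rintro rfl
      exact hq hp
    exact psi_mul (hc _ _) (hc _ _) (hc _ _) (hc _ _)

/-- **existence of the model** -/
theorem model_exists : Mdl (Measure.infinitePi fun _ : ℕ => nu) XM where
  meas := XM_meas
  norm_one := fun n _ => XM_norm n
  mul := fun m n hm hn ω => XM_mul hm hn ω
  corr := fun m n hm hn => by
    classical
    set S := m.primeFactors ∪ n.primeFactors with hS
    have hSp : ∀ p ∈ S, p.Prime := by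
      intro p hp
      rcases Finset.mem_union.1 hp with h | h
      · exact Nat.prime_of_mem_primeFactors h
      · exact Nat.prime_of_mem_primeFactors h
    set G : (p : S) → ℝ → ℂ := fun p u => Yr (rp p) u ^ m.factorization p *
      (starRingEnd ℂ) (Yr (rp p) u) ^ n.factorization p with hG
    have hGc : ∀ p : S, Continuous (G p) := fun p => by
      have := Yr_cont (rp_nonneg p) (rp_lt (hSp p p.2).two_le)
      exact (this.pow _).mul ((Complex.continuous_conj.comp this).pow _)
    have e1 : ∀ ω : ℕ → ℝ, XM m ω * (starRingEnd ℂ) (XM n ω) =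
        (fun y : (p : S) → ℝ => ∏ p : S, G p (y p)) (S.restrict ω) := by
      intro ω
      rw [XM_eq (S := S) subset_union_left, XM_eq (n := n) (S := S) subset_union_right, map_prod,
        ← Finset.prod_mul_distrib, ← Finset.prod_coe_sort]
      refine Finset.prod_congr rfl fun p _ => ?_
      rw [hG]
      simp [Finset.restrict]
    have hf : AEStronglyMeasurable (fun y : (p : S) → ℝ => ∏ p : S, G p (y p))
        (Measure.pi fun _ : S => nu) :=
      (continuous_finsetProd _ fun p _ => (hGc p).comp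
        (continuous_apply p)).measurable.aestronglyMeasurable
    have e3 : ∫ ω, XM m ω * (starRingEnd ℂ) (XM n ω) ∂(Measure.infinitePi fun _ : ℕ => nu) =
        ∫ y : (p : S) → ℝ, ∏ p : S, G p (y p) ∂(Measure.pi fun _ : S => nu) := by
      have e4 := integral_restrict_infinitePi (μ := fun _ : ℕ => nu) hf
      rw [← e4]
      exact integral_congr_ae (Eventually.of_forall e1)
    rw [e3, integral_fintype_prod_eq_prod (μ := fun _ : S => nu) G]
    have e2 : ∀ p : S, ∫ u, G p u ∂nu = ((rp p ^ ((m.factorization p - n.factorization p) +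
        (n.factorization p - m.factorization p)) : ℝ) : ℂ) := by
      intro p
      rw [hG]
      simp only
      rw [Yr_mom2 (rp_nonneg p) (rp_lt (hSp p p.2).two_le)]
      push_cast
      rfl
    simp_rw [e2]
    rw [← Complex.ofReal_prod, Finset.prod_coe_sort S fun p => rp p ^
      ((m.factorization p - n.factorization p) + (n.factorization p - m.factorization p)),
      ← psi_prod S hSp, ← nat_prod (by omega) subset_union_left,
      ← nat_prod (by omega) subset_union_right]

end

end Pool.Agent.R304.TL
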