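import Pool.Agent.R304.TL.Ln3

/-! The limit theorem for the second moment: assembly. -/

open Complex Filter Set Topology MeasureTheory

namespace Pool.Agent.R304.TL

open Pool.Agent.H306R2.SM (cl)
open Pool.Agent.H262R4.TM.TTW (zeta_cont)
open Results.MP_950908_nt.AdmissibleUniversality (Admissible S isOpen_S)

noncomputable section

/-- the probability space of the model -/
abbrev PP : Measure (ℕ → ℝ) := Measure.infinitePi fun _ : ℕ => nu

lemma Zc' {m : ℕ} {z : Fin m → ℂ} (hz : ∀ j, 1 / 2 < (z j).re ∧ (z j).re < 1) :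
    Continuous (Zv z) := continuous_pi fun j => zc (hz j).2

/-- real nonnegative functions -/
theorem real_case {m : ℕ} {z : Fin m → ℂ} (hz : ∀ j, 1 / 2 < (z j).re ∧ (z j).re < 1)
    {Φ : (Fin m → ℂ) → ℝ} (hΦ : Continuous Φ) (h0 : ∀ w, 0 ≤ Φ w) {C : ℝ}
    (hΦC : ∀ w, Φ w ≤ C * (1 + ‖w‖)) : ∃ M : ℝ,
      Tendsto (fun T : ℝ => (∫ t in Ioc 0 T, ‖riemannZeta (cl t)‖ ^ 2 * Φ (Zv z t)) /
        (T * Real.log T)) atTop (𝓝 M) ∧
      Tendsto (fun N : ℕ => ∫ ω, Φ (DX XM z N ω) ∂PP) atTop (𝓝 M) := by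
  have hΦc : Continuous fun w => (Φ w : ℂ) := Complex.continuous_ofReal.comp hΦ
  have hgr : ∀ w, ‖(Φ w : ℂ)‖ ≤ C * (1 + ‖w‖) := fun w => by
    rw [Complex.norm_real, Real.norm_eq_abs, abs_of_nonneg (h0 w)]
    exact hΦC w
  obtain ⟨M, hM⟩ := lim_of_pre (g := fun t => ((Φ (Zv z t) : ℝ) : ℂ)) (fun ε hε =>
    pre_lim hz hΦc hgr hε)
  have hmod := model_lim model_exists hz hΦc hgr hM
  -- the limit is real
  have hre : M = (M.re : ℂ) := by
    have h1 : Tendsto (fun N : ℕ => (∫ ω, ((Φ (DX XM z N ω) : ℝ) : ℂ) ∂PP).im) atTop (𝓝 M.im) :=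
      (Complex.continuous_im.tendsto M).comp hmod
    have h2 : (fun N : ℕ => (∫ ω, ((Φ (DX XM z N ω) : ℝ) : ℂ) ∂PP).im) = fun _ => 0 := by
      funext N
      rw [integral_complex_ofReal, Complex.ofReal_im]
    rw [h2] at h1
    have h3 : M.im = 0 := tendsto_nhds_unique h1 tendsto_const_nhds
    apply Complex.ext <;> simp [h3]
  rw [hre] at hM
  refine ⟨M.re, sharp (hΦ.comp (Zc' hz)) (fun t => h0 _) hM, ?_⟩
  have h1 : Tendsto (fun N : ℕ => (∫ ω, ((Φ (DX XM z N ω) : ℝ) : ℂ) ∂PP).re) atTop (𝓝 M.re) :=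
    (Complex.continuous_re.tendsto M).comp hmod
  refine h1.congr fun N => ?_
  rw [integral_complex_ofReal, Complex.ofReal_re]

/-- complex functions -/
theorem complex_case {m : ℕ} {z : Fin m → ℂ} (hz : ∀ j, 1 / 2 < (z j).re ∧ (z j).re < 1)
    {Φ : (Fin m → ℂ) → ℂ} (hΦ : Continuous Φ) {C : ℝ}
    (hΦC : ∀ w, ‖Φ w‖ ≤ C * (1 + ‖w‖)) : ∃ M : ℂ,
      Tendsto (fun T : ℝ => (∫ t in Ioc 0 T, (‖riemannZeta (cl t)‖ ^ 2 : ℝ) * Φ (Zv z t)) /
        ((T * Real.log T : ℝ) : ℂ)) atTop (𝓝 M) ∧
      Tendsto (fun N : ℕ => ∫ ω, Φ (DX XM z N ω) ∂PP) atTop (𝓝 M) := by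
  -- the four parts
  set f : Fin 4 → (Fin m → ℂ) → ℝ := ![fun w => max (Φ w).re 0, fun w => max (-(Φ w).re) 0,
    fun w => max (Φ w).im 0, fun w => max (-(Φ w).im) 0] with hf
  set c : Fin 4 → ℂ := ![1, -1, I, -I] with hc
  have hfc : ∀ i, Continuous (f i) := by
    intro i
    fin_cases i
    · exact (Complex.continuous_re.comp hΦ).max continuous_const
    · exact (Complex.continuous_re.comp hΦ).neg.max continuous_const
    · exact (Complex.continuous_im.comp hΦ).max continuous_const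
    · exact (Complex.continuous_im.comp hΦ).neg.max continuous_const
  have hf0 : ∀ i w, 0 ≤ f i w := by
    intro i w
    fin_cases i <;> exact le_max_right _ _
  have hfC : ∀ i w, f i w ≤ C * (1 + ‖w‖) := by
    intro i w
    have h1 := (Complex.abs_re_le_norm (Φ w)).trans (hΦC w)
    have h2 := (Complex.abs_im_le_norm (Φ w)).trans (hΦC w)
    have h3 := (norm_nonneg _).trans (hΦC w)
    rw [abs_le] at h1 h2
    fin_cases i <;> refine max_le ?_ h3 <;> linarith [h1.1, h1.2, h2.1, h2.2]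
  have hsum : ∀ w, Φ w = ∑ i, c i * (f i w : ℂ) := by
    intro w
    rw [hf, hc]
    simp only [Fin.sum_univ_four, Matrix.cons_val]
    have e1 : max (Φ w).re 0 - max (-(Φ w).re) 0 = (Φ w).re := max_zero_sub_max_neg_zero_eq_self _
    have e2 : max (Φ w).im 0 - max (-(Φ w).im) 0 = (Φ w).im := max_zero_sub_max_neg_zero_eq_self _
    conv_lhs => rw [← Complex.re_add_im (Φ w), ← e1, ← e2]
    push_cast
    ring
  have hcase := fun i => real_case hz (hfc i) (hf0 i) (hfC i)
  choose M hM1 hM2 using hcase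
  refine ⟨∑ i, c i * (M i : ℂ), ?_, ?_⟩
  · have h1 : ∀ i, Tendsto (fun T : ℝ => c i *
        (((∫ t in Ioc 0 T, ‖riemannZeta (cl t)‖ ^ 2 * f i (Zv z t)) / (T * Real.log T) : ℝ) : ℂ))
        atTop (𝓝 (c i * (M i : ℂ))) := fun i =>
      ((Complex.continuous_ofReal.tendsto _).comp (hM1 i)).const_mul _
    have h2 := tendsto_finsetSum (Finset.univ : Finset (Fin 4)) fun i _ => h1 i
    refine h2.congr fun T => ?_
    have hint : ∀ i, Integrable (fun t : ℝ => c i *
        ((‖riemannZeta (cl t)‖ ^ 2 * f i (Zv z t) : ℝ) : ℂ)) (volume.restrict (Ioc 0 T)) := by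
      intro i
      have hcont : Continuous fun t : ℝ => c i *
        ((‖riemannZeta (cl t)‖ ^ 2 * f i (Zv z t) : ℝ) : ℂ) :=
        continuous_const.mul (Complex.continuous_ofReal.comp
          ((zeta_cont.norm.pow 2).mul ((hfc i).comp (Zc' hz))))
      exact (hcont.integrableOn_Icc (a := 0) (b := T)).mono_set Ioc_subset_Icc_self
    have e : ∫ t in Ioc 0 T, (‖riemannZeta (cl t)‖ ^ 2 : ℝ) * Φ (Zv z t) =
        ∑ i, c i * ((∫ t in Ioc 0 T, ‖riemannZeta (cl t)‖ ^ 2 * f i (Zv z t) : ℝ) : ℂ) := by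
      have e1 : ∀ t : ℝ, ((‖riemannZeta (cl t)‖ ^ 2 : ℝ) : ℂ) * Φ (Zv z t) =
          ∑ i, c i * ((‖riemannZeta (cl t)‖ ^ 2 * f i (Zv z t) : ℝ) : ℂ) := by
        intro t
        rw [hsum, Finset.mul_sum]
        refine Finset.sum_congr rfl fun i _ => ?_
        push_cast
        ring
      simp_rw [e1]
      rw [integral_finsetSum _ fun i _ => hint i]
      refine Finset.sum_congr rfl fun i _ => ?_
      rw [integral_const_mul, integral_complex_ofReal]
    rw [e, Finset.sum_div]
    refine Finset.sum_congr rfl fun i _ => ?_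
    rw [Complex.ofReal_div, mul_div_assoc]
  · have h1 : ∀ i, Tendsto (fun N : ℕ => c i * ((∫ ω, f i (DX XM z N ω) ∂PP : ℝ) : ℂ))
        atTop (𝓝 (c i * (M i : ℂ))) := fun i =>
      ((Complex.continuous_ofReal.tendsto _).comp (hM2 i)).const_mul _
    have h2 := tendsto_finsetSum (Finset.univ : Finset (Fin 4)) fun i _ => h1 i
    refine h2.congr fun N => ?_
    have hint : ∀ i, Integrable (fun ω => c i * ((f i (DX XM z N ω) : ℝ) : ℂ)) PP := by
      intro i
      refine (DX_int model_exists z N (Φ := fun w => (f i w : ℂ))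
        (Complex.continuous_ofReal.comp (hfc i)) (C := C) (fun w => ?_)).const_mul _
      rw [Complex.norm_real, Real.norm_eq_abs, abs_of_nonneg (hf0 i w)]
      exact hfC i w
    simp_rw [hsum]
    rw [integral_finsetSum _ fun i _ => hint i]
    refine Finset.sum_congr rfl fun i _ => ?_
    rw [integral_const_mul, integral_complex_ofReal]

lemma fin_adm {m : ℕ} {z : Fin m → ℂ} (hz : ∀ j, 1 / 2 < (z j).re ∧ (z j).re < 1)
    (f : ℂ → ℂ) : Admissible (range z) f where
  compact := (finite_range z).isCompact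
  strip := by rintro _ ⟨j, rfl⟩; exact hz j
  compl_connected := (finite_range z).countable.isConnected_compl_of_one_lt_rank (by
    rw [Complex.rank_real_complex]; norm_num)
  cont := (finite_range z).continuousOn f
  hol := by
    have : interior (range z) = ∅ := by
      rw [interior_eq_empty_iff_dense_compl]
      exact (finite_range z).countable.dense_compl ℝ
    rw [this]
    exact differentiableOn_empty
  nonzero := by
    have : interior (range z) = ∅ := by
      rw [interior_eq_empty_iff_dense_compl]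
      exact (finite_range z).countable.dense_compl ℝ
    rw [this]
    simp

/-- positivity -/
theorem positive {m : ℕ} {z : Fin m → ℂ} (hz : ∀ j, 1 / 2 < (z j).re ∧ (z j).re < 1)
    (hinj : Function.Injective z) {Φ : (Fin m → ℂ) → ℝ} (hΦ : Continuous Φ) (h0 : ∀ w, 0 ≤ Φ w)
    (hne : ∃ w, Φ w ≠ 0) {M : ℝ}
    (hM : Tendsto (fun T : ℝ => (∫ t in Ioc 0 T, ‖riemannZeta (cl t)‖ ^ 2 * Φ (Zv z t)) /
        (T * Real.log T)) atTop (𝓝 M)) : 0 < M := by
  obtain ⟨w, hw⟩ := hne
  have hw0 : 0 < Φ w := lt_of_le_of_ne (h0 w) (Ne.symm hw)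
  obtain ⟨ε, hε, hball⟩ := Metric.continuousAt_iff.1 (hΦ.continuousAt (x := w)) (Φ w / 2)
    (by positivity)
  set f : ℂ → ℂ := fun s => ∑ j, if z j = s then w j else 0 with hf
  have hfz : ∀ j, f (z j) = w j := by
    intro j
    rw [hf]
    simp only
    rw [Finset.sum_eq_single j]
    · simp
    · intro i _ hij
      rw [if_neg]
      intro h
      exact hij (hinj h)
    · intro h; exact absurd (Finset.mem_univ j) h
  obtain ⟨c, hc, hu⟩ := univ2 (fin_adm hz f) (show 0 < ε by exact hε)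
  have hlow : ∀ᶠ T : ℝ in atTop, Φ w / 2 * c ≤
      (∫ t in Ioc 0 T, ‖riemannZeta (cl t)‖ ^ 2 * Φ (Zv z t)) / (T * Real.log T) := by
    filter_upwards [hu, eventually_gt_atTop (1 : ℝ)] with T hT hT1
    have hl : 0 < Real.log T := Real.log_pos hT1
    have hP : 0 < T * Real.log T := by positivity
    rw [le_div_iff₀ hP]
    have hm : MeasurableSet (S ε (range z) f ∩ Ioc 0 T) :=
      (isOpen_S (fin_adm hz f) ε).measurableSet.inter measurableSet_Ioc
    have hcont : Continuous fun t : ℝ => ‖riemannZeta (cl t)‖ ^ 2 * Φ (Zv z t) :=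
      (zeta_cont.norm.pow 2).mul (hΦ.comp (Zc' hz))
    have i1 : IntegrableOn (fun t : ℝ => ‖riemannZeta (cl t)‖ ^ 2 * Φ (Zv z t)) (Ioc 0 T) :=
      (hcont.integrableOn_Icc (a := 0) (b := T)).mono_set Ioc_subset_Icc_self
    have i2 : IntegrableOn (fun t : ℝ => ‖riemannZeta (cl t)‖ ^ 2) (Ioc 0 T) :=
      ((zeta_cont.norm.pow 2).integrableOn_Icc (a := 0) (b := T)).mono_set Ioc_subset_Icc_self
    calc Φ w / 2 * c * (T * Real.log T) = Φ w / 2 * (c * (T * Real.log T)) := by ring
      _ ≤ Φ w / 2 * ∫ t in S ε (range z) f ∩ Ioc 0 T, ‖riemannZeta (cl t)‖ ^ 2 :=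
          mul_le_mul_of_nonneg_left hT (by positivity)
      _ = ∫ t in S ε (range z) f ∩ Ioc 0 T, Φ w / 2 * ‖riemannZeta (cl t)‖ ^ 2 := by
          rw [integral_const_mul]
      _ ≤ ∫ t in S ε (range z) f ∩ Ioc 0 T, ‖riemannZeta (cl t)‖ ^ 2 * Φ (Zv z t) := by
          refine setIntegral_mono_on ((i2.mono_set inter_subset_right).const_mul _)
            (i1.mono_set inter_subset_right) hm fun t ht => ?_
          rw [mul_comm]
          refine mul_le_mul_of_nonneg_left ?_ (by positivity)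
          obtain ⟨δ, hδ, hS⟩ := ht.1
          have hd : dist (Zv z t) w < ε := by
            rcases isEmpty_or_nonempty (Fin m) with he | he
            · have : Zv z t = w := Subsingleton.elim _ _
              rw [this, dist_self]; exact hε
            · have hδ0 : 0 ≤ δ := (norm_nonneg _).trans (hS _ (mem_range_self he.some))
              refine lt_of_le_of_lt ?_ hδ
              rw [dist_pi_le_iff hδ0]
              intro j
              have := hS (z j) (mem_range_self j)
              rw [hfz] at this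
              rw [dist_eq_norm]
              exact this
          have := hball hd
          rw [Real.dist_eq, abs_lt] at this
          linarith [this.1]
      _ ≤ ∫ t in Ioc 0 T, ‖riemannZeta (cl t)‖ ^ 2 * Φ (Zv z t) := by
          refine setIntegral_mono_set i1 (ae_of_all _ fun t => ?_) inter_subset_right.eventuallyLE
          exact mul_nonneg (by positivity) (h0 _)
  have := ge_of_tendsto hM hlow
  have : 0 < Φ w / 2 * c := by positivity
  linarith

end

end Pool.Agent.R304.TL
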