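import Pool.Agent.R304.TL.Ln4

/-! The limit theorem for the second moment: the first moment of the limit law. -/

open Complex Filter Set Topology MeasureTheory

namespace Pool.Agent.R304.TL

noncomputable section

lemma E_X {n : ℕ} (hn : 1 ≤ n) : ∫ ω, XM n ω ∂PP = ((Real.sqrt n)⁻¹ : ℝ) := by
  have h := model_exists.corr n 1 hn le_rfl
  have e : ∀ ω, XM n ω * (starRingEnd ℂ) (XM 1 ω) = XM n ω := fun ω => by
    rw [model_exists.one ω]; simp
  simp_rw [e] at h
  rw [h]
  unfold psi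
  simp

lemma XM_int {n : ℕ} : Integrable (XM n) PP := by
  refine Integrable.of_bound (C := 1) (XM_meas n).aestronglyMeasurable
    (Eventually.of_forall fun ω => ?_)
  rw [XM_norm]

theorem first_moment {m : ℕ} {z : Fin m → ℂ} (hz : ∀ j, 1 / 2 < (z j).re ∧ (z j).re < 1)
    (j : Fin m) :
    Tendsto (fun N : ℕ => ∫ ω, DX XM z N ω j ∂PP) atTop (𝓝 (riemannZeta (z j + 1 / 2))) := by
  have hre : 1 < (z j + 1 / 2).re := by
    have := (hz j).1
    simp
    linarith
  have hsum : HasSum (fun n : ℕ => 1 / ((n : ℂ) + 1) ^ (z j + 1 / 2)) (riemannZeta (z j + 1 / 2)) := by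
    rw [zeta_eq_tsum_one_div_nat_add_one_cpow hre]
    refine Summable.hasSum ?_
    have := (summable_nat_add_iff 1).2 (Complex.summable_one_div_nat_cpow.2 hre)
    refine this.congr fun n => ?_
    push_cast
    rfl
  refine hsum.tendsto_sum_nat.congr fun N => ?_
  unfold DX
  rw [integral_finsetSum _ fun n _ => XM_int.const_mul _]
  have hIcc : ∀ (N : ℕ) (f : ℕ → ℂ), ∑ n ∈ Finset.Icc 1 N, f n =
      ∑ i ∈ Finset.range N, f (i + 1) := by
    intro N f
    induction N with
    | zero => simp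
    | succ N ih => rw [Finset.sum_Icc_succ_top (by omega), Finset.sum_range_succ, ih]
  rw [hIcc]
  refine Finset.sum_congr rfl fun i _ => ?_
  rw [integral_const_mul, E_X (by omega)]
  have hn0 : (0 : ℝ) < ((i + 1 : ℕ) : ℝ) := by positivity
  have hnc : ((i + 1 : ℕ) : ℂ) ≠ 0 := by exact_mod_cast Nat.succ_ne_zero i
  have e2 : (((Real.sqrt ((i + 1 : ℕ) : ℝ))⁻¹ : ℝ) : ℂ) =
      ((i + 1 : ℕ) : ℂ) ^ (-(1 / 2 : ℂ)) := by
    rw [Real.sqrt_eq_rpow, ← Real.rpow_neg hn0.le, Complex.ofReal_cpow hn0.le]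
    push_cast
    rfl
  rw [e2]
  unfold c1
  rw [← Complex.cpow_add _ _ hnc, one_div, ← Complex.cpow_neg]
  push_cast
  congr 1
  ring

end

end Pool.Agent.R304.TL
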