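import Pool.Agent.Helper240.ZU.A4

/-! Mean square of the difference of zeta and a partial sum, with a power saving. -/

open Complex Filter Topology Set MeasureTheory

namespace Pool.Agent.R304.TL

open ZU ZU.J_a4

lemma ev_pow (K p q : ℝ) (hpq : p < q) : ∀ᶠ T : ℝ in atTop, K * T ^ p ≤ 1 / 4 * T ^ q := by
  have h1 : Tendsto (fun T : ℝ => K * T ^ (-(q - p))) atTop (𝓝 (K * 0)) :=
    (tendsto_rpow_neg_atTop (by linarith : 0 < q - p)).const_mul K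
  rw [mul_zero] at h1
  filter_upwards [h1.eventually (gt_mem_nhds (show (0 : ℝ) < 1 / 4 by norm_num)),
    eventually_gt_atTop (0:ℝ)] with T hT hT0
  have h2 : T ^ p = T ^ (-(q - p)) * T ^ q := by
    rw [← Real.rpow_add hT0]; congr 1; ring
  rw [h2, ← mul_assoc]
  exact mul_le_mul_of_nonneg_right hT.le (by positivity)

theorem ms_pow (σ1 σ2 : ℝ) (h1 : 1 / 2 < σ1) (h2 : σ1 ≤ σ2) (h3 : σ2 < 1) (B : ℝ)
    (hB : 0 < B) (e : ℝ) (he : 0 < e) (he1 : e ≤ 1 / 2) :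
    ∃ δ : ℝ, 0 < δ ∧ δ < 1 ∧ ∀ᶠ T : ℝ in atTop, ∀ σ ∈ Icc σ1 σ2,
      ∫ t in (-B)..(T + B), ‖riemannZeta ((σ : ℂ) + t * I) - DN ⌊T ^ e⌋₊ ((σ : ℂ) + t * I)‖ ^ 2 ≤
        T ^ (1 - δ) := by
  have hσ1 : 0 < σ1 := by linarith
  obtain ⟨κ, hκa, hκb⟩ : ∃ κ, 1/(2*σ1) < κ ∧ κ < 1 :=
    exists_between (by rw [div_lt_one (by linarith)]; linarith)
  have hκ0 : 0 < κ := lt_trans (by positivity) hκa
  have hκ1 : 1 < 2*κ*σ1 := by
    have := (div_lt_iff₀ (by positivity : 0 < 2*σ1)).1 hκa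
    linarith
  have hκh : 1 / 2 < κ := by nlinarith
  obtain ⟨ρ, hρ⟩ : ∃ ρ, ρ = (2 * σ1 - 1) / 2 := ⟨_, rfl⟩
  have hρ0 : 0 < ρ := by rw [hρ]; linarith
  have hsum : Summable fun n : ℕ => (n:ℝ)^(-(σ1 + 1 / 2)) :=
    Real.summable_nat_rpow.2 (by linarith)
  obtain ⟨Z, hZ⟩ : ∃ Z, Z = ∑' n : ℕ, (n:ℝ)^(-(σ1 + 1 / 2)) := ⟨_, rfl⟩
  have hZ0 : 0 ≤ Z := by rw [hZ]; exact tsum_nonneg fun n => by positivity
  obtain ⟨δ, hδ⟩ : ∃ δ, δ = min (min (e * ρ / 2) (1 - κ)) (min ((1 - κ*(2-2*σ1)) / 2)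
    ((2*κ*σ1 - 1) / 2)) := ⟨_, rfl⟩
  have hd1 : δ ≤ e * ρ / 2 := by rw [hδ]; exact (min_le_left _ _).trans (min_le_left _ _)
  have hd2 : δ ≤ 1 - κ := by rw [hδ]; exact (min_le_left _ _).trans (min_le_right _ _)
  have hd3 : δ ≤ (1 - κ*(2-2*σ1)) / 2 := by
    rw [hδ]; exact (min_le_right _ _).trans (min_le_left _ _)
  have hd4 : δ ≤ (2*κ*σ1 - 1) / 2 := by
    rw [hδ]; exact (min_le_right _ _).trans (min_le_right _ _)
  have hkk : 0 < 1 - κ*(2-2*σ1) := by nlinarith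
  have hδ0 : 0 < δ := by
    rw [hδ]
    refine lt_min (lt_min (by positivity) (by linarith)) (lt_min (by linarith) (by linarith))
  set C1 : ℝ := 3 * Real.exp 4 * √Real.pi with hC1
  have hpi := Real.pi_pos
  have hC1p : 0 < C1 := by positivity
  have h1σ2 : 0 < 1 - σ2 := by linarith
  have heρ : 0 < e * ρ := by positivity
  have e0 := ev_pow (C1 * Z) (1 - e * ρ) (1 - δ) (by linarith)
  have e1 := ev_pow (3 * Real.pi/(1-σ2)^2) (κ*(2-2*σ1)) (1 - δ) (by linarith)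
  have e2 := ev_pow (120 * Real.pi * Real.exp 4) (2 - 2*κ*σ1) (1 - δ) (by linarith)
  have e3 := zm_ev_exp C1 κ 1 hκb one_pos
  have e3' := ev_pow 1 (2 * κ - 1) (1 - δ) (by linarith)
  have e4 : ∀ᶠ T : ℝ in atTop, (1:ℝ) ≤ T^κ :=
    (tendsto_rpow_atTop hκ0).eventually_ge_atTop _
  refine ⟨δ, hδ0, by linarith, ?_⟩
  filter_upwards [e0, e1, e2, e3, e3', e4, eventually_ge_atTop 1, eventually_ge_atTop B]
    with T g0 g1 g2 g3 g3' g4 hT1' hBT σ hσ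
  have hT0 : 0 < T := by linarith
  set L := ⌊T^κ⌋₊ with hLdef
  set N := ⌊T^e⌋₊ with hNdef
  have hTk : 0 < T ^ κ := Real.rpow_pos_of_pos hT0 _
  have hLle : (L:ℝ) ≤ T^κ := Nat.floor_le hTk.le
  have hL1' : 1 ≤ L := Nat.le_floor (by push_cast; exact g4)
  have hNL : N ≤ L := Nat.floor_le_floor
    (Real.rpow_le_rpow_of_exponent_le hT1' (by linarith))
  have hL1 : (1:ℝ) ≤ (L:ℝ) := by exact_mod_cast hL1'
  have hLge : T^κ/2 ≤ L := by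
    have h5 := Nat.lt_floor_add_one (T^κ)
    rw [← hLdef] at h5
    linarith
  have hL0 : (0:ℝ) < L := by linarith
  obtain ⟨hσa, hσb⟩ := hσ
  have hmain := zm_bound σ1 σ2 σ B T N L hNL hL1' h1 ⟨hσa, hσb⟩ h3 hB hT1' hBT
  refine hmain.trans ?_
  -- first term
  have s1 : ∑ n ∈ Finset.Ioc N L, (n : ℝ) ^ (-(2 * σ)) ≤ Z * T ^ (-(e * ρ)) := by
    have t1 : ∀ n ∈ Finset.Ioc N L, (n : ℝ) ^ (-(2 * σ)) ≤
        T ^ (-(e * ρ)) * (n:ℝ)^(-(σ1 + 1 / 2)) := by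
      intro n hn
      have hn1 : (1:ℝ) ≤ n := by
        have : 1 ≤ n := by
          have := (Finset.mem_Ioc.1 hn).1
          omega
        exact_mod_cast this
      have hn2 : T ^ e ≤ n := by
        have t2 := Nat.lt_floor_add_one (T ^ e)
        rw [← hNdef] at t2
        have t3 : (N : ℝ) + 1 ≤ n := by exact_mod_cast (Finset.mem_Ioc.1 hn).1
        linarith
      have t4 : (n : ℝ) ^ (-ρ) ≤ T ^ (-(e * ρ)) := by
        have t5 : (n : ℝ) ^ (-ρ) ≤ (T ^ e) ^ (-ρ) :=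
          Real.rpow_le_rpow_of_nonpos (by positivity) hn2 (by linarith)
        rw [← Real.rpow_mul hT0.le] at t5
        refine t5.trans (le_of_eq ?_)
        congr 1
        ring
      calc (n : ℝ) ^ (-(2 * σ)) ≤ (n : ℝ) ^ (-ρ + -(σ1 + 1 / 2)) :=
            Real.rpow_le_rpow_of_exponent_le hn1 (by rw [hρ]; linarith)
        _ = (n : ℝ) ^ (-ρ) * (n:ℝ)^(-(σ1 + 1 / 2)) := Real.rpow_add (by linarith) _ _
        _ ≤ _ := mul_le_mul_of_nonneg_right t4 (by positivity)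
    refine (Finset.sum_le_sum t1).trans ?_
    rw [← Finset.mul_sum, mul_comm Z]
    apply mul_le_mul_of_nonneg_left _ (by positivity)
    rw [hZ]
    exact hsum.sum_le_tsum _ (fun i _ => by positivity)
  have s2 : C1 * T * ((L : ℝ) ^ 2 * Real.exp (-(T ^ 2 / (4 * (L : ℝ) ^ 2)))) ≤
      1 / 4 * T ^ (1 - δ) := by
    refine le_trans ?_ g3'
    have q2 : (L:ℝ)^2 ≤ T^(2*κ) := by
      have h5 : T^(2*κ) = (T^κ)^2 := by
        rw [← Real.rpow_natCast (T^κ) 2, ← Real.rpow_mul hT0.le]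
        congr 1
        push_cast
        ring
      rw [h5]
      exact pow_le_pow_left₀ hL0.le hLle 2
    have q3 : (1/4) * T ^ (2 - 2*κ) ≤ T ^ 2 / (4 * (L : ℝ) ^ 2) := by
      rw [Real.rpow_sub hT0, Real.rpow_two]
      have h6 : T^2 / T^(2*κ) ≤ T^2/(L:ℝ)^2 :=
        div_le_div_of_nonneg_left (by positivity) (by positivity) q2
      calc (1/4) * (T^2 / T^(2*κ)) ≤ (1/4) * (T^2/(L:ℝ)^2) := by linarith
        _ = T ^ 2 / (4 * (L : ℝ) ^ 2) := by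
          field_simp
    have q4 : Real.exp (-(T ^ 2 / (4 * (L : ℝ) ^ 2))) ≤ Real.exp (-(1/4) * T ^ (2 - 2*κ)) := by
      apply Real.exp_le_exp.2
      linarith
    have q5 : T * T ^ (2 * κ) = T ^ (2 * κ - 1) * T ^ (2 : ℝ) := by
      rw [← Real.rpow_add hT0]
      nth_rewrite 1 [← Real.rpow_one T]
      rw [← Real.rpow_add hT0]
      congr 1
      ring
    calc C1 * T * ((L : ℝ) ^ 2 * Real.exp (-(T ^ 2 / (4 * (L : ℝ) ^ 2)))) ≤
          C1 * T * (T ^ (2 * κ) * Real.exp (-(1/4) * T ^ (2 - 2*κ))) := by gcongr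
      _ = (C1 * (T ^ (2:ℝ) * Real.exp (-(1/4) * T ^ (2 - 2*κ)))) * T ^ (2 * κ - 1) := by
          calc C1 * T * (T ^ (2 * κ) * Real.exp (-(1/4) * T ^ (2 - 2*κ))) =
                C1 * (T * T ^ (2 * κ)) * Real.exp (-(1/4) * T ^ (2 - 2*κ)) := by ring
            _ = _ := by rw [q5]; ring
      _ ≤ 1 * T ^ (2 * κ - 1) := mul_le_mul_of_nonneg_right g3 (by positivity)
  -- second term
  have s3 : 3 * (((L : ℝ) ^ (1 - σ)) ^ 2 / (1 - σ2) ^ 2) * Real.pi ≤ 1 / 4 * T ^ (1 - δ) := by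
    refine le_trans ?_ g1
    have q1 : ((L : ℝ) ^ (1 - σ)) ^ 2 ≤ T ^ (κ*(2-2*σ1)) := by
      have h5 : ((L : ℝ) ^ (1 - σ)) ^ 2 = (L:ℝ)^(2 - 2*σ) := by
        rw [← Real.rpow_natCast ((L:ℝ)^(1-σ)) 2, ← Real.rpow_mul hL0.le]
        congr 1
        push_cast
        ring
      rw [h5, Real.rpow_mul hT0.le]
      calc (L:ℝ)^(2 - 2*σ) ≤ (L:ℝ)^(2-2*σ1) :=
            Real.rpow_le_rpow_of_exponent_le hL1 (by linarith)
        _ ≤ (T^κ)^(2-2*σ1) := Real.rpow_le_rpow hL0.le hLle (by linarith)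
    calc 3 * (((L : ℝ) ^ (1 - σ)) ^ 2 / (1 - σ2) ^ 2) * Real.pi
        = 3 * Real.pi/(1-σ2)^2 * ((L : ℝ) ^ (1 - σ)) ^ 2 := by ring
      _ ≤ 3 * Real.pi/(1-σ2)^2 * T ^ (κ*(2-2*σ1)) := by gcongr
  -- third term
  have s4 : 3 * Real.exp 4 * (1 + 4 * T ^ 2) * (2 * Real.pi * ((L : ℝ) ^ (-(2 * σ)) / (2 * σ))) ≤
      1 / 4 * T ^ (1 - δ) := by
    refine le_trans ?_ g2
    have q1 : (L : ℝ) ^ (-(2 * σ)) / (2 * σ) ≤ (L:ℝ)^(-(2*σ1)) := by
      have h5 : (L : ℝ) ^ (-(2 * σ)) ≤ (L:ℝ)^(-(2*σ1)) :=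
        Real.rpow_le_rpow_of_exponent_le hL1 (by linarith)
      have h6 : 1 ≤ 2*σ := by linarith
      exact (div_le_self (by positivity) h6).trans h5
    have q2 : (L:ℝ)^(-(2*σ1)) ≤ 4 * T^(-(2*κ*σ1)) := by
      have h5 : (L:ℝ)^(-(2*σ1)) ≤ (T^κ/2)^(-(2*σ1)) :=
        Real.rpow_le_rpow_of_nonpos (by positivity) hLge (by linarith)
      have h6 : (T^κ/2)^(-(2*σ1)) = T^(-(2*κ*σ1)) * 2^(2*σ1) := by
        rw [Real.div_rpow hTk.le (by norm_num), ← Real.rpow_mul hT0.le, Real.rpow_neg (by norm_num : (0:ℝ) ≤ 2), div_inv_eq_mul]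
        congr 2
        ring
      have h7 : (2:ℝ)^(2*σ1) ≤ 4 := by
        calc (2:ℝ)^(2*σ1) ≤ (2:ℝ)^(2:ℝ) := Real.rpow_le_rpow_of_exponent_le (by norm_num) (by linarith)
          _ = 4 := by norm_num
      rw [h6] at h5
      have h8 : 0 ≤ T^(-(2*κ*σ1)) := by positivity
      nlinarith
    have q3 : 1 + 4 * T^2 ≤ 5 * T^2 := by nlinarith
    have q4 : T^(2 - 2*κ*σ1) = T^2 * T^(-(2*κ*σ1)) := by
      rw [← Real.rpow_two, ← Real.rpow_add hT0]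
      congr 1
    calc 3 * Real.exp 4 * (1 + 4 * T ^ 2) * (2 * Real.pi * ((L : ℝ) ^ (-(2 * σ)) / (2 * σ)))
        ≤ 3 * Real.exp 4 * (5 * T^2) * (2 * Real.pi * (4 * T^(-(2*κ*σ1)))) := by
          have r2 := q1.trans q2
          have r3 : 0 ≤ (L : ℝ) ^ (-(2 * σ)) / (2 * σ) :=
            div_nonneg (Real.rpow_nonneg hL0.le _) (by linarith)
          exact mul_le_mul (mul_le_mul_of_nonneg_left q3 (by positivity))
            (mul_le_mul_of_nonneg_left r2 (by positivity)) (mul_nonneg (by positivity) r3)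
            (by positivity)
      _ = 120 * Real.pi * Real.exp 4 * T^(2 - 2*κ*σ1) := by
          rw [q4]; ring
  have s6 : C1 * T * (∑ n ∈ Finset.Ioc N L, (n : ℝ) ^ (-(2 * σ))) ≤ 1 / 4 * T ^ (1 - δ) := by
    refine le_trans ?_ g0
    have q5 : T * T ^ (-(e * ρ)) = T ^ (1 - e * ρ) := by
      nth_rewrite 1 [← Real.rpow_one T]
      rw [← Real.rpow_add hT0]
      congr 1
    calc C1 * T * (∑ n ∈ Finset.Ioc N L, (n : ℝ) ^ (-(2 * σ))) ≤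
          C1 * T * (Z * T ^ (-(e * ρ))) := by gcongr
      _ = C1 * Z * (T * T ^ (-(e * ρ))) := by ring
      _ = _ := by rw [q5]
  have s5 : 3 * Real.exp 4 * (√Real.pi * T * (∑ n ∈ Finset.Ioc N L, (n : ℝ) ^ (-(2 * σ)) +
        (L : ℝ) ^ 2 * Real.exp (-(T ^ 2 / (4 * (L : ℝ) ^ 2))))) ≤ 1 / 2 * T ^ (1 - δ) := by
    have h5 : 3 * Real.exp 4 * (√Real.pi * T * (∑ n ∈ Finset.Ioc N L, (n : ℝ) ^ (-(2 * σ)) +
        (L : ℝ) ^ 2 * Real.exp (-(T ^ 2 / (4 * (L : ℝ) ^ 2))))) =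
        C1 * T * (∑ n ∈ Finset.Ioc N L, (n : ℝ) ^ (-(2 * σ))) +
        C1 * T * ((L : ℝ) ^ 2 * Real.exp (-(T ^ 2 / (4 * (L : ℝ) ^ 2)))) := by
      rw [hC1]; ring
    rw [h5]
    linarith
  linarith

end Pool.Agent.R304.TL
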