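import Pool.Agent.H388LH.ZG
import Pool.Agent.H345R2.Chi

/-! Bounds on the critical line from bounds to the right of it. -/

open Complex Filter Set Topology

namespace Pool.Agent.R304.TL

lemma left_bound : ∃ A : ℝ, 1 ≤ A ∧ ∀ δ : ℝ, 0 < δ → δ ≤ 1 / 4 → ∀ y : ℝ, 1 ≤ y →
    ‖riemannZeta (((1 / 2 - δ : ℝ) : ℂ) + y * I)‖ ≤
      A * y ^ δ * ‖riemannZeta (((1 / 2 + δ : ℝ) : ℂ) + y * I)‖ := by
  obtain ⟨K, hK, hX⟩ := H345.Chi.XX_size
  refine ⟨Real.exp K, Real.one_le_exp hK.le, fun δ h0 h1 y hy => ?_⟩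
  set s : ℂ := ((1 / 2 + δ : ℝ) : ℂ) + y * I with hs
  have hre : s.re = 1 / 2 + δ := by simp [hs]
  have him : s.im = y := by simp [hs]
  have h2 := (hX s (by rw [hre]; linarith) (by rw [hre]; linarith) (by rw [him]; exact hy)).2
  rw [hre, him] at h2
  have h3 := H345.zeta_fe s (by
    intro n hn
    have := congrArg Complex.im hn
    rw [him] at this
    simp at this
    linarith) (by
    intro hn
    have := congrArg Complex.im hn
    rw [him] at this
    simp at this
    linarith)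
  have h4 : 1 - s = (starRingEnd ℂ) (((1 / 2 - δ : ℝ) : ℂ) + y * I) := by
    apply Complex.ext
    · simp [hs]; ring
    · simp [hs]
  rw [h4, riemannZeta_conj] at h3
  have h5 := congrArg norm h3
  rw [RCLike.norm_conj, norm_mul] at h5
  rw [h5]
  refine mul_le_mul_of_nonneg_right (h2.trans (le_of_eq ?_)) (norm_nonneg _)
  congr 2
  ring

lemma norm_wt (L : ℝ) (z s : ℂ) :
    ‖Complex.exp (L * ((z - s) ^ 2 + (z - s) / 2))‖ =
      Real.exp (L * ((z.re - s.re) ^ 2 - (z.im - s.im) ^ 2 + (z.re - s.re) / 2)) := by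
  rw [Complex.norm_exp]
  congr 1
  have h : ((z - s) ^ 2).re = (z.re - s.re) ^ 2 - (z.im - s.im) ^ 2 := by
    rw [pow_two, Complex.mul_re]; simp; ring
  have h2 : ((z - s) / 2).re = (z.re - s.re) / 2 := by
    rw [show (z - s) / 2 = ((1 / 2 : ℝ) : ℂ) * (z - s) by push_cast; ring, Complex.re_ofReal_mul]
    simp; ring
  rw [Complex.re_ofReal_mul, Complex.add_re, h, h2]

/-- a bound on a short vertical segment at distance `δ` to the right of the critical line gives a
bound on the critical line -/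
theorem line_bound : ∃ C : ℝ, 1 ≤ C ∧ ∀ δ : ℝ, 0 < δ → δ ≤ 1 / 4 → ∀ A : ℝ, 1 ≤ A → ∀ t : ℝ, 2 ≤ t →
    (∀ y : ℝ, |y| ≤ 1 → ‖riemannZeta (((1 / 2 + δ : ℝ) : ℂ) + y * I + t * I)‖ ≤ A) →
    ‖riemannZeta (1 / 2 + t * I)‖ ≤ C * A * t ^ (δ / 2 + δ ^ 2) := by
  obtain ⟨E, hE, hl⟩ := left_bound
  refine ⟨12 * E, by linarith, fun δ h0 h1 A hA t ht hb => ?_⟩
  have ht0 : (0 : ℝ) < t := by linarith
  set L := Real.log t with hL
  have hL0 : 0 ≤ L := Real.log_nonneg (by linarith)
  have hexp : ∀ x : ℝ, Real.exp (L * x) = t ^ x := fun x => by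
    rw [Real.rpow_def_of_pos ht0]
  set s : ℂ := 1 / 2 + t * I with hs
  have hsre : s.re = 1 / 2 := by simp [hs]
  have hsim : s.im = t := by simp [hs]
  set F : ℂ → ℂ := fun z => riemannZeta z * Complex.exp (L * ((z - s) ^ 2 + (z - s) / 2)) with hF
  set U : Set ℂ := Ioo (1 / 2 - δ) (1 / 2 + δ) ×ℂ Ioo (t - 1) (t + 1) with hU
  have hab : (1 / 2 - δ) ≠ (1 / 2 + δ) := by intro h; linarith
  have hcd : (t - 1) ≠ (t + 1) := by intro h; linarith
  have hcl : closure U = Icc (1 / 2 - δ) (1 / 2 + δ) ×ℂ Icc (t - 1) (t + 1) := by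
    rw [hU, Complex.closure_reProdIm, closure_Ioo hab, closure_Ioo hcd]
  have hbd : Bornology.IsBounded U :=
    ((Metric.isBounded_Ioo _ _).reProdIm (Metric.isBounded_Ioo _ _))
  have hdiff : DiffContOnCl ℂ F U := by
    apply DifferentiableOn.diffContOnCl
    rw [hcl]
    intro z hz
    have hz' : 1 ≤ z.im := by
      have := (Complex.mem_reProdIm.1 hz).2.1
      linarith
    exact ((H388LH.diffAt_zeta_im (by linarith)).mul (by fun_prop)).differentiableWithinAt
  set B : ℝ := 12 * E * A * t ^ (δ / 2 + δ ^ 2) with hB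
  have hP : (0 : ℝ) < t ^ (δ / 2 + δ ^ 2) := Real.rpow_pos_of_pos ht0 _
  have hEA : 1 ≤ E * A := one_le_mul_of_one_le_of_one_le hE hA
  have hfr : ∀ z ∈ frontier U, ‖F z‖ ≤ B := by
    intro z hz
    rw [hU, Complex.frontier_reProdIm, closure_Ioo hab, closure_Ioo hcd,
      frontier_Ioo (by linarith), frontier_Ioo (by linarith)] at hz
    rw [hF]
    simp only
    rw [norm_mul, norm_wt, hsre, hsim, hexp]
    rcases hz with hz | hz
    · -- horizontal sides
      obtain ⟨⟨z1, z2⟩, z3⟩ := Complex.mem_reProdIm.1 hz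
      have z3' : z.im = t - 1 ∨ z.im = t + 1 := by simpa using z3
      have hsq : (z.im - t) ^ 2 = 1 := by
        rcases z3' with h | h <;> rw [h] <;> ring
      have him : 1 ≤ z.im ∧ z.im ≤ t + 1 := by
        rcases z3' with h | h <;> constructor <;> linarith
      have g1 : ‖riemannZeta z‖ ≤ 12 * t := by
        refine (H388LH.zeta_growth (by linarith) him.1).trans ?_
        have := Complex.norm_le_abs_re_add_abs_im z
        rw [abs_of_nonneg (show 0 ≤ z.re by linarith), abs_of_nonneg (show 0 ≤ z.im by linarith)]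
          at this
        linarith
      have g2 : t ^ ((z.re - 1 / 2) ^ 2 - (z.im - t) ^ 2 + (z.re - 1 / 2) / 2) ≤
          t ^ (δ / 2 + δ ^ 2 - 1) := by
        apply Real.rpow_le_rpow_of_exponent_le (by linarith)
        rw [hsq]
        have : (z.re - 1 / 2) ^ 2 ≤ δ ^ 2 := by
          apply sq_le_sq'
          · linarith
          · linarith
        linarith
      have g3 : t * t ^ (δ / 2 + δ ^ 2 - 1) = t ^ (δ / 2 + δ ^ 2) := by
        rw [Real.rpow_sub ht0, Real.rpow_one]
        field_simp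
      calc ‖riemannZeta z‖ * t ^ ((z.re - 1 / 2) ^ 2 - (z.im - t) ^ 2 + (z.re - 1 / 2) / 2)
          ≤ (12 * t) * t ^ (δ / 2 + δ ^ 2 - 1) :=
            mul_le_mul g1 g2 (Real.rpow_pos_of_pos ht0 _).le (by positivity)
        _ = 12 * t ^ (δ / 2 + δ ^ 2) := by rw [mul_assoc, g3]
        _ ≤ 12 * (E * A) * t ^ (δ / 2 + δ ^ 2) := by
            apply mul_le_mul_of_nonneg_right _ hP.le
            linarith
        _ = B := by rw [hB]; ring
    · obtain ⟨z3, ⟨z1, z2⟩⟩ := Complex.mem_reProdIm.1 hz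
      have z3' : z.re = 1 / 2 - δ ∨ z.re = 1 / 2 + δ := by simpa using z3
      have hy1 : 1 ≤ z.im := by linarith
      have hsq : 0 ≤ (z.im - t) ^ 2 := sq_nonneg _
      have hbz : ‖riemannZeta (((1 / 2 + δ : ℝ) : ℂ) + z.im * I)‖ ≤ A := by
        have := hb (z.im - t) (abs_le.2 ⟨by linarith, by linarith⟩)
        convert this using 3
        push_cast
        ring
      rcases z3' with h | h
      · -- left side
        have hz : z = ((1 / 2 - δ : ℝ) : ℂ) + z.im * I := by
          apply Complex.ext <;> simp [h]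
        have g1 : ‖riemannZeta z‖ ≤ E * (2 * t ^ δ) * A := by
          rw [hz]
          refine (hl δ h0 h1 z.im hy1).trans ?_
          have g4 : z.im ^ δ ≤ 2 * t ^ δ := by
            calc z.im ^ δ ≤ (2 * t) ^ δ := Real.rpow_le_rpow (by linarith) (by linarith) h0.le
              _ = 2 ^ δ * t ^ δ := Real.mul_rpow (by norm_num) ht0.le
              _ ≤ 2 ^ (1 : ℝ) * t ^ δ := by
                  apply mul_le_mul_of_nonneg_right _ (Real.rpow_pos_of_pos ht0 _).le
                  exact Real.rpow_le_rpow_of_exponent_le (by norm_num) (by linarith)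
              _ = 2 * t ^ δ := by rw [Real.rpow_one]
          have g5 : (0 : ℝ) ≤ t ^ δ := (Real.rpow_pos_of_pos ht0 _).le
          apply mul_le_mul _ hbz (norm_nonneg _) (by positivity)
          exact mul_le_mul_of_nonneg_left g4 (by linarith)
        have g2 : t ^ ((z.re - 1 / 2) ^ 2 - (z.im - t) ^ 2 + (z.re - 1 / 2) / 2) ≤
            t ^ (-(δ / 2) + δ ^ 2) := by
          apply Real.rpow_le_rpow_of_exponent_le (by linarith)
          rw [h]
          have : (1 / 2 - δ - 1 / 2) ^ 2 = δ ^ 2 := by ring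
          rw [this]
          linarith
        have g3 : t ^ δ * t ^ (-(δ / 2) + δ ^ 2) = t ^ (δ / 2 + δ ^ 2) := by
          rw [← Real.rpow_add ht0]; congr 1; ring
        have g5 : (0 : ℝ) ≤ t ^ δ := (Real.rpow_pos_of_pos ht0 _).le
        calc ‖riemannZeta z‖ * t ^ ((z.re - 1 / 2) ^ 2 - (z.im - t) ^ 2 + (z.re - 1 / 2) / 2)
            ≤ (E * (2 * t ^ δ) * A) * t ^ (-(δ / 2) + δ ^ 2) :=
              mul_le_mul g1 g2 (Real.rpow_pos_of_pos ht0 _).le (by positivity)
          _ = 2 * (E * A) * (t ^ δ * t ^ (-(δ / 2) + δ ^ 2)) := by ring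
          _ = 2 * (E * A) * t ^ (δ / 2 + δ ^ 2) := by rw [g3]
          _ ≤ 12 * (E * A) * t ^ (δ / 2 + δ ^ 2) := by
              apply mul_le_mul_of_nonneg_right _ hP.le
              linarith
          _ = B := by rw [hB]; ring
      · -- right side
        have hz : z = ((1 / 2 + δ : ℝ) : ℂ) + z.im * I := by
          apply Complex.ext <;> simp [h]
        have g1 : ‖riemannZeta z‖ ≤ A := by rw [hz]; exact hbz
        have g2 : t ^ ((z.re - 1 / 2) ^ 2 - (z.im - t) ^ 2 + (z.re - 1 / 2) / 2) ≤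
            t ^ (δ / 2 + δ ^ 2) := by
          apply Real.rpow_le_rpow_of_exponent_le (by linarith)
          rw [h]
          have : (1 / 2 + δ - 1 / 2) ^ 2 = δ ^ 2 := by ring
          rw [this]
          linarith
        calc ‖riemannZeta z‖ * t ^ ((z.re - 1 / 2) ^ 2 - (z.im - t) ^ 2 + (z.re - 1 / 2) / 2)
            ≤ A * t ^ (δ / 2 + δ ^ 2) :=
              mul_le_mul g1 g2 (Real.rpow_pos_of_pos ht0 _).le (by positivity)
          _ ≤ 12 * (E * A) * t ^ (δ / 2 + δ ^ 2) := by
              apply mul_le_mul_of_nonneg_right _ hP.le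
              have : A ≤ E * A := le_mul_of_one_le_left (by linarith) hE
              linarith
          _ = B := by rw [hB]; ring
  have hmem : s ∈ closure U := by
    rw [hcl, Complex.mem_reProdIm, hsre, hsim]
    exact ⟨⟨by linarith, by linarith⟩, ⟨by linarith, by linarith⟩⟩
  have hfin := Complex.norm_le_of_forall_mem_frontier_norm_le hbd hdiff hfr hmem
  rw [hF] at hfin
  simpa using hfin

end Pool.Agent.R304.TL
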