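import Pool.Agent.Helper240.ZU.C3
import Pool.Agent.R304.TL.Asy

/-! The rough part of zeta. -/

open Complex Finset Filter MeasureTheory

namespace Pool.Agent.R304.TL

open ZU ZU.J_c3a

noncomputable section

/-- the terms of the absolute form -/
def fs (σ : ℝ) (x : ℕ × ℕ) : ℝ := (x.1 : ℝ) ^ (-σ) * (x.2 : ℝ) ^ (-σ) * psi x.1 x.2

lemma fs_nonneg (σ : ℝ) (x : ℕ × ℕ) : 0 ≤ fs σ x := by
  unfold fs
  have := psi_nonneg x.1 x.2
  positivity

lemma fs_summable {σ : ℝ} (hσ : 1 / 2 < σ) : Summable (fs σ) := by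
  have h1 : Summable fun g : ℕ => (g : ℝ) ^ (-(2 * σ)) := Real.summable_nat_rpow.2 (by linarith)
  have h2 : Summable fun g : ℕ => (g : ℝ) ^ (-(σ + 1 / 2)) :=
    Real.summable_nat_rpow.2 (by linarith)
  have h3 : Summable fun x : ℕ × ℕ => (x.1 : ℝ) ^ (-(σ + 1 / 2)) * (x.2 : ℝ) ^ (-(σ + 1 / 2)) :=
    h2.mul_of_nonneg h2 (fun n => by positivity) (fun n => by positivity)
  have h4 : Summable fun x : ℕ × (ℕ × ℕ) => (x.1 : ℝ) ^ (-(2 * σ)) *
      ((x.2.1 : ℝ) ^ (-(σ + 1 / 2)) * (x.2.2 : ℝ) ^ (-(σ + 1 / 2))) :=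
    h1.mul_of_nonneg h3 (fun n => by positivity) (fun n => by positivity)
  have hinj : Function.Injective fun x : ℕ × ℕ =>
      ((Nat.gcd x.1 x.2, (x.1 / Nat.gcd x.1 x.2, x.2 / Nat.gcd x.1 x.2)) : ℕ × (ℕ × ℕ)) := by
    rintro ⟨a, b⟩ ⟨c, d⟩ h
    simp only [Prod.mk.injEq] at h
    obtain ⟨e1, e2, e3⟩ := h
    have f1 := Nat.mul_div_cancel' (Nat.gcd_dvd_left a b)
    have f2 := Nat.mul_div_cancel' (Nat.gcd_dvd_left c d)
    have f3 := Nat.mul_div_cancel' (Nat.gcd_dvd_right a b)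
    have f4 := Nat.mul_div_cancel' (Nat.gcd_dvd_right c d)
    rw [e2, e1] at f1
    rw [e3, e1] at f3
    exact Prod.ext (f1.symm.trans f2) (f3.symm.trans f4)
  have h5 := h4.comp_injective hinj
  refine h5.congr fun x => ?_
  obtain ⟨m, n⟩ := x
  simp only [Function.comp]
  unfold fs psi
  simp only
  have hz1 : (0 : ℝ) ^ (-σ) = 0 := Real.zero_rpow (by linarith)
  have hz2 : (0 : ℝ) ^ (-(σ + 1 / 2)) = 0 := Real.zero_rpow (by linarith)
  rcases Nat.eq_zero_or_pos m with hm | hm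
  · subst hm
    rw [Nat.zero_div, Nat.cast_zero, hz1, hz2]
    ring
  rcases Nat.eq_zero_or_pos n with hn | hn
  · subst hn
    rw [Nat.zero_div, Nat.cast_zero, hz1, hz2]
    ring
  have hg : 0 < Nat.gcd m n := Nat.gcd_pos_of_pos_left _ hm
  obtain ⟨a, ha⟩ := Nat.gcd_dvd_left m n
  obtain ⟨b, hb⟩ := Nat.gcd_dvd_right m n
  have ea : m / Nat.gcd m n = a := Nat.div_eq_of_eq_mul_right hg ha
  have eb : n / Nat.gcd m n = b := Nat.div_eq_of_eq_mul_right hg hb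
  rw [ea, eb]
  have hmr : (m : ℝ) = (Nat.gcd m n : ℝ) * a := by exact_mod_cast ha
  have hnr : (n : ℝ) = (Nat.gcd m n : ℝ) * b := by exact_mod_cast hb
  have hgr : (0 : ℝ) < Nat.gcd m n := by exact_mod_cast hg
  have hm0 : (0 : ℝ) < m := by exact_mod_cast hm
  have hn0 : (0 : ℝ) < n := by exact_mod_cast hn
  have k1 : ∀ x : ℝ, 0 < x → x ^ (-σ) * (1 / Real.sqrt x) = x ^ (-(σ + 1 / 2)) := by
    intro x hx
    rw [Real.sqrt_eq_rpow, one_div, ← Real.rpow_neg hx.le, ← Real.rpow_add hx]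
    congr 1
    ring
  calc ((Nat.gcd m n : ℕ) : ℝ) ^ (-(2 * σ)) * ((a : ℝ) ^ (-(σ + 1 / 2)) * (b : ℝ) ^ (-(σ + 1 / 2)))
      = (Nat.gcd m n : ℝ) * ((m : ℝ) ^ (-(σ + 1 / 2)) * (n : ℝ) ^ (-(σ + 1 / 2))) := by
        have k2 : (m : ℝ) ^ (-(σ + 1 / 2)) = (Nat.gcd m n : ℝ) ^ (-(σ + 1 / 2)) *
            (a : ℝ) ^ (-(σ + 1 / 2)) := by
          rw [← Real.mul_rpow hgr.le (Nat.cast_nonneg a), ← hmr]
        have k3 : (n : ℝ) ^ (-(σ + 1 / 2)) = (Nat.gcd m n : ℝ) ^ (-(σ + 1 / 2)) *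
            (b : ℝ) ^ (-(σ + 1 / 2)) := by
          rw [← Real.mul_rpow hgr.le (Nat.cast_nonneg b), ← hnr]
        rw [k2, k3]
        have k4 : ((Nat.gcd m n : ℕ) : ℝ) ^ (-(2 * σ)) = (Nat.gcd m n : ℝ) *
            ((Nat.gcd m n : ℝ) ^ (-(σ + 1 / 2)) * (Nat.gcd m n : ℝ) ^ (-(σ + 1 / 2))) := by
          rw [← Real.rpow_add hgr]
          nth_rewrite 2 [← Real.rpow_one (Nat.gcd m n : ℝ)]
          rw [← Real.rpow_add hgr]
          congr 1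
          ring
        rw [k4]
        ring
    _ = (m : ℝ) ^ (-σ) * (n : ℝ) ^ (-σ) * ((Nat.gcd m n : ℝ) / (Real.sqrt m * Real.sqrt n)) := by
        rw [← k1 _ hm0, ← k1 _ hn0]
        ring

/-- far terms are small -/
lemma fs_small {σ : ℝ} (hσ : 1 / 2 < σ) {ε : ℝ} (hε : 0 < ε) : ∃ M0 : ℕ, ∀ A : Finset ℕ,
    (∀ m ∈ A, M0 < m) → ∑ x ∈ A ×ˢ A, fs σ x ≤ ε := by
  obtain ⟨s, hs⟩ := summable_iff_vanishing_norm.1 (fs_summable hσ) ε hε
  refine ⟨s.sup Prod.fst, fun A hA => ?_⟩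
  have hd : Disjoint (A ×ˢ A) s := by
    rw [Finset.disjoint_left]
    intro x hx hxs
    have h1 := hA x.1 (Finset.mem_product.1 hx).1
    have h2 : x.1 ≤ s.sup Prod.fst := Finset.le_sup (f := Prod.fst) hxs
    omega
  have h1 := hs _ hd
  rw [Real.norm_eq_abs] at h1
  exact (le_abs_self _).trans h1.le

/-- polynomial over a set of integers -/
def IP (A : Finset ℕ) (c : ℕ → ℂ) : TP := ⟨ℕ, A, id, c⟩

lemma IP_Va {A : Finset ℕ} {c : ℕ → ℂ} {σ C : ℝ} (hC : 0 ≤ C)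
    (hc : ∀ m ∈ A, ‖c m‖ ≤ C * (m : ℝ) ^ (-σ)) :
    (IP A c).Va ≤ C ^ 2 * ∑ x ∈ A ×ˢ A, fs σ x := by
  unfold TP.Va IP
  simp only [id]
  rw [Finset.sum_product, Finset.mul_sum]
  refine Finset.sum_le_sum fun m hm => ?_
  rw [Finset.mul_sum]
  refine Finset.sum_le_sum fun l hl => ?_
  have h1 := hc m hm
  have h2 := hc l hl
  have h3 := psi_nonneg m l
  calc ‖c m‖ * ‖c l‖ * psi m l ≤ (C * (m : ℝ) ^ (-σ)) * (C * (l : ℝ) ^ (-σ)) * psi m l := by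
        gcongr
    _ = C ^ 2 * fs σ (m, l) := by
        unfold fs
        ring

/-- collected coefficients of a product with a polynomial over integers -/
lemma co_mul {P : TP} {HQ : ℕ} (hP : ∀ i ∈ P.S, 1 ≤ P.n i ∧ P.n i ≤ HQ)
    (hw : ∀ i ∈ P.S, ‖P.w i‖ ≤ 1) {A : Finset ℕ} {c : ℕ → ℂ} {C : ℝ} (hC : 0 ≤ C)
    (hc : ∀ m ∈ A, ‖c m‖ * Real.sqrt m ≤ C) (n : ℕ) :
    ‖co (P.mul (IP A c)) n‖ * Real.sqrt n ≤ P.S.card * (Real.sqrt HQ * C) := by
  classical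
  have e : co (P.mul (IP A c)) n = ∑ x ∈ (P.S ×ˢ A).filter (fun x => P.n x.1 * x.2 = n),
      P.w x.1 * c x.2 := rfl
  rw [e]
  have h1 : ‖∑ x ∈ (P.S ×ˢ A).filter (fun x => P.n x.1 * x.2 = n), P.w x.1 * c x.2‖ * Real.sqrt n ≤
      ∑ x ∈ (P.S ×ˢ A).filter (fun x => P.n x.1 * x.2 = n), Real.sqrt HQ * C := by
    refine (mul_le_mul_of_nonneg_right (norm_sum_le _ _) (Real.sqrt_nonneg _)).trans ?_
    rw [Finset.sum_mul]
    refine Finset.sum_le_sum fun x hx => ?_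
    rw [Finset.mem_filter, Finset.mem_product] at hx
    obtain ⟨⟨hx1, hx2⟩, hx3⟩ := hx
    have e2 : Real.sqrt n = Real.sqrt (P.n x.1) * Real.sqrt x.2 := by
      rw [← hx3, Nat.cast_mul, Real.sqrt_mul (Nat.cast_nonneg _)]
    rw [e2, norm_mul]
    have h2 := hw x.1 hx1
    have h3 := hc x.2 hx2
    have h4 : Real.sqrt (P.n x.1) ≤ Real.sqrt HQ :=
      Real.sqrt_le_sqrt (by exact_mod_cast (hP x.1 hx1).2)
    calc ‖P.w x.1‖ * ‖c x.2‖ * (Real.sqrt (P.n x.1) * Real.sqrt x.2) =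
          ‖P.w x.1‖ * (Real.sqrt (P.n x.1) * (‖c x.2‖ * Real.sqrt x.2)) := by ring
      _ ≤ 1 * (Real.sqrt HQ * C) := by gcongr
      _ = _ := one_mul _
  refine h1.trans ?_
  rw [Finset.sum_const, nsmul_eq_mul]
  apply mul_le_mul_of_nonneg_right _ (by positivity)
  have h5 : ((P.S ×ˢ A).filter (fun x => P.n x.1 * x.2 = n)).card ≤ P.S.card := by
    apply Finset.card_le_card_of_injOn Prod.fst
    · intro x hx
      rw [Finset.mem_coe, Finset.mem_filter, Finset.mem_product] at hx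
      exact hx.1.1
    · intro x hx y hy hxy
      rw [Finset.mem_coe, Finset.mem_filter, Finset.mem_product] at hx hy
      have h6 : P.n x.1 * x.2 = P.n x.1 * y.2 := by
        rw [hx.2, hxy, hy.2]
      exact Prod.ext hxy (Nat.eq_of_mul_eq_mul_left (hP x.1 hx.1.1).1 h6)
  exact_mod_cast h5

lemma co_id {A : Finset ℕ} {c : ℕ → ℂ} {C : ℝ} (hC : 0 ≤ C)
    (hc : ∀ m ∈ A, ‖c m‖ * Real.sqrt m ≤ C) (n : ℕ) : ‖co (IP A c) n‖ * Real.sqrt n ≤ C := by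
  classical
  have e : co (IP A c) n = ∑ m ∈ A.filter (fun m => m = n), c m := rfl
  rw [e, Finset.filter_eq']
  split_ifs with h
  · rw [Finset.sum_singleton]
    exact hc n h
  · simpa using hC

/-- crude bound for the collected coefficients -/
lemma co_le {P : TP} {HQ : ℕ} (hP : ∀ i ∈ P.S, 1 ≤ P.n i ∧ P.n i ≤ HQ)
    (hw : ∀ i ∈ P.S, ‖P.w i‖ ≤ 1) (n : ℕ) :
    ‖co P n‖ * Real.sqrt n ≤ P.S.card * Real.sqrt HQ := by
  classical
  unfold co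
  rcases (P.S.filter (fun i => P.n i = n)).eq_empty_or_nonempty with h | h
  · rw [h]
    simp only [Finset.sum_empty, norm_zero, zero_mul]
    positivity
  · obtain ⟨i, hi⟩ := h
    rw [Finset.mem_filter] at hi
    have h1 : Real.sqrt n ≤ Real.sqrt HQ :=
      Real.sqrt_le_sqrt (by rw [← hi.2]; exact_mod_cast (hP i hi.1).2)
    have h2 : ‖∑ i ∈ P.S.filter (fun i => P.n i = n), P.w i‖ ≤ P.S.card := by
      refine (norm_sum_le _ _).trans ?_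
      calc _ ≤ ∑ i ∈ P.S.filter (fun i => P.n i = n), (1 : ℝ) :=
            Finset.sum_le_sum fun i hi => hw i (Finset.mem_filter.1 hi).1
        _ = ((P.S.filter (fun i => P.n i = n)).card : ℝ) := by simp
        _ ≤ _ := by exact_mod_cast Finset.card_filter_le _ _
    gcongr

end

end Pool.Agent.R304.TL
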