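import Pool.Agent.R304.TL.Win
import Pool.Agent.R304.TL.Ms

/-! The tail of zeta with respect to the second moment. -/

open Complex Finset Filter Topology MeasureTheory

namespace Pool.Agent.R304.TL

open ZU ZU.J_c3a
open Pool.Agent.H306R2.SM (om cl Yf)
open Pool.Agent.H262R4.TM.TTW (om_nonneg om_cont cl_cont zeta_cont int2)

noncomputable section

/-- the coefficients of the rough part -/
def c1 (z : ℂ) (m : ℕ) : ℂ := (m : ℂ) ^ (-z)

/-- the coefficients of the edge -/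
def c2 (M N : ℕ) (z : ℂ) (m : ℕ) : ℂ := cf M N m * (m : ℂ) ^ (-z)

lemma split_ev (M N : ℕ) (hN : 1 ≤ N) (z : ℂ) (t : ℝ) :
    DN N (z + t * I) * EM M (fun _ => 1) (z + t * I) - 1 = (IP (S1 M N) (c1 z)).ev t +
      (IP (Finset.Icc (N + 1) (N * ∏ p ∈ pr M, p)) (c2 M N z)).ev t := by
  rw [split_eq M N hN]
  have e : ∀ m : ℕ, m ≠ 0 → (m : ℂ) ^ (-(z + t * I)) = (m : ℂ) ^ (-z) * (m : ℂ) ^ (-(t * I)) := by
    intro m hm
    have hm' : (m : ℂ) ≠ 0 := by exact_mod_cast hm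
    rw [← Complex.cpow_add _ _ hm']
    congr 1
    ring
  unfold TP.ev IP c1 c2
  simp only [id]
  congr 1
  · refine Finset.sum_congr rfl fun m hm => e m ?_
    unfold S1 at hm
    have := (Finset.mem_Icc.1 (Finset.mem_filter.1 hm).1).1
    omega
  · refine Finset.sum_congr rfl fun m hm => ?_
    have := (Finset.mem_Icc.1 hm).1
    rw [e m (by omega)]
    ring

lemma norm_c1 {z : ℂ} {σ : ℝ} (hz : σ ≤ z.re) {m : ℕ} (hm : 1 ≤ m) :
    ‖c1 z m‖ ≤ (m : ℝ) ^ (-σ) := by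
  unfold c1
  rw [Complex.norm_natCast_cpow_of_pos hm]
  refine Real.rpow_le_rpow_of_exponent_le (by exact_mod_cast hm) ?_
  rw [neg_re]; linarith

lemma pow_sqrt {σ : ℝ} (hσ : 1 / 2 < σ) {m : ℕ} (hm : 1 ≤ m) : (m : ℝ) ^ (-σ) * Real.sqrt m ≤ 1 := by
  have hm1 : (1 : ℝ) ≤ m := by exact_mod_cast hm
  rw [Real.sqrt_eq_rpow, ← Real.rpow_add (by linarith)]
  exact Real.rpow_le_one_of_one_le_of_nonpos hm1 (by linarith)

lemma ev_le' {P : TP} (h0 : ∀ i ∈ P.S, 1 ≤ P.n i) (t : ℝ) : ‖P.ev t‖ ≤ ∑ i ∈ P.S, ‖P.w i‖ := by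
  unfold TP.ev
  refine (norm_sum_le _ _).trans (Finset.sum_le_sum fun i hi => ?_)
  rw [norm_mul, Complex.norm_natCast_cpow_of_pos (h0 i hi)]
  have : (-(t * I) : ℂ).re = 0 := by simp
  rw [this, Real.rpow_zero, mul_one]

lemma int_ev {P : TP} (h0 : ∀ i ∈ P.S, 1 ≤ P.n i) {k : ℕ} (hk : 1 ≤ k) {X : ℝ} (hX : 0 < X) :
    IntegrableOn (fun t => wz k X t * ‖P.ev t‖ ^ 2) (Set.Ioi 0) := by
  refine wz_int hk hX (C := (∑ i ∈ P.S, ‖P.w i‖) ^ 2) ((TP.ev_cont h0).norm.pow 2) fun t => ?_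
  rw [abs_of_nonneg (by positivity)]
  exact pow_le_pow_left₀ (norm_nonneg _) (ev_le' h0 t) 2

lemma cop {M N : ℕ} {Q : TP} (hQ : Sm (pr M) Q) : ∀ i ∈ Q.S, ∀ m ∈ S1 M N,
    Nat.Coprime (Q.n i) m := by
  intro i hi l hl
  rw [Nat.coprime_iff_gcd_eq_one]
  by_contra h
  have h2 := Nat.minFac_prime h
  have h3 : ((Q.n i).gcd l).minFac ∣ Q.n i := (Nat.minFac_dvd _).trans (Nat.gcd_dvd_left _ l)
  have h4 : ((Q.n i).gcd l).minFac ∣ l := (Nat.minFac_dvd _).trans (Nat.gcd_dvd_right _ l)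
  unfold S1 at hl
  exact (Finset.mem_filter.mp hl).2 _ (hQ.fac i hi _ h2 h3) h4

/-- **the tail with respect to the weighted second moment** -/
theorem rough_up {M : ℕ} {Q : TP} (hQ : Sm (pr M) Q) {H : ℕ} (hH : ∀ i ∈ Q.S, Q.n i ≤ H)
    {v : ℝ} (hv0 : 0 < v) (hv : Q.V = (v : ℂ)) {σ1 : ℝ} (h1 : 1 / 2 < σ1) {κ : ℝ} (hκ : 0 < κ)
    (hκM : ∀ A : Finset ℕ, (∀ m ∈ A, M < m) → ∑ x ∈ A ×ˢ A, fs σ1 x ≤ κ) :
    ∃ e : ℝ, 0 < e ∧ e ≤ 1 / 16 ∧ ∀ᶠ T : ℝ in atTop, ∀ X : ℝ, T / 4 ≤ X → X ≤ T → ∀ z : ℂ,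
      σ1 ≤ z.re → IntegrableOn (fun t : ℝ => wz (kT T) X t * (‖Q.ev t‖ ^ 2 *
        ‖DN ⌊T ^ e⌋₊ (z + t * I) * EM M (fun _ => 1) (z + t * I) - 1‖ ^ 2)) (Set.Ioi 0) ∧
      ∫ t in Set.Ioi (0 : ℝ), wz (kT T) X t * (‖Q.ev t‖ ^ 2 *
        ‖DN ⌊T ^ e⌋₊ (z + t * I) * EM M (fun _ => 1) (z + t * I) - 1‖ ^ 2) ≤
        4 * v * κ * Real.log T := by
  obtain ⟨η, hη, hasy⟩ := asyT
  set cd : ℝ := (Q.S.card : ℝ) with hcd
  have hcd0 : 0 ≤ cd := Nat.cast_nonneg _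
  set VQ := Q.Va with hVQ
  have hVQ0 : 0 ≤ VQ := Q.Va_nonneg
  obtain ⟨e, he⟩ : ∃ e, e = min (1 / 16) (v / (16 * (VQ + 1))) := ⟨_, rfl⟩
  have he0 : 0 < e := by rw [he]; positivity
  have he1 : e ≤ 1 / 16 := by rw [he]; exact min_le_left _ _
  have he2 : e * VQ ≤ v / 16 := by
    have h2 : e ≤ v / (16 * (VQ + 1)) := by rw [he]; exact min_le_right _ _
    rw [le_div_iff₀ (by positivity)] at h2
    linarith
  set π2 : ℝ := 2 ^ (pr M).card with hπ2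
  have hπ20 : 0 < π2 := by positivity
  obtain ⟨ε2, hε2⟩ : ∃ ε2, ε2 = v * κ / (16 * (cd ^ 2 + 1) * π2 ^ 2) := ⟨_, rfl⟩
  have hε20 : 0 < ε2 := by rw [hε2]; positivity
  have hε2' : cd ^ 2 * (π2 ^ 2 * ε2) ≤ v * κ / 16 := by
    rw [hε2]
    have : cd ^ 2 * (π2 ^ 2 * (v * κ / (16 * (cd ^ 2 + 1) * π2 ^ 2))) =
      (cd ^ 2 / (cd ^ 2 + 1)) * (v * κ / 16) := by field_simp
    rw [this]
    have h2 : cd ^ 2 / (cd ^ 2 + 1) ≤ 1 := by
      rw [div_le_one (by positivity)]; linarith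
    have h3 : 0 ≤ v * κ / 16 := by positivity
    exact mul_le_of_le_one_left h3 h2
  obtain ⟨N0, hN0⟩ := fs_small h1 hε20
  set Pn : ℕ := ∏ p ∈ pr M, p with hPn
  have hPn1 : 1 ≤ Pn := pr_pos (Finset.Subset.refl _)
  set Mn1 : ℝ := cd * (Real.sqrt H * 1) + 1 with hMn1
  have hMn10 : 0 < Mn1 := by positivity
  have hpe : Tendsto (fun T : ℝ => T ^ e) atTop atTop := tendsto_rpow_atTop he0
  have hp16 : Tendsto (fun T : ℝ => T ^ ((1 : ℝ) / 16)) atTop atTop :=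
    tendsto_rpow_atTop (by norm_num)
  set Cc : ℝ := 2 * v * κ + 2 * Real.log H * VQ * κ + 1 with hCc
  have hvκ : 0 < v * κ := by positivity
  refine ⟨e, he0, he1, ?_⟩
  filter_upwards [hasy, kT_facts, hpe.eventually_ge_atTop ((N0 : ℝ) + 1),
    hp16.eventually_ge_atTop (H : ℝ), hp16.eventually_ge_atTop (Pn : ℝ),
    ev_rpow_neg hη (Mn1 ^ 2) one_pos, ev_rpow_neg hη (cd ^ 2 * π2 ^ 2) one_pos,
    Real.tendsto_log_atTop.eventually_ge_atTop (max 4 (16 * (|Cc| + 4) / (v * κ))),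
    eventually_ge_atTop (1 : ℝ)]
    with T hT hk hTN hTH hTP hM1 hM2 hl hT1 X hX1 hX2 z hz
  obtain ⟨hk1, -, hk3⟩ := hk
  obtain ⟨-, hX7⟩ := hk3 X hX1 hX2
  have hX0 : 0 < X := by linarith
  have hT0 : 0 < T := by linarith
  obtain ⟨hL1, hL2⟩ := LL_bound hk1 hX7 hX1 hX2
  have hl4 : 4 ≤ Real.log T := (le_max_left _ _).trans hl
  have hlC : 16 * (|Cc| + 4) ≤ v * κ * Real.log T := by
    have h2 : 16 * (|Cc| + 4) / (v * κ) ≤ Real.log T := (le_max_right _ _).trans hl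
    rw [div_le_iff₀ hvκ] at h2
    linarith
  have hLL0 : 0 ≤ LL (kT T) X := by linarith
  set N := ⌊T ^ e⌋₊ with hN
  have hN1 : 1 ≤ N := Nat.le_floor (by
    have : (0 : ℝ) ≤ N0 := Nat.cast_nonneg _
    push_cast; linarith)
  have hNT : (N : ℝ) ≤ T ^ e := Nat.floor_le (by positivity)
  have hN0N : N0 ≤ N := Nat.le_floor (by linarith)
  have hN16 : (N : ℝ) ≤ T ^ ((1 : ℝ) / 16) :=
    hNT.trans (Real.rpow_le_rpow_of_exponent_le hT1 he1)
  have h8 : T ^ ((1 : ℝ) / 16) * T ^ ((1 : ℝ) / 16) = T ^ ((1 : ℝ) / 8) := by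
    rw [← Real.rpow_add hT0]; norm_num
  -- the rough part
  have hS1 : ∀ m ∈ S1 M N, 1 ≤ m ∧ m ≤ N := by
    intro m hm
    unfold S1 at hm
    have := Finset.mem_Icc.1 (Finset.mem_filter.1 hm).1
    omega
  set P1 := Q.mul (IP (S1 M N) (c1 z)) with hP1
  have hcop : ∀ i ∈ Q.S, ∀ j ∈ (IP (S1 M N) (c1 z)).S,
      Nat.Coprime (Q.n i) ((IP (S1 M N) (c1 z)).n j) := cop hQ
  have hP1n : ∀ i ∈ P1.S, 1 ≤ P1.n i ∧ P1.n i ≤ H * N := by
    intro i hi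
    have hi' := Finset.mem_product.1 (show i ∈ Q.S ×ˢ S1 M N from hi)
    have a1 := hQ.pos _ hi'.1
    have a2 := hS1 _ hi'.2
    exact ⟨Nat.mul_pos a1 a2.1, Nat.mul_le_mul (hH _ hi'.1) a2.2⟩
  have hIPVa : (IP (S1 M N) (c1 z)).Va ≤ κ := by
    have a1 := IP_Va (A := S1 M N) (c := c1 z) (σ := σ1) (C := 1) zero_le_one (fun m hm => by
      rw [one_mul]; exact norm_c1 hz (hS1 m hm).1)
    have a2 := hκM (S1 M N) (fun m hm => S1_gt hm)
    linarith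
  have hP1V : P1.V.re ≤ v * κ := by
    rw [hP1, TP.V_mul _ _ hcop, hv, Complex.re_ofReal_mul]
    apply mul_le_mul_of_nonneg_left _ hv0.le
    exact (Complex.re_le_norm _).trans ((TP.norm_V_le _).trans hIPVa)
  have hP1Va : P1.Va ≤ VQ * κ := by
    rw [hP1, TP.Va_mul _ _ hcop]
    exact mul_le_mul_of_nonneg_left hIPVa hVQ0
  have hHN : ((H * N : ℕ) : ℝ) ≤ T ^ ((1 : ℝ) / 8) := by
    rw [← h8]
    push_cast
    exact mul_le_mul hTH hN16 (Nat.cast_nonneg _) (by positivity)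
  have hA1 := hT X hX1 hX2 P1 (H * N) Mn1 hMn10 hHN hP1n (fun n => by
    have := co_mul (fun i hi => ⟨hQ.pos i hi, hH i hi⟩) hQ.bd (A := S1 M N) (c := c1 z) (C := 1)
      zero_le_one (fun m hm => by
        have a1 := norm_c1 hz (hS1 m hm).1
        have a2 := pow_sqrt h1 (hS1 m hm).1
        exact (mul_le_mul_of_nonneg_right a1 (Real.sqrt_nonneg _)).trans a2) n
    rw [hMn1]
    linarith)
  have hlogHN : Real.log ((H * N : ℕ) : ℝ) ≤ Real.log H + e * Real.log T := by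
    rcases Nat.eq_zero_or_pos H with hH0 | hH0
    · rw [hH0]
      simp only [zero_mul, Nat.cast_zero, Real.log_zero]
      positivity
    · have a1 : (0 : ℝ) < H := by exact_mod_cast hH0
      have a2 : (0 : ℝ) < N := by exact_mod_cast hN1
      push_cast
      rw [Real.log_mul a1.ne' a2.ne', ← Real.log_rpow hT0]
      have := Real.log_le_log a2 hNT
      linarith
  have hlogH0 : 0 ≤ Real.log H := Real.log_natCast_nonneg H
  have hB1 : ∫ t in Set.Ioi (0 : ℝ), wz (kT T) X t * ‖P1.ev t‖ ^ 2 ≤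
      3 / 2 * (v * κ * Real.log T) := by
    have a1 := (abs_le.1 hA1).2
    have a2 : LL (kT T) X * P1.V.re ≤ (Real.log T + 2) * (v * κ) :=
      (mul_le_mul_of_nonneg_left hP1V hLL0).trans
        (mul_le_mul_of_nonneg_right hL2 hvκ.le)
    have a3 : 2 * Real.log ((H * N : ℕ) : ℝ) * P1.Va ≤
        2 * (Real.log H + e * Real.log T) * (VQ * κ) := by
      have b1 : 0 ≤ Real.log H + e * Real.log T := by positivity
      have b2 := P1.Va_nonneg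
      calc 2 * Real.log ((H * N : ℕ) : ℝ) * P1.Va ≤ 2 * (Real.log H + e * Real.log T) * P1.Va := by
            gcongr
        _ ≤ _ := by gcongr
    have a4 : 2 * (Real.log H + e * Real.log T) * (VQ * κ) ≤
        2 * Real.log H * VQ * κ + v / 8 * κ * Real.log T := by
      have b1 : e * VQ * (κ * Real.log T) ≤ v / 16 * (κ * Real.log T) :=
        mul_le_mul_of_nonneg_right he2 (by positivity)
      have b2 : 2 * (Real.log H + e * Real.log T) * (VQ * κ) =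
          2 * Real.log H * VQ * κ + 2 * (e * VQ * (κ * Real.log T)) := by ring
      have b3 : v / 8 * κ * Real.log T = 2 * (v / 16 * (κ * Real.log T)) := by ring
      rw [b2, b3]
      linarith
    have a5 : 2 * v * κ + 2 * Real.log H * VQ * κ + 1 ≤ |Cc| := le_abs_self Cc
    have a6 := abs_nonneg Cc
    have a7 : (Real.log T + 2) * (v * κ) = v * κ * Real.log T + 2 * v * κ := by ring
    have a8 : v / 8 * κ * Real.log T = 1 / 8 * (v * κ * Real.log T) := by ring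
    rw [a7] at a2
    rw [a8] at a4
    linarith
  -- the edge
  set P2 := IP (Finset.Icc (N + 1) (N * Pn)) (c2 M N z) with hP2
  have hP2n : ∀ m ∈ Finset.Icc (N + 1) (N * Pn), 1 ≤ m ∧ m ≤ N * Pn := by
    intro m hm
    have := Finset.mem_Icc.1 hm
    omega
  have hc2 : ∀ m ∈ Finset.Icc (N + 1) (N * Pn), ‖c2 M N z m‖ ≤ π2 * (m : ℝ) ^ (-σ1) := by
    intro m hm
    unfold c2
    rw [norm_mul]
    exact mul_le_mul (cf_norm M N m) (norm_c1 hz (hP2n m hm).1) (norm_nonneg _) hπ20.le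
  have hP2Va : P2.Va ≤ π2 ^ 2 * ε2 := by
    have a1 := IP_Va (A := Finset.Icc (N + 1) (N * Pn)) (c := c2 M N z) (σ := σ1) hπ20.le hc2
    refine a1.trans (mul_le_mul_of_nonneg_left (hN0 _ fun m hm => ?_) (by positivity))
    have := (Finset.mem_Icc.1 hm).1
    omega
  have hNPn : ((N * Pn : ℕ) : ℝ) ≤ T ^ ((1 : ℝ) / 8) := by
    rw [← h8]
    push_cast
    exact mul_le_mul hN16 hTP (Nat.cast_nonneg _) (by positivity)
  have hA2 := hT X hX1 hX2 P2 (N * Pn) π2 hπ20 hNPn hP2n (fun n => by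
    refine co_id hπ20.le (fun m hm => ?_) n
    have a1 := hc2 m hm
    have a2 := pow_sqrt h1 (hP2n m hm).1
    calc ‖c2 M N z m‖ * Real.sqrt m ≤ π2 * (m : ℝ) ^ (-σ1) * Real.sqrt m :=
          mul_le_mul_of_nonneg_right a1 (Real.sqrt_nonneg _)
      _ = π2 * ((m : ℝ) ^ (-σ1) * Real.sqrt m) := by ring
      _ ≤ π2 * 1 := mul_le_mul_of_nonneg_left a2 hπ20.le
      _ = π2 := mul_one _)
  have hB2 : cd ^ 2 * ∫ t in Set.Ioi (0 : ℝ), wz (kT T) X t * ‖P2.ev t‖ ^ 2 ≤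
      1 / 2 * (v * κ * Real.log T) := by
    have a1 := (abs_le.1 hA2).2
    have a0 := P2.Va_nonneg
    have a2 : LL (kT T) X * P2.V.re ≤ (Real.log T + 2) * P2.Va := by
      have b1 : P2.V.re ≤ P2.Va := (Complex.re_le_norm _).trans (TP.norm_V_le _)
      exact (mul_le_mul_of_nonneg_left b1 hLL0).trans (mul_le_mul_of_nonneg_right hL2 a0)
    have a3 : Real.log ((N * Pn : ℕ) : ℝ) ≤ Real.log T := by
      have b1 : 0 < ((N * Pn : ℕ) : ℝ) := by exact_mod_cast Nat.mul_pos hN1 hPn1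
      have b2 : ((N * Pn : ℕ) : ℝ) ≤ T := hNPn.trans (by
        calc T ^ ((1 : ℝ) / 8) ≤ T ^ (1 : ℝ) :=
              Real.rpow_le_rpow_of_exponent_le hT1 (by norm_num)
          _ = T := Real.rpow_one T)
      exact Real.log_le_log b1 b2
    have a4 : 2 * Real.log ((N * Pn : ℕ) : ℝ) * P2.Va ≤ 2 * Real.log T * P2.Va := by gcongr
    have a5 : ∫ t in Set.Ioi (0 : ℝ), wz (kT T) X t * ‖P2.ev t‖ ^ 2 ≤
        (3 * Real.log T + 2) * (π2 ^ 2 * ε2) + π2 ^ 2 * T ^ (-η) := by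
      have b1 : (3 * Real.log T + 2) * P2.Va ≤ (3 * Real.log T + 2) * (π2 ^ 2 * ε2) :=
        mul_le_mul_of_nonneg_left hP2Va (by linarith)
      have b2 : (3 * Real.log T + 2) * P2.Va =
        (Real.log T + 2) * P2.Va + 2 * Real.log T * P2.Va := by ring
      rw [b2] at b1
      linarith
    have a6 := mul_le_mul_of_nonneg_left a5 (sq_nonneg cd)
    have a7 : cd ^ 2 * ((3 * Real.log T + 2) * (π2 ^ 2 * ε2) + π2 ^ 2 * T ^ (-η)) =
        (3 * Real.log T + 2) * (cd ^ 2 * (π2 ^ 2 * ε2)) + cd ^ 2 * π2 ^ 2 * T ^ (-η) := by ring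
    rw [a7] at a6
    have a8 : (3 * Real.log T + 2) * (cd ^ 2 * (π2 ^ 2 * ε2)) ≤
        (3 * Real.log T + 2) * (v * κ / 16) := mul_le_mul_of_nonneg_left hε2' (by linarith)
    have a9 := abs_nonneg Cc
    have a10 : v * κ * 4 ≤ v * κ * Real.log T := mul_le_mul_of_nonneg_left hl4 hvκ.le
    have a11 : (3 * Real.log T + 2) * (v * κ / 16) =
      3 / 16 * (v * κ * Real.log T) + 1 / 8 * (v * κ) := by ring
    rw [a11] at a8
    linarith
  -- together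
  have hIPev1 : ∀ i ∈ (IP (S1 M N) (c1 z)).S, 1 ≤ (IP (S1 M N) (c1 z)).n i :=
    fun m hm => (hS1 m hm).1
  have hIPev2 : ∀ i ∈ P2.S, 1 ≤ P2.n i := fun m hm => (hP2n m hm).1
  have i1 := int_ev (P := P1) (fun i hi => (hP1n i hi).1) hk1 hX0
  have i2 := int_ev (P := P2) hIPev2 hk1 hX0
  have hpt : ∀ t : ℝ, ‖Q.ev t‖ ^ 2 *
      ‖DN N (z + t * I) * EM M (fun _ => 1) (z + t * I) - 1‖ ^ 2 ≤
      2 * ‖P1.ev t‖ ^ 2 + 2 * cd ^ 2 * ‖P2.ev t‖ ^ 2 := by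
    intro t
    rw [split_ev M N hN1 z t, hP1, TP.ev_mul, norm_mul, mul_pow]
    set a := (IP (S1 M N) (c1 z)).ev t with ha
    set b := P2.ev t with hb
    have b1 : ‖Q.ev t‖ ≤ cd := TP.ev_le hQ.pos hQ.bd t
    have b2 : ‖a + b‖ ^ 2 ≤ 2 * ‖a‖ ^ 2 + 2 * ‖b‖ ^ 2 := by
      have b3 := pow_le_pow_left₀ (norm_nonneg _) (norm_add_le a b) 2
      nlinarith [sq_nonneg (‖a‖ - ‖b‖)]
    have b4 : ‖Q.ev t‖ ^ 2 ≤ cd ^ 2 := pow_le_pow_left₀ (norm_nonneg _) b1 2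
    have b5 : ‖Q.ev t‖ ^ 2 * ‖b‖ ^ 2 ≤ cd ^ 2 * ‖b‖ ^ 2 :=
      mul_le_mul_of_nonneg_right b4 (by positivity)
    calc ‖Q.ev t‖ ^ 2 * ‖a + b‖ ^ 2 ≤ ‖Q.ev t‖ ^ 2 * (2 * ‖a‖ ^ 2 + 2 * ‖b‖ ^ 2) :=
          mul_le_mul_of_nonneg_left b2 (by positivity)
      _ ≤ _ := by linarith
  have i3 : IntegrableOn (fun t : ℝ => wz (kT T) X t * (2 * ‖P1.ev t‖ ^ 2 +
      2 * cd ^ 2 * ‖P2.ev t‖ ^ 2)) (Set.Ioi 0) := by
    have e1 : (fun t : ℝ => wz (kT T) X t * (2 * ‖P1.ev t‖ ^ 2 +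
      2 * cd ^ 2 * ‖P2.ev t‖ ^ 2)) = fun t : ℝ => 2 * (wz (kT T) X t * ‖P1.ev t‖ ^ 2) +
      2 * cd ^ 2 * (wz (kT T) X t * ‖P2.ev t‖ ^ 2) := by
      funext t; ring
    rw [e1]
    exact (i1.const_mul 2).add (i2.const_mul (2 * cd ^ 2))
  have hcontG : Continuous fun t : ℝ => ‖Q.ev t‖ ^ 2 *
      ‖DN N (z + t * I) * EM M (fun _ => 1) (z + t * I) - 1‖ ^ 2 := by
    have e1 : (fun t : ℝ => ‖Q.ev t‖ ^ 2 *
      ‖DN N (z + t * I) * EM M (fun _ => 1) (z + t * I) - 1‖ ^ 2) = fun t : ℝ => ‖Q.ev t‖ ^ 2 *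
        ‖(IP (S1 M N) (c1 z)).ev t + P2.ev t‖ ^ 2 := by
      funext t
      rw [split_ev M N hN1 z t]
    rw [e1]
    exact ((TP.ev_cont hQ.pos).norm.pow 2).mul
      (((TP.ev_cont hIPev1).add (TP.ev_cont hIPev2)).norm.pow 2)
  have i4 : IntegrableOn (fun t : ℝ => wz (kT T) X t * (‖Q.ev t‖ ^ 2 *
        ‖DN N (z + t * I) * EM M (fun _ => 1) (z + t * I) - 1‖ ^ 2)) (Set.Ioi 0) := by
    refine Integrable.mono' i3 ((wz_cont _ _).mul hcontG).aestronglyMeasurable ?_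
    refine (ae_restrict_iff' measurableSet_Ioi).mpr (Eventually.of_forall fun t ht => ?_)
    have a1 := wz_nonneg (kT T) hX0 (le_of_lt ht)
    rw [Real.norm_of_nonneg (mul_nonneg a1 (by positivity))]
    exact mul_le_mul_of_nonneg_left (hpt t) a1
  refine ⟨i4, ?_⟩
  have hfin : ∫ t in Set.Ioi (0 : ℝ), wz (kT T) X t * (‖Q.ev t‖ ^ 2 *
        ‖DN N (z + t * I) * EM M (fun _ => 1) (z + t * I) - 1‖ ^ 2) ≤
      ∫ t in Set.Ioi (0 : ℝ), wz (kT T) X t * (2 * ‖P1.ev t‖ ^ 2 +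
        2 * cd ^ 2 * ‖P2.ev t‖ ^ 2) := by
    refine setIntegral_mono_on i4 i3 measurableSet_Ioi fun t ht => ?_
    exact mul_le_mul_of_nonneg_left (hpt t) (wz_nonneg (kT T) hX0 (le_of_lt ht))
  have e2 : ∫ t in Set.Ioi (0 : ℝ), wz (kT T) X t * (2 * ‖P1.ev t‖ ^ 2 +
        2 * cd ^ 2 * ‖P2.ev t‖ ^ 2) = 2 * (∫ t in Set.Ioi (0 : ℝ), wz (kT T) X t * ‖P1.ev t‖ ^ 2) +
        2 * (cd ^ 2 * ∫ t in Set.Ioi (0 : ℝ), wz (kT T) X t * ‖P2.ev t‖ ^ 2) := by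
    have e1 : ∀ t : ℝ, wz (kT T) X t * (2 * ‖P1.ev t‖ ^ 2 +
      2 * cd ^ 2 * ‖P2.ev t‖ ^ 2) = 2 * (wz (kT T) X t * ‖P1.ev t‖ ^ 2) +
      2 * cd ^ 2 * (wz (kT T) X t * ‖P2.ev t‖ ^ 2) := by
      intro t; ring
    simp_rw [e1]
    rw [integral_add (i1.const_mul 2) (i2.const_mul (2 * cd ^ 2)), integral_const_mul,
      integral_const_mul]
    ring
  rw [e2] at hfin
  linarith

/-- small sets carry little of the second moment -/
theorem holder {δ : ℝ} (hδ : 0 < δ) (C : ℝ) {ε : ℝ} (hε : 0 < ε) :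
    ∀ᶠ T : ℝ in atTop, ∀ X : ℝ, T / 4 ≤ X → X ≤ T → ∀ E : Set ℝ, MeasurableSet E →
      E ⊆ Set.Ioc 0 T → volume E ≤ ENNReal.ofReal (C * T ^ (1 - δ)) →
      ∫ t in E, wz (kT T) X t ≤ ε := by
  have hdec : ∀ᶠ T : ℝ in atTop, (6 * (|C| + 1)) * (Real.log T ^ 6 * T ^ (-(δ / 2))) ≤ ε := by
    have h1 : Tendsto (fun T : ℝ => Real.log T ^ 6 / T ^ (δ / 2)) atTop (𝓝 0) := by
      have h2 := isLittleO_log_rpow_rpow_atTop (s := δ / 2) 6 (by positivity)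
      have h3 := h2.tendsto_div_nhds_zero
      refine h3.congr' ?_
      filter_upwards with T
      norm_cast
    have h4 := h1.const_mul (6 * (|C| + 1))
    rw [mul_zero] at h4
    filter_upwards [h4.eventually (gt_mem_nhds hε), eventually_gt_atTop 0] with T hT hT0
    rw [Real.rpow_neg hT0.le]
    exact hT.le
  filter_upwards [hdec, kT_facts, eventually_ge_atTop (1000 : ℝ),
    Real.tendsto_log_atTop.eventually_ge_atTop 1]
    with T hd hk hT1000 hl X hX1 hX2 E hE hET hvol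
  obtain ⟨hk1, hk2, hk3⟩ := hk
  obtain ⟨-, hX7⟩ := hk3 X hX1 hX2
  have hX0 : 0 < X := by linarith
  have hT0 : 0 < T := by linarith
  set lam : ℝ := T ^ (δ / 2) with hlam
  have hlam0 : 0 < lam := by positivity
  have hzc := zeta_cont
  have i4 : IntegrableOn (fun t => ‖riemannZeta (cl t)‖ ^ 4) (Set.Ioc 0 T) :=
    ((hzc.norm.pow 4).integrableOn_Icc (a := 0) (b := T)).mono_set Set.Ioc_subset_Icc_self
  have ic : IntegrableOn (fun _ : ℝ => lam) E := by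
    refine integrableOn_const ?_
    exact ne_top_of_le_ne_top ENNReal.ofReal_ne_top hvol
  have hvr : (volume E).toReal ≤ |C| * T ^ (1 - δ) := by
    refine (ENNReal.toReal_mono ENNReal.ofReal_ne_top hvol).trans ?_
    rw [ENNReal.toReal_ofReal']
    refine max_le ?_ (by positivity)
    exact mul_le_mul_of_nonneg_right (le_abs_self C) (by positivity)
  have h4th : ∫ t in Set.Ioc 0 T, ‖riemannZeta (cl t)‖ ^ 4 ≤ T * Real.log T ^ 4 := by
    have h1 := Pool.Agent.TH158.FM.fourth_all T hT1000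
    rw [intervalIntegral.integral_of_le hT0.le] at h1
    have e1 : ∀ t : ℝ, riemannZeta (Pool.Agent.TH158.FM.pt (1 / 2) t) = riemannZeta (cl t) := by
      intro t
      congr 1
      unfold Pool.Agent.TH158.FM.pt cl
      push_cast
      ring
    simp_rw [e1] at h1
    have h2 : 0 ≤ T * Real.log T ^ 4 := by positivity
    linarith
  have hpt : ∀ t ∈ E, wz (kT T) X t ≤ (kT T : ℝ) / X * (1 / 2 * (lam +
      lam⁻¹ * ‖riemannZeta (cl t)‖ ^ 4)) := by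
    intro t ht
    have ht0 : 0 ≤ t := (hET ht).1.le
    unfold wz
    refine mul_le_mul (om_sup hX0 ht0) ?_ (by positivity) (by positivity)
    set y := ‖riemannZeta (cl t)‖ ^ 2 with hy
    have e2 : ‖riemannZeta (cl t)‖ ^ 4 = y ^ 2 := by rw [hy]; ring
    rw [e2]
    have h3 : 0 ≤ lam⁻¹ * (y - lam) ^ 2 := by positivity
    have h4 : lam⁻¹ * (y - lam) ^ 2 = lam⁻¹ * y ^ 2 - 2 * y + lam := by
      field_simp
      ring
    linarith
  have iE4 : IntegrableOn (fun t => ‖riemannZeta (cl t)‖ ^ 4) E := i4.mono_set hET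
  have ir : IntegrableOn (fun t => (kT T : ℝ) / X * (1 / 2 * (lam +
      lam⁻¹ * ‖riemannZeta (cl t)‖ ^ 4))) E :=
    ((ic.add (iE4.const_mul lam⁻¹)).const_mul (1 / 2)).const_mul _
  have hmain : ∫ t in E, wz (kT T) X t ≤ ∫ t in E, (kT T : ℝ) / X * (1 / 2 * (lam +
      lam⁻¹ * ‖riemannZeta (cl t)‖ ^ 4)) := by
    refine setIntegral_mono_on ?_ ir hE hpt
    exact (wz_int1 hk1 hX0).mono_set (hET.trans Set.Ioc_subset_Ioi_self)
  have e3 : ∫ t in E, (kT T : ℝ) / X * (1 / 2 * (lam + lam⁻¹ * ‖riemannZeta (cl t)‖ ^ 4)) =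
      (kT T : ℝ) / X * (1 / 2 * (lam * (volume E).toReal +
        lam⁻¹ * ∫ t in E, ‖riemannZeta (cl t)‖ ^ 4)) := by
    rw [integral_const_mul, integral_const_mul, integral_add ic (iE4.const_mul lam⁻¹),
      integral_const_mul, setIntegral_const, smul_eq_mul]
    congr 3
    rw [mul_comm]
    rfl
  have hE4 : ∫ t in E, ‖riemannZeta (cl t)‖ ^ 4 ≤ T * Real.log T ^ 4 := by
    refine le_trans ?_ h4th
    exact setIntegral_mono_set i4 (ae_of_all _ fun t => by positivity) hET.eventuallyLE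
  have hkX : (kT T : ℝ) / X ≤ 12 * Real.log T ^ 2 / T := by
    rw [div_le_div_iff₀ hX0 hT0]
    have : (kT T : ℝ) * T ≤ (3 * Real.log T ^ 2) * (4 * X) :=
      mul_le_mul hk2 (by linarith) hT0.le (by positivity)
    linarith
  have hlt : lam * (|C| * T ^ (1 - δ)) = |C| * (T * T ^ (-(δ / 2))) := by
    have : T ^ (δ / 2) * T ^ (1 - δ) = T * T ^ (-(δ / 2)) := by
      nth_rewrite 3 [← Real.rpow_one T]
      rw [← Real.rpow_add hT0, ← Real.rpow_add hT0]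
      congr 1
      ring
    rw [hlam, ← this]
    ring
  have hli : lam⁻¹ = T ^ (-(δ / 2)) := by rw [hlam, Real.rpow_neg hT0.le]
  have hsum : 1 / 2 * (lam * (volume E).toReal + lam⁻¹ * ∫ t in E, ‖riemannZeta (cl t)‖ ^ 4) ≤
      1 / 2 * ((|C| + 1) * (T * T ^ (-(δ / 2)) * Real.log T ^ 4)) := by
    have a1 : lam * (volume E).toReal ≤ |C| * (T * T ^ (-(δ / 2))) := by
      rw [← hlt]
      exact mul_le_mul_of_nonneg_left hvr hlam0.le
    have a2 : lam⁻¹ * ∫ t in E, ‖riemannZeta (cl t)‖ ^ 4 ≤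
        T ^ (-(δ / 2)) * (T * Real.log T ^ 4) := by
      rw [hli]
      exact mul_le_mul_of_nonneg_left hE4 (by positivity)
    have a3 : (1 : ℝ) ≤ Real.log T ^ 4 := one_le_pow₀ hl
    have a4 : 0 ≤ |C| * (T * T ^ (-(δ / 2))) := by positivity
    nlinarith
  rw [e3] at hmain
  refine hmain.trans (le_trans ?_ hd)
  calc (kT T : ℝ) / X * (1 / 2 * (lam * (volume E).toReal +
        lam⁻¹ * ∫ t in E, ‖riemannZeta (cl t)‖ ^ 4)) ≤
      (12 * Real.log T ^ 2 / T) * (1 / 2 * ((|C| + 1) * (T * T ^ (-(δ / 2)) * Real.log T ^ 4))) := by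
        refine mul_le_mul hkX hsum ?_ (by positivity)
        have : 0 ≤ ∫ t in E, ‖riemannZeta (cl t)‖ ^ 4 := integral_nonneg fun t => by positivity
        positivity
    _ = (6 * (|C| + 1)) * (Real.log T ^ 6 * T ^ (-(δ / 2))) := by
        field_simp
        ring

end

end Pool.Agent.R304.TL
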