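import Pool.Agent.R304.TL.Rgh
import Pool.Agent.TH158.FM.Main
import Pool.Agent.Y22.OM1

/-! The windows. -/

open Complex Finset Filter Topology MeasureTheory

namespace Pool.Agent.R304.TL

open Pool.Agent.H306R2.SM (om cl Yf)
open Pool.Agent.H262R4.TM (Rng Ck)
open Pool.Agent.H262R4.TM.TTW (om_nonneg om_cont cl_cont zeta_cont int2)

noncomputable section

lemma wz_cont (k : ℕ) (X : ℝ) : Continuous (wz k X) := (om_cont k _).mul (zeta_cont.norm.pow 2)

lemma wz_nonneg (k : ℕ) {X t : ℝ} (hX : 0 < X) (ht : 0 ≤ t) : 0 ≤ wz k X t := by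
  unfold wz om
  positivity

lemma wz_int {k : ℕ} (hk : 1 ≤ k) {X : ℝ} (hX : 0 < X) {f : ℝ → ℝ} {C : ℝ} (hf : Continuous f)
    (hC : ∀ t, |f t| ≤ C) : IntegrableOn (fun t => wz k X t * f t) (Set.Ioi 0) := by
  have hk0 : (0 : ℝ) < k := by exact_mod_cast hk
  have h1 := int2 k (show 0 < (k:ℝ) / X by positivity)
  refine Integrable.mul_bdd (c := C) h1 hf.aestronglyMeasurable ?_
  exact Eventually.of_forall fun t => by rw [Real.norm_eq_abs]; exact hC t

lemma wz_int1 {k : ℕ} (hk : 1 ≤ k) {X : ℝ} (hX : 0 < X) : IntegrableOn (wz k X) (Set.Ioi 0) := by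
  have h := wz_int hk hX (f := fun _ => 1) (C := 1) continuous_const (fun _ => by simp)
  simpa using h

lemma om_tail {k : ℕ} {X t : ℝ} (hX : 0 < X) (ht : 2 * X ≤ t) :
    om k (k / X) t ≤ 2 * (2 / Real.exp 1) ^ k * om k (k / (2 * X)) t := by
  have ht0 : 0 < t := by linarith
  unfold om
  have e1 : ((k : ℝ) / X) ^ (k + 1) = 2 ^ (k + 1) * ((k : ℝ) / (2 * X)) ^ (k + 1) := by
    rw [← mul_pow]
    congr 1
    field_simp
  have e2 : Real.exp (-((k : ℝ) / X * t)) ≤ (1 / Real.exp 1) ^ k *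
      Real.exp (-((k : ℝ) / (2 * X) * t)) := by
    have e3 : (1 / Real.exp 1) ^ k = Real.exp (-(k : ℝ)) := by
      rw [one_div, ← Real.exp_neg, ← Real.exp_nat_mul]
      congr 1
      ring
    rw [e3, ← Real.exp_add]
    apply Real.exp_le_exp.2
    have e4 : (k : ℝ) / X * t = (k : ℝ) / (2 * X) * t + (k : ℝ) / (2 * X) * t := by
      field_simp; ring
    have e5 : (k : ℝ) ≤ (k : ℝ) / (2 * X) * t := by
      rw [div_mul_eq_mul_div, le_div_iff₀ (by positivity)]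
      exact mul_le_mul_of_nonneg_left ht (Nat.cast_nonneg k)
    rw [e4]
    linarith
  rw [e1]
  have e6 : 2 * (2 / Real.exp 1) ^ k * (((k : ℝ) / (2 * X)) ^ (k + 1) * t ^ k *
      Real.exp (-((k : ℝ) / (2 * X) * t)) / (k.factorial : ℝ)) =
      2 ^ (k + 1) * ((k : ℝ) / (2 * X)) ^ (k + 1) * t ^ k * ((1 / Real.exp 1) ^ k *
      Real.exp (-((k : ℝ) / (2 * X) * t))) / (k.factorial : ℝ) := by
    rw [div_pow 2 (Real.exp 1), div_pow 1 (Real.exp 1), one_pow, pow_succ (2 : ℝ) k]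
    ring
  rw [e6]
  gcongr

lemma om_sup {k : ℕ} {X t : ℝ} (hX : 0 < X) (ht : 0 ≤ t) : om k (k / X) t ≤ k / X := by
  unfold om
  set u := t / X with hu
  have hu0 : 0 ≤ u := by positivity
  have h1 : u * Real.exp (-u) ≤ Real.exp (-1) := by
    have h2 := Real.add_one_le_exp (u - 1)
    have h3 : u ≤ Real.exp (u - 1) := by linarith
    calc u * Real.exp (-u) ≤ Real.exp (u - 1) * Real.exp (-u) := by gcongr
      _ = Real.exp (-1) := by rw [← Real.exp_add]; congr 1; ring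
  have h4 : (u * Real.exp (-u)) ^ k ≤ Real.exp (-(k : ℝ)) := by
    have h5 := pow_le_pow_left₀ (by positivity) h1 k
    rw [← Real.exp_nat_mul] at h5
    refine h5.trans (le_of_eq ?_)
    congr 1; ring
  have h6 := Real.pow_div_factorial_le_exp (k : ℝ) (Nat.cast_nonneg k) k
  have e : ((k : ℝ) / X) ^ (k + 1) * t ^ k * Real.exp (-((k : ℝ) / X * t)) / (k.factorial : ℝ) =
      (k : ℝ) / X * (((k : ℝ) ^ k / (k.factorial : ℝ)) * (u * Real.exp (-u)) ^ k) := by
    have e1 : Real.exp (-((k : ℝ) / X * t)) = Real.exp (-u) ^ k := by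
      rw [← Real.exp_nat_mul]
      congr 1
      rw [hu]; ring
    rw [e1, hu, pow_succ, div_pow, mul_pow, div_pow]
    ring
  rw [e]
  have h7 : ((k : ℝ) ^ k / (k.factorial : ℝ)) * (u * Real.exp (-u)) ^ k ≤
      Real.exp k * Real.exp (-(k : ℝ)) := by gcongr
  rw [← Real.exp_add, add_neg_cancel, Real.exp_zero] at h7
  calc (k : ℝ) / X * (((k : ℝ) ^ k / (k.factorial : ℝ)) * (u * Real.exp (-u)) ^ k) ≤
        (k : ℝ) / X * 1 := by gcongr
    _ = _ := mul_one _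

/-- the parameter -/
def kT (T : ℝ) : ℕ := ⌈2 * Real.log T ^ 2⌉₊

lemma kT_facts : ∀ᶠ T : ℝ in atTop, 1 ≤ kT T ∧ ((kT T : ℕ) : ℝ) ≤ 3 * Real.log T ^ 2 ∧
    ∀ X : ℝ, T / 4 ≤ X → X ≤ T → Rng X (kT T) ∧ 7 ≤ X := by
  filter_upwards [Real.tendsto_log_atTop.eventually_ge_atTop 14, eventually_ge_atTop (28 : ℝ)]
    with T hl hT
  have hk1 : 2 * Real.log T ^ 2 ≤ kT T := Nat.le_ceil _
  have hk2 : ((kT T : ℕ) : ℝ) ≤ 2 * Real.log T ^ 2 + 1 :=
    (Nat.ceil_lt_add_one (by positivity)).le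
  refine ⟨?_, by nlinarith, fun X hX1 hX2 => ⟨⟨?_, ?_⟩, by linarith⟩⟩
  · have : (1 : ℝ) ≤ kT T := by nlinarith
    exact_mod_cast this
  · have h1 : Real.log X ≤ Real.log T := Real.log_le_log (by linarith) hX2
    have h2 : 0 ≤ Real.log X := Real.log_nonneg (by linarith)
    nlinarith
  · have h1 : Real.log (T / 4) ≤ Real.log X := Real.log_le_log (by linarith) hX1
    rw [Real.log_div (by linarith) (by norm_num)] at h1
    have h2 : Real.log 4 ≤ 1.4 := by
      rw [show (4 : ℝ) = 2 ^ 2 by norm_num, Real.log_pow]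
      have := Real.log_two_lt_d9
      push_cast
      linarith
    have h3 : 9 / 10 * Real.log T ≤ Real.log X := by linarith
    nlinarith

/-- the main coefficient -/
def LL (k : ℕ) (X : ℝ) : ℝ := Real.log (Yf k X) + Ck k

lemma LL_bound {k : ℕ} (hk : 1 ≤ k) {T X : ℝ} (hX7 : 7 ≤ X) (h1 : T / 4 ≤ X) (h2 : X ≤ T) :
    Real.log T - 4 ≤ LL k X ∧ LL k X ≤ Real.log T + 2 := by
  have c1 : Real.log k ≤ Ck k ∧ Ck k ≤ 2 + Real.log k := by
    unfold Ck
    have h1 := harmonic_le_one_add_log k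
    have h2 := log_add_one_le_harmonic k
    have h3 : Real.eulerMascheroniConstant < 2 / 3 := Real.eulerMascheroniConstant_lt_two_thirds
    have h4 : 1 / 2 < Real.eulerMascheroniConstant := Real.one_half_lt_eulerMascheroniConstant
    have hk0 : (0 : ℝ) < k := by exact_mod_cast hk
    have h5 : Real.log k ≤ Real.log ((k : ℝ) + 1) := Real.log_le_log hk0 (by linarith)
    push_cast at h2
    constructor <;> linarith
  have hk0 : (0 : ℝ) < k := by exact_mod_cast hk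
  have hpi := Real.pi_pos
  have hX0 : 0 < X := by linarith
  have hT0 : 0 < T := by linarith
  have h3 : Real.log (Yf k X) = Real.log X - Real.log (2 * Real.pi) - Real.log k := by
    unfold Yf
    rw [Real.log_div (by linarith) (by positivity), Real.log_mul (by positivity) hk0.ne']
    ring
  have h4 : Real.log (2 * Real.pi) ≤ 2.1 := by
    have h5 : Real.log (2 * Real.pi) ≤ Real.log 8 :=
      Real.log_le_log (by positivity) (by have := Real.pi_lt_four; linarith)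
    rw [show (8 : ℝ) = 2 ^ 3 by norm_num, Real.log_pow] at h5
    have := Real.log_two_lt_d9
    push_cast at h5
    linarith
  have h5 : 0 ≤ Real.log (2 * Real.pi) := Real.log_nonneg (by linarith [Real.pi_gt_three])
  have h6 : Real.log X ≤ Real.log T := Real.log_le_log hX0 h2
  have h7 : Real.log (T / 4) ≤ Real.log X := Real.log_le_log (by linarith) h1
  rw [Real.log_div hT0.ne' (by norm_num)] at h7
  have h8 : Real.log 4 ≤ 1.4 := by
    rw [show (4 : ℝ) = 2 ^ 2 by norm_num, Real.log_pow]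
    have := Real.log_two_lt_d9
    push_cast
    linarith
  unfold LL
  rw [h3]
  constructor <;> linarith [c1.1, c1.2]

/-- the asymptotic formula on the window -/
theorem asyT : ∃ η : ℝ, 0 < η ∧ ∀ᶠ T : ℝ in atTop, ∀ X : ℝ, T / 4 ≤ X → X ≤ T →
    ∀ (P : TP) (H : ℕ) (Mn : ℝ), 0 < Mn → (H : ℝ) ≤ T ^ ((1 : ℝ) / 8) →
    (∀ i ∈ P.S, 1 ≤ P.n i ∧ P.n i ≤ H) → (∀ n, ‖co P n‖ * Real.sqrt n ≤ Mn) →
    |(∫ t in Set.Ioi (0 : ℝ), wz (kT T) X t * ‖P.ev t‖ ^ 2) - LL (kT T) X * P.V.re| ≤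
      2 * Real.log H * P.Va + Mn ^ 2 * T ^ (-η) := by
  obtain ⟨η, hη, h⟩ := asy
  obtain ⟨X0, hX0⟩ := h.exists_forall_of_atTop
  refine ⟨η / 2, by positivity, ?_⟩
  have h1 : ∀ᶠ T : ℝ in atTop, T ^ ((1 : ℝ) / 8) ≤ (T / 4) ^ ((1 : ℝ) / 4) := by
    have e1 : Tendsto (fun T : ℝ => T ^ ((1 : ℝ) / 8)) atTop atTop :=
      tendsto_rpow_atTop (by norm_num)
    filter_upwards [e1.eventually_ge_atTop (4 ^ ((1 : ℝ) / 4)), eventually_gt_atTop 0] with T hT hT0
    rw [Real.div_rpow hT0.le (by norm_num), le_div_iff₀ (by positivity)]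
    have e2 : T ^ ((1 : ℝ) / 4) = T ^ ((1 : ℝ) / 8) * T ^ ((1 : ℝ) / 8) := by
      rw [← Real.rpow_add hT0]; norm_num
    rw [e2]
    exact mul_le_mul_of_nonneg_left hT (by positivity)
  have h2 : ∀ᶠ T : ℝ in atTop, (T / 4) ^ (-η) ≤ T ^ (-(η / 2)) := by
    have e1 : Tendsto (fun T : ℝ => T ^ (η / 2)) atTop atTop :=
      tendsto_rpow_atTop (by positivity)
    filter_upwards [e1.eventually_ge_atTop (4 ^ η), eventually_gt_atTop 0] with T hT hT0
    have e2 : (T / 4) ^ (-η) = T ^ (-η) * 4 ^ η := by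
      rw [Real.div_rpow hT0.le (by norm_num), Real.rpow_neg (by norm_num : (0:ℝ) ≤ 4),
        div_inv_eq_mul]
    rw [e2]
    calc T ^ (-η) * 4 ^ η ≤ T ^ (-η) * T ^ (η / 2) :=
          mul_le_mul_of_nonneg_left hT (by positivity)
      _ = _ := by rw [← Real.rpow_add hT0]; congr 1; ring
  filter_upwards [kT_facts, h1, h2, eventually_ge_atTop (4 * X0), eventually_gt_atTop 0]
    with T hk h1 h2 hTX hT0 X hXa hXb P H Mn hMn hH hP hco
  obtain ⟨hk1, -, hk3⟩ := hk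
  obtain ⟨hr, hX7⟩ := hk3 X hXa hXb
  have hq : (T / 4) ^ ((1 : ℝ) / 4) ≤ X ^ ((1 : ℝ) / 4) :=
    Real.rpow_le_rpow (by positivity) hXa (by norm_num)
  have h3 := hX0 X (by linarith) (kT T) hr P H Mn hMn (hH.trans (h1.trans hq)) hP hco
  refine h3.trans ?_
  have h4 : X ^ (-η) ≤ (T / 4) ^ (-η) :=
    Real.rpow_le_rpow_of_nonpos (by positivity) hXa (by linarith)
  have h5 : Mn ^ 2 * X ^ (-η) ≤ Mn ^ 2 * T ^ (-(η / 2)) :=
    mul_le_mul_of_nonneg_left (h4.trans h2) (by positivity)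
  linarith

lemma ev_rpow_neg {η : ℝ} (hη : 0 < η) (C : ℝ) {ε : ℝ} (hε : 0 < ε) :
    ∀ᶠ T : ℝ in atTop, C * T ^ (-η) ≤ ε := by
  have h1 : Tendsto (fun T : ℝ => C * T ^ (-η)) atTop (𝓝 (C * 0)) :=
    (tendsto_rpow_neg_atTop hη).const_mul C
  rw [mul_zero] at h1
  filter_upwards [h1.eventually (gt_mem_nhds hε)] with T hT using hT.le

/-- a fixed polynomial -/
theorem fixed {P : TP} {H : ℕ} (hP : ∀ i ∈ P.S, 1 ≤ P.n i ∧ P.n i ≤ H)
    (hw : ∀ i ∈ P.S, ‖P.w i‖ ≤ 1) {v : ℝ} (hv : P.V = (v : ℂ)) {ε : ℝ} (hε : 0 < ε) :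
    ∀ᶠ T : ℝ in atTop, ∀ X : ℝ, T / 4 ≤ X → X ≤ T →
      |(∫ t in Set.Ioi (0 : ℝ), wz (kT T) X t * ‖P.ev t‖ ^ 2) - v * Real.log T| ≤
        ε * Real.log T := by
  obtain ⟨η, hη, h⟩ := asyT
  set Mn : ℝ := P.S.card * Real.sqrt H + 1 with hMn
  have hMn0 : 0 < Mn := by positivity
  have hpw : Tendsto (fun T : ℝ => T ^ ((1 : ℝ) / 8)) atTop atTop :=
    tendsto_rpow_atTop (by norm_num)
  filter_upwards [h, kT_facts, hpw.eventually_ge_atTop (H : ℝ), ev_rpow_neg hη (Mn ^ 2) one_pos,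
    Real.tendsto_log_atTop.eventually_ge_atTop ((4 * |v| + 2 * Real.log H * P.Va + 1) / ε)]
    with T hT hk hH hM hl X hX1 hX2
  obtain ⟨hk1, -, hk3⟩ := hk
  obtain ⟨-, hX7⟩ := hk3 X hX1 hX2
  have h1 := hT X hX1 hX2 P H Mn hMn0 hH hP (fun n => (co_le hP hw n).trans (by rw [hMn]; linarith))
  obtain ⟨hL1, hL2⟩ := LL_bound hk1 hX7 hX1 hX2
  rw [hv, Complex.ofReal_re] at h1
  have h2 : |LL (kT T) X * v - v * Real.log T| ≤ 4 * |v| := by
    rw [show LL (kT T) X * v - v * Real.log T = (LL (kT T) X - Real.log T) * v by ring, abs_mul]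
    apply mul_le_mul_of_nonneg_right _ (abs_nonneg v)
    rw [abs_le]; constructor <;> linarith
  rw [div_le_iff₀ hε] at hl
  have h3 := abs_sub_abs_le_abs_sub
    ((∫ t in Set.Ioi (0 : ℝ), wz (kT T) X t * ‖P.ev t‖ ^ 2) - v * Real.log T) 0
  have h4 : |(∫ t in Set.Ioi (0 : ℝ), wz (kT T) X t * ‖P.ev t‖ ^ 2) - v * Real.log T| ≤
      |(∫ t in Set.Ioi (0 : ℝ), wz (kT T) X t * ‖P.ev t‖ ^ 2) - LL (kT T) X * v| +
        |LL (kT T) X * v - v * Real.log T| := by
    have := abs_add_le ((∫ t in Set.Ioi (0 : ℝ), wz (kT T) X t * ‖P.ev t‖ ^ 2) - LL (kT T) X * v)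
      (LL (kT T) X * v - v * Real.log T)
    rw [sub_add_sub_cancel] at this
    exact this
  linarith

/-- the total mass -/
theorem mass : ∀ᶠ T : ℝ in atTop, ∀ X : ℝ, T / 4 ≤ X → X ≤ T →
    ∫ t in Set.Ioi (0 : ℝ), wz (kT T) X t ≤ 2 * Real.log T := by
  have h := fixed (P := ⟨Unit, Finset.univ, fun _ => 1, fun _ => 1⟩) (H := 1)
    (fun i _ => ⟨le_rfl, le_rfl⟩) (fun i _ => by simp) (v := 1) (by
      unfold TP.V psi; simp) (ε := 1) one_pos
  filter_upwards [h] with T hT X h1 h2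
  have h3 := (abs_le.1 (hT X h1 h2)).2
  have e : ∀ t : ℝ, wz (kT T) X t * ‖(⟨Unit, Finset.univ, fun _ => 1, fun _ => 1⟩ : TP).ev t‖ ^ 2 =
      wz (kT T) X t := by
    intro t
    unfold TP.ev
    simp
  simp_rw [e] at h3
  linarith

/-- the far part of the window is negligible -/
theorem far {ε : ℝ} (hε : 0 < ε) : ∀ᶠ T : ℝ in atTop, ∀ X : ℝ, T / 4 ≤ X → X ≤ T / 2 →
    ∫ t in Set.Ioi T, wz (kT T) X t ≤ ε := by
  have hr : (2 : ℝ) / Real.exp 1 < 1 := by
    rw [div_lt_one (Real.exp_pos _)]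
    have := Real.exp_one_gt_d9
    linarith
  have hr0 : (0 : ℝ) ≤ 2 / Real.exp 1 := by positivity
  have h1 := tendsto_self_mul_const_pow_of_lt_one hr0 hr
  have hkt : Tendsto (fun T : ℝ => kT T) atTop atTop := by
    refine tendsto_nat_ceil_atTop.comp ?_
    exact ((tendsto_pow_atTop two_ne_zero).comp Real.tendsto_log_atTop).const_mul_atTop two_pos
  have h2 := h1.comp hkt
  filter_upwards [mass, kT_facts, h2.eventually (gt_mem_nhds (show (0 : ℝ) < ε / 4 by positivity)),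
    Real.tendsto_log_atTop.eventually_ge_atTop 1]
    with T hm hk hd hl X hX1 hX2
  obtain ⟨hk1, -, hk3⟩ := hk
  have hT0 : 0 < T := by
    by_contra hneg
    push Not at hneg
    have hlog := hk3 T (by linarith)
    rcases lt_or_eq_of_le hneg with h | h
    · linarith [(hk3 (T / 2) (by linarith) (by linarith)).2]
    · rw [h, Real.log_zero] at hl
      linarith
  have hX0 : 0 < X := by linarith
  have hkl : Real.log T ≤ kT T := by
    have : 2 * Real.log T ^ 2 ≤ kT T := Nat.le_ceil _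
    nlinarith
  have h3 := hm (2 * X) (by linarith) (by linarith)
  simp only [Function.comp] at hd
  have h4 : ∫ t in Set.Ioi T, wz (kT T) X t ≤
      ∫ t in Set.Ioi T, 2 * (2 / Real.exp 1) ^ (kT T) * wz (kT T) (2 * X) t := by
    refine setIntegral_mono_on ?_ ?_ measurableSet_Ioi ?_
    · exact (wz_int1 hk1 hX0).mono_set (Set.Ioi_subset_Ioi hT0.le)
    · exact ((wz_int1 hk1 (by positivity : 0 < 2 * X)).mono_set
        (Set.Ioi_subset_Ioi hT0.le)).const_mul _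
    · intro t ht
      have ht' : T < t := ht
      unfold wz
      rw [← mul_assoc]
      exact mul_le_mul_of_nonneg_right (om_tail hX0 (by linarith)) (by positivity)
  rw [integral_const_mul] at h4
  have h5 : ∫ t in Set.Ioi T, wz (kT T) (2 * X) t ≤ ∫ t in Set.Ioi (0 : ℝ), wz (kT T) (2 * X) t := by
    refine setIntegral_mono_set (wz_int1 hk1 (by positivity)) ?_
      (Set.Ioi_subset_Ioi hT0.le).eventuallyLE
    refine (ae_restrict_iff' measurableSet_Ioi).mpr (Eventually.of_forall fun t ht => ?_)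
    exact wz_nonneg _ (by positivity) (le_of_lt ht)
  have hp : 0 ≤ 2 * (2 / Real.exp 1) ^ (kT T) := by positivity
  calc ∫ t in Set.Ioi T, wz (kT T) X t ≤
        2 * (2 / Real.exp 1) ^ (kT T) * (2 * Real.log T) :=
        h4.trans (mul_le_mul_of_nonneg_left (h5.trans h3) hp)
    _ ≤ 2 * (2 / Real.exp 1) ^ (kT T) * (2 * kT T) := by gcongr
    _ = 4 * (kT T * (2 / Real.exp 1) ^ (kT T)) := by ring
    _ ≤ ε := by linarith

end

end Pool.Agent.R304.TL
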